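import Pool.Agent.Lib.ATQ.Tools

open scoped Manifold ContDiff Topology Matrix.Norms.Operator Matrix
open Set Filter

set_option linter.style.haveILetI false

noncomputable section

namespace Pool.Agent.Lib.ATQ

open Pool.Agent.Lib.MP_ad9325_ag

namespace T29

variable {X : Type} [TopologicalSpace X] [ChartedSpace ℂ X]

theorem tr_self (C : CD X) (a : Bool) (P : X) : C.tr a a P = 1 := by cases a <;> rfl

theorem D_left {F : Type} [NormedAddCommGroup F] [NormedSpace ℂ F] {f : SS X → F} {P Q : X}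
    (hf : MDifferentiableAt 𝓘(ℂ, BB) 𝓘(ℂ, F) f (SS.mk P Q)) (u : ℂ) :
    D 𝓘(ℂ, ℂ) 𝓘(ℂ, F) (fun P' => f (SS.mk P' Q)) P u = D 𝓘(ℂ, BB) 𝓘(ℂ, F) f (SS.mk P Q) (u, 0) := by
  have h1 : ContMDiffAt 𝓘(ℂ, ℂ) 𝓘(ℂ, BB) ω (fun P' : X => SS.mk P' Q) P :=
    cm_mk contMDiffAt_id contMDiffAt_const
  rw [D_comp (f := fun P' : X => SS.mk P' Q) hf (md h1), ContinuousLinearMap.comp_apply,
    D_mk (f := fun P' : X => P') mdifferentiableAt_id mdifferentiableAt_const, D_id, D_const]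
  rfl

theorem D_right {F : Type} [NormedAddCommGroup F] [NormedSpace ℂ F] {f : SS X → F} {P Q : X}
    (hf : MDifferentiableAt 𝓘(ℂ, BB) 𝓘(ℂ, F) f (SS.mk P Q)) (u : ℂ) :
    D 𝓘(ℂ, ℂ) 𝓘(ℂ, F) (fun Q' => f (SS.mk P Q')) Q u = D 𝓘(ℂ, BB) 𝓘(ℂ, F) f (SS.mk P Q) (0, u) := by
  have h1 : ContMDiffAt 𝓘(ℂ, ℂ) 𝓘(ℂ, BB) ω (fun Q' : X => SS.mk P Q') Q :=
    cm_mk contMDiffAt_const contMDiffAt_id
  rw [D_comp (f := fun Q' : X => SS.mk P Q') hf (md h1), ContinuousLinearMap.comp_apply,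
    D_mk (g := fun Q' : X => Q') mdifferentiableAt_const mdifferentiableAt_id, D_id, D_const]
  rfl

/-- The exchange of the factors. -/
def swp (p : SS X) : SS X := SS.mk p.2 p.1

theorem cm_swp (p : SS X) : ContMDiffAt 𝓘(ℂ, BB) 𝓘(ℂ, BB) ω (swp : SS X → SS X) p :=
  cm_mk (ss_snd p) (ss_fst p)

theorem D_swp (p : SS X) (u : BB) : D 𝓘(ℂ, BB) 𝓘(ℂ, BB) (swp : SS X → SS X) p u = (u.2, u.1) := by
  have h := D_mk (md (ss_snd p)) (md (ss_fst p)) u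
  rw [D_ss_fst, D_ss_snd] at h
  exact h

theorem clm_comp (hHOL : St_HOL) {V : Type} [NormedAddCommGroup V] [NormedSpace ℂ V]
    [FiniteDimensional ℂ V] {N : Type} [TopologicalSpace N] [ChartedSpace V N]
    [IsManifold 𝓘(ℂ, V) ω N] {F F' : Type} [NormedAddCommGroup F] [NormedSpace ℂ F]
    [NormedAddCommGroup F'] [NormedSpace ℂ F'] (L : F →L[ℂ] F') {θ : N → V →L[ℂ] F} {p : N}
    (h : HoloAt θ p) : HoloAt (fun q => L.comp (θ q)) p :=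
  (hHOL V N F θ p).2.2.2.1 (F →L[ℂ] F') F' (ContinuousLinearMap.id ℂ _) (fun _ => L)
    contMDiffAt_const h

/-- The exchanged connection. -/
def sA (A : Bool × Bool → SS X → BB →L[ℂ] Mt 6) (c : Bool × Bool) (p : SS X) : BB →L[ℂ] Mt 6 :=
  cjL.comp (pull swp (A (c.2, c.1)) p)

theorem sA_apply (A : Bool × Bool → SS X → BB →L[ℂ] Mt 6) (a b : Bool) (P Q : X) (u v : ℂ) :
    sA A (a, b) (SS.mk P Q) (u, v) = cj (A (b, a) (SS.mk Q P) (v, u)) := by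
  change cj (A (b, a) (SS.mk Q P) (D 𝓘(ℂ, BB) 𝓘(ℂ, BB) swp (SS.mk P Q) (u, v))) = _
  rw [D_swp]

theorem sA_conn (hHOL : St_HOL) (hCOC : St_COC) (C : CD X)
    {A : Bool × Bool → SS X → BB →L[ℂ] Mt 6} (hA : IsConn C.UU C.Γ6 A) :
    IsConn C.UU C.Γ6 (sA A) := by
  haveI := C.mfd
  haveI : IsManifold 𝓘(ℂ, BB) ω (SS X) := ss_mfd
  obtain ⟨-, hc6, -, hcomm, -⟩ := hCOC X C
  have hΓ : ∀ c d : Bool × Bool, C.Γ6 c d = fun p => cjL (C.Γ6 (c.2, c.1) (d.2, d.1) (swp p)) := by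
    intro c d
    funext p
    change cj (C.tr c.1 d.1 p.1) * C.tr c.2 d.2 p.2 =
      cj (cj (C.tr c.2 d.2 p.2) * C.tr c.1 d.1 p.1)
    rw [cj_mul, cj_cj, hcomm]
  refine ⟨fun c p hp => clm_comp hHOL cjL ?_, fun c d p hp u => ?_⟩
  · exact (hHOL BB (SS X) (Mt 6) (A (c.2, c.1)) (swp p)).2.2.2.2.2.2 BB (SS X) swp p rfl (cm_swp p)
      (hA.holo _ _ ⟨hp.2, hp.1⟩)
  · have hp' : swp p ∈ C.UU (c.2, c.1) ∩ C.UU (d.2, d.1) := ⟨⟨hp.1.2, hp.1.1⟩, ⟨hp.2.2, hp.2.1⟩⟩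
    have h1 := congrArg cj (hA.gauge (c.2, c.1) (d.2, d.1) (swp p) hp'
      (D 𝓘(ℂ, BB) 𝓘(ℂ, BB) swp p u))
    have h2 := md (hc6.holo _ _ _ hp')
    have h3 : mvfderiv 𝓘(ℂ, BB) (C.Γ6 c d) p u =
        cj (D 𝓘(ℂ, BB) 𝓘(ℂ, Mt 6) (C.Γ6 (c.2, c.1) (d.2, d.1)) (swp p)
          (D 𝓘(ℂ, BB) 𝓘(ℂ, BB) swp p u)) := by
      rw [mvfderiv_eq_D, hΓ c d, D_clm_comp cjL (f := fun p => C.Γ6 (c.2, c.1) (d.2, d.1) (swp p))
        (h2.comp p (md (cm_swp p))),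
        ContinuousLinearMap.comp_apply]
      exact congrArg (fun L : BB →L[ℂ] Mt 6 => cj (L u)) (D_comp h2 (md (cm_swp p)))
    rw [h3, hΓ c d]
    rw [cj_mul, ← cjL_apply (_ + _), map_add, cjL_apply, cjL_apply, cj_mul] at h1
    exact h1

theorem Γ_right (C : CD X) (a b b' : Bool) (p : SS X) : C.Γ6 (a, b) (a, b') p = C.tr b b' p.2 := by
  change cj (C.tr a a p.1) * C.tr b b' p.2 = _
  rw [tr_self, cj_one, one_mul]

/-- The component along the first factor is an endomorphism along the second. -/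
theorem endo (hSLC : St_SLC) (hEND : St_END) (hCOC : St_COC) (C : CD X)
    {A : Bool × Bool → SS X → BB →L[ℂ] Mt 6} (hA : IsConn C.UU C.Γ6 A) {P : X} (hP : P ≠ C.inf) :
    ∃ k₀ k₁ k₂ : ℂ, ∀ Q, Q ≠ C.inf → ∀ i,
      A (false, false) (SS.mk P Q) (1, 0) i 0 = ![k₀, 0, 0, 0, 0, 0] i ∧
      A (false, false) (SS.mk P Q) (1, 0) i 1 = ![k₁, k₂, 0, 0, 0, 0] i := by
  haveI := C.mfd
  obtain ⟨-, hc6, -⟩ := hCOC X C
  refine hEND X C (fun Q => A (false, false) (SS.mk P Q) (1, 0))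
    (fun Q => A (false, true) (SS.mk P Q) (1, 0)) (fun Q hQ i j => ?_) (fun i j => ?_)
    fun Q hQ hQ' => ?_
  · exact cm_ent (hSLC X (Mt 6) _ P Q (hA.holo (false, false) _ ⟨hP, hQ⟩) 1 0).2.1 i j
  · exact (cm_ent (hSLC X (Mt 6) _ P C.inf (hA.holo (false, true) _ ⟨hP, C.inf_mem⟩) 1 0).2.1
      i j).continuousAt
  · have hp : SS.mk P Q ∈ C.UU (false, false) ∩ C.UU (false, true) := ⟨⟨hP, hQ⟩, ⟨hP, hQ'⟩⟩
    have h1 := hA.gauge _ _ _ hp (1, 0)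
    rw [mvfderiv_eq_D, ← D_left (md (hc6.holo _ _ _ hp))] at h1
    simp only [Γ_right, SS.mk_snd] at h1
    rw [D_const] at h1
    exact h1.trans (add_zero _)

/-- The component along the second factor is a connection along the second factor. -/
theorem conn (hHOL : St_HOL) (hCON : St_CON) (hCOC : St_COC) (C : CD X)
    {A : Bool × Bool → SS X → BB →L[ℂ] Mt 6} (hA : IsConn C.UU C.Γ6 A) {P : X} (hP : P ≠ C.inf) :
    ¬ ∀ Q, Q ≠ C.inf → ∀ i, i ≠ 0 → A (false, false) (SS.mk P Q) (0, 1) i 0 = 0 := by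
  haveI := C.mfd
  haveI : IsManifold 𝓘(ℂ, BB) ω (SS X) := ss_mfd
  obtain ⟨-, hc6, -⟩ := hCOC X C
  have h1 : ∀ Q, ContMDiffAt 𝓘(ℂ, ℂ) 𝓘(ℂ, BB) ω (fun Q' : X => SS.mk P Q') Q := fun Q =>
    cm_mk contMDiffAt_const contMDiffAt_id
  have h2 : ∀ b Q u, pull (V' := ℂ) (fun Q' : X => SS.mk P Q') (A (false, b)) Q u =
      A (false, b) (SS.mk P Q) (0, u) := by
    intro b Q u
    change A (false, b) (SS.mk P Q) (D 𝓘(ℂ, ℂ) 𝓘(ℂ, BB) (fun Q' : X => SS.mk P Q') Q u) = _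
    rw [D_mk (g := fun Q' : X => Q') mdifferentiableAt_const mdifferentiableAt_id, D_id, D_const]
    rfl
  have h3 : IsConn C.U C.tr fun b => pull (V' := ℂ) (fun Q' : X => SS.mk P Q') (A (false, b)) := by
    refine ⟨fun b Q hQ => ?_, fun b b' Q hQ u => ?_⟩
    · exact (hHOL BB (SS X) (Mt 6) (A (false, b)) (SS.mk P Q)).2.2.2.2.2.2 ℂ X _ Q rfl (h1 Q)
        (hA.holo (false, b) _ ⟨hP, hQ⟩)
    · have hp : SS.mk P Q ∈ C.UU (false, b) ∩ C.UU (false, b') := ⟨⟨hP, hQ.1⟩, ⟨hP, hQ.2⟩⟩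
      have h4 := hA.gauge _ _ _ hp (0, u)
      rw [mvfderiv_eq_D, ← D_right (md (hc6.holo _ _ _ hp))] at h4
      simp only [Γ_right, SS.mk_snd] at h4
      rw [h2, h2]
      exact h4
  intro h
  exact hCON X C _ h3 fun Q hQ i hi => by rw [h2]; exact h Q hQ i hi

end T29

open T29 in
theorem st_ATI (hHOL : St_HOL) (hSLC : St_SLC) (hEND : St_END) (hCON : St_CON) (hCOC : St_COC) :
    St_ATI := by
  intro X _ _ C A hA hF
  haveI := C.mfd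
  haveI := C.t2
  have hB := sA_conn hHOL hCOC C hA
  choose! k₀ k₁ k₂ hk using fun P (hP : P ≠ C.inf) => endo hSLC hEND hCOC C hA hP
  choose! l₀ l₁ l₂ hl using fun P (hP : P ≠ C.inf) => endo hSLC hEND hCOC C hB hP
  simp only [sA_apply] at hl
  have hy : ∀ P Q, P ≠ C.inf → Q ≠ C.inf → ∀ i,
      A (false, false) (SS.mk P Q) (0, 1) i 0 = ![l₂ Q, l₁ Q, 0, 0, 0, 0] i := by
    intro P Q hP hQ i
    have h : A (false, false) (SS.mk P Q) (0, 1) (sw (sw i)) 0 = _ := (hl Q hQ P hP (sw i)).2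
    fin_cases i <;> exact h
  have hy' : ∀ P Q, P ≠ C.inf → Q ≠ C.inf → A (false, false) (SS.mk P Q) (0, 1) 0 1 = 0 :=
    fun P Q hP hQ => (hl Q hQ P hP 1).1
  have P₀ : C.pt (0, 1) ≠ C.inf := (C.pt_spec 0 1 (by simp)).1
  obtain ⟨Q, hQ, hr⟩ : ∃ Q, Q ≠ C.inf ∧ l₁ Q ≠ 0 := by
    by_contra hc
    push Not at hc
    refine conn hHOL hCON hCOC C hA P₀ fun Q hQ i hi => ?_
    rw [hy _ Q P₀ hQ, hc Q hQ]
    fin_cases i <;> first | rfl | exact absurd rfl hi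
  obtain ⟨P, hP, hr'⟩ : ∃ P, P ≠ C.inf ∧ k₁ P ≠ 0 := by
    by_contra hc
    push Not at hc
    refine conn hHOL hCON hCOC C hB P₀ fun P hP i hi => ?_
    rw [sA_apply]
    have h : cj (A (false, false) (SS.mk P (C.pt (0, 1))) (1, 0)) i 0 = _ :=
      (hk P hP _ P₀ (sw i)).2
    rw [h, hc P hP]
    fin_cases i <;> first | rfl | exact absurd rfl hi
  have hs := hSLC X (Mt 6) _ P Q (hA.holo (false, false) _ ⟨hP, hQ⟩) 1 1
  have hn : ∀ R : X, R ≠ C.inf → ∀ᶠ R' in 𝓝 R, R' ≠ C.inf := fun R hR =>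
    isOpen_compl_singleton.mem_nhds hR
  have d1 : D 𝓘(ℂ, ℂ) 𝓘(ℂ, Mt 6) (fun P' => A (false, false) (SS.mk P' Q) (0, 1)) P 1 0 0 = 0 := by
    rw [D_ent (md hs.1), D_congr (g := fun _ => l₂ Q)
      ((hn P hP).mono fun P' hP' => hy P' Q hP' hQ 0), D_const]
    rfl
  have d2 : D 𝓘(ℂ, ℂ) 𝓘(ℂ, Mt 6) (fun Q' => A (false, false) (SS.mk P Q') (1, 0)) Q 1 0 0 = 0 := by
    rw [D_ent (md hs.2.1), D_congr (g := fun _ => k₀ P)
      ((hn Q hQ).mono fun Q' hQ' => (hk P hP Q' hQ' 0).1), D_const]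
    rfl
  have h0 := congrFun (congrFun (hF (false, false) (SS.mk P Q) ⟨hP, hQ⟩ (1, 0) (0, 1)) 0) 0
  rw [Curv, hs.2.2, Matrix.add_apply, Matrix.sub_apply, Matrix.sub_apply, d1, d2,
    Matrix.mul_apply, Matrix.mul_apply] at h0
  simp only [hy P Q hP hQ, (hk P hP Q hQ _).1] at h0
  have e0 := (hk P hP Q hQ 0).1
  have e1 := (hk P hP Q hQ 0).2
  have e2 := hy P Q hP hQ 0
  simp [Fin.sum_univ_succ, e0, e1, e2, mul_comm, hr, hr'] at h0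

end Pool.Agent.Lib.ATQ
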