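import Pool.Agent.Lib.ATQ.Tools

/-! Project atq: the cocycles. -/

open scoped Manifold ContDiff Topology Matrix.Norms.Operator Matrix
open Set Filter

set_option linter.unusedSectionVars false

noncomputable section

namespace Pool.Agent.Lib.ATQ

open Pool.Agent.Lib.MP_ad9325_ag

namespace T11

/-- The common shape of the transition matrices. -/
def Sh (a b c d e f : ℂ) : Mt 6 :=
  !![1, 0, 0, 0, a, b; 0, 1, 0, 0, 0, c; 0, 0, 1, 0, 0, 0; 0, 0, 0, 1, 0, 0;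
    0, 0, 0, 0, d, e; 0, 0, 0, 0, 0, f]

theorem gY_eq (x y : ℂ) : gY x y = Sh (y / x ^ 2) 0 (y / x) (x ^ 2 / y) x (y / x ^ 2) := rfl

theorem gYi_eq (x y : ℂ) :
    gYi x y = Sh (-(y ^ 2 / x ^ 4)) (y / x) (-x) (y / x ^ 2) (-x) (x ^ 2 / y) := rfl

theorem one_eq : (1 : Mt 6) = Sh 0 0 0 1 0 1 := by
  ext i j; fin_cases i <;> fin_cases j <;> rfl

theorem cj_Sh (a b c d e f : ℂ) : cj (Sh a b c d e f) =
    !![1, 0, 0, c, 0, 0; 0, 1, a, b, 0, 0; 0, 0, d, e, 0, 0; 0, 0, 0, f, 0, 0;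
      0, 0, 0, 0, 1, 0; 0, 0, 0, 0, 0, 1] := by
  ext i j; fin_cases i <;> fin_cases j <;> simp [cj, Sh, sw]

theorem blk_Sh (a b c d e f : ℂ) : blk (Sh a b c d e f) = !![d, e; 0, f] := by
  ext i j; fin_cases i <;> fin_cases j <;> rfl

theorem Sh_mul (a b c d e f a' b' c' d' e' f' : ℂ) : Sh a b c d e f * Sh a' b' c' d' e' f' =
    Sh (a' + a * d') (b' + (a * e' + b * f')) (c' + c * f') (d * d') (d * e' + e * f') (f * f') := by
  ext i j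
  fin_cases i <;> fin_cases j <;> simp [Sh, Matrix.mul_apply, Fin.sum_univ_succ]

theorem Sh_comm (a b c d e f a' b' c' d' e' f' : ℂ) :
    cj (Sh a b c d e f) * Sh a' b' c' d' e' f' = Sh a' b' c' d' e' f' * cj (Sh a b c d e f) := by
  rw [cj_Sh]
  ext i j
  fin_cases i <;> fin_cases j <;> simp [Sh, Matrix.mul_apply, Fin.sum_univ_succ]

theorem blk_mul (a b c d e f a' b' c' d' e' f' : ℂ) :
    blk (Sh a b c d e f * Sh a' b' c' d' e' f') =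
      blk (Sh a b c d e f) * blk (Sh a' b' c' d' e' f') := by
  rw [Sh_mul, blk_Sh, blk_Sh, blk_Sh]
  ext i j
  fin_cases i <;> fin_cases j <;> simp [Matrix.mul_apply, Fin.sum_univ_succ]

theorem det_Sh (a b c d e f : ℂ) : (Sh a b c d e f).det = d * f := by
  rw [Matrix.det_of_isUpperTriangular]
  · simp [Sh, Fin.prod_univ_succ]
  · intro i j h
    fin_cases i <;> fin_cases j <;> first | exact absurd h (by decide) | simp [Sh]

theorem det_cj (A : Mt 6) : (cj A).det = A.det := Matrix.det_submatrix_equiv_self sw A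

theorem blk_one : blk (1 : Mt 6) = 1 := by
  ext i j; fin_cases i <;> fin_cases j <;> rfl

theorem gY_gYi {x y : ℂ} (hx : x ≠ 0) (hy : y ≠ 0) : gY x y * gYi x y = 1 := by
  rw [gY_eq, gYi_eq, Sh_mul, one_eq]
  congr 1 <;> field_simp <;> ring

theorem gYi_gY {x y : ℂ} (hx : x ≠ 0) (hy : y ≠ 0) : gYi x y * gY x y = 1 := by
  rw [gY_eq, gYi_eq, Sh_mul, one_eq]
  congr 1 <;> field_simp <;> ring

variable {X : Type} [TopologicalSpace X] [ChartedSpace ℂ X] (C : CD X)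

theorem tr_sh (a b : Bool) (P : X) : ∃ a' b' c d e f, C.tr a b P = Sh a' b' c d e f := by
  cases a <;> cases b
  · exact ⟨_, _, _, _, _, _, one_eq⟩
  · exact ⟨_, _, _, _, _, _, gY_eq _ _⟩
  · exact ⟨_, _, _, _, _, _, gYi_eq _ _⟩
  · exact ⟨_, _, _, _, _, _, one_eq⟩

theorem ne_of {P : X} (h0 : P ∈ C.U false) (h1 : P ∈ C.U true) : C.x P ≠ 0 ∧ C.y P ≠ 0 :=
  (C.ov P h0).1 h1

theorem tr_sh1 (a b : Bool) (P : X) (ha : P ∈ C.U a) (hb : P ∈ C.U b) :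
    ∃ a' b' c d e f, d * f = 1 ∧ C.tr a b P = Sh a' b' c d e f := by
  cases a <;> cases b
  · exact ⟨_, _, _, _, _, _, one_mul 1, one_eq⟩
  · obtain ⟨hx, hy⟩ := ne_of C ha hb
    exact ⟨_, _, _, _, _, _, by field_simp, gY_eq _ _⟩
  · obtain ⟨hx, hy⟩ := ne_of C hb ha
    exact ⟨_, _, _, _, _, _, by field_simp, gYi_eq _ _⟩
  · exact ⟨_, _, _, _, _, _, one_mul 1, one_eq⟩

theorem comm (a b c d : Bool) (P Q : X) :
    cj (C.tr a b P) * C.tr c d Q = C.tr c d Q * cj (C.tr a b P) := by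
  obtain ⟨_, _, _, _, _, _, h⟩ := tr_sh C a b P
  obtain ⟨_, _, _, _, _, _, h'⟩ := tr_sh C c d Q
  rw [h, h', Sh_comm]

theorem blk_tr (a b c d : Bool) (P Q : X) :
    blk (C.tr a b P * C.tr c d Q) = blk (C.tr a b P) * blk (C.tr c d Q) := by
  obtain ⟨_, _, _, _, _, _, h⟩ := tr_sh C a b P
  obtain ⟨_, _, _, _, _, _, h'⟩ := tr_sh C c d Q
  rw [h, h', blk_mul]

theorem opU (a : Bool) : IsOpen (C.U a) := by
  cases a
  · have := C.t2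
    exact isOpen_compl_singleton
  · exact C.op

theorem cov (P : X) : ∃ a, P ∈ C.U a := by
  by_cases h : P = C.inf
  · exact ⟨true, h ▸ C.inf_mem⟩
  · exact ⟨false, h⟩

theorem cm_Sh {a b c d e f : X → ℂ} {P : X} (ha : ContMDiffAt 𝓘(ℂ, ℂ) 𝓘(ℂ, ℂ) ω a P)
    (hb : ContMDiffAt 𝓘(ℂ, ℂ) 𝓘(ℂ, ℂ) ω b P) (hc : ContMDiffAt 𝓘(ℂ, ℂ) 𝓘(ℂ, ℂ) ω c P)
    (hd : ContMDiffAt 𝓘(ℂ, ℂ) 𝓘(ℂ, ℂ) ω d P) (he : ContMDiffAt 𝓘(ℂ, ℂ) 𝓘(ℂ, ℂ) ω e P)
    (hf : ContMDiffAt 𝓘(ℂ, ℂ) 𝓘(ℂ, ℂ) ω f P) :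
    ContMDiffAt 𝓘(ℂ, ℂ) 𝓘(ℂ, Mt 6) ω (fun q => Sh (a q) (b q) (c q) (d q) (e q) (f q)) P := by
  refine cm_mat fun i j => ?_
  fin_cases i <;> fin_cases j <;> simp only [Sh] <;> simp <;>
    first
      | exact contMDiffAt_const
      | assumption

theorem tr_holo (a b : Bool) (P : X) (ha : P ∈ C.U a) (hb : P ∈ C.U b) :
    ContMDiffAt 𝓘(ℂ, ℂ) 𝓘(ℂ, Mt 6) ω (C.tr a b) P := by
  cases a <;> cases b
  · exact contMDiffAt_const
  · obtain ⟨hx, hy⟩ := ne_of C ha hb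
    have h1 := C.hx P ha
    have h2 := C.hy P ha
    exact cm_Sh (cm_div h2 (cm_pow h1 2) (pow_ne_zero 2 hx)) contMDiffAt_const (cm_div h2 h1 hx)
      (cm_div (cm_pow h1 2) h2 hy) h1 (cm_div h2 (cm_pow h1 2) (pow_ne_zero 2 hx))
  · obtain ⟨hx, hy⟩ := ne_of C hb ha
    have h1 := C.hx P hb
    have h2 := C.hy P hb
    exact cm_Sh (cm_div (cm_pow h2 2) (cm_pow h1 4) (pow_ne_zero 4 hx)).neg (cm_div h2 h1 hx) h1.neg
      (cm_div h2 (cm_pow h1 2) (pow_ne_zero 2 hx)) h1.neg (cm_div (cm_pow h1 2) h2 hy)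
  · exact contMDiffAt_const

theorem tr_self (a : Bool) (P : X) : C.tr a a P = 1 := by cases a <;> rfl

theorem tr_comp (a b c : Bool) (P : X) (ha : P ∈ C.U a) (hb : P ∈ C.U b) :
    C.tr b c P * C.tr a b P = C.tr a c P := by
  cases a <;> cases b <;> cases c
  · exact one_mul _
  · exact mul_one _
  · exact gYi_gY (ne_of C ha hb).1 (ne_of C ha hb).2
  · exact one_mul _
  · exact one_mul _
  · exact gY_gYi (ne_of C hb ha).1 (ne_of C hb ha).2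
  · exact mul_one _
  · exact one_mul _

theorem opUU (c : Bool × Bool) : IsOpen (C.UU c) :=
  ((opU C c.1).preimage (ss_fst (X := X)).continuous).inter
    ((opU C c.2).preimage (ss_snd (X := X)).continuous)

theorem covUU (p : SS X) : ∃ c, p ∈ C.UU c := by
  obtain ⟨a, ha⟩ := cov C p.1
  obtain ⟨b, hb⟩ := cov C p.2
  exact ⟨(a, b), ha, hb⟩

theorem h1 (c d : Bool × Bool) (p : SS X) (hp : p ∈ C.UU c ∩ C.UU d) :
    ContMDiffAt 𝓘(ℂ, BB) 𝓘(ℂ, Mt 6) ω (fun q : SS X => C.tr c.1 d.1 q.1) p :=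
  (tr_holo C c.1 d.1 p.1 hp.1.1 hp.2.1).comp p (ss_fst p)

theorem h2 (c d : Bool × Bool) (p : SS X) (hp : p ∈ C.UU c ∩ C.UU d) :
    ContMDiffAt 𝓘(ℂ, BB) 𝓘(ℂ, Mt 6) ω (fun q : SS X => C.tr c.2 d.2 q.2) p :=
  (tr_holo C c.2 d.2 p.2 hp.1.2 hp.2.2).comp p (ss_snd p)

theorem holo6 (c d : Bool × Bool) (p : SS X) (hp : p ∈ C.UU c ∩ C.UU d) :
    ContMDiffAt 𝓘(ℂ, BB) 𝓘(ℂ, Mt 6) ω (C.Γ6 c d) p :=
  cm_mul ((cjL.contMDiff (n := ω) _).comp p (h1 C c d p hp)) (h2 C c d p hp)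

theorem self6 (c : Bool × Bool) (p : SS X) : C.Γ6 c c p = 1 := by
  rw [CD.Γ6, tr_self, tr_self, cj_one, one_mul]

theorem comp6 (c d e : Bool × Bool) (p : SS X) (hc : p ∈ C.UU c) (hd : p ∈ C.UU d) :
    C.Γ6 d e p * C.Γ6 c d p = C.Γ6 c e p := by
  rw [CD.Γ6, CD.Γ6, CD.Γ6, ← tr_comp C c.1 d.1 e.1 p.1 hc.1 hd.1,
    ← tr_comp C c.2 d.2 e.2 p.2 hc.2 hd.2, cj_mul, mul_assoc, mul_assoc,
    ← mul_assoc (C.tr d.2 e.2 p.2), ← comm, mul_assoc]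

end T11

open T11 in
theorem st_COC : St_COC := by
  intro X _ _ C
  refine ⟨⟨opU C, cov C, fun a b P h => tr_holo C a b P h.1 h.2, fun a P _ => tr_self C a P,
      fun a b c P h => tr_comp C a b c P h.1.1 h.1.2⟩,
    ⟨opUU C, covUU C, holo6 C, fun c p _ => self6 C c p,
      fun c d e p h => comp6 C c d e p h.1.1 h.1.2⟩,
    ⟨opUU C, covUU C, fun c d p hp => ?_, fun c p _ => ?_, fun c d e p h => ?_⟩, comm C,
    fun c d p hp => ?_⟩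
  · exact ((blkL.contMDiff (n := ω) _).comp p (h1 C c d p hp)).prodMk_space
      (((blkL.contMDiff (n := ω) _).comp p (h2 C c d p hp)).prodMk_space (holo6 C c d p hp))
  · rw [CD.Γ3, tr_self, tr_self, self6, blk_one]; rfl
  · refine Prod.ext ?_ (Prod.ext ?_ (comp6 C c d e p h.1.1 h.1.2))
    · show blk _ * blk _ = blk _
      rw [← blk_tr, tr_comp C c.1 d.1 e.1 p.1 h.1.1.1 h.1.2.1]
    · show blk _ * blk _ = blk _
      rw [← blk_tr, tr_comp C c.2 d.2 e.2 p.2 h.1.1.2 h.1.2.2]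
  · obtain ⟨_, _, _, _, _, _, e1, h⟩ := tr_sh1 C c.1 d.1 p.1 hp.1.1 hp.2.1
    obtain ⟨_, _, _, _, _, _, e2, h'⟩ := tr_sh1 C c.2 d.2 p.2 hp.1.2 hp.2.2
    simp only [CD.Γ3, CD.Γ6, h, h', blk_Sh, Matrix.det_mul, det_cj, det_Sh, e1, e2]
    simp [Matrix.det_fin_two, e1, e2]

end Pool.Agent.Lib.ATQ
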