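import Pool.Agent.Lib.ATQ.Tools

/-! No connection on the bundle on the curve preserves the first line. -/

open scoped Manifold ContDiff Topology Matrix.Norms.Operator Matrix
open Set Filter

noncomputable section

namespace Pool.Agent.Lib.ATQ

open Pool.Agent.Lib.MP_ad9325_ag

namespace T48

theorem con_cd {x y : ℂ} (hx : x ≠ 0) (hy : y ≠ 0) :
    ContDiffAt ℂ ω (fun z : ℂ × ℂ => gY z.1 z.2) (x, y) := by
  have h2 : x ^ 2 ≠ 0 := pow_ne_zero 2 hx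
  refine cd_mat fun i j => ?_
  fin_cases i <;> fin_cases j <;> simp [gY] <;> fun_prop (disch := assumption)

theorem con_alg {x y d : ℂ} {A B G : Mt 6} (h : gY x y * A = B * gY x y + G)
    (h0 : ∀ i, i ≠ 0 → A i 0 = 0) (g0 : ∀ i, G i 0 = 0) (g1 : G 1 4 = 0) (g4 : G 4 4 = d)
    (hx : x ≠ 0) (hy : y ≠ 0) :
    x ^ 2 / y * (A 4 4 - A 1 4) = x ^ 2 / y * (B 4 4 - x ^ 2 / y * B 1 4) + d := by
  have a1 := h0 1 (by decide)
  have a4 := h0 4 (by decide)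
  have a5 := h0 5 (by decide)
  have b1 := congrFun (congrFun h 1) 0
  have b4 := congrFun (congrFun h 4) 0
  have c1 := congrFun (congrFun h 1) 4
  have c4 := congrFun (congrFun h 4) 4
  simp [gY, Matrix.mul_apply, Fin.sum_univ_succ, g0, g1, g4, a1, a4, a5] at b1 b4 c1 c4
  rw [← b1] at c1
  rw [← b4] at c4
  have e : x ^ 2 / y * (y / x) = x := by field_simp
  linear_combination c4 - x ^ 2 / y * c1 + A 5 4 * e

theorem con_fin {x y e p q r s : ℂ} (hx : x ≠ 0) (hy : y ≠ 0) (he : e ≠ 0) (h3 : y ^ 2 = x ^ 5 + 1)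
    (h : x ^ 2 / y * (p - q) = x ^ 2 / y * (r - x ^ 2 / y * s) +
      (2 * x - 5 / 2 * x ^ 6 / y ^ 2) * ((x ^ 2 / y) ^ 2 * e)) :
    e⁻¹ * r - x ^ 2 / y * (e⁻¹ * s) + 5 / 2 * (x ^ 2 / y) ^ 9 / (x ^ 5 / y ^ 2) ^ 3 =
      (x ^ 2 / y) ^ 2 * (((x ^ 2 / y) ^ 2 * e)⁻¹ * p - ((x ^ 2 / y) ^ 2 * e)⁻¹ * q -
        -(1 / 2) * (y / x)) := by
  have ht : x ^ 2 / y ≠ 0 := div_ne_zero (pow_ne_zero 2 hx) hy
  have h1 : p - q = r - x ^ 2 / y * s + (2 * x - 5 / 2 * x ^ 6 / y ^ 2) * (x ^ 2 / y * e) :=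
    mul_left_cancel₀ ht (by linear_combination h)
  have h2 : (2 * x - 5 / 2 * x ^ 6 / y ^ 2) * (x ^ 2 / y) + (x ^ 2 / y) ^ 2 * (1 / 2 * (y / x)) =
      5 / 2 * (x ^ 2 / y) ^ 9 / (x ^ 5 / y ^ 2) ^ 3 := by
    field_simp
    linear_combination 5 * h3
  have h4 : (x ^ 2 / y) ^ 2 * ((x ^ 2 / y) ^ 2 * e)⁻¹ = e⁻¹ := by field_simp
  have h5 : e⁻¹ * e = 1 := inv_mul_cancel₀ he
  rw [← h2]
  linear_combination -e⁻¹ * h1 - (p - q) * h4 -
    (2 * x - 5 / 2 * x ^ 6 / y ^ 2) * (x ^ 2 / y) * h5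

end T48

open T48

theorem st_CON (hFT : St_FT) (hETA : St_ETA) (hS : St_SELF) : St_CON := by
  intro X _ _ C a ha h0
  haveI := C.mfd
  haveI := C.t2
  have hE := hETA X C
  have r0 : ∀ P, P ≠ C.inf → ∀ i j, ContMDiffAt 𝓘(ℂ, ℂ) 𝓘(ℂ, ℂ) ω
      (fun Q => ((C.η false Q 1)⁻¹ • a false Q 1) i j) P := fun P hP =>
    cm_ent (hS.2 X _ (a false) (C.η false) P (ha.holo false P hP) (hE.holo false P hP)
      (hE.ne false P hP))
  have r1 : ∀ i j, ContinuousAt (fun Q => ((C.η true Q 1)⁻¹ • a true Q 1) i j) C.inf := fun i j =>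
    (cm_ent (hS.2 X _ (a true) (C.η true) _ (ha.holo true _ C.inf_mem) (hE.holo true _ C.inf_mem)
      (hE.ne true _ C.inf_mem)) i j).continuousAt
  have ct := (C.ht _ C.inf_mem).continuousAt
  have cx := (C.hξ _ C.inf_mem).continuousAt
  have key := (hFT X C).two
    (fun Q => ((C.η false Q 1)⁻¹ • a false Q 1) 4 4 - ((C.η false Q 1)⁻¹ • a false Q 1) 1 4)
    (fun Q => ((C.η true Q 1)⁻¹ • a true Q 1) 4 4 - C.t Q * ((C.η true Q 1)⁻¹ • a true Q 1) 1 4 +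
      5 / 2 * C.t Q ^ 9 / C.ξ Q ^ 3) (-(1 / 2)) (fun P hP => (r0 P hP 4 4).sub (r0 P hP 1 4))
    (((r1 4 4).sub (ct.mul (r1 1 4))).add ((continuousAt_const.mul (ct.pow 9)).div (cx.pow 3)
      (pow_ne_zero 3 (hE.ξ_ne _ C.inf_mem)))) fun P hP hP1 => by
      obtain ⟨hx, hy⟩ := (C.ov P hP).1 hP1
      obtain ⟨ht, hξ⟩ := C.tx P hP hP1
      have hg := ha.gauge false true P ⟨hP, hP1⟩ 1
      rw [mvfderiv_eq_D] at hg
      have hm : MDifferentiableAt 𝓘(ℂ, ℂ) 𝓘(ℂ, Mt 6) (C.tr false true) P :=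
        md (cm_two (g := fun z : ℂ × ℂ => gY z.1 z.2) (C.hx P hP) (C.hy P hP) (con_cd hx hy))
      have hc : ∀ i j (c : ℂ), (∀ Q, C.tr false true Q i j = c) →
          D 𝓘(ℂ, ℂ) 𝓘(ℂ, Mt 6) (C.tr false true) P 1 i j = 0 := fun i j c h => by
        rw [D_ent hm, funext h, D_const]; rfl
      have h44 : (fun Q => C.tr false true Q 4 4) =ᶠ[𝓝 P] C.t := by
        filter_upwards [isOpen_compl_singleton.mem_nhds hP, C.op.mem_nhds hP1] with Q h1 h2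
        exact (C.tx Q h1 h2).1.symm
      have h := con_alg hg (h0 P hP)
        (fun i => hc i 0 ((1 : Mt 6) i 0) fun Q => by fin_cases i <;> rfl)
        (hc 1 4 0 fun Q => rfl) ((D_ent hm 1 4 4).trans (by rw [D_congr h44, hE.dt P hP hP1])) hx hy
      have e2 := hE.ov P hP hP1 1
      simp only [Matrix.smul_apply, smul_eq_mul]
      rw [← e2, ht] at h
      rw [← e2, ht, hξ]
      exact con_fin hx hy (hE.ne true P hP1) (C.eq0 P hP) h
  norm_num at key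

end Pool.Agent.Lib.ATQ
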