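import Pool.Agent.Lib.ATQ.Tools
import Pool.Agent.Lib.AD7.Mfd

open scoped Manifold ContDiff Topology Matrix.Norms.Operator Matrix
open Set Filter

noncomputable section

namespace Pool.Agent.Lib.ATQ

open Pool.Agent.Lib.MP_ad9325_ag Pool.Agent.Lib.AD7

theorem st_CUR : St_CUR := by
  have c1 : ∀ {f : Crv → ℂ × ℂ} {P}, ContMDiffAt 𝓘(ℂ, ℂ) 𝓘(ℂ, ℂ × ℂ) ω f P →
      ContMDiffAt 𝓘(ℂ, ℂ) 𝓘(ℂ, ℂ) ω (fun Q => (f Q).1) P := fun h =>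
    ((ContinuousLinearMap.fst ℂ ℂ ℂ).contMDiff _).comp _ h
  have c2 : ∀ {f : Crv → ℂ × ℂ} {P}, ContMDiffAt 𝓘(ℂ, ℂ) 𝓘(ℂ, ℂ × ℂ) ω f P →
      ContMDiffAt 𝓘(ℂ, ℂ) 𝓘(ℂ, ℂ) ω (fun Q => (f Q).2) P := fun h =>
    ((ContinuousLinearMap.snd ℂ ℂ ℂ).contMDiff _).comp _ h
  have d1 : ∀ {f : Crv → ℂ × ℂ} {P}, ContMDiffAt 𝓘(ℂ, ℂ) 𝓘(ℂ, ℂ × ℂ) ω f P →
      D 𝓘(ℂ, ℂ) 𝓘(ℂ, ℂ) (fun Q => (f Q).1) P 1 = (D 𝓘(ℂ, ℂ) 𝓘(ℂ, ℂ × ℂ) f P 1).1 := fun h =>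
    congrArg (fun L : ℂ →L[ℂ] ℂ => L 1) (D_clm_comp (ContinuousLinearMap.fst ℂ ℂ ℂ) (md h))
  have d2 : ∀ {f : Crv → ℂ × ℂ} {P}, ContMDiffAt 𝓘(ℂ, ℂ) 𝓘(ℂ, ℂ × ℂ) ω f P →
      D 𝓘(ℂ, ℂ) 𝓘(ℂ, ℂ) (fun Q => (f Q).2) P 1 = (D 𝓘(ℂ, ℂ) 𝓘(ℂ, ℂ × ℂ) f P 1).2 := fun h =>
    congrArg (fun L : ℂ →L[ℂ] ℂ => L 1) (D_clm_comp (ContinuousLinearMap.snd ℂ ℂ ℂ) (md h))
  refine ⟨Crv, inferInstance, inferInstance, ⟨{
    inf := inf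
    x := fun P => (xy P).1
    y := fun P => (xy P).2
    t := fun P => (tw P).1
    ξ := fun P => (1 + (tw P).2 ^ 5)⁻¹
    U1 := U1
    pt := pt
    mfd := inferInstance
    t2 := inferInstance
    cpt := inferInstance
    conn := inferInstance
    op := isOpen_U1
    inf_mem := inf_mem
    hx := fun P h => c1 (contMDiffAt_xy h)
    hy := fun P h => c2 (contMDiffAt_xy h)
    ht := fun P h => c1 (contMDiffAt_tw h)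
    hξ := fun P h =>
      cm_inv (contMDiffAt_const.add (cm_pow (c2 (contMDiffAt_tw h)) 5)) (one_add_ne h)
    eq0 := fun P h => Q0_iff.mp (Q0_xy h)
    ov := fun P h => mem_U1 h
    tx := fun P h h1 => ⟨rfl, ?_⟩
    t_inf := by simp
    ξ_inf := by simp
    imm0 := fun P h h1 h2 => one_ne_zero ((injective_iff_map_eq_zero _).mp (dxy_inj h) 1
      (Prod.ext ((d1 (contMDiffAt_xy h)).symm.trans h1) ((d2 (contMDiffAt_xy h)).symm.trans h2)))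
    imm1 := fun h => one_ne_zero (eta1_eq_zero inf_mem ?_)
    pt_spec := fun a b h => ⟨pt_mem (Q0_iff.mpr h), congrArg Prod.fst (xy_pt (Q0_iff.mpr h)),
      congrArg Prod.snd (xy_pt (Q0_iff.mpr h))⟩
    pt_xy := fun P h => pt_xy h
    pt_holo := fun γ z h h1 => contMDiffAt_pt h.contMDiffAt (h1.mono fun _ h2 => Q0_iff.mpr h2)
    pt_inf := fun O hO => ?_ }⟩⟩
  · obtain ⟨h2, h3⟩ := (mem_U1 h).mp h1
    rw [Q0_iff.mp (Q0_xy h)]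
    simp only [tw, tau]
    field_simp
  · have h1 : (dtw inf 1).1 = 0 := (d1 (contMDiffAt_tw inf_mem)).symm.trans h
    simp [eta1, h1]
  · obtain ⟨s, ⟨-, hs⟩, h⟩ := OnePoint.hasBasis_nhds_infty.mem_iff.mp hO
    obtain ⟨R, hR⟩ :=
      (hs.image (f := fun p : AD7.C0 => p.1.1) (by fun_prop)).isBounded.exists_norm_le
    refine ⟨R + 1, fun a b h1 h2 => h (Or.inl ⟨⟨(a, b), Q0_iff.mpr h1⟩, fun h3 => ?_,
      (pt_eq _).symm⟩)⟩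
    have h4 : ‖a‖ ≤ R := hR _ ⟨_, h3, rfl⟩
    linarith

end Pool.Agent.Lib.ATQ
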