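import Pool.Agent.Lib.ATQ.Tools

/-! Project atq: rules for the exterior derivative. -/

open scoped Manifold ContDiff Topology Matrix.Norms.Operator Matrix
open Set Filter

noncomputable section

namespace Pool.Agent.Lib.ATQ

open Pool.Agent.Lib.MP_ad9325_ag

namespace T12

variable {V : Type} [NormedAddCommGroup V] [NormedSpace ℂ V]
  {N : Type} [TopologicalSpace N] [ChartedSpace V N] [IsManifold 𝓘(ℂ, V) ω N]
  {F : Type} [NormedAddCommGroup F] [NormedSpace ℂ F]

theorem df_symm_cm (p : N) {z : V} (hz : z ∈ (chartAt V p).target) :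
    ContMDiffAt 𝓘(ℂ, V) 𝓘(ℂ, V) ω (chartAt V p).symm z :=
  contMDiffAt_symm_of_mem_maximalAtlas (IsManifold.chart_mem_maximalAtlas p) hz

theorem df_symm_id (p : N) : D 𝓘(ℂ, V) 𝓘(ℂ, V) (chartAt V p).symm (chartAt V p p) =
    ContinuousLinearMap.id ℂ V := by
  have h1 : (D 𝓘(ℂ, V) 𝓘(ℂ, V) (chartAt V p) ((chartAt V p).symm (chartAt V p p))).comp
      (D 𝓘(ℂ, V) 𝓘(ℂ, V) (chartAt V p).symm (chartAt V p p)) = ContinuousLinearMap.id ℂ V :=
    (mdifferentiable_chart (I := 𝓘(ℂ, V)) p).comp_symm_deriv (mem_chart_target V p)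
  have h2 : D 𝓘(ℂ, V) 𝓘(ℂ, V) (chartAt V p) p = ContinuousLinearMap.id ℂ V :=
    (mfderiv_chartAt_eq_tangentCoordChange (mem_chart_source V p)).trans
      (ContinuousLinearMap.ext fun v => tangentCoordChange_self (mem_extChartAt_source p))
  rwa [(chartAt V p).left_inv (mem_chart_source V p), h2, ContinuousLinearMap.id_comp] at h1

theorem df_formIn (θ : N → V →L[ℂ] F) (p : N) (v : V) : formIn θ p v (chartAt V p p) = θ p v := by
  change θ _ (D 𝓘(ℂ, V) 𝓘(ℂ, V) (chartAt V p).symm (chartAt V p p) v) = _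
  rw [df_symm_id, (chartAt V p).left_inv (mem_chart_source V p)]
  rfl

theorem df_comp {f : N → F} {p : N} (hf : ContMDiffAt 𝓘(ℂ, V) 𝓘(ℂ, F) ω f p) :
    ContDiffAt ℂ ω (fun z => f ((chartAt V p).symm z)) (chartAt V p p) :=
  contMDiffAt_iff_contDiffAt.1 (hf.comp_of_eq (df_symm_cm p (mem_chart_target V p))
    ((chartAt V p).left_inv (mem_chart_source V p)))

theorem df_D {f : N → F} {p : N} (hf : ContMDiffAt 𝓘(ℂ, V) 𝓘(ℂ, F) ω f p) :
    fderiv ℂ (fun z => f ((chartAt V p).symm z)) (chartAt V p p) = D 𝓘(ℂ, V) 𝓘(ℂ, F) f p := by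
  rw [← D_eq_fderiv, D_comp_of_eq (md hf) (md (df_symm_cm p (mem_chart_target V p)))
    ((chartAt V p).left_inv (mem_chart_source V p)), df_symm_id, ContinuousLinearMap.comp_id]

theorem df_ev {f : N → F} {p : N} (hf : ContMDiffAt 𝓘(ℂ, V) 𝓘(ℂ, F) ω f p) (v : V) :
    formIn (D 𝓘(ℂ, V) 𝓘(ℂ, F) f) p v =ᶠ[𝓝 (chartAt V p p)]
      fun z => fderiv ℂ (fun z => f ((chartAt V p).symm z)) z v := by
  have h1 := (contMDiffAt_iff_contMDiffAt_nhds (by simp)).1 hf
  have h2 : Tendsto (chartAt V p).symm (𝓝 (chartAt V p p)) (𝓝 p) :=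
    (chartAt V p).tendsto_symm (mem_chart_source V p)
  filter_upwards [h2.eventually h1, chart_target_mem_nhds V p] with z hz hz'
  rw [← D_eq_fderiv, D_comp (md hz) (md (df_symm_cm p hz'))]
  rfl

end T12

open T12 in
theorem st_DF : St_DF := by
  intro V _ _ _ N _ _ _ F _ _ _ θ p hθ
  have hd : ∀ {θ : N → V →L[ℂ] F}, HoloAt θ p → ∀ v,
      DifferentiableAt ℂ (formIn θ p v) (chartAt V p p) := fun h v =>
    (h v).differentiableAt (by simp)
  refine ⟨?_, fun θ' hθ' u v => ?_, fun f hf u v => ?_, fun F₁ _ _ F₂ _ _ B f hf u v => ?_⟩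
  · let L : V →ₗ[ℂ] V →L[ℂ] F :=
      { toFun := fun v => fderiv ℂ (formIn θ p v) (chartAt V p p)
        map_add' := fun v w => by
          rw [← fderiv_add (hd hθ v) (hd hθ w)]
          congr 1
          funext z
          exact map_add ((θ _).comp (D 𝓘(ℂ, V) 𝓘(ℂ, V) (chartAt V p).symm z)) v w
        map_smul' := fun c v => by
          rw [RingHom.id_apply, ← fderiv_const_smul (hd hθ v)]
          congr 1
          funext z
          exact map_smul ((θ _).comp (D 𝓘(ℂ, V) 𝓘(ℂ, V) (chartAt V p).symm z)) c v }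
    exact ⟨(LinearMap.toContinuousLinearMap L).flip, fun u v => rfl⟩
  · have e : ∀ w, formIn (fun q => θ q + θ' q) p w = formIn θ p w + formIn θ' p w := fun w => rfl
    simp only [dF, e, fderiv_add (hd hθ _) (hd hθ' _), add_apply]
    abel
  · have h1 := df_comp hf
    have h2 : DifferentiableAt ℂ (fderiv ℂ fun z => f ((chartAt V p).symm z)) (chartAt V p p) :=
      (h1.fderiv_right (m := ω) (by simp)).differentiableAt (by simp)
    have h3 : ∀ a b : V, fderiv ℂ (formIn (D 𝓘(ℂ, V) 𝓘(ℂ, F) f) p b) (chartAt V p p) a =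
        fderiv ℂ (fderiv ℂ fun z => f ((chartAt V p).symm z)) (chartAt V p p) a b := fun a b => by
      rw [(df_ev hf b).fderiv_eq, fderiv_clm_apply h2 (differentiableAt_const b)]
      simp
    rw [dF, h3, h3, h1.isSymmSndFDerivAt_of_omega.eq, sub_self]
  · have h3 : ∀ a b : V, fderiv ℂ (formIn (fun q => (B (f q)).comp (θ q)) p b) (chartAt V p p) a =
        B (D 𝓘(ℂ, V) 𝓘(ℂ, F₁) f p a) (θ p b) +
          B (f p) (fderiv ℂ (formIn θ p b) (chartAt V p p) a) := fun a b => by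
      have h := D_bil B (md (df_comp hf).contMDiffAt) (hd hθ b).mdifferentiableAt a
      rw [D_eq_fderiv, D_eq_fderiv, D_eq_fderiv, df_D hf, df_formIn,
        (chartAt V p).left_inv (mem_chart_source V p)] at h
      exact h
    rw [dF, h3, h3, dF, map_sub]
    abel

end Pool.Agent.Lib.ATQ
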