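import Pool.Agent.Lib.ATQ.Tools

open scoped Manifold ContDiff Topology Matrix.Norms.Operator Matrix
open Set Filter

noncomputable section

namespace Pool.Agent.Lib.ATQ

open Pool.Agent.Lib.MP_ad9325_ag

namespace T7

/-- the common shape of the transition matrices -/
def sh (k a b c d e f : ℂ) : Mt 6 :=
  !![k, 0, 0, 0, a, b; 0, k, 0, 0, 0, c; 0, 0, k, 0, 0, 0; 0, 0, 0, k, 0, 0;
    0, 0, 0, 0, d, e; 0, 0, 0, 0, 0, f]

def IsSh (A : Mt 6) : Prop := ∃ k a b c d e f, A = sh k a b c d e f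

theorem sh_mul (k a b c d e f k' a' b' c' d' e' f' : ℂ) :
    sh k a b c d e f * sh k' a' b' c' d' e' f' = sh (k * k') (k * a' + a * d')
      (k * b' + a * e' + b * f') (k * c' + c * f') (d * d') (d * e' + e * f') (f * f') := by
  ext i j
  fin_cases i <;> fin_cases j <;> simp [sh, Matrix.mul_apply, Fin.sum_univ_succ, add_assoc]

theorem smul_sh (l k a b c d e f : ℂ) :
    l • sh k a b c d e f = sh (l * k) (l * a) (l * b) (l * c) (l * d) (l * e) (l * f) := by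
  ext i j
  fin_cases i <;> fin_cases j <;> simp [sh]

theorem one_sh : (1 : Mt 6) = sh 1 0 0 0 1 0 1 := by
  ext i j
  fin_cases i <;> fin_cases j <;> simp [sh]

theorem sh_comm {A B : Mt 6} (hA : IsSh A) (hB : IsSh B) : A * cj B = cj B * A := by
  obtain ⟨k, a, b, c, d, e, f, rfl⟩ := hA
  obtain ⟨k', a', b', c', d', e', f', rfl⟩ := hB
  ext i j
  fin_cases i <;> fin_cases j <;>
    simp [sh, cj, sw, Matrix.mul_apply, Fin.sum_univ_succ, mul_comm]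

theorem cm_sh {N : Type} [TopologicalSpace N] [ChartedSpace ℂ N] {p : N} {k a b c d e f : N → ℂ}
    (hk : ContMDiffAt 𝓘(ℂ, ℂ) 𝓘(ℂ, ℂ) ω k p) (ha : ContMDiffAt 𝓘(ℂ, ℂ) 𝓘(ℂ, ℂ) ω a p)
    (hb : ContMDiffAt 𝓘(ℂ, ℂ) 𝓘(ℂ, ℂ) ω b p) (hc : ContMDiffAt 𝓘(ℂ, ℂ) 𝓘(ℂ, ℂ) ω c p)
    (hd : ContMDiffAt 𝓘(ℂ, ℂ) 𝓘(ℂ, ℂ) ω d p) (he : ContMDiffAt 𝓘(ℂ, ℂ) 𝓘(ℂ, ℂ) ω e p)
    (hf : ContMDiffAt 𝓘(ℂ, ℂ) 𝓘(ℂ, ℂ) ω f p) :
    ContMDiffAt 𝓘(ℂ, ℂ) 𝓘(ℂ, Mt 6) ω
      (fun q => sh (k q) (a q) (b q) (c q) (d q) (e q) (f q)) p := by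
  refine cm_mat fun i j => ?_
  fin_cases i <;> fin_cases j <;> simp only [sh] <;> first
    | exact contMDiffAt_const | exact hk | exact ha | exact hb | exact hc | exact hd | exact he
    | exact hf

variable {X : Type} [TopologicalSpace X] [ChartedSpace ℂ X] (C : CD X)

/-- twisted frames on the curve -/
def jj : Bool → Bool → X → Mt 6
  | false, false => fun _ => sh 1 0 0 0 1 0 1
  | false, true => fun P => sh (C.x P ^ 2 * C.y P ^ 2) (C.y P ^ 3) 0 (C.x P * C.y P ^ 3)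
      (C.x P ^ 4 * C.y P) (C.x P ^ 3 * C.y P ^ 2) (C.y P ^ 3)
  | true, false => fun P => sh (C.t P ^ 14) (-1 * C.t P ^ 12) (C.ξ P * C.t P ^ 11)
      (-1 * (C.ξ P * C.t P ^ 12)) (C.t P ^ 13) (-1 * (C.ξ P * C.t P ^ 12)) (C.t P ^ 15)
  | true, true => fun P => sh (C.ξ P ^ 6) 0 0 0 (C.ξ P ^ 6) 0 (C.ξ P ^ 6)

/-- the diagonal scalars -/
def dd : Bool → X → ℂ
  | false => fun _ => 1
  | true => fun P => C.ξ P ^ 6

theorem jj_sh (a e : Bool) (P : X) : IsSh (jj C a e P) := by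
  cases a <;> cases e <;> exact ⟨_, _, _, _, _, _, _, rfl⟩

theorem tr_sh (a b : Bool) (P : X) : IsSh (C.tr a b P) := by
  cases a <;> cases b <;> first | exact ⟨_, _, _, _, _, _, _, one_sh⟩ | exact ⟨_, _, _, _, _, _, _, rfl⟩

theorem jj_self (a : Bool) (P : X) : jj C a a P = dd C a P • (1 : Mt 6) := by
  cases a <;> simp [jj, dd, one_sh, smul_sh]

theorem dd_ne {a : Bool} {P : X} (h : P ∈ C.U a) : dd C a P ≠ 0 := by
  cases a
  · exact one_ne_zero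
  · refine pow_ne_zero 6 ?_
    by_cases h0 : P = C.inf
    · rw [h0, C.ξ_inf]; exact one_ne_zero
    · obtain ⟨h1, h2⟩ := (C.ov P h0).mp h
      rw [(C.tx P h0 h).2]
      exact div_ne_zero (pow_ne_zero _ h1) (pow_ne_zero _ h2)

theorem cm_dd {a : Bool} {P : X} (h : P ∈ C.U a) : ContMDiffAt 𝓘(ℂ, ℂ) 𝓘(ℂ, ℂ) ω (dd C a) P := by
  cases a
  exacts [contMDiffAt_const, cm_pow (C.hξ P h) 6]

theorem cm_jj {a : Bool} (e : Bool) {P : X} (h : P ∈ C.U a) :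
    ContMDiffAt 𝓘(ℂ, ℂ) 𝓘(ℂ, Mt 6) ω (jj C a e) P := by
  cases a <;> cases e
  · exact contMDiffAt_const
  · have hx := C.hx P h
    have hy := C.hy P h
    exact cm_sh (cm_mul (cm_pow hx _) (cm_pow hy _)) (cm_pow hy _) contMDiffAt_const
      (cm_mul hx (cm_pow hy _)) (cm_mul (cm_pow hx _) hy) (cm_mul (cm_pow hx _) (cm_pow hy _))
      (cm_pow hy _)
  · have ht := C.ht P h
    have hξ := C.hξ P h
    exact cm_sh (cm_pow ht _) (cm_mul contMDiffAt_const (cm_pow ht _)) (cm_mul hξ (cm_pow ht _))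
      (cm_mul contMDiffAt_const (cm_mul hξ (cm_pow ht _))) (cm_pow ht _)
      (cm_mul contMDiffAt_const (cm_mul hξ (cm_pow ht _))) (cm_pow ht _)
  · have hξ := cm_pow (C.hξ P h) 6
    exact cm_sh hξ contMDiffAt_const contMDiffAt_const contMDiffAt_const hξ contMDiffAt_const hξ

theorem jj_tr {a b : Bool} {P : X} (ha : P ∈ C.U a) (hb : P ∈ C.U b) :
    ∃ l : ℂ, l ≠ 0 ∧ ∀ e, jj C b e P * C.tr a b P = l • jj C a e P := by
  cases a <;> cases b
  · exact ⟨1, one_ne_zero, fun e => by rw [one_smul]; exact mul_one _⟩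
  · obtain ⟨h1, h2⟩ := (C.ov P ha).mp hb
    obtain ⟨h3, h4⟩ := C.tx P ha hb
    refine ⟨C.t P ^ 14, pow_ne_zero _ (h3 ▸ div_ne_zero (pow_ne_zero _ h1) h2), fun e => ?_⟩
    change _ * sh _ _ _ _ _ _ _ = _
    cases e <;> simp only [jj, sh_mul, smul_sh, h3, h4] <;> congr 1 <;> field_simp <;> ring
  · obtain ⟨h1, h2⟩ := (C.ov P hb).mp ha
    obtain ⟨h3, h4⟩ := C.tx P hb ha
    refine ⟨(C.t P ^ 14)⁻¹, inv_ne_zero (pow_ne_zero _ (h3 ▸ div_ne_zero (pow_ne_zero _ h1) h2)),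
      fun e => ?_⟩
    change _ * sh _ _ _ _ _ _ _ = _
    cases e <;> simp only [jj, sh_mul, smul_sh, h3, h4] <;> congr 1 <;> field_simp <;> ring
  · exact ⟨1, one_ne_zero, fun e => by rw [one_smul]; exact mul_one _⟩

/-- the blocks on the square -/
def JJ (c e : Bool × Bool) (p : SS X) : Mt 6 := cj (jj C c.1 e.1 p.1) * jj C c.2 e.2 p.2

theorem cj_smul (l : ℂ) (A : Mt 6) : cj (l • A) = l • cj A := rfl

end T7

open T7 in
theorem st_EMB : St_EMB := by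
  intro X _ _ C
  refine ⟨fun c p r k => JJ C c r.1 p r.2 k,
    fun c p i r => if r = (c, i) then (dd C c.1 p.1 * dd C c.2 p.2)⁻¹ else 0,
    fun c p hp r k => ?_, fun c p hp i r => ?_, fun c p hp => ?_, fun c d p hp => ?_⟩
  · exact cm_ent (cm_mul ((cjL.contMDiff _).comp p ((cm_jj C r.1.1 hp.1).comp p (ss_fst p)))
      ((cm_jj C r.1.2 hp.2).comp p (ss_snd p))) r.2 k
  · by_cases h : r = (c, i)
    · simp only [if_pos h]
      exact cm_inv (cm_mul ((cm_dd C hp.1).comp p (ss_fst p)) ((cm_dd C hp.2).comp p (ss_snd p)))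
        (mul_ne_zero (dd_ne C hp.1) (dd_ne C hp.2))
    · simp only [if_neg h]
      exact contMDiffAt_const
  · ext i k
    have h1 := dd_ne C hp.1
    have h2 := dd_ne C hp.2
    simp only [Matrix.mul_apply, ite_mul, zero_mul, Finset.sum_ite_eq', Finset.mem_univ, if_true]
    rw [JJ, jj_self, jj_self, cj_smul, cj_one, smul_mul_smul_comm, mul_one, Matrix.smul_apply,
      smul_eq_mul, inv_mul_cancel_left₀ (mul_ne_zero h1 h2)]
  · obtain ⟨l, hl, h1⟩ := jj_tr C hp.1.1 hp.2.1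
    obtain ⟨m, hm, h2⟩ := jj_tr C hp.1.2 hp.2.2
    refine ⟨l * m, mul_ne_zero hl hm, ?_⟩
    ext r k
    have h3 : JJ C d r.1 p * C.Γ6 c d p = (l * m) • JJ C c r.1 p := by
      rw [JJ, CD.Γ6, mul_assoc, ← mul_assoc (jj C d.2 _ _), sh_comm (jj_sh C _ _ _) (tr_sh C _ _ _),
        mul_assoc, ← mul_assoc, ← cj_mul, h1, h2, cj_smul, smul_mul_smul_comm, JJ]
    exact congrFun (congrFun h3 r.2) k

end Pool.Agent.Lib.ATQ
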