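import Pool.Agent.Lib.ATQ.B_FT

/-! Project atq: endomorphisms of the rank six bundle on the curve. -/

open scoped Manifold ContDiff Topology Matrix.Norms.Operator Matrix
open Set Filter

noncomputable section

namespace Pool.Agent.Lib.ATQ

open Pool.Agent.Lib.MP_ad9325_ag Pool.Agent.Lib.AD86 A86

theorem st_END : St_END := by
  intro X _ _ C T T' h1 h2 h3
  obtain ⟨α, β, γ, h⟩ := endo_flag (G := gY) (T := fun a b => T (C.pt (a, b)))
    (S := fun a b => T' (C.pt (a, b))) ⟨0, fun x y _ _ => isg x y⟩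
    (fun i j => hol C fun P hP => h1 P hP i j) (fun i j => bd C (h2 i j))
    ((far C).mono fun a b _ ⟨c1, c2, c3, c4, _⟩ => by
      have := h3 _ c1 c2
      rw [c3, c4] at this
      exact this.symm)
  refine ⟨α, β, γ, fun P hP i => ?_⟩
  obtain ⟨a1, a2, a3, a4, a5⟩ := h _ _ (C.eq0 P hP)
  rw [C.pt_xy P hP] at a1 a2 a3 a4 a5
  fin_cases i
  exacts [⟨a1, a2⟩, ⟨a4, a3⟩, a5 2 (by decide) (by decide), a5 3 (by decide) (by decide),
    a5 4 (by decide) (by decide), a5 5 (by decide) (by decide)]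

end Pool.Agent.Lib.ATQ
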