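import Pool.Agent.Lib.ATQ.Tools

open scoped Manifold ContDiff Topology Matrix.Norms.Operator Matrix
open Set Filter

set_option linter.unusedSectionVars false

noncomputable section

namespace Pool.Agent.Lib.ATQ

open Pool.Agent.Lib.MP_ad9325_ag

namespace T41

variable {X : Type} [TopologicalSpace X] [ChartedSpace ℂ X]

/-- The form `f dg - f' dg'` is holomorphic. -/
theorem holo_two (hH : St_HOL) [IsManifold 𝓘(ℂ, ℂ) ω X] {f g f' g' : X → ℂ} {P : X}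
    (hf : ContMDiffAt 𝓘(ℂ, ℂ) 𝓘(ℂ, ℂ) ω f P) (hg : ContMDiffAt 𝓘(ℂ, ℂ) 𝓘(ℂ, ℂ) ω g P)
    (hf' : ContMDiffAt 𝓘(ℂ, ℂ) 𝓘(ℂ, ℂ) ω f' P) (hg' : ContMDiffAt 𝓘(ℂ, ℂ) 𝓘(ℂ, ℂ) ω g' P) :
    HoloAt (fun Q => f Q • D 𝓘(ℂ, ℂ) 𝓘(ℂ, ℂ) g Q - f' Q • D 𝓘(ℂ, ℂ) 𝓘(ℂ, ℂ) g' Q) P := by
  have a := (hH ℂ X ℂ (D 𝓘(ℂ, ℂ) 𝓘(ℂ, ℂ) g) P).2.2.2.1 ℂ ℂ (ContinuousLinearMap.mul ℂ ℂ) f hf
    ((hH ℂ X ℂ 0 P).2.2.1 g hg)
  have b := (hH ℂ X ℂ (D 𝓘(ℂ, ℂ) 𝓘(ℂ, ℂ) g') P).2.2.2.1 ℂ ℂ (-ContinuousLinearMap.mul ℂ ℂ) f' hf'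
    ((hH ℂ X ℂ 0 P).2.2.1 g' hg')
  refine ((hH ℂ X ℂ _ P).1 _ (Eventually.of_forall fun Q => ?_)).1 ((hH ℂ X ℂ _ P).2.1 _ a b)
  ext
  simp [sub_eq_add_neg]

variable (C : CD X)

theorem op0 : IsOpen ({C.inf}ᶜ : Set X) := by
  have := C.t2
  exact isOpen_compl_singleton

theorem ev0 {P : X} (h : P ≠ C.inf) : ∀ᶠ Q in 𝓝 P, Q ≠ C.inf := (op0 C).mem_nhds h

theorem d_eq {P : X} (h : P ≠ C.inf) (u : ℂ) :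
    2 * C.y P * D 𝓘(ℂ, ℂ) 𝓘(ℂ, ℂ) C.y P u = 5 * C.x P ^ 4 * D 𝓘(ℂ, ℂ) 𝓘(ℂ, ℂ) C.x P u := by
  have a := D_dcomp (md (C.hy P h)) (hasDerivAt_pow 2 (C.y P)) u
  have b := D_dcomp (md (C.hx P h)) ((hasDerivAt_pow 5 (C.x P)).add_const 1) u
  have e : (fun Q => C.y Q ^ 2) =ᶠ[𝓝 P] fun Q => C.x Q ^ 5 + 1 := (ev0 C h).mono C.eq0
  rw [D_congr e, b] at a
  simpa using a.symm

theorem eta0 (P : X) (u : ℂ) : C.η false P u =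
    C.y P * D 𝓘(ℂ, ℂ) 𝓘(ℂ, ℂ) C.x P u - 2 / 5 * C.x P * D 𝓘(ℂ, ℂ) 𝓘(ℂ, ℂ) C.y P u := rfl

theorem eta1 (P : X) (u : ℂ) : C.η true P u =
    C.t P / C.ξ P ^ 2 * D 𝓘(ℂ, ℂ) 𝓘(ℂ, ℂ) C.ξ P u - 2 / C.ξ P * D 𝓘(ℂ, ℂ) 𝓘(ℂ, ℂ) C.t P u := rfl

theorem dx {P : X} (h : P ≠ C.inf) (u : ℂ) :
    D 𝓘(ℂ, ℂ) 𝓘(ℂ, ℂ) C.x P u = C.y P * C.η false P u := by
  rw [eta0]
  linear_combination (1 / 5 * C.x P) * d_eq C h u - D 𝓘(ℂ, ℂ) 𝓘(ℂ, ℂ) C.x P u * C.eq0 P h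

theorem dy {P : X} (h : P ≠ C.inf) (u : ℂ) :
    D 𝓘(ℂ, ℂ) 𝓘(ℂ, ℂ) C.y P u = 5 / 2 * C.x P ^ 4 * C.η false P u := by
  rw [eta0]
  linear_combination (1 / 2 * C.y P) * d_eq C h u - D 𝓘(ℂ, ℂ) 𝓘(ℂ, ℂ) C.y P u * C.eq0 P h

theorem ev1 {P : X} (h : P ≠ C.inf) (h1 : P ∈ C.U1) :
    ∀ᶠ Q in 𝓝 P, C.t Q = C.x Q ^ 2 / C.y Q ∧ C.ξ Q = C.x Q ^ 5 / C.y Q ^ 2 := by
  filter_upwards [ev0 C h, C.op.mem_nhds h1] with Q a b using C.tx Q a b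

/-- The differential of `x ^ m / y ^ n`. -/
theorem d_quot {P : X} (h : P ≠ C.inf) (hy : C.y P ≠ 0) (m n : ℕ) (u : ℂ) :
    D 𝓘(ℂ, ℂ) 𝓘(ℂ, ℂ) (fun Q => C.x Q ^ m * (C.y Q ^ n)⁻¹) P u =
      m * C.x P ^ (m - 1) * D 𝓘(ℂ, ℂ) 𝓘(ℂ, ℂ) C.x P u * (C.y P ^ n)⁻¹ +
        C.x P ^ m * (-(n * C.y P ^ (n - 1)) / (C.y P ^ n) ^ 2 * D 𝓘(ℂ, ℂ) 𝓘(ℂ, ℂ) C.y P u) := by
  rw [D_mul (md (cm_pow (C.hx P h) m)) (md (cm_inv (cm_pow (C.hy P h) n) (pow_ne_zero n hy))),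
    D_dcomp (md (C.hx P h)) (hasDerivAt_pow m (C.x P)),
    D_dcomp (g := fun z => (z ^ n)⁻¹) (md (C.hy P h))
      ((hasDerivAt_pow n (C.y P)).inv (pow_ne_zero n hy))]

theorem dt {P : X} (h : P ≠ C.inf) (h1 : P ∈ C.U1) (u : ℂ) : D 𝓘(ℂ, ℂ) 𝓘(ℂ, ℂ) C.t P u =
    (2 * C.x P - 5 / 2 * C.x P ^ 6 / C.y P ^ 2) * C.η false P u := by
  have hy := ((C.ov P h).1 h1).2
  have e : C.t =ᶠ[𝓝 P] fun Q => C.x Q ^ 2 * (C.y Q ^ 1)⁻¹ :=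
    (ev1 C h h1).mono fun Q a => by simp only [a.1, pow_one, div_eq_mul_inv]
  rw [D_congr e, d_quot C h hy, dx C h, dy C h]
  push_cast
  field_simp
  ring

theorem dξ {P : X} (h : P ≠ C.inf) (h1 : P ∈ C.U1) (u : ℂ) : D 𝓘(ℂ, ℂ) 𝓘(ℂ, ℂ) C.ξ P u =
    5 * C.x P ^ 4 / C.y P ^ 3 * C.η false P u := by
  have hy := ((C.ov P h).1 h1).2
  have e : C.ξ =ᶠ[𝓝 P] fun Q => C.x Q ^ 5 * (C.y Q ^ 2)⁻¹ :=
    (ev1 C h h1).mono fun Q a => by rw [a.2, div_eq_mul_inv]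
  rw [D_congr e, d_quot C h hy, dx C h, dy C h]
  push_cast
  field_simp
  linear_combination (C.x P ^ 4 * C.η false P u) * C.eq0 P h

theorem ov {P : X} (h : P ≠ C.inf) (h1 : P ∈ C.U1) (u : ℂ) :
    C.t P ^ 2 * C.η true P u = C.η false P u := by
  obtain ⟨hx, hy⟩ := (C.ov P h).1 h1
  rw [eta1, dt C h h1, dξ C h h1, (C.tx P h h1).1, (C.tx P h h1).2]
  field_simp
  linear_combination (-5 * C.η false P u) * C.eq0 P h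

theorem ξ_ne {P : X} (h1 : P ∈ C.U1) : C.ξ P ≠ 0 := by
  by_cases h : P = C.inf
  · rw [h, C.ξ_inf]; exact one_ne_zero
  · obtain ⟨hx, hy⟩ := (C.ov P h).1 h1
    rw [(C.tx P h h1).2]
    exact div_ne_zero (pow_ne_zero _ hx) (pow_ne_zero _ hy)

theorem ne0 {P : X} (h : P ≠ C.inf) : C.η false P 1 ≠ 0 := fun h0 =>
  C.imm0 P h (by rw [dx C h, h0, mul_zero]) (by rw [dy C h, h0, mul_zero])

end T41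

open T41 in
theorem st_ETA (hH : St_HOL) : St_ETA := by
  intro X _ _ C
  have := C.mfd
  refine ⟨?_, fun P => ?_, ?_, fun P => ξ_ne C, fun P h1 => ?_, ?_, ?_, fun P => dx C,
    fun P => dy C, fun P => dt C, fun P => dξ C, fun P => ov C⟩
  · rintro (_ | _)
    exacts [op0 C, C.op]
  · by_cases h : P = C.inf
    · exact ⟨true, h ▸ C.inf_mem⟩
    · exact ⟨false, h⟩
  · refine mem_closure_iff_nhdsWithin_neBot.1 (mem_closure_iff_nhds.2 fun O hO => ?_)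
    obtain ⟨r, hr⟩ := C.pt_inf O hO
    obtain ⟨b, hb⟩ := IsAlgClosed.exists_pow_nat_eq ((r : ℂ) ^ 5 + 1) two_pos
    exact ⟨_, hr r b hb (by rw [Complex.norm_real]; exact le_abs_self r), (C.pt_spec r b hb).1⟩
  · by_cases h : P = C.inf
    · rw [h, C.ξ_inf, C.t_inf]; norm_num
    · have hy := ((C.ov P h).1 h1).2
      rw [(C.tx P h h1).1, (C.tx P h h1).2]
      field_simp
      linear_combination C.x P ^ 20 * C.eq0 P h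
  · rintro (_ | _) P hP
    · exact holo_two hH (C.hy P hP) (C.hx P hP) (cm_mul contMDiffAt_const (C.hx P hP)) (C.hy P hP)
    · exact holo_two hH (cm_div (C.ht P hP) (cm_pow (C.hξ P hP) 2) (pow_ne_zero 2 (ξ_ne C hP)))
        (C.hξ P hP) (cm_div contMDiffAt_const (C.hξ P hP) (ξ_ne C hP)) (C.ht P hP)
  · rintro (_ | _) P hP
    · exact ne0 C hP
    · by_cases h : P = C.inf
      · rw [h, eta1, C.t_inf, C.ξ_inf]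
        simpa using C.imm1
      · intro h0
        exact ne0 C h (by rw [← ov C h hP, h0, mul_zero])

end Pool.Agent.Lib.ATQ
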