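import Pool.Agent.Lib.ATQ.Tools

/-! Project atq: the connection on the curve. -/

open scoped Manifold ContDiff Topology Matrix.Norms.Operator Matrix
open Set Filter

set_option linter.unusedSectionVars false

noncomputable section

namespace Pool.Agent.Lib.ATQ

open Pool.Agent.Lib.MP_ad9325_ag

namespace T20

/-- The derivative of the transition matrix along the field dual to the form. -/
def dG (x y : ℂ) : Mt 6 :=
  !![0, 0, 0, 0, 5 / 2 * x ^ 2 - 2 * y ^ 2 / x ^ 3, 0; 0, 0, 0, 0, 0, 5 / 2 * x ^ 3 - y ^ 2 / x ^ 2;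
    0, 0, 0, 0, 0, 0; 0, 0, 0, 0, 0, 0;
    0, 0, 0, 0, 2 * x - 5 / 2 * x ^ 6 / y ^ 2, y; 0, 0, 0, 0, 0, 5 / 2 * x ^ 2 - 2 * y ^ 2 / x ^ 3]

theorem gY_split (x y : ℂ) : gY x y =
    (!![1, 0, 0, 0, 0, 0; 0, 1, 0, 0, 0, 0; 0, 0, 1, 0, 0, 0; 0, 0, 0, 1, 0, 0;
      0, 0, 0, 0, 0, 0; 0, 0, 0, 0, 0, 0] : Mt 6) +
    ((y / x ^ 2) • ((Matrix.single 0 4 1 + Matrix.single 5 5 1 : Mt 6)) +
      ((y / x) • (Matrix.single 1 5 1 : Mt 6) + ((x ^ 2 / y) • (Matrix.single 4 4 1 : Mt 6) +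
        x • (Matrix.single 4 5 1 : Mt 6)))) := by
  ext i j
  fin_cases i <;> fin_cases j <;> simp [gY]

theorem dG_split (x y e : ℂ) : e • dG x y =
    ((5 / 2 * x ^ 2 - 2 * y ^ 2 / x ^ 3) * e) •
        ((Matrix.single 0 4 1 + Matrix.single 5 5 1 : Mt 6)) +
      (((5 / 2 * x ^ 3 - y ^ 2 / x ^ 2) * e) • (Matrix.single 1 5 1 : Mt 6) +
        (((2 * x - 5 / 2 * x ^ 6 / y ^ 2) * e) • (Matrix.single 4 4 1 : Mt 6) +
          (y * e) • (Matrix.single 4 5 1 : Mt 6))) := by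
  ext i j
  fin_cases i <;> fin_cases j <;> simp [dG, mul_comm]

/-- The algebraic identity behind the gauge relation. -/
theorem key {x y e e' : ℂ} (hx : x ≠ 0) (hy : y ≠ 0) (h : y ^ 2 = x ^ 5 + 1)
    (he : (x ^ 2 / y) ^ 2 * e' = e) :
    gY x y * (e • A0 x y) =
      (e' • A1 (x ^ 2 / y) (x ^ 5 / y ^ 2) -
        ((2 * (x ^ 5 / y ^ 2))⁻¹ * (5 * x ^ 4 / y ^ 3 * e)) • dg) * gY x y + e • dG x y := by
  subst he
  ext i j
  fin_cases i <;> fin_cases j <;>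
    simp [gY, A0, A1, dg, dG, Matrix.mul_apply, Fin.sum_univ_six, Matrix.diagonal_apply] <;>
    field_simp <;> grind

section

variable {X : Type} [TopologicalSpace X] [ChartedSpace ℂ X] {x y : X → ℂ} {P : X}

theorem D_div (hx : ContMDiffAt 𝓘(ℂ, ℂ) 𝓘(ℂ, ℂ) ω x P) (hy : ContMDiffAt 𝓘(ℂ, ℂ) 𝓘(ℂ, ℂ) ω y P)
    (h : y P ≠ 0) (u : ℂ) :
    D 𝓘(ℂ, ℂ) 𝓘(ℂ, ℂ) (fun q => x q / y q) P u =
      D 𝓘(ℂ, ℂ) 𝓘(ℂ, ℂ) x P u / y P - x P * D 𝓘(ℂ, ℂ) 𝓘(ℂ, ℂ) y P u / y P ^ 2 := by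
  simp only [div_eq_mul_inv]
  rw [D_mul (md hx) (md (cm_inv hy h)), D_dcomp (md hy) (hasDerivAt_inv h)]
  ring

theorem D_sq (hx : ContMDiffAt 𝓘(ℂ, ℂ) 𝓘(ℂ, ℂ) ω x P) (u : ℂ) :
    D 𝓘(ℂ, ℂ) 𝓘(ℂ, ℂ) (fun q => x q ^ 2) P u = 2 * x P * D 𝓘(ℂ, ℂ) 𝓘(ℂ, ℂ) x P u := by
  rw [D_dcomp (g := fun z => z ^ 2) (md hx) (hasDerivAt_pow 2 (x P))]
  norm_num

theorem D_smul_c {f : X → ℂ} (hf : ContMDiffAt 𝓘(ℂ, ℂ) 𝓘(ℂ, ℂ) ω f P) (M : Mt 6) (u : ℂ) :
    D 𝓘(ℂ, ℂ) 𝓘(ℂ, Mt 6) (fun q => f q • M) P u = D 𝓘(ℂ, ℂ) 𝓘(ℂ, ℂ) f P u • M := by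
  rw [D_smul (md hf) mdifferentiableAt_const, D_const]
  simp

theorem D_gY (hx : ContMDiffAt 𝓘(ℂ, ℂ) 𝓘(ℂ, ℂ) ω x P) (hy : ContMDiffAt 𝓘(ℂ, ℂ) 𝓘(ℂ, ℂ) ω y P)
    (h0 : x P ≠ 0) (h1 : y P ≠ 0) {u e : ℂ} (dx : D 𝓘(ℂ, ℂ) 𝓘(ℂ, ℂ) x P u = y P * e)
    (dy : D 𝓘(ℂ, ℂ) 𝓘(ℂ, ℂ) y P u = 5 / 2 * x P ^ 4 * e) :
    D 𝓘(ℂ, ℂ) 𝓘(ℂ, Mt 6) (fun q => gY (x q) (y q)) P u = e • dG (x P) (y P) := by
  have c1 := cm_div hy (cm_pow hx 2) (pow_ne_zero 2 h0)
  have c2 := cm_div hy hx h0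
  have c3 := cm_div (cm_pow hx 2) hy h1
  have s : ∀ {f : X → ℂ}, ContMDiffAt 𝓘(ℂ, ℂ) 𝓘(ℂ, ℂ) ω f P → ∀ M : Mt 6,
      ContMDiffAt 𝓘(ℂ, ℂ) 𝓘(ℂ, Mt 6) ω (fun q => f q • M) P :=
    fun hf M => hf.smul contMDiffAt_const
  have ad : ∀ {f g : X → Mt 6}, ContMDiffAt 𝓘(ℂ, ℂ) 𝓘(ℂ, Mt 6) ω f P →
      ContMDiffAt 𝓘(ℂ, ℂ) 𝓘(ℂ, Mt 6) ω g P →
      ContMDiffAt 𝓘(ℂ, ℂ) 𝓘(ℂ, Mt 6) ω (fun q => f q + g q) P := fun hf hg => hf.add hg
  have a3 := ad (s c3 (Matrix.single 4 4 1)) (s hx (Matrix.single 4 5 1))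
  have a2 := ad (s c2 (Matrix.single 1 5 1)) a3
  have a1 := ad (s c1 (Matrix.single 0 4 1 + Matrix.single 5 5 1)) a2
  simp only [gY_split]
  rw [D_add mdifferentiableAt_const (md a1), D_add (md (s c1 _)) (md a2),
    D_add (md (s c2 _)) (md a3), D_add (md (s c3 _)) (md (s hx _)), D_const, D_smul_c c1,
    D_smul_c c2, D_smul_c c3, D_smul_c hx, D_div hy (cm_pow hx 2) (pow_ne_zero 2 h0),
    D_div hy hx h0, D_div (cm_pow hx 2) hy h1, D_sq hx, dx, dy, dG_split,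
    zero_apply, zero_add]
  congr 2
  · field_simp
  · congr 1; field_simp
  · congr 2; field_simp

end

/-- The bilinear map behind a matrix times a scalar form. -/
def Bs : Mt 6 →L[ℂ] ℂ →L[ℂ] Mt 6 := (ContinuousLinearMap.lsmul ℂ ℂ).flip

end T20

open T20 in
theorem st_EX0 (hH : St_HOL) (hE : St_ETA) (hC : St_COC) : St_EX0 := by
  intro X _ _ C
  have := C.mfd
  have E := hE X C
  have K := (hC X C).1
  have hs : ∀ (θ : X → ℂ →L[ℂ] ℂ) (f : X → Mt 6) (P : X),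
      ContMDiffAt 𝓘(ℂ, ℂ) 𝓘(ℂ, Mt 6) ω f P → HoloAt θ P →
      HoloAt (fun q => (θ q).smulRight (f q)) P := fun θ f P hf hθ => by
    have h := (hH ℂ X ℂ θ P).2.2.2.1 (Mt 6) (Mt 6) Bs f hf hθ
    have e : (fun q => (θ q).smulRight (f q)) = fun q => (Bs (f q)).comp (θ q) := by
      funext q; ext1; simp [Bs]
    rw [e]; exact h
  have main : ∀ P, P ≠ C.inf → P ∈ C.U1 → ∀ u : ℂ,
      C.tr false true P * C.aY false P u = C.aY true P u * C.tr false true P +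
        D 𝓘(ℂ, ℂ) 𝓘(ℂ, Mt 6) (C.tr false true) P u := by
    intro P h0 h1 u
    obtain ⟨hx, hy⟩ := (C.ov P h0).1 h1
    obtain ⟨ht, hξ⟩ := C.tx P h0 h1
    have d := D_gY (C.hx P h0) (C.hy P h0) hx hy (E.dx P h0 u) (E.dy P h0 u)
    have o := E.ov P h0 h1 u
    rw [ht] at o
    have k := key hx hy (C.eq0 P h0) o
    simp only [CD.tr, CD.aY, ContinuousLinearMap.smulRight_apply, sub_apply,
      smul_apply, smul_eq_mul]
    rw [d, E.dξ P h0 h1 u, ht, hξ]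
    exact k
  refine ⟨fun a P hP => ?_, fun a b P hP u => ?_⟩
  · cases a
    · have h0 : P ≠ C.inf := hP
      have hx := C.hx P h0
      have hy := C.hy P h0
      refine hs _ (fun q => A0 (C.x q) (C.y q)) P ?_ (E.holo false P hP)
      refine cm_two (g := fun z => A0 z.1 z.2) hx hy (cd_mat fun i j => ?_)
      fin_cases i <;> fin_cases j <;> simp [A0] <;> fun_prop
    · have h1 : P ∈ C.U1 := hP
      have ht := C.ht P h1
      have hξ := C.hξ P h1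
      have hn := E.ξ_ne P h1
      have a1 : HoloAt (fun q => (C.η true q).smulRight (A1 (C.t q) (C.ξ q))) P := by
        refine hs _ (fun q => A1 (C.t q) (C.ξ q)) P ?_ (E.holo true P hP)
        refine cm_two (g := fun z => A1 z.1 z.2) ht hξ (cd_mat fun i j => ?_)
        fin_cases i <;> fin_cases j <;> simp [A1] <;> fun_prop (disch := simp [hn])
      have a2 : HoloAt (fun q => (D 𝓘(ℂ, ℂ) 𝓘(ℂ, ℂ) C.ξ q).smulRight
          ((-(2 * C.ξ q)⁻¹) • dg)) P := by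
        refine hs _ (fun q => (-(2 * C.ξ q)⁻¹) • dg) P ?_
          ((hH ℂ X ℂ (C.η true) P).2.2.1 C.ξ hξ)
        exact (cm_inv (cm_mul contMDiffAt_const hξ) (mul_ne_zero two_ne_zero hn)).neg.smul
          contMDiffAt_const
      have a3 := (hH ℂ X (Mt 6) _ P).2.1 _ a1 a2
      have e : C.aY true = fun q => (C.η true q).smulRight (A1 (C.t q) (C.ξ q)) +
          (D 𝓘(ℂ, ℂ) 𝓘(ℂ, ℂ) C.ξ q).smulRight ((-(2 * C.ξ q)⁻¹) • dg) := by
        funext q; ext1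
        simp only [CD.aY, ContinuousLinearMap.smulRight_apply, sub_apply, add_apply, smul_apply,
          smul_eq_mul, smul_smul]
        rw [sub_eq_add_neg, ← neg_smul, mul_neg, mul_comm]
      rw [e]; exact a3
  · rw [mvfderiv_eq_D]
    cases a <;> cases b
    · simp only [CD.tr, D_const]; simp
    · exact main P hP.1 hP.2 u
    · have h1 : P ∈ C.U1 := hP.1
      have h0 : P ≠ C.inf := hP.2
      have m := main P h0 h1 u
      have g1 := K.holo false true P ⟨hP.2, hP.1⟩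
      have g2 := K.holo true false P hP
      have i1 : C.tr false true P * C.tr true false P = 1 :=
        (K.comp true false true P ⟨hP, hP.1⟩).trans (K.self true P hP.1)
      have ev : (fun q => C.tr true false q * C.tr false true q) =ᶠ[𝓝 P] fun _ => (1 : Mt 6) := by
        filter_upwards [((K.op true).inter (K.op false)).mem_nhds hP] with q hq
        exact (K.comp false true false q ⟨⟨hq.2, hq.1⟩, hq.2⟩).trans (K.self false q hq.2)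
      have i2 : C.tr true false P * C.tr false true P = 1 := ev.self_of_nhds
      have d := D_mul (md g2) (md g1) u
      rw [D_congr ev, D_const, zero_apply] at d
      generalize C.tr false true P = g at *
      generalize C.tr true false P = g' at *
      generalize D 𝓘(ℂ, ℂ) 𝓘(ℂ, Mt 6) (C.tr false true) P u = dg₁ at *
      generalize D 𝓘(ℂ, ℂ) 𝓘(ℂ, Mt 6) (C.tr true false) P u = dg₂ at *
      generalize C.aY true P u = a₁ at *
      generalize C.aY false P u = a₀ at *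
      calc g' * a₁ = g' * (a₁ * g + dg₁) * g' - g' * dg₁ * g' := by
            rw [mul_add, add_mul, add_sub_cancel_right, mul_assoc, mul_assoc, i1, mul_one]
        _ = a₀ * g' + dg₂ := by
            have e : g' * dg₁ = -(dg₂ * g) := eq_neg_of_add_eq_zero_right d.symm
            rw [← m, ← mul_assoc, i2, one_mul, e, neg_mul, sub_neg_eq_add, mul_assoc dg₂, i1,
              mul_one]
    · simp only [CD.tr, D_const]; simp

end Pool.Agent.Lib.ATQ
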