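import Pool.Agent.Lib.ATQ.Tools

/-! Project atq, block EX1: the base data on the square of the curve. -/

open scoped Manifold ContDiff Topology Matrix.Norms.Operator Matrix
open Set Filter

set_option linter.unusedSectionVars false

noncomputable section

namespace Pool.Agent.Lib.ATQ

open Pool.Agent.Lib.MP_ad9325_ag

namespace T17

section Gen

variable {V : Type} [NormedAddCommGroup V] [NormedSpace ℂ V] {N : Type} [TopologicalSpace N]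
  [ChartedSpace V N] {F : Type} [NormedAddCommGroup F] [NormedSpace ℂ F]
  {F₂ : Type} [NormedAddCommGroup F₂] [NormedSpace ℂ F₂] {p : N}

theorem ex1_holo_prod {θ : N → V →L[ℂ] F} {θ' : N → V →L[ℂ] F₂} (h : HoloAt θ p)
    (h' : HoloAt θ' p) : HoloAt (fun q => (θ q).prod (θ' q)) p :=
  fun u => (h u).prodMk (h' u)

theorem ex1_holo_clm (L : F →L[ℂ] F₂) {θ : N → V →L[ℂ] F} (h : HoloAt θ p) :
    HoloAt (fun q => L.comp (θ q)) p :=
  fun u => L.contDiff.contDiffAt.comp _ (h u)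

theorem ex1_dF_clm (L : F →L[ℂ] F₂) {θ : N → V →L[ℂ] F} (h : HoloAt θ p) (u v : V) :
    dF (fun q => L.comp (θ q)) p u v = L (dF θ p u v) := by
  have e : ∀ a b : V, fderiv ℂ (formIn (fun q => L.comp (θ q)) p a) (chartAt V p p) b =
      L (fderiv ℂ (formIn θ p a) (chartAt V p p) b) := by
    intro a b
    have h1 := (L.hasFDerivAt.comp _ ((h a).differentiableAt (by simp)).hasFDerivAt).fderiv
    exact congrArg (fun T : V →L[ℂ] F₂ => T b) h1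
  unfold dF
  rw [e, e, map_sub]

theorem ex1_lin (T : ℂ →L[ℂ] F) (u : ℂ) : T u = u • T 1 := by
  rw [← map_smul, smul_eq_mul, mul_one]

end Gen

/-- The rows four and five vanish on the first four columns. -/
def ex1Low (A : Mt 6) : Prop :=
  (A 4 0 = 0 ∧ A 4 1 = 0 ∧ A 4 2 = 0 ∧ A 4 3 = 0) ∧ (A 5 0 = 0 ∧ A 5 1 = 0 ∧ A 5 2 = 0 ∧ A 5 3 = 0)

theorem ex1_blk_mul {A : Mt 6} (h : ex1Low A) (B : Mt 6) : blk (A * B) = blk A * blk B := by
  obtain ⟨⟨h0, h1, h2, h3⟩, k0, k1, k2, k3⟩ := h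
  have e : ∀ (M : Mt 6) i j, blk M i j = M (![4, 5] i) (![4, 5] j) := fun _ _ _ => rfl
  ext i j
  rw [e, Matrix.mul_apply, Matrix.mul_apply, Fin.sum_univ_six, Fin.sum_univ_two, e, e, e, e]
  fin_cases i <;> simp [h0, h1, h2, h3, k0, k1, k2, k3]

theorem ex1_blk_add (A B : Mt 6) : blk (A + B) = blk A + blk B := rfl

theorem ex1_trace_cj (A : Mt 6) : (cj A).trace = A.trace := by
  simp only [Matrix.trace, Matrix.diag, cj, Matrix.submatrix_apply]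
  exact Equiv.sum_comp sw (fun i => A i i)

variable {X : Type} [TopologicalSpace X] [ChartedSpace ℂ X] (C : CD X)

theorem ex1_low_tr (a b : Bool) (P : X) : ex1Low (C.tr a b P) := by
  cases a <;> cases b <;> simp [ex1Low, CD.tr, gY, gYi]

theorem ex1_aY_false (P : X) (u : ℂ) : C.aY false P u = C.η false P u • A0 (C.x P) (C.y P) := rfl

theorem ex1_aY_true (P : X) (u : ℂ) : C.aY true P u = C.η true P u • A1 (C.t P) (C.ξ P) -
    ((2 * C.ξ P)⁻¹ * D 𝓘(ℂ, ℂ) 𝓘(ℂ, ℂ) C.ξ P u) • dg := rfl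

theorem ex1_low_aY (a : Bool) (P : X) (u : ℂ) : ex1Low (C.aY a P u) := by
  cases a
  · rw [ex1_aY_false]; simp [ex1Low, A0]
  · rw [ex1_aY_true]; simp [ex1Low, A1, dg]

theorem ex1_tr_blk (a : Bool) (P : X) (u : ℂ) : (blk (C.aY a P u)).trace = 0 := by
  have e : ∀ M : Mt 6, (blk M).trace = M 4 4 + M 5 5 := fun M => Matrix.trace_fin_two _
  rw [e]
  cases a
  · rw [ex1_aY_false]; simp [A0]
  · rw [ex1_aY_true]; simp [A1, dg]

theorem ex1_tr_aY (a : Bool) (P : X) (u : ℂ) : (C.aY a P u).trace = 0 := by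
  cases a
  · rw [ex1_aY_false]; simp [Matrix.trace, Fin.sum_univ_six, A0]
  · rw [ex1_aY_true]; simp [Matrix.trace, Fin.sum_univ_six, A1, dg]

theorem ex1_tr_aZ (a b : Bool) (P Q : X) (u : ℂ) : (C.aZ a b P Q u).trace = 0 := by
  have e : C.aZ a b P Q u = C.aY b Q u +
      C.η b Q u • ((-(C.xs b Q / 2) * C.xs a P) • (Matrix.single 2 3 1 : Mt 6)) := rfl
  rw [e, Matrix.trace_add, ex1_tr_aY, Matrix.trace_smul, Matrix.trace_smul,
    Matrix.trace_single_eq_of_ne _ _ _ (by decide)]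
  simp

theorem ex1_nd (a : Bool) (P : X) (u : ℂ) (hP : C.η a P 1 ≠ 0) (h : blk (C.aY a P u) 1 0 = 0) :
    u = 0 := by
  have e : blk (C.aY a P u) 1 0 = -(1 / 2) * C.η a P u := by
    cases a
    · rw [ex1_aY_false]; simp [blk, A0, mul_comm]
    · rw [ex1_aY_true]; simp [blk, A1, dg, mul_comm]
  rw [e, ex1_lin (C.η a P) u, smul_eq_mul] at h
  simpa [hP] using h

/-- The gauge identity of the block along a projection of the square. -/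
theorem ex1_gauge (h0 : IsConn C.U C.tr C.aY) (hc : IsCocycle ℂ C.U C.tr) {f : SS X → X}
    (hf : ContMDiff 𝓘(ℂ, BB) 𝓘(ℂ, ℂ) ω f) (a b : Bool) (p : SS X) (hp : f p ∈ C.U a ∩ C.U b)
    (u : BB) :
    ContMDiffAt 𝓘(ℂ, BB) 𝓘(ℂ, Mt 2) ω (fun q => blk (C.tr a b (f q))) p ∧
    blk (C.tr a b (f p)) * blk (C.aY a (f p) (D 𝓘(ℂ, BB) 𝓘(ℂ, ℂ) f p u)) =
      blk (C.aY b (f p) (D 𝓘(ℂ, BB) 𝓘(ℂ, ℂ) f p u)) * blk (C.tr a b (f p)) +
        D 𝓘(ℂ, BB) 𝓘(ℂ, Mt 2) (fun q => blk (C.tr a b (f q))) p u := by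
  have h1 := hc.holo a b _ hp
  have h2 : ContMDiffAt 𝓘(ℂ, BB) 𝓘(ℂ, Mt 6) ω (fun q => C.tr a b (f q)) p := h1.comp p (hf p)
  refine ⟨(blkL.contMDiff (n := ω) _).comp p h2, ?_⟩
  have h3 : D 𝓘(ℂ, BB) 𝓘(ℂ, Mt 2) (fun q => blk (C.tr a b (f q))) p u =
      blk (D 𝓘(ℂ, ℂ) 𝓘(ℂ, Mt 6) (C.tr a b) (f p) (D 𝓘(ℂ, BB) 𝓘(ℂ, ℂ) f p u)) := by
    have h4 := congrArg (fun L : BB →L[ℂ] Mt 2 => L u) (D_clm_comp blkL (md h2))
    have h5 := congrArg (fun L : BB →L[ℂ] Mt 6 => L u) (D_comp (md h1) (md (hf p)))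
    exact h4.trans (congrArg blk h5)
  rw [h3, ← ex1_blk_mul (ex1_low_tr C a b _), ← ex1_blk_mul (ex1_low_aY C b _ _), ← ex1_blk_add,
    h0.gauge a b _ hp, mvfderiv_eq_D]

/-- The block connection pulled back along a projection is holomorphic and flat. -/
theorem ex1_flat (hH : St_HOL) (hD : St_DF) (hN : St_NAT) (h0 : IsConn C.U C.tr C.aY)
    {f : SS X → X} (hf : ContMDiff 𝓘(ℂ, BB) 𝓘(ℂ, ℂ) ω f) {l : BB →L[ℂ] ℂ}
    (hl : ∀ q, D 𝓘(ℂ, BB) 𝓘(ℂ, ℂ) f q = l) (a : Bool) (p : SS X) (hp : f p ∈ C.U a) :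
    HoloAt (fun q => (blkL.comp (C.aY a (f q))).comp l) p ∧ ∀ u v,
      dF (fun q => (blkL.comp (C.aY a (f q))).comp l) p u v +
        (blk (C.aY a (f p) (l u)) * blk (C.aY a (f p) (l v)) -
          blk (C.aY a (f p) (l v)) * blk (C.aY a (f p) (l u))) = 0 := by
  have := C.mfd
  have : IsManifold 𝓘(ℂ, BB) ω (SS X) := ss_mfd
  have e : (fun q => (blkL.comp (C.aY a (f q))).comp l) =
      pull (V' := BB) f (fun P => blkL.comp (C.aY a P)) := by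
    funext q
    rw [pull, hl]
  have h1 : HoloAt (fun P => blkL.comp (C.aY a P)) (f p) := ex1_holo_clm blkL (h0.holo a _ hp)
  rw [e]
  refine ⟨(hH ℂ X (Mt 2) _ (f p)).2.2.2.2.2.2 BB (SS X) f p rfl (hf p) h1, fun u v => ?_⟩
  rw [hN ℂ X (Mt 2) _ BB (SS X) f p (hf p) h1, hl]
  obtain ⟨β, hβ⟩ := (hD ℂ X (Mt 2) _ (f p) h1).1
  have h2 : ∀ s t : ℂ, β s t = (s * t) • β 1 1 := by
    intro s t
    rw [ex1_lin β s, smul_apply, ex1_lin (β 1) t, smul_smul]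
  have h3 : ∀ s : ℂ, blk (C.aY a (f p) s) = s • blk (C.aY a (f p) 1) := fun s =>
    ex1_lin (blkL.comp (C.aY a (f p))) s
  rw [hβ, h2 (l u), h2 (l v), h3 (l u), h3 (l v), mul_comm (l v)]
  simp only [smul_mul_smul_comm, mul_comm (l v), sub_self, add_zero]

end T17

open T17 in
theorem st_EX1 (hH : St_HOL) (hD : St_DF) (hN : St_NAT) (hE : St_ETA) (hC : St_COC)
    (h0 : St_EX0) (h6 : St_EX6) : St_EX1 := by
  intro X _ _ C
  obtain ⟨c1, c6, c3, -, c4⟩ := hC X C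
  have k0 := h0 X C
  have k6 := h6 X C
  have hη := hE X C
  have f1 := fun a p hp => ex1_flat C hH hD hN k0 ss_fst D_ss_fst a p hp
  have f2 := fun a p hp => ex1_flat C hH hD hN k0 ss_snd D_ss_snd a p hp
  have hol : ∀ c, ∀ p ∈ C.UU c, HoloAt (C.θ3 c) p := fun c p hp =>
    ex1_holo_prod (f1 c.1 p hp.1).1 (ex1_holo_prod (f2 c.2 p hp.2).1 (k6.holo c p hp))
  refine ⟨c3, ⟨hol, fun c d p hp u => ?_⟩, fun c d p hp => (c4 c d p hp).1,
    fun c d p hp => (c4 c d p hp).2, fun c p _ u => ?_, fun c p hp u h1 h2 => ?_,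
    fun c p hp u v => ⟨?_, ?_⟩⟩
  · obtain ⟨g1, e1⟩ := ex1_gauge C k0 c1 ss_fst c.1 d.1 p ⟨hp.1.1, hp.2.1⟩ u
    obtain ⟨g2, e2⟩ := ex1_gauge C k0 c1 ss_snd c.2 d.2 p ⟨hp.1.2, hp.2.2⟩ u
    have g3 := c6.holo c d p hp
    have e3 := k6.gauge c d p hp u
    rw [D_ss_fst] at e1
    rw [D_ss_snd] at e2
    rw [mvfderiv_eq_D] at e3 ⊢
    have e4 : D 𝓘(ℂ, BB) 𝓘(ℂ, R3) (C.Γ3 c d) p u =
        (D 𝓘(ℂ, BB) 𝓘(ℂ, Mt 2) (fun q : SS X => blk (C.tr c.1 d.1 q.1)) p u,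
          D 𝓘(ℂ, BB) 𝓘(ℂ, Mt 2) (fun q : SS X => blk (C.tr c.2 d.2 q.2)) p u,
          D 𝓘(ℂ, BB) 𝓘(ℂ, Mt 6) (C.Γ6 c d) p u) := by
      rw [← D_pair (md g2) (md g3), ← D_pair (md g1) (md (g2.prodMk_space g3))]
      rfl
    rw [e4]
    exact Prod.ext e1 (Prod.ext e2 e3)
  · refine ⟨ex1_tr_blk C _ _ _, ex1_tr_blk C _ _ _, ?_⟩
    have e : (C.θ3 c p u).2.2 = cj (C.aZ c.2 c.1 p.2 p.1 u.1) + C.aZ c.1 c.2 p.1 p.2 u.2 := rfl
    rw [e, Matrix.trace_add, ex1_trace_cj, ex1_tr_aZ, ex1_tr_aZ, add_zero]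
  · exact Prod.ext (ex1_nd C c.1 p.1 u.1 (hη.ne _ _ hp.1) h1)
      (ex1_nd C c.2 p.2 u.2 (hη.ne _ _ hp.2) h2)
  · have h1 := ex1_dF_clm (ContinuousLinearMap.fst ℂ (Mt 2) (Mt 2 × Mt 6)) (hol c p hp) u v
    have h2 := (f1 c.1 p hp.1).2 u v
    exact (congrArg (· + _) h1.symm).trans h2
  · have h1 := ex1_dF_clm ((ContinuousLinearMap.fst ℂ (Mt 2) (Mt 6)).comp
      (ContinuousLinearMap.snd ℂ (Mt 2) (Mt 2 × Mt 6))) (hol c p hp) u v
    have h2 := (f2 c.2 p hp.2).2 u v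
    exact (congrArg (· + _) h1.symm).trans h2

end Pool.Agent.Lib.ATQ
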