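import Pool.Agent.Lib.ATQ.Tools

/-! Project atq, block EX2: the local data of the geometry on the projective bundle. -/

open scoped Manifold ContDiff Topology Matrix.Norms.Operator Matrix
open Set Filter

set_option linter.unusedSectionVars false

noncomputable section

namespace Pool.Agent.Lib.ATQ

open Pool.Agent.Lib.MP_ad9325_ag

namespace T10

section Gen

variable {V : Type} [NormedAddCommGroup V] [NormedSpace ℂ V] [FiniteDimensional ℂ V] {N : Type}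
  [TopologicalSpace N] [ChartedSpace V N] [IsManifold 𝓘(ℂ, V) ω N]
  {R : Type} [NormedRing R] [NormedAlgebra ℂ R] {ι : Type}

/-- The differential of an inverse. -/
theorem ex2_D_inv {k ki : N → R} {p : N} (hk : ContMDiffAt 𝓘(ℂ, V) 𝓘(ℂ, R) ω k p)
    (hki : ContMDiffAt 𝓘(ℂ, V) 𝓘(ℂ, R) ω ki p)
    (hinv : ∀ᶠ q in 𝓝 p, ki q * k q = 1 ∧ k q * ki q = 1) (w : V) :
    D 𝓘(ℂ, V) 𝓘(ℂ, R) ki p w = -(ki p * D 𝓘(ℂ, V) 𝓘(ℂ, R) k p w * ki p) := by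
  obtain ⟨-, h2⟩ := hinv.self_of_nhds
  have c1 := D_mul (md hki) (md hk) w
  rw [D_congr (g := fun _ => (1 : R)) (hinv.mono fun q hq => hq.1), D_const] at c1
  have c2 : D 𝓘(ℂ, V) 𝓘(ℂ, R) ki p w * k p = -(ki p * D 𝓘(ℂ, V) 𝓘(ℂ, R) k p w) :=
    eq_neg_of_add_eq_zero_left c1.symm
  rw [← neg_mul, ← c2, mul_assoc, h2, mul_one]

variable {O : ι → Set N} {G : ι → ι → N → R} {k ki : ι → N → R}

/-- Change of frames: the cocycle. -/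
theorem ex2_coc (hc : IsCocycle V O G)
    (hk : ∀ a, ∀ m ∈ O a, ContMDiffAt 𝓘(ℂ, V) 𝓘(ℂ, R) ω (k a) m)
    (hki : ∀ a, ∀ m ∈ O a, ContMDiffAt 𝓘(ℂ, V) 𝓘(ℂ, R) ω (ki a) m)
    (hinv : ∀ a, ∀ m ∈ O a, ki a m * k a m = 1 ∧ k a m * ki a m = 1) :
    IsCocycle V O (fun a b m => ki b m * G a b m * k a m) := by
  refine ⟨hc.op, hc.cover, fun a b m hm => ?_, fun a m hm => ?_, fun a b c m hm => ?_⟩
  · exact cm_mul (cm_mul (hki b m hm.2) (hc.holo a b m hm)) (hk a m hm.1)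
  · show ki a m * G a a m * k a m = 1
    rw [hc.self a m hm, mul_one, (hinv a m hm).1]
  · show ki c m * G b c m * k b m * (ki b m * G a b m * k a m) = ki c m * G a c m * k a m
    have b7 : ∀ x : R, k b m * (ki b m * x) = x := fun x => by
      rw [← mul_assoc, (hinv b m hm.1.2).2, one_mul]
    rw [← hc.comp a b c m hm]
    simp only [mul_assoc, b7]

/-- Change of frames: the connection. -/
theorem ex2_con [CompleteSpace R] (hG : St_GAU) {ϑ : ι → N → V →L[ℂ] R} (hc : IsCocycle V O G)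
    (hcon : IsConn O G ϑ)
    (hk : ∀ a, ∀ m ∈ O a, ContMDiffAt 𝓘(ℂ, V) 𝓘(ℂ, R) ω (k a) m)
    (hki : ∀ a, ∀ m ∈ O a, ContMDiffAt 𝓘(ℂ, V) 𝓘(ℂ, R) ω (ki a) m)
    (hinv : ∀ a, ∀ m ∈ O a, ki a m * k a m = 1 ∧ k a m * ki a m = 1) :
    IsConn O (fun a b m => ki b m * G a b m * k a m) (fun a => gau (k a) (ki a) (ϑ a)) := by
  have hev : ∀ a, ∀ m ∈ O a, ∀ᶠ q in 𝓝 m, ki a q * k a q = 1 ∧ k a q * ki a q = 1 :=
    fun a m hm => mem_of_superset ((hc.op a).mem_nhds hm) fun q hq => hinv a q hq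
  refine ⟨fun a m hm => (hG V N R (ϑ a) (k a) (ki a) m (hcon.holo a m hm) (hk a m hm) (hki a m hm)
    (hev a m hm)).1, fun a b m hm u => ?_⟩
  have a7 : ∀ x : R, k a m * (ki a m * x) = x := fun x => by
    rw [← mul_assoc, (hinv a m hm.1).2, one_mul]
  have b7 : ∀ x : R, k b m * (ki b m * x) = x := fun x => by
    rw [← mul_assoc, (hinv b m hm.2).2, one_mul]
  have g1 := hcon.gauge a b m hm u
  rw [mvfderiv_eq_D] at g1
  have g2 : ∀ x : R, G a b m * (ϑ a m u * x) =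
      ϑ b m u * (G a b m * x) + D 𝓘(ℂ, V) 𝓘(ℂ, R) (G a b) m u * x := fun x => by
    rw [← mul_assoc, g1, add_mul, mul_assoc]
  have d1 := D_mul (md (cm_mul (hki b m hm.2) (hc.holo a b m hm))) (md (hk a m hm.1)) u
  rw [D_mul (md (hki b m hm.2)) (md (hc.holo a b m hm)) u,
    ex2_D_inv (hk b m hm.2) (hki b m hm.2) (hev b m hm.2)] at d1
  show ki b m * G a b m * k a m * gau (k a) (ki a) (ϑ a) m u =
    gau (k b) (ki b) (ϑ b) m u * (ki b m * G a b m * k a m) +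
      D 𝓘(ℂ, V) 𝓘(ℂ, R) (fun q => ki b q * G a b q * k a q) m u
  rw [d1, gau_apply, gau_apply]
  simp only [mul_add, add_mul, neg_mul, mul_assoc, a7, b7, g2]
  abel

end Gen

/-- The frame change in the third factor. -/
def ex2k (A : Mt 6) : R3 := (1, 1, A)

theorem ex2k_mul (A B : Mt 6) : ex2k A * ex2k B = ex2k (A * B) := by
  simp [ex2k]

theorem ex2k_one : ex2k 1 = 1 := rfl

section Third

variable {M : Type} [TopologicalSpace M] [ChartedSpace VM M] {f : M → Mt 6} {m : M}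

theorem ex2k_cm (hf : ContMDiffAt 𝓘(ℂ, VM) 𝓘(ℂ, Mt 6) ω f m) :
    ContMDiffAt 𝓘(ℂ, VM) 𝓘(ℂ, R3) ω (fun q => ex2k (f q)) m :=
  contMDiffAt_const.prodMk_space (contMDiffAt_const.prodMk_space hf)

theorem ex2k_D (hf : ContMDiffAt 𝓘(ℂ, VM) 𝓘(ℂ, Mt 6) ω f m) (u : VM) :
    D 𝓘(ℂ, VM) 𝓘(ℂ, R3) (fun q => ex2k (f q)) m u = (0, 0, D 𝓘(ℂ, VM) 𝓘(ℂ, Mt 6) f m u) := by
  have h1 : ContMDiffAt 𝓘(ℂ, VM) 𝓘(ℂ, Mt 2) ω (fun _ : M => (1 : Mt 2)) m := contMDiffAt_const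
  have h2 := D_pair (md h1) (md (h1.prodMk_space hf)) u
  rw [D_pair (md h1) (md hf) u, D_const] at h2
  exact h2

theorem ex2k_gau (hf : ContMDiffAt 𝓘(ℂ, VM) 𝓘(ℂ, Mt 6) ω f m) (g : M → Mt 6)
    (ϑ : M → VM →L[ℂ] R3) (u : VM) :
    gau (fun q => ex2k (f q)) (fun q => ex2k (g q)) ϑ m u = ((ϑ m u).1, (ϑ m u).2.1,
      g m * (ϑ m u).2.2 * f m + g m * D 𝓘(ℂ, VM) 𝓘(ℂ, Mt 6) f m u) := by
  rw [gau_apply, ex2k_D hf]
  refine Prod.ext ?_ (Prod.ext ?_ ?_) <;> simp [ex2k]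

end Third

theorem ex2_col (A B : Mt 6) (i : Fin 6) : (A * B) i 0 = (A *ᵥ fun j => B j 0) i := rfl

end T10

open T10

theorem st_EX2 (hH : St_HOL) (hD : St_DF) (hN : St_NAT) (hG : St_GAU) (hJ : St_JAC)
    (hF : St_FRM) : St_EX2 := by
  intro S _ _ _ ι U Γ θ hB M _ _ _ π Ψ σ hP hP1
  choose n ni hn hni hcol hinv using hF
  have hU : ∀ a, ∀ m ∈ Oc (n := 5) U π Ψ a, π m ∈ U a.1 := fun a m hm => hm.1
  have hf : ∀ a, ∀ m ∈ Oc (n := 5) U π Ψ a,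
      ContMDiffAt 𝓘(ℂ, VM) 𝓘(ℂ, Mt 6) ω (fun q => n a.2 (σ a q)) m :=
    fun a m hm => (hn a.2).contDiffAt.contMDiffAt.comp m (hP.hσ a m hm)
  have hg : ∀ a, ∀ m ∈ Oc (n := 5) U π Ψ a,
      ContMDiffAt 𝓘(ℂ, VM) 𝓘(ℂ, Mt 6) ω (fun q => ni a.2 (σ a q)) m :=
    fun a m hm => (hni a.2).contDiffAt.contMDiffAt.comp m (hP.hσ a m hm)
  have hi := fun a m (hm : m ∈ Oc (n := 5) U π Ψ a) => hinv a.2 (σ a m) (hP1.one a m hm)
  have hσ0 : ∀ a, ∀ m ∈ Oc (n := 5) U π Ψ a, σ a m ≠ 0 := fun a m hm h => by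
    have := hP1.one a m hm
    rw [h] at this
    exact zero_ne_one this
  have hi3 : ∀ a, ∀ m ∈ Oc (n := 5) U π Ψ a,
      ex2k (ni a.2 (σ a m)) * ex2k (n a.2 (σ a m)) = 1 ∧
        ex2k (n a.2 (σ a m)) * ex2k (ni a.2 (σ a m)) = 1 := fun a m hm => by
    rw [ex2k_mul, ex2k_mul, (hi a m hm).1, (hi a m hm).2.1]
    exact ⟨ex2k_one, ex2k_one⟩
  have hc : IsCocycle VM (Oc (n := 5) U π Ψ) (fun a b m => Γ a.1 b.1 (π m)) := by
    refine ⟨hP.op, fun m => ?_, fun a b m hm => ?_, fun a m hm => hB.coc.self _ _ (hU a m hm),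
      fun a b c m hm => hB.coc.comp _ _ _ _ ⟨⟨hU a m hm.1.1, hU b m hm.1.2⟩, hU c m hm.2⟩⟩
    · obtain ⟨c, hc⟩ := hB.coc.cover (π m)
      obtain ⟨i, hi⟩ := hP1.cover m c hc
      exact ⟨_, hi⟩
    · exact (hB.coc.holo a.1 b.1 (π m) ⟨hU a m hm.1, hU b m hm.2⟩).comp m (hP.hπ m)
  have hcon : IsConn (Oc (n := 5) U π Ψ) (fun a b m => Γ a.1 b.1 (π m))
      (fun a => pull (V' := VM) π (θ a.1)) := by
    refine ⟨fun a m hm => (hH BB S R3 (θ a.1) (π m)).2.2.2.2.2.2 VM M π m rfl (hP.hπ m)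
      (hB.con.holo _ _ (hU a m hm)), fun a b m hm u => ?_⟩
    have g1 := hB.con.gauge a.1 b.1 (π m) ⟨hU a m hm.1, hU b m hm.2⟩
      (D 𝓘(ℂ, VM) 𝓘(ℂ, BB) π m u)
    have g2 := D_comp (g := Γ a.1 b.1) (f := π)
      (md (hB.coc.holo a.1 b.1 (π m) ⟨hU a m hm.1, hU b m hm.2⟩)) (md (hP.hπ m))
    rw [mvfderiv_eq_D] at g1 ⊢
    rw [g2]
    exact g1
  have hgau : ∀ a, ∀ m ∈ Oc (n := 5) U π Ψ a, ∀ u,
      gau (fun q => ex2k (n a.2 (σ a q))) (fun q => ex2k (ni a.2 (σ a q)))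
        (pull (V' := VM) π (θ a.1)) m u =
      ((θ a.1 (π m) (D 𝓘(ℂ, VM) 𝓘(ℂ, BB) π m u)).1, (θ a.1 (π m) (D 𝓘(ℂ, VM) 𝓘(ℂ, BB) π m u)).2.1,
        ni a.2 (σ a m) * (θ a.1 (π m) (D 𝓘(ℂ, VM) 𝓘(ℂ, BB) π m u)).2.2 * n a.2 (σ a m) +
          ni a.2 (σ a m) * D 𝓘(ℂ, VM) 𝓘(ℂ, Mt 6) (fun q => n a.2 (σ a q)) m u) :=
    fun a m hm u => ex2k_gau (hf a m hm) _ _ u
  have hcur : ∀ a, ∀ m ∈ Oc (n := 5) U π Ψ a, ∀ u v,
      Curv (gau (fun q => ex2k (n a.2 (σ a q))) (fun q => ex2k (ni a.2 (σ a q)))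
        (pull (V' := VM) π (θ a.1))) m u v = ex2k (ni a.2 (σ a m)) * Curv (θ a.1) (π m)
          (D 𝓘(ℂ, VM) 𝓘(ℂ, BB) π m u) (D 𝓘(ℂ, VM) 𝓘(ℂ, BB) π m v) * ex2k (n a.2 (σ a m)) := by
    intro a m hm u v
    have h5 : Curv (pull (V' := VM) π (θ a.1)) m u v = Curv (θ a.1) (π m)
        (D 𝓘(ℂ, VM) 𝓘(ℂ, BB) π m u) (D 𝓘(ℂ, VM) 𝓘(ℂ, BB) π m v) := by
      unfold Curv
      rw [hN BB S R3 (θ a.1) VM M π m (hP.hπ m) (hB.con.holo _ _ (hU a m hm))]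
      rfl
    rw [← h5]
    exact (hG VM M R3 _ _ _ m (hcon.holo a m hm) (ex2k_cm (hf a m hm)) (ex2k_cm (hg a m hm))
      (mem_of_superset ((hP.op a).mem_nhds hm) fun q hq => hi3 a q hq)).2 u v
  refine ⟨fun a b m => ex2k (ni b.2 (σ b m)) * Γ a.1 b.1 (π m) * ex2k (n a.2 (σ a m)),
    fun a => gau (fun q => ex2k (n a.2 (σ a q))) (fun q => ex2k (ni a.2 (σ a q)))
      (pull (V' := VM) π (θ a.1)),
    ex2_coc hc (fun a m hm => ex2k_cm (hf a m hm)) (fun a m hm => ex2k_cm (hg a m hm)) hi3,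
    ex2_con hG hc hcon (fun a m hm => ex2k_cm (hf a m hm)) (fun a m hm => ex2k_cm (hg a m hm)) hi3,
    fun a b m hm => ?_, fun a m hm u => ?_, fun a m hm u h => ?_, fun a m hm u v => ?_,
    fun a m hm u v h1 h2 => ?_⟩
  · have hp : π m ∈ U a.1 ∩ U b.1 := ⟨hU a m hm.1, hU b m hm.2⟩
    obtain ⟨d1, d2, d3⟩ := hB.det _ _ _ hp
    obtain ⟨t1, t2⟩ := hB.tri _ _ _ hp
    have d4 : (ni b.2 (σ b m)).det = 1 := by
      have := congrArg Matrix.det (hi b m hm.2).1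
      rwa [Matrix.det_mul, (hi b m hm.2).2.2, mul_one, Matrix.det_one] at this
    have d5 : (ni b.2 (σ b m) * (Γ a.1 b.1 (π m)).2.2 * n a.2 (σ a m)).det = 1 := by
      rw [Matrix.det_mul, Matrix.det_mul, d4, d3, (hi a m hm.1).2.2, mul_one, mul_one]
    have v0 : (Γ a.1 b.1 (π m)).2.2 *ᵥ σ a m ≠ 0 := fun h =>
      hσ0 a m hm.1 (Matrix.eq_zero_of_mulVec_eq_zero (d3.trans_ne one_ne_zero) h)
    have e1 : Ψ b.1 (π m, σ b m) = Ψ b.1 (π m, (Γ a.1 b.1 (π m)).2.2 *ᵥ σ a m) :=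
      (hP1.back b m hm.2).trans
        ((hP.tr a.1 b.1 (π m) hp (σ a m) (hσ0 a m hm.1)).trans (hP1.back a m hm.1)).symm
    obtain ⟨c, e2⟩ := (hP.eqv b.1 (π m) hp.2 _ _ (hσ0 b m hm.2) v0).1 e1
    have two : ∀ i : Fin 2, i ≠ 0 → i = 1 := by decide
    refine ⟨⟨(⟨_, d1⟩, ⟨_, d2⟩, ⟨_, d5⟩), fun i h => ?_, fun i h => ?_, fun i h => ?_⟩, ?_⟩
    · obtain rfl := two i h
      exact t1
    · obtain rfl := two i h
      exact t2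
    · show (ni b.2 (σ b m) * (Γ a.1 b.1 (π m)).2.2 * n a.2 (σ a m)) i 0 = 0
      have e3 : (ni b.2 (σ b m) *ᵥ σ b m) i = 0 := by
        have := ex2_col (ni b.2 (σ b m)) (n b.2 (σ b m)) i
        rw [(hi b m hm.2).1, Matrix.one_apply_ne h, funext (hcol b.2 (σ b m))] at this
        exact this.symm
      rw [ex2_col, funext (hcol a.2 (σ a m)), ← Matrix.mulVec_mulVec]
      show (ni b.2 (σ b m) *ᵥ ((Γ a.1 b.1 (π m)).2.2 *ᵥ σ a m)) i = 0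
      rw [e2, Matrix.mulVec_smul, Pi.smul_apply, e3, smul_zero]
    · refine Prod.ext ?_ (Prod.ext ?_ ?_) <;> simp [ex2k]
  · obtain ⟨t1, t2, t3⟩ := hB.trf a.1 (π m) (hU a m hm) (D 𝓘(ℂ, VM) 𝓘(ℂ, BB) π m u)
    rw [hgau a m hm u]
    refine ⟨t1, t2, ?_⟩
    have j := hJ 6 VM M (fun q => n a.2 (σ a q)) (ni a.2 (σ a m)) m (hf a m hm)
      (mem_of_superset ((hP.op a).mem_nhds hm) fun q hq => (hi a q hq).2.2) (hi a m hm).1 u
    show Matrix.trace (_ + _) = 0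
    rw [Matrix.trace_add, j, add_zero, Matrix.trace_mul_comm, ← mul_assoc, (hi a m hm).2.1, one_mul]
    exact t3
  · rw [hgau a m hm u] at h
    have z : D 𝓘(ℂ, VM) 𝓘(ℂ, BB) π m u = 0 :=
      hB.nd a.1 (π m) (hU a m hm) _ (congrArg (·.1.1) h) (congrArg (·.1.2) h)
    have h3 := congrArg (·.2) h
    rw [z, map_zero] at h3
    have h4 : ∀ k : Fin 5, (ni a.2 (σ a m) *
        D 𝓘(ℂ, VM) 𝓘(ℂ, Mt 6) (fun q => n a.2 (σ a q)) m u) k.succ 0 = 0 := fun k => by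
      simpa [Pc] using congrFun h3 k
    have h5 : D 𝓘(ℂ, VM) 𝓘(ℂ, E6) (σ a) m u = (ni a.2 (σ a m) *
        D 𝓘(ℂ, VM) 𝓘(ℂ, Mt 6) (fun q => n a.2 (σ a q)) m u) 0 0 • σ a m := by
      funext j
      have e1 : D 𝓘(ℂ, VM) 𝓘(ℂ, E6) (σ a) m u j =
          D 𝓘(ℂ, VM) 𝓘(ℂ, Mt 6) (fun q => n a.2 (σ a q)) m u j 0 := by
        rw [D_ent (md (hf a m hm)), funext fun q => hcol a.2 (σ a q) j]
        exact (congrArg (fun L : VM →L[ℂ] ℂ => L u) (D_clm_comp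
          (ContinuousLinearMap.proj (R := ℂ) (φ := fun _ : Fin 6 => ℂ) j)
          (md (hP.hσ a m hm)))).symm
      have e2 : D 𝓘(ℂ, VM) 𝓘(ℂ, Mt 6) (fun q => n a.2 (σ a q)) m u j 0 = (n a.2 (σ a m) *
          (ni a.2 (σ a m) * D 𝓘(ℂ, VM) 𝓘(ℂ, Mt 6) (fun q => n a.2 (σ a q)) m u)) j 0 := by
        rw [← mul_assoc, (hi a m hm).2.1, one_mul]
      rw [e1, e2, Matrix.mul_apply, Fin.sum_univ_succ, Finset.sum_eq_zero fun k _ => by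
        rw [h4 k, mul_zero], add_zero, hcol, Pi.smul_apply, smul_eq_mul, mul_comm]
    have h6 := hP1.dback a m hm u
    rw [z] at h6
    exact h6.symm.trans ((hP1.dker a.1 (π m) (hU a m hm) _ (hσ0 a m hm) _ _).2 ⟨rfl, _, h5⟩)
  · obtain ⟨t1, t2⟩ := hB.cur a.1 (π m) (hU a m hm) (D 𝓘(ℂ, VM) 𝓘(ℂ, BB) π m u)
      (D 𝓘(ℂ, VM) 𝓘(ℂ, BB) π m v)
    rw [hcur a m hm u v]
    constructor
    · rw [Prod.fst_mul, Prod.fst_mul, t1, mul_zero, zero_mul]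
    · rw [Prod.snd_mul, Prod.snd_mul, Prod.fst_mul, Prod.fst_mul, t2, mul_zero, zero_mul]
  · rw [hgau a m hm u] at h1 h2
    have z : D 𝓘(ℂ, VM) 𝓘(ℂ, BB) π m u = 0 := hB.nd a.1 (π m) (hU a m hm) _ h1 h2
    obtain ⟨β, hβ⟩ := (hD BB S R3 (θ a.1) (π m) (hB.con.holo _ _ (hU a m hm))).1
    rw [hcur a m hm u v, z, Curv, hβ]
    simp

end Pool.Agent.Lib.ATQ
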