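import Pool.Agent.Lib.ATQ.Tools

/-! Project atq, row EX6: the connection on the rank six bundle. -/

open scoped Manifold ContDiff Topology Matrix.Norms.Operator Matrix
open Set Filter

noncomputable section

namespace Pool.Agent.Lib.ATQ

open Pool.Agent.Lib.MP_ad9325_ag

namespace T72

/-- The shape of the connection matrices on the curve. -/
def Ag (m a b c d e f g : ℂ) : Mt 6 :=
  !![0, 0, 0, 0, a, b; m, 0, 0, 0, 0, c; 0, 0, 0, 0, 0, 0; 0, 0, 0, 0, 0, 0;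
    0, 0, 0, 0, d, e; 0, 0, 0, 0, f, g]

/-- The elementary matrix of the correction term. -/
abbrev E23 : Mt 6 := Matrix.single 2 3 1

theorem key0 (m a b c d e f g x y : ℂ) (hx : x ≠ 0) (hy : y ≠ 0) :
    cj (gY x y) * (Ag m a b c d e f g + (m * x) • E23) =
      (Ag m a b c d e f g + (m * (x ^ 5 / y ^ 2)) • E23) * cj (gY x y) := by
  ext i j
  fin_cases i <;> fin_cases j <;>
    simp [cj, sw, gY, Ag, Matrix.mul_apply, Fin.sum_univ_six, Matrix.single_apply] <;>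
    field_simp

theorem key1 (m a b c d e f g x y : ℂ) (hx : x ≠ 0) (hy : y ≠ 0) :
    cj (gYi x y) * (Ag m a b c d e f g + (m * (x ^ 5 / y ^ 2)) • E23) =
      (Ag m a b c d e f g + (m * x) • E23) * cj (gYi x y) := by
  ext i j
  fin_cases i <;> fin_cases j <;>
    simp [cj, sw, gYi, Ag, Matrix.mul_apply, Fin.sum_univ_six, Matrix.single_apply] <;>
    field_simp

theorem com0 (x y : ℂ) : gY x y * E23 = E23 * gY x y := by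
  ext i j
  fin_cases i <;> fin_cases j <;>
    simp [gY, Matrix.mul_apply, Matrix.single_apply]

theorem com1 (x y : ℂ) : gYi x y * E23 = E23 * gYi x y := by
  ext i j
  fin_cases i <;> fin_cases j <;>
    simp [gYi, Matrix.mul_apply, Matrix.single_apply]

variable {X : Type} [TopologicalSpace X] [ChartedSpace ℂ X] (C : CD X)

theorem aY_shape (b : Bool) (Q : X) (v : ℂ) : ∃ a₁ a₂ a₃ a₄ a₅ a₆ a₇ : ℂ,
    C.aY b Q v = Ag (-(C.xs b Q / 2) * C.η b Q v) a₁ a₂ a₃ a₄ a₅ a₆ a₇ := by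
  refine ⟨C.aY b Q v 0 4, C.aY b Q v 0 5, C.aY b Q v 1 5, C.aY b Q v 4 4, C.aY b Q v 4 5,
    C.aY b Q v 5 4, C.aY b Q v 5 5, ?_⟩
  cases b
  · ext i j
    fin_cases i <;> fin_cases j <;> simp [Ag, CD.aY, CD.xs, A0, mul_comm]
  · ext i j
    fin_cases i <;> fin_cases j <;> simp [Ag, CD.aY, CD.xs, A1, dg, mul_comm]

theorem aZ_apply (a b : Bool) (P Q : X) (v : ℂ) :
    C.aZ a b P Q v = C.aY b Q v + ((-(C.xs b Q / 2) * C.η b Q v) * C.xs a P) • E23 := by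
  simp only [CD.aZ, add_apply, ContinuousLinearMap.smulRight_apply, smul_smul]
  congr 2
  ring

theorem ov {P : X} (h0 : P ∈ C.U false) (h1 : P ∈ C.U true) :
    C.x P ≠ 0 ∧ C.y P ≠ 0 ∧ C.t P = C.x P ^ 2 / C.y P ∧ C.ξ P = C.x P ^ 5 / C.y P ^ 2 :=
  ⟨((C.ov P h0).1 h1).1, ((C.ov P h0).1 h1).2, (C.tx P h0 h1).1, (C.tx P h0 h1).2⟩

theorem fact2 (a a' b : Bool) {P : X} (Q : X) (h : P ∈ C.U a ∩ C.U a') (v : ℂ) :
    cj (C.tr a a' P) * C.aZ a b P Q v = C.aZ a' b P Q v * cj (C.tr a a' P) := by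
  obtain ⟨a₁, a₂, a₃, a₄, a₅, a₆, a₇, e⟩ := aY_shape C b Q v
  rw [aZ_apply, aZ_apply, e]
  cases a <;> cases a'
  · simp [CD.tr, cj_one]
  · obtain ⟨hx, hy, -, hξ⟩ := ov C h.1 h.2
    have := key0 (-(C.xs b Q / 2) * C.η b Q v) a₁ a₂ a₃ a₄ a₅ a₆ a₇ _ _ hx hy
    rw [← hξ] at this
    exact this
  · obtain ⟨hx, hy, -, hξ⟩ := ov C h.2 h.1
    have := key1 (-(C.xs b Q / 2) * C.η b Q v) a₁ a₂ a₃ a₄ a₅ a₆ a₇ _ _ hx hy
    rw [← hξ] at this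
    exact this
  · simp [CD.tr, cj_one]

theorem xs_eta (hE : C.Eta) {Q : X} (h0 : Q ∈ C.U false) (h1 : Q ∈ C.U true) (v : ℂ) :
    -(C.xs false Q / 2) * C.η false Q v = -(C.xs true Q / 2) * C.η true Q v := by
  obtain ⟨hx, hy, ht, hξ⟩ := ov C h0 h1
  rw [← hE.ov Q h0 h1 v, ht]
  simp only [CD.xs, hξ]
  field_simp

theorem fact1 (hE : C.Eta) (h0 : IsConn C.U C.tr C.aY) (a b b' : Bool) (P : X) {Q : X}
    (h : Q ∈ C.U b ∩ C.U b') (v : ℂ) :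
    C.tr b b' Q * C.aZ a b P Q v =
      C.aZ a b' P Q v * C.tr b b' Q + D 𝓘(ℂ, ℂ) 𝓘(ℂ, Mt 6) (C.tr b b') Q v := by
  have g := h0.gauge b b' Q h v
  rw [mvfderiv_eq_D] at g
  have e : -(C.xs b Q / 2) * C.η b Q v = -(C.xs b' Q / 2) * C.η b' Q v := by
    cases b <;> cases b'
    · rfl
    · exact xs_eta C hE h.1 h.2 v
    · exact (xs_eta C hE h.2 h.1 v).symm
    · rfl
  have c : C.tr b b' Q * E23 = E23 * C.tr b b' Q := by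
    cases b <;> cases b'
    · simp [CD.tr]
    · exact com0 _ _
    · exact com1 _ _
    · simp [CD.tr]
  rw [aZ_apply, aZ_apply, mul_add, add_mul, g, e, mul_smul_comm, smul_mul_assoc, c]
  abel

theorem xs_holo (a : Bool) {P : X} (h : P ∈ C.U a) :
    ContMDiffAt 𝓘(ℂ, ℂ) 𝓘(ℂ, ℂ) ω (C.xs a) P := by
  cases a
  · exact C.hx P h
  · exact C.hξ P h

theorem holo_part (hH : St_HOL) (hE : C.Eta) (h0 : IsConn C.U C.tr C.aY) (a b : Bool)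
    (g₁ g₂ : SS X → X) (h₁ : ContMDiff 𝓘(ℂ, BB) 𝓘(ℂ, ℂ) ω g₁)
    (h₂ : ContMDiff 𝓘(ℂ, BB) 𝓘(ℂ, ℂ) ω g₂) (L : BB →L[ℂ] ℂ)
    (hL : ∀ q, D 𝓘(ℂ, BB) 𝓘(ℂ, ℂ) g₂ q = L) {p : SS X} (ha : g₁ p ∈ C.U a) (hb : g₂ p ∈ C.U b) :
    HoloAt (fun q => (C.aZ a b (g₁ q) (g₂ q)).comp L) p := by
  have := C.mfd
  have := ss_mfd (X := X)
  have k1 : HoloAt (pull (V' := BB) g₂ (C.aY b)) p :=
    (hH ℂ X (Mt 6) (C.aY b) (g₂ p)).2.2.2.2.2.2 BB (SS X) g₂ p rfl (h₂ p) (h0.holo b _ hb)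
  have k2 : HoloAt (pull (V' := BB) g₂ (C.η b)) p :=
    (hH ℂ X ℂ (C.η b) (g₂ p)).2.2.2.2.2.2 BB (SS X) g₂ p rfl (h₂ p) (hE.holo b _ hb)
  have f1 : ContMDiffAt 𝓘(ℂ, BB) 𝓘(ℂ, ℂ) ω (fun q => C.xs a (g₁ q)) p :=
    (xs_holo C a ha).comp p (h₁ p)
  have f2 : ContMDiffAt 𝓘(ℂ, BB) 𝓘(ℂ, ℂ) ω (fun q => C.xs b (g₂ q)) p :=
    (xs_holo C b hb).comp p (h₂ p)
  have f3 : ContMDiffAt 𝓘(ℂ, BB) 𝓘(ℂ, Mt 6) ω
      (fun q => (-(C.xs b (g₂ q) / 2) * C.xs a (g₁ q)) • E23) p :=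
    (cm_mul (cm_div f2 contMDiffAt_const two_ne_zero).neg f1).smul contMDiffAt_const
  have k3 := (hH BB (SS X) ℂ (pull (V' := BB) g₂ (C.η b)) p).2.2.2.1 (Mt 6) (Mt 6)
    (ContinuousLinearMap.lsmul ℂ ℂ).flip _ f3 k2
  have k4 := (hH BB (SS X) (Mt 6) _ p).2.1 _ k1 k3
  convert k4 using 2 with q
  refine ContinuousLinearMap.ext fun w => ?_
  simp [pull, hL, CD.aZ]

end T72

open T72 in
theorem st_EX6 (hH : St_HOL) (hE : St_ETA) (hC : St_COC) (h0 : St_EX0) : St_EX6 := by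
  intro X _ _ C
  have := C.mfd
  have := ss_mfd (X := X)
  have hE := hE X C
  have h0 := h0 X C
  obtain ⟨hc, -, -, hcm, -⟩ := hC X C
  refine ⟨fun c p hp => ?_, fun c d p hp w => ?_⟩
  · have k1 := holo_part C hH hE h0 c.2 c.1 (fun q => q.2) (fun q => q.1) ss_snd ss_fst _
      D_ss_fst hp.2 hp.1
    have k2 := holo_part C hH hE h0 c.1 c.2 (fun q => q.1) (fun q => q.2) ss_fst ss_snd _
      D_ss_snd hp.1 hp.2
    have k3 := (hH BB (SS X) (Mt 6) _ p).2.2.2.1 (Mt 6 →L[ℂ] Mt 6) (Mt 6)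
      (ContinuousLinearMap.id ℂ _) (fun _ => cjL) contMDiffAt_const k1
    exact (hH BB (SS X) (Mt 6) _ p).2.1 _ k3 k2
  · have hP : p.1 ∈ C.U c.1 ∩ C.U d.1 := ⟨hp.1.1, hp.2.1⟩
    have hQ : p.2 ∈ C.U c.2 ∩ C.U d.2 := ⟨hp.1.2, hp.2.2⟩
    have t1 := md (hc.holo c.1 d.1 p.1 hP)
    have t2 := md (hc.holo c.2 d.2 p.2 hQ)
    have s1 : MDifferentiableAt 𝓘(ℂ, BB) 𝓘(ℂ, Mt 6) (fun q : SS X => C.tr c.1 d.1 q.1) p :=
      t1.comp p (md (ss_fst p))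
    have s2 : MDifferentiableAt 𝓘(ℂ, BB) 𝓘(ℂ, Mt 6) (fun q : SS X => C.tr c.2 d.2 q.2) p :=
      t2.comp p (md (ss_snd p))
    have s3 : MDifferentiableAt 𝓘(ℂ, BB) 𝓘(ℂ, Mt 6) (fun q : SS X => cj (C.tr c.1 d.1 q.1)) p :=
      cjL.mdifferentiableAt.comp p s1
    have d1 : ∀ w : BB, D 𝓘(ℂ, BB) 𝓘(ℂ, Mt 6) (fun q : SS X => cj (C.tr c.1 d.1 q.1)) p w =
        cj (D 𝓘(ℂ, ℂ) 𝓘(ℂ, Mt 6) (C.tr c.1 d.1) p.1 w.1) := fun w => by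
      have e := (D_clm_comp cjL s1).trans (congrArg cjL.comp ((D_comp t1 (md (ss_fst p))).trans
        (congrArg (D 𝓘(ℂ, ℂ) 𝓘(ℂ, Mt 6) (C.tr c.1 d.1) p.1).comp (D_ss_fst p))))
      exact congrArg (fun L : BB →L[ℂ] Mt 6 => L w) e
    have d2 : ∀ w : BB, D 𝓘(ℂ, BB) 𝓘(ℂ, Mt 6) (fun q : SS X => C.tr c.2 d.2 q.2) p w =
        D 𝓘(ℂ, ℂ) 𝓘(ℂ, Mt 6) (C.tr c.2 d.2) p.2 w.2 := fun w => by
      have e := (D_comp t2 (md (ss_snd p))).trans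
        (congrArg (D 𝓘(ℂ, ℂ) 𝓘(ℂ, Mt 6) (C.tr c.2 d.2) p.2).comp (D_ss_snd p))
      exact congrArg (fun L : BB →L[ℂ] Mt 6 => L w) e
    have e1 := D_mul s3 s2
    have e2 := D_mul s2 s3
    have e3 : (fun q : SS X => C.tr c.2 d.2 q.2 * cj (C.tr c.1 d.1 q.1)) =
        fun q : SS X => cj (C.tr c.1 d.1 q.1) * C.tr c.2 d.2 q.2 :=
      funext fun q => (hcm _ _ _ _ _ _).symm
    have e4 := (e1 (w.1, 0)).symm.trans (e3 ▸ e2 (w.1, 0))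
    simp only [d1, d2, map_zero, mul_zero, zero_mul, add_zero, zero_add] at e4
    have a1 := fact1 C hE h0 c.1 c.2 d.2 p.1 hQ w.2
    have a2 := fact2 C c.1 d.1 d.2 p.2 hP w.2
    have b1 := congrArg cjL (fact1 C hE h0 c.2 c.1 d.1 p.2 hP w.1)
    have b2 := congrArg cj (fact2 C c.2 d.2 d.1 p.1 hQ w.1)
    rw [map_add] at b1
    simp only [cjL_apply, cj_mul, cj_cj] at b1 b2
    have m := hcm c.1 d.1 c.2 d.2 p.1 p.2
    rw [mvfderiv_eq_D]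
    change (cj (C.tr c.1 d.1 p.1) * C.tr c.2 d.2 p.2) *
        (cj (C.aZ c.2 c.1 p.2 p.1 w.1) + C.aZ c.1 c.2 p.1 p.2 w.2) =
      (cj (C.aZ d.2 d.1 p.2 p.1 w.1) + C.aZ d.1 d.2 p.1 p.2 w.2) *
        (cj (C.tr c.1 d.1 p.1) * C.tr c.2 d.2 p.2) +
      D 𝓘(ℂ, BB) 𝓘(ℂ, Mt 6) (fun q : SS X => cj (C.tr c.1 d.1 q.1) * C.tr c.2 d.2 q.2) p w
    rw [e1, d1, d2, e4, mul_add, add_mul, mul_assoc _ _ (C.aZ c.1 c.2 p.1 p.2 w.2), a1, mul_add,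
      ← mul_assoc, a2, mul_assoc (C.aZ d.1 d.2 p.1 p.2 w.2), m, mul_assoc, b1, mul_add,
      ← mul_assoc, b2, mul_assoc]
    abel

end Pool.Agent.Lib.ATQ
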