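import Pool.Agent.Lib.ATQ.Tools

/-! Project atq: the exterior derivative through vector fields. -/

open scoped Manifold ContDiff Topology Matrix.Norms.Operator Matrix
open Set Filter VectorField

set_option linter.unusedSectionVars false

noncomputable section

namespace Pool.Agent.Lib.ATQ

open Pool.Agent.Lib.MP_ad9325_ag

namespace T90

theorem diff_clm {V F : Type} [NormedAddCommGroup V] [NormedSpace ℂ V] [FiniteDimensional ℂ V]
    [NormedAddCommGroup F] [NormedSpace ℂ F] {W : V → V →L[ℂ] F} {z : V}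
    (h : ∀ u, DifferentiableAt ℂ (fun y => W y u) z) : DifferentiableAt ℂ W z := by
  let e₁ := ContinuousLinearEquiv.ofFinrankEq
    ((Module.finrank_fin_fun ℂ).symm : Module.finrank ℂ V = Module.finrank ℂ (Fin _ → ℂ))
  let e₂ := (e₁.arrowCongr (1 : F ≃L[ℂ] F)).trans (ContinuousLinearEquiv.piRing (Fin _))
  exact e₂.comp_differentiableAt_iff.1 (differentiableAt_pi.2 fun i => h _)

end T90

set_option backward.isDefEq.respectTransparency false in
theorem st_FORM : St_FORM := by
  intro V _ _ _ N _ _ _ e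
  refine ⟨fun u => ⟨FiberBundle.extend V (show TangentSpace 𝓘(ℂ, V) e from u),
    FiberBundle.contMDiffAt_extend 𝓘(ℂ, V) V _, FiberBundle.extend_apply_self _ _⟩, ?_⟩
  intro F _ _ w X Y hw hX hY
  have : CompleteSpace V := FiniteDimensional.complete ℂ V
  set φ := extChartAt 𝓘(ℂ, V) e with hφ
  have hr : range 𝓘(ℂ, V) = univ := by simp
  have h1 : φ.symm (φ e) = e := extChartAt_to_inv e
  let W : V → V →L[ℂ] F := fun z => (w (φ.symm z)).comp (mfderiv 𝓘(ℂ, V) 𝓘(ℂ, V) φ.symm z)
  have hW : DifferentiableAt ℂ W (φ e) := T90.diff_clm fun u => (hw u).differentiableAt (by simp)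
  have hW0 : W (φ e) = w e := by
    have := mfderivWithin_range_extChartAt_symm (I := 𝓘(ℂ, V)) (x := e)
    rw [hr, mfderivWithin_univ] at this
    simp only [W]
    rw [this, h1]
    rfl
  let P (Z : (y : N) → TangentSpace 𝓘(ℂ, V) y) : V → V :=
    mpullbackWithin 𝓘(ℂ, V) 𝓘(ℂ, V) φ.symm Z (range 𝓘(ℂ, V))
  have hP : ∀ Z, VF V Z e → DifferentiableAt ℂ (P Z) (φ e) := by
    intro Z hZ
    have := ((md hZ).mdifferentiableWithinAt
      (s := univ)).differentiableWithinAt_mpullbackWithin_vectorField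
    rw [hr] at this
    simpa [differentiableWithinAt_univ, P, hr, hφ] using this
  have hPx : ∀ Z : (y : N) → TangentSpace 𝓘(ℂ, V) y, P Z (φ e) = Z e := by
    intro Z
    simp only [P, mpullbackWithin_apply]
    refine Eq.trans ?_ (mfderivWithin_extChartAt_symm_inverse_apply (I := 𝓘(ℂ, V)) (x := e) (Z e))
    congr 1
    rw [h1]
  have key : ∀ Z : (y : N) → TangentSpace 𝓘(ℂ, V) y,
      (fun z => W z (P Z z)) =ᶠ[𝓝 (φ e)] (fun y => w y (Z y)) ∘ φ.symm := by
    intro Z
    filter_upwards [extChartAt_target_mem_nhds (I := 𝓘(ℂ, V)) e] with z hz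
    have h4 := isInvertible_mfderivWithin_extChartAt_symm hz
    simp only [Function.comp_apply, W, P, mpullbackWithin_apply, ContinuousLinearMap.comp_apply]
    congr 1
    rw [← mfderivWithin_univ, ← hr]
    exact h4.self_apply_inverse _
  have key2 : ∀ Z, VF V Z e → ∀ u : V, mvfderiv 𝓘(ℂ, V) (fun y => w y (Z y)) e u =
      fderiv ℂ W (φ e) u (Z e) + w e (fderiv ℂ (P Z) (φ e) u) := by
    intro Z hZ u
    have hd2 : DifferentiableAt ℂ ((fun y => w y (Z y)) ∘ φ.symm) (φ e) :=
      (hW.clm_apply (hP Z hZ)).congr_of_eventuallyEq (key Z).symm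
    have hm : MDifferentiableAt 𝓘(ℂ, V) 𝓘(ℂ, F) (fun y => w y (Z y)) e := by
      have h6 : MDifferentiableAt 𝓘(ℂ, V) 𝓘(ℂ, F) (((fun y => w y (Z y)) ∘ φ.symm) ∘ φ) e :=
        hd2.mdifferentiableAt.comp e (mdifferentiableAt_extChartAt (mem_chart_source V e))
      refine h6.congr_of_eventuallyEq ?_
      filter_upwards [extChartAt_source_mem_nhds (I := 𝓘(ℂ, V)) e] with y hy
      simp only [Function.comp_apply]
      rw [φ.left_inv hy]
    have h7 : mvfderiv 𝓘(ℂ, V) (fun y => w y (Z y)) e = fderiv ℂ (fun z => W z (P Z z)) (φ e) := by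
      rw [hm.mvfderiv, (key Z).fderiv_eq, hr, fderivWithin_univ]
      simp [writtenInExtChartAt, hφ]
    rw [h7, fderiv_clm_apply hW (hP Z hZ), hW0, hPx, add_comm]
    rfl
  have key3 : ∀ u v : V, fderiv ℂ (formIn w e v) (chartAt V e e) u = fderiv ℂ W (φ e) u v := by
    intro u v
    have := fderiv_clm_apply hW (differentiableAt_const v)
    rw [show formIn w e v = fun y => W y v from rfl, show chartAt V e e = φ e from rfl, this]
    simp
  have key4 : mlieBracket 𝓘(ℂ, V) X Y e =
      fderiv ℂ (P Y) (φ e) (X e) - fderiv ℂ (P X) (φ e) (Y e) := by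
    rw [← hPx X, ← hPx Y, ← mlieBracketWithin_univ, mlieBracketWithin_apply,
      mfderiv_extChartAt_self]
    simp [P, hφ]
    rfl
  refine (congrArg₂ (· - ·) (congrArg₂ (· - ·) (key2 Y hY (X e)) (key2 X hX (Y e)))
    ((congrArg (w e) key4).trans (map_sub (w e) _ _))).trans ?_
  rw [dF, key3, key3]
  abel

end Pool.Agent.Lib.ATQ
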