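import Pool.Agent.Lib.ATQ.Tools

open scoped Manifold ContDiff Topology Matrix.Norms.Operator Matrix
open Set Filter

noncomputable section

namespace Pool.Agent.Lib.ATQ

open Pool.Agent.Lib.MP_ad9325_ag

namespace T8

theorem perm (i : Fin 6) : ∃ p : Mt 6, p.det = 1 ∧ ∀ k, p k 0 = (Pi.single i 1 : E6) k := by
  rcases eq_or_ne i 0 with rfl | h
  · exact ⟨1, Matrix.det_one, fun k => by rw [Matrix.one_apply, Pi.single_apply]⟩
  · refine ⟨Matrix.transvection 0 i (-1) * Matrix.transvection i 0 1, ?_, fun k => ?_⟩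
    · rw [Matrix.det_mul, Matrix.det_transvection_of_ne _ _ h.symm,
        Matrix.det_transvection_of_ne _ _ h, mul_one]
    · rw [Matrix.mul_transvection_apply_same]
      rcases eq_or_ne k 0 with rfl | hk
      · simp [Matrix.transvection, h, h.symm]
      · simp [Matrix.transvection, hk, hk.symm, Matrix.one_apply, Pi.single_apply]

end T8

theorem st_FRM : St_FRM := by
  intro i
  obtain ⟨p, h1, h2⟩ := T8.perm i
  have hu : IsUnit p.det := h1 ▸ isUnit_one
  let N : E6 → Mt 6 := fun s => Matrix.vecMulVec (s - Pi.single i 1) (Pi.single i 1)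
  have hN : ContDiff ℂ ω N := contDiff_iff_contDiffAt.mpr fun z => cd_mat fun a b => by
    simp only [N, Matrix.vecMulVec_apply, Pi.sub_apply]
    fun_prop
  refine ⟨fun s => (1 + N s) * p, fun s => p⁻¹ * (1 - N s), (contDiff_const.add hN).mul contDiff_const,
    contDiff_const.mul (contDiff_const.sub hN), fun s k => ?_, fun s hs => ?_⟩
  · simp [Matrix.mul_apply, h2, N, Matrix.vecMulVec_apply, Pi.single_apply, Matrix.one_apply]
  · have h3 : (Pi.single i 1 : E6) ⬝ᵥ (s - Pi.single i 1) = 0 := by simp [hs]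
    have h4 : N s * N s = 0 := by
      simp only [N, Matrix.vecMulVec_mul_vecMulVec, h3, zero_smul, Matrix.vecMulVec_zero]
    have h5 : (1 - N s) * (1 + N s) = 1 := by rw [sub_mul, one_mul, mul_add, mul_one, h4]; abel
    have h6 : p⁻¹ * (1 - N s) * ((1 + N s) * p) = 1 := by
      rw [mul_assoc, ← mul_assoc (1 - N s), h5, one_mul, Matrix.nonsing_inv_mul _ hu]
    refine ⟨h6, mul_eq_one_comm.mp h6, ?_⟩
    rw [Matrix.det_mul, h1, mul_one]
    simp only [N]
    rw [Matrix.vecMulVec_eq Unit, Matrix.det_one_add_replicateCol_mul_replicateRow, h3, add_zero]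

end Pool.Agent.Lib.ATQ
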