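import Pool.Agent.Lib.ATQ.Tools

/-! Project atq: the square of the curve maps to a product of projective spaces. -/

open scoped Manifold ContDiff Topology Matrix.Norms.Operator Matrix
open Set Filter

noncomputable section

namespace Pool.Agent.Lib.ATQ

open Pool.Agent.Lib.MP_ad9325_ag

namespace T32

variable {X : Type} [TopologicalSpace X] [ChartedSpace ℂ X]

theorem D_co {F : X → Fin 4 → ℂ} {P : X} (h : ContMDiffAt 𝓘(ℂ, ℂ) 𝓘(ℂ, Fin 4 → ℂ) ω F P) (u : ℂ)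
    (i : Fin 4) : D 𝓘(ℂ, ℂ) 𝓘(ℂ, Fin 4 → ℂ) F P u i = D 𝓘(ℂ, ℂ) 𝓘(ℂ, ℂ) (fun q => F q i) P u :=
  (congrArg (fun L : ℂ →L[ℂ] ℂ => L u)
    (D_clm_comp (ContinuousLinearMap.proj (R := ℂ) (φ := fun _ : Fin 4 => ℂ) i) (md h))).symm

theorem cm4 {a b c d : X → ℂ} {P : X} (ha : ContMDiffAt 𝓘(ℂ, ℂ) 𝓘(ℂ, ℂ) ω a P)
    (hb : ContMDiffAt 𝓘(ℂ, ℂ) 𝓘(ℂ, ℂ) ω b P) (hc : ContMDiffAt 𝓘(ℂ, ℂ) 𝓘(ℂ, ℂ) ω c P)
    (hd : ContMDiffAt 𝓘(ℂ, ℂ) 𝓘(ℂ, ℂ) ω d P) :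
    ContMDiffAt 𝓘(ℂ, ℂ) 𝓘(ℂ, Fin 4 → ℂ) ω (fun q => ![a q, b q, c q, d q]) P :=
  contMDiffAt_pi_space.2 fun i => by fin_cases i <;> assumption

theorem lin (L : ℂ →L[ℂ] ℂ) (u : ℂ) : L u = u * L 1 := by
  rw [← smul_eq_mul, ← map_smul, smul_eq_mul, mul_one]

theorem curve (C : CD X) : ∃ l : X → Fin 4 → ℂ, ∀ P, ∃ F, Lift ℂ l F P ∧
    ∀ u : ℂ, (∃ a : ℂ, D 𝓘(ℂ, ℂ) 𝓘(ℂ, Fin 4 → ℂ) F P u = a • F P) → u = 0 := by
  classical
  have := C.t2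
  refine ⟨fun P => if P = C.inf then ![0, 0, 0, 1] else ![1, C.x P, C.x P ^ 2, C.y P], fun P => ?_⟩
  by_cases hP : P = C.inf
  · subst hP
    have ht := C.ht _ C.inf_mem
    have hξ := C.hξ _ C.inf_mem
    have hF := cm4 (cm_pow ht 5) (cm_mul (cm_pow ht 3) hξ) (cm_mul ht (cm_pow hξ 2)) (cm_pow hξ 2)
    refine ⟨_, ⟨hF, ?_⟩, ?_⟩
    · filter_upwards [C.op.mem_nhds C.inf_mem] with Q hQ
      by_cases h : Q = C.inf
      · subst h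
        refine ⟨fun h0 => ?_, 1, one_ne_zero, ?_⟩
        · simpa [C.ξ_inf] using congrFun h0 3
        · simp [C.t_inf, C.ξ_inf]
      · obtain ⟨h1, h2⟩ := (C.ov Q h).1 hQ
        obtain ⟨h3, h4⟩ := C.tx Q h hQ
        have h5 : C.t Q ≠ 0 := by rw [h3]; exact div_ne_zero (pow_ne_zero _ h1) h2
        refine ⟨fun h0 => ?_, (C.t Q ^ 5)⁻¹, inv_ne_zero (pow_ne_zero _ h5), ?_⟩
        · exact h5 (by simpa using congrFun h0 0)
        · simp only [if_neg h]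
          ext i
          fin_cases i <;> simp [h3, h4] <;> field_simp
    · rintro u ⟨a, ha⟩
      have h2 := congrFun ha 2
      rw [D_co hF] at h2
      have h3 := D_mul (md ht) (md (cm_pow hξ 2)) u
      simp only [C.t_inf, C.ξ_inf, zero_mul, one_pow, mul_one, add_zero] at h3
      have h4 : D 𝓘(ℂ, ℂ) 𝓘(ℂ, ℂ) C.t C.inf u = 0 := by
        rw [← h3]
        refine h2.trans ?_
        simp [C.t_inf]
      rw [lin] at h4
      exact (mul_eq_zero.1 h4).resolve_right C.imm1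
  · have hx := C.hx P hP
    have hF := cm4 (a := fun _ => 1) contMDiffAt_const hx (cm_pow hx 2) (C.hy P hP)
    refine ⟨_, ⟨hF, ?_⟩, ?_⟩
    · filter_upwards [isOpen_ne.mem_nhds hP] with Q hQ
      exact ⟨fun h0 => by simpa using congrFun h0 0, 1, one_ne_zero, by simp [hQ]⟩
    · rintro u ⟨a, ha⟩
      have h0 := congrFun ha 0
      have h1 := congrFun ha 1
      have h3 := congrFun ha 3
      rw [D_co hF] at h0 h1 h3
      have a0 : a = 0 := by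
        have e : D 𝓘(ℂ, ℂ) 𝓘(ℂ, ℂ) (fun _ : X => (1 : ℂ)) P u = a * 1 := h0
        rw [D_const] at e
        simpa using e.symm
      subst a0
      have e1 : D 𝓘(ℂ, ℂ) 𝓘(ℂ, ℂ) C.x P u = 0 := h1.trans (by simp)
      have e3 : D 𝓘(ℂ, ℂ) 𝓘(ℂ, ℂ) C.y P u = 0 := h3.trans (by simp)
      rw [lin] at e1 e3
      by_contra hu
      exact C.imm0 P hP ((mul_eq_zero.1 e1).resolve_left hu) ((mul_eq_zero.1 e3).resolve_left hu)

theorem lift_comp {l F : X → Fin 4 → ℂ} {f : SS X → X} (hf : ContMDiff 𝓘(ℂ, BB) 𝓘(ℂ, ℂ) ω f)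
    {p : SS X} (h : Lift ℂ l F (f p)) : Lift BB (fun q => l (f q)) (fun q => F (f q)) p :=
  ⟨h.1.comp p (hf p), hf.continuous.continuousAt.eventually h.2⟩

end T32

open T32 in
theorem st_FSX : St_FSX := by
  intro X _ _ C
  obtain ⟨l, hl⟩ := curve C
  refine ⟨fun q => l q.1, fun q => l q.2, fun p => ?_⟩
  obtain ⟨F, a1, a2⟩ := hl p.1
  obtain ⟨G, b1, b2⟩ := hl p.2
  refine ⟨_, _, lift_comp ss_fst a1, lift_comp ss_snd b1, fun u h1 h2 => Prod.ext (a2 _ ?_) (b2 _ ?_)⟩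
  · rwa [D_comp (f := fun q : SS X => q.1) (md a1.1) (md (ss_fst p)), D_ss_fst] at h1
  · rwa [D_comp (f := fun q : SS X => q.2) (md b1.1) (md (ss_snd p)), D_ss_snd] at h2

end Pool.Agent.Lib.ATQ
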