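import Pool.Agent.Lib.ATQ.Tools
import Pool.Agent.Lib.AD86.End

/-! Project atq: function theory on the curve. -/

open scoped Manifold ContDiff Topology Matrix.Norms.Operator Matrix
open Set Filter

noncomputable section

namespace Pool.Agent.Lib.ATQ

open Pool.Agent.Lib.MP_ad9325_ag Pool.Agent.Lib.AD86

namespace A86

variable {X : Type} [TopologicalSpace X] [ChartedSpace ℂ X] (C : CD X) {u : X → ℂ}

theorem hol (h : ∀ P, P ≠ C.inf → ContMDiffAt 𝓘(ℂ, ℂ) 𝓘(ℂ, ℂ) ω u P) :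
    Hol fun a b => u (C.pt (a, b)) := Hol.of_arcs fun a b t ha hb e =>
  (contMDiffAt_iff_contDiffAt.1 ((h _ (C.pt_spec _ _ e.self_of_nhds).1).comp t
    (C.pt_holo (fun s => (a s, b s)) t (ha.prod hb).contDiffAt e))).differentiableAt (by simp)

theorem bd (h : ContinuousAt u C.inf) : Bd fun a b => u (C.pt (a, b)) :=
  ⟨‖u C.inf‖ + 1, by positivity,
    C.pt_inf _ (h.norm.eventually (eventually_le_nhds (lt_add_one _)))⟩

theorem far : Far fun a b => C.pt (a, b) ≠ C.inf ∧ C.pt (a, b) ∈ C.U1 ∧ C.x (C.pt (a, b)) = a ∧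
    C.y (C.pt (a, b)) = b ∧ C.t (C.pt (a, b)) = a ^ 2 / b ∧ a ≠ 0 ∧ b ≠ 0 :=
  far_basic.mono fun a b e h => by
    obtain ⟨h1, h2, h3⟩ := C.pt_spec a b e
    have h4 := (C.ov _ h1).2 ⟨h2.symm ▸ h.1, h3.symm ▸ h.2.1⟩
    exact ⟨h1, h4, h2, h3, by rw [(C.tx _ h1 h4).1, h2, h3], h.1, h.2.1⟩

theorem back {α : Type} {f : X → α} {k : α}
    (h : ∀ a b, b ^ 2 = a ^ 5 + 1 → f (C.pt (a, b)) = k) (P : X) (hP : P ≠ C.inf) : f P = k := by
  rw [← h _ _ (C.eq0 P hP), C.pt_xy P hP]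

theorem isg (x y : ℂ) : IsG 0 1 4 5 x y (gY x y) := by
  have : gY x y = gm 0 1 4 5 x y := by
    ext i j
    fin_cases i <;> fin_cases j <;> simp [gY, gm]
  rw [this]
  exact isG (by decide) (by decide) (by decide) (by decide) (by decide) (by decide) x y

end A86

open A86

theorem st_FT : St_FT := fun X _ _ C =>
  ⟨fun u u' h1 h2 h3 => back C (h1_neg (k := 0) (hol C h1) ((bd C h2).congr ((far C).mono
      fun a b _ ⟨c1, c2, _, _, c5, _, _⟩ => by rw [h3 _ c1 c2, c5]; field_simp; ring))).2,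
    fun u u' h1 h2 h3 =>
      let ⟨k, hk⟩ := h0_one (hol C h1) ((bd C h2).congr ((far C).mono
        fun a b _ ⟨c1, c2, _, _, c5, _, _⟩ => by rw [h3 _ c1 c2, c5]))
      ⟨k, back C hk⟩,
    fun u u' k h1 h2 h3 => h1_two (hol C h1) ((bd C h2).congr ((far C).mono
      fun a b _ ⟨c1, c2, c3, c4, c5, _, _⟩ => by rw [h3 _ c1 c2, c5, c3, c4]; ring))⟩

end Pool.Agent.Lib.ATQ
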