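import Pool.Agent.Lib.ATQ.Tools

/-! The curvature of a gauge transform. -/

open scoped Manifold ContDiff Topology Matrix.Norms.Operator Matrix
open Set Filter

noncomputable section

namespace Pool.Agent.Lib.ATQ

open Pool.Agent.Lib.MP_ad9325_ag

theorem st_GAU (hH : St_HOL) (hD : St_DF) : St_GAU := by
  intro V _ _ _ N _ _ _ R _ _ _ θ k ki p hθ hk hki hinv
  obtain ⟨h1, h2⟩ := hinv.self_of_nhds
  let θ1 : N → V →L[ℂ] R := fun q => ((ContinuousLinearMap.mul ℂ R).flip (k q)).comp (θ q)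
  let φ : N → V →L[ℂ] R := fun q => θ1 q + D 𝓘(ℂ, V) 𝓘(ℂ, R) k q
  have e : gau k ki θ = fun q => (ContinuousLinearMap.mul ℂ R (ki q)).comp (φ q) := by
    funext q
    ext u
    simp [gau_apply, φ, θ1, mul_assoc]
  have a1 : HoloAt θ1 p := (hH V N R θ p).2.2.2.1 R R _ k hk hθ
  have a2 : HoloAt (D 𝓘(ℂ, V) 𝓘(ℂ, R) k) p := (hH V N R θ p).2.2.1 k hk
  have a3 : HoloAt φ p := (hH V N R θ1 p).2.1 _ a1 a2
  refine ⟨e ▸ (hH V N R φ p).2.2.2.1 R R _ ki hki a3, fun u v => ?_⟩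
  have b1 : ∀ w, D 𝓘(ℂ, V) 𝓘(ℂ, R) ki p w = -(ki p * D 𝓘(ℂ, V) 𝓘(ℂ, R) k p w * ki p) := by
    intro w
    have c1 := D_mul (md hki) (md hk) w
    rw [D_congr (g := fun _ => (1 : R)) (hinv.mono fun q hq => hq.1), D_const] at c1
    have c2 : D 𝓘(ℂ, V) 𝓘(ℂ, R) ki p w * k p = -(ki p * D 𝓘(ℂ, V) 𝓘(ℂ, R) k p w) :=
      eq_neg_of_add_eq_zero_left c1.symm
    rw [← neg_mul, ← c2, mul_assoc, h2, mul_one]
  have b2 := (hD V N R φ p a3).2.2.2 R R (ContinuousLinearMap.mul ℂ R) ki hki u v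
  have b3 : dF φ p u v = dF θ1 p u v + dF (D 𝓘(ℂ, V) 𝓘(ℂ, R) k) p u v :=
    (hD V N R θ1 p a1).2.1 _ a2 u v
  have b4 := (hD V N R θ p hθ).2.2.1 k hk u v
  have b5 : dF θ1 p u v = _ :=
    (hD V N R θ p hθ).2.2.2 R R (ContinuousLinearMap.mul ℂ R).flip k hk u v
  have b6 : ∀ w, φ p w = θ p w * k p + D 𝓘(ℂ, V) 𝓘(ℂ, R) k p w := fun _ => rfl
  have b7 : ∀ x : R, k p * (ki p * x) = x := fun x => by rw [← mul_assoc, h2, one_mul]
  rw [Curv, Curv, gau_apply, gau_apply, e, b2, b3, b4, b5, b6, b6, b1, b1]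
  simp only [ContinuousLinearMap.mul_apply', ContinuousLinearMap.flip_apply, mul_add, add_mul,
    mul_sub, sub_mul, neg_mul, mul_assoc, b7, add_zero]
  abel

end Pool.Agent.Lib.ATQ
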