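import Pool.Agent.Lib.ATQ.Tools

/-! The principal bundle of a cocycle. -/

open scoped Manifold ContDiff Topology Matrix.Norms.Operator Matrix
open Set Filter

set_option linter.unusedSectionVars false

noncomputable section

namespace Pool.Agent.Lib.ATQ

open Pool.Agent.Lib.MP_ad9325_ag

namespace T76

theorem bun_of {EH V : Type} [NormedAddCommGroup EH] [NormedSpace ℂ EH] [NormedAddCommGroup V]
    [NormedSpace ℂ V] {G : Type} [Group G] [TopologicalSpace G] {H : Subgroup G}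
    [ChartedSpace EH H] [LieGroup 𝓘(ℂ, EH) ω H] {R : Type} [NormedRing R] {val : G →* R} {M : Type}
    [TopologicalSpace M] [ChartedSpace V M] {ι : Type} {O : ι → Set M} {hh : ι → ι → M → R}
    {E : Type} [TopologicalSpace E] [ChartedSpace (V × EH) E] {π : E → M} {r : E → H → E}
    (e : ι → OpenPartialHomeomorph E (M × H)) (op : ∀ a, IsOpen (O a)) (cov : ∀ m, ∃ a, m ∈ O a)
    (h1 : ∀ a, ∀ z ∈ (e a).source,
      ContMDiffAt 𝓘(ℂ, V × EH) (𝓘(ℂ, V).prod 𝓘(ℂ, EH)) ω (e a) z)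
    (h2 : ∀ a, ∀ y ∈ (e a).target,
      ContMDiffAt (𝓘(ℂ, V).prod 𝓘(ℂ, EH)) 𝓘(ℂ, V × EH) ω (e a).symm y)
    (src : ∀ a, (e a).source = π ⁻¹' O a) (tgt : ∀ a, (e a).target = O a ×ˢ univ)
    (fst : ∀ a z, (e a z).1 = π z) (one : ∀ z, r z 1 = z)
    (mul : ∀ z h k, r (r z h) k = r z (h * k)) (prj : ∀ z h, π (r z h) = π z)
    (act : ∀ a z h, (e a (r z h)).2 = (e a z).2 * h)
    (tr : ∀ a b z, π z ∈ O a → π z ∈ O b → val (e b z).2 = hh a b (π z) * val (e a z).2) :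
    Bun EH V val O hh π r fun a z => (e a z).2 := by
  have s1 : ∀ {a z}, π z ∈ O a → z ∈ (e a).source := fun h => by rwa [src]
  have hκ : ∀ a z, π z ∈ O a →
      ContMDiffAt 𝓘(ℂ, V × EH) 𝓘(ℂ, EH) ω (fun z => (e a z).2) z := fun a z hz =>
    contMDiffAt_snd.comp z (h1 a z (s1 hz))
  have hπ : ContMDiff 𝓘(ℂ, V × EH) 𝓘(ℂ, V) ω π := fun z => by
    obtain ⟨a, ha⟩ := cov (π z)
    rw [← funext (fst a)]
    exact contMDiffAt_fst.comp z (h1 a z (s1 ha))
  refine ⟨⟨hπ, fun p => ?_, one, mul, prj, fun x => ?_⟩, hκ, tr, fun a z h _ => act a z h,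
    fun a z hz => ?_⟩
  · obtain ⟨a, ha⟩ := cov (π p.1)
    have b1 := (hπ p.1).comp p (contMDiffAt_fst (J := 𝓘(ℂ, EH)))
    have b2 := ((hκ a p.1 ha).comp p (contMDiffAt_fst (J := 𝓘(ℂ, EH)))).mul contMDiffAt_snd
    refine ((h2 a _ (by rw [tgt]; exact ⟨ha, trivial⟩)).comp p (b1.prodMk b2)).congr_of_eventuallyEq ?_
    filter_upwards [b1.continuousAt.preimage_mem_nhds ((op a).mem_nhds ha)] with q hq
    rw [← (e a).left_inv (x := r q.1 q.2) (s1 (by rwa [prj]))]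
    exact congrArg (e a).symm (Prod.ext ((fst _ _).trans (prj _ _)) (act _ _ _))
  · obtain ⟨a, ha⟩ := cov x
    exact ⟨O a, ⟨(e a).toPartialEquiv, (e a).open_source, (e a).open_target,
      fun z hz => (h1 a z hz).contMDiffWithinAt, fun y hy => (h2 a y hy).contMDiffWithinAt⟩,
      op a, ha, src a, tgt a, fun z _ => ⟨fst a z, act a z⟩⟩
  · have b1 : (e a).MDifferentiable 𝓘(ℂ, V × EH) (𝓘(ℂ, V).prod 𝓘(ℂ, EH)) :=
      ⟨fun z hz => (md (h1 a z hz)).mdifferentiableWithinAt,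
        fun y hy => (md (h2 a y hy)).mdifferentiableWithinAt⟩
    have b2 := D_prodMk (md (hπ z)) (md (hκ a z hz))
    rw [show (fun y => (π y, (e a y).2)) = e a from funext fun y => Prod.ext (fst a y).symm rfl] at b2
    have b3 : Function.Bijective (D 𝓘(ℂ, V × EH) (𝓘(ℂ, V).prod 𝓘(ℂ, EH)) (e a) z) :=
      b1.mfderiv_bijective (s1 hz)
    rw [b2] at b3
    exact b3

end T76

theorem st_GEO1 (hG : St_GLUE) : St_GEO1 := by
  intro EH F _ _ _ _ G _ _ _ H _ R _ _ val L hP V _ _ M _ _ _ ι O hh hc hk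
  have := hP.model.lieH
  choose! kk hkk using hk
  choose ix hix using hc.cover
  have inj : ∀ k k' : H, val k = val k' → k = k' := fun k k' e => Subtype.ext (hP.inj e)
  have hself : ∀ a, ∀ m ∈ O a, kk a a m = 1 := fun a m hm => inj _ _ (by
    rw [hkk a a m ⟨hm, hm⟩, hc.self a m hm, OneMemClass.coe_one, map_one])
  have hcomp : ∀ a b c, ∀ m ∈ O a ∩ O b ∩ O c, kk b c m * kk a b m = kk a c m :=
    fun a b c m hm => inj _ _ (by
      rw [Subgroup.coe_mul, map_mul, hkk b c m ⟨hm.1.2, hm.2⟩, hkk a b m hm.1,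
        hkk a c m ⟨hm.1.1, hm.2⟩, hc.comp a b c m hm])
  have hmul : ∀ a b (y : M × H), y.1 ∈ O a ∩ O b → ContMDiffAt (𝓘(ℂ, V).prod 𝓘(ℂ, EH)) 𝓘(ℂ, EH) ω
      (fun p : M × H => kk a b p.1 * p.2) y := fun a b y hy =>
    ((hP.lift _ _ _ _ (kk a b) _ ((hc.holo a b _ hy).congr_of_eventuallyEq (eventually_of_mem
      (((hc.op a).inter (hc.op b)).mem_nhds hy) (hkk a b)))).comp y contMDiffAt_fst).mul
      contMDiffAt_snd
  let Z : FiberBundleCore ι M H := ⟨O, hc.op, ix, hix, fun a b m k => kk a b m * k,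
    fun a m hm k => by rw [hself a m hm, one_mul],
    fun a b y hy => (hmul a b y hy.1).continuousAt.continuousWithinAt,
    fun a b c m hm k => by rw [← mul_assoc, hcomp a b c m hm]⟩
  obtain ⟨cs, hm, he⟩ := hG (V × EH) (ModelProd V EH) (𝓘(ℂ, V).prod 𝓘(ℂ, EH)) (M × H) Z.TotalSpace ι
    (fun a => (Z.localTriv a).toOpenPartialHomeomorph) (fun z => ⟨_, hix z.1⟩) fun a b y hy hy' => by
      have h1 : y.1 ∈ O a ∩ O b := ⟨hy.1, hy'⟩
      refine (contMDiffAt_fst.prodMk (hmul a b y h1)).congr_of_eventuallyEq ?_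
      filter_upwards [continuous_fst.continuousAt.preimage_mem_nhds
        (((hc.op a).inter (hc.op b)).mem_nhds h1)] with p hp
      exact Prod.ext rfl (Z.coordChange_comp a (ix p.1) b p.1 ⟨⟨hp.1, hix _⟩, hp.2⟩ p.2)
  let cs' : ChartedSpace (V × EH) Z.TotalSpace := cs
  refine ⟨Z.TotalSpace, inferInstance, cs', ?_, Z.proj, fun z h => ⟨z.1, (show H from z.2) * h⟩, _,
    T76.bun_of (fun a => (Z.localTriv a).toOpenPartialHomeomorph) hc.op hc.cover
      (fun a z hz => ?_) (fun a y hy => ?_) (fun _ => rfl) (fun _ => rfl) (fun _ _ => rfl)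
      (fun z => congrArg (Bundle.TotalSpace.mk z.1) (mul_one (M := H) z.2))
      (fun z h k => congrArg (Bundle.TotalSpace.mk z.1) (mul_assoc (G := H) z.2 h k))
      (fun _ _ => rfl) (fun a z h => (mul_assoc (G := H) _ z.2 h).symm) fun a b z ha hb => ?_⟩
  · rw [modelWithCornersSelf_prod]
    exact hm
  · rw [modelWithCornersSelf_prod]
    exact (he a).1 z hz
  · rw [modelWithCornersSelf_prod]
    exact (he a).2 y hy
  · rw [← hkk a b _ ⟨ha, hb⟩, ← map_mul, ← Subgroup.coe_mul]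
    exact congrArg (fun k : H => val k)
      (Z.coordChange_comp (ix z.1) a b z.1 ⟨⟨hix _, ha⟩, hb⟩ z.2).symm

end Pool.Agent.Lib.ATQ
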