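import Pool.Agent.Lib.ATQ.Tools

/-! Project atq: the Cartan form of a connection with values in the Lie algebra. -/

open scoped Manifold ContDiff Topology Matrix.Norms.Operator Matrix
open Set Filter

set_option linter.unusedSectionVars false
set_option linter.style.haveILetI false

noncomputable section

namespace Pool.Agent.Lib.ATQ

open Pool.Agent.Lib.MP_ad9325_ag

namespace T34

section Grp

variable {EH : Type} [NormedAddCommGroup EH] [NormedSpace ℂ EH]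
  {K : Type} [Group K] [TopologicalSpace K] [ChartedSpace EH K] [LieGroup 𝓘(ℂ, EH) ω K]

theorem md_left (k y : K) : MDifferentiableAt 𝓘(ℂ, EH) 𝓘(ℂ, EH) (fun x : K => k * x) y :=
  md ((contMDiff_const.mul contMDiff_id : ContMDiff 𝓘(ℂ, EH) 𝓘(ℂ, EH) ω (fun x : K => k * x)) y)

theorem left_comp (k l y : K) (h : k * l = 1) (u : EH) :
    D 𝓘(ℂ, EH) 𝓘(ℂ, EH) (fun x : K => k * x) (l * y)
      (D 𝓘(ℂ, EH) 𝓘(ℂ, EH) (fun x : K => l * x) y u) = u := by
  rw [← ContinuousLinearMap.comp_apply, ← D_comp (g := fun x : K => k * x) (md_left k _) (md_left l y)]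
  have : (fun x : K => k * (l * x)) = fun x => x := by
    funext x; rw [← mul_assoc, h, one_mul]
  rw [this, D_id]; rfl

theorem left_bij (k : K) :
    Function.Bijective (D 𝓘(ℂ, EH) 𝓘(ℂ, EH) (fun x : K => k⁻¹ * x) k) := by
  refine Function.bijective_iff_has_inverse.2
    ⟨D 𝓘(ℂ, EH) 𝓘(ℂ, EH) (fun x : K => k * x) 1, fun u => ?_, fun u => ?_⟩
  · have h := left_comp (EH := EH) k k⁻¹ k (mul_inv_cancel k) u
    rwa [inv_mul_cancel] at h
  · have h := left_comp (EH := EH) k⁻¹ k 1 (inv_mul_cancel k) u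
    rwa [mul_one] at h

end Grp

section Pk

variable {EH F : Type} [NormedAddCommGroup EH] [NormedSpace ℂ EH]
  [NormedAddCommGroup F] [NormedSpace ℂ F] {G : Type} [Group G] [TopologicalSpace G]
  [ChartedSpace (EH × F) G] {H : Subgroup G} [ChartedSpace EH H] {R : Type} [NormedRing R]
  [NormedAlgebra ℂ R] {val : G →* R} {L : R →L[ℂ] EH × F}

theorem cm_incl (P : Pack EH F H val L) :
    ContMDiff 𝓘(ℂ, EH) 𝓘(ℂ, EH × F) ω (Subtype.val : H → G) := P.model.emb.contMDiff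

theorem cm_valH (P : Pack EH F H val L) :
    ContMDiff 𝓘(ℂ, EH) 𝓘(ℂ, R) ω (val.comp H.subtype) := P.hval.comp (cm_incl P)

theorem dval_inj (P : Pack EH F H val L) {X Y : EH × F}
    (h : dval (EH × F) val X = dval (EH × F) val Y) : X = Y := by
  rw [← P.Ld X, h, P.Ld]

theorem dval_H (P : Pack EH F H val L) (A : EH) :
    dval (EH × F) val (A, 0) = dval EH (val.comp H.subtype) A := by
  haveI := P.model.lieG
  rw [← P.incl A]
  exact dval_incl P.hval (cm_incl P) A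

theorem Ad_H (P : Pack EH F H val L) (h : H) (A : EH) :
    Ad (EH × F) (h : G) (A, 0) = (Ad EH h A, 0) := by
  haveI := P.model.lieG
  haveI := P.model.lieH
  refine dval_inj P ?_
  rw [dval_Ad P.hval, dval_H P, dval_H P, dval_Ad (cm_valH P)]
  rfl

variable {E' : Type} [NormedAddCommGroup E'] [NormedSpace ℂ E'] {H' : Type} [TopologicalSpace H']
  {I : ModelWithCorners ℂ E' H'} {N : Type} [TopologicalSpace N] [ChartedSpace H' N]

theorem cm_val (P : Pack EH F H val L) {f : N → H} {p : N} (hf : ContMDiffAt I 𝓘(ℂ, EH) ω f p) :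
    ContMDiffAt I 𝓘(ℂ, R) ω (fun q => val (f q)) p := (cm_valH P _).comp p hf

theorem cm_vali (P : Pack EH F H val L) {f : N → H} {p : N} (hf : ContMDiffAt I 𝓘(ℂ, EH) ω f p) :
    ContMDiffAt I 𝓘(ℂ, R) ω (fun q => val (f q : G)⁻¹) p := by
  haveI := P.model.lieH
  exact (cm_valH P _).comp p hf.inv

/-- The logarithmic derivative of a map to the subgroup. -/
theorem log_deriv (P : Pack EH F H val L) {f : N → H} {p : N}
    (hf : ContMDiffAt I 𝓘(ℂ, EH) ω f p) (u : E') :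
    val (f p : G)⁻¹ * D I 𝓘(ℂ, R) (fun q => val (f q)) p u = dval (EH × F) val
      (D 𝓘(ℂ, EH) 𝓘(ℂ, EH) (fun x : H => (f p)⁻¹ * x) (f p) (D I 𝓘(ℂ, EH) f p u), 0) := by
  haveI := P.model.lieH
  have h1 := D_clm_comp (ContinuousLinearMap.mul ℂ R (val (f p : G)⁻¹)) (md (cm_val P hf))
  have h2 : (fun q => ContinuousLinearMap.mul ℂ R (val (f p : G)⁻¹) (val (f q))) =
      fun q => (val.comp H.subtype) ((f p)⁻¹ * f q) := by
    funext q; simp
  have h3 : MDifferentiableAt I 𝓘(ℂ, EH) (fun q => (f p)⁻¹ * f q) p :=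
    (md_left (EH := EH) (f p)⁻¹ (f p)).comp p (md hf)
  rw [h2, D_comp_of_eq (g := val.comp H.subtype) (md (cm_valH P 1)) h3 (inv_mul_cancel _),
    D_comp (g := fun x : H => (f p)⁻¹ * x) (md_left _ _) (md hf)] at h1
  rw [dval_H P]
  exact (congrArg (fun T : E' →L[ℂ] R => T u) h1).symm

end Pk

section Main

variable {EH F : Type} [NormedAddCommGroup EH] [NormedSpace ℂ EH]
  [NormedAddCommGroup F] [NormedSpace ℂ F] {G : Type} [Group G] [TopologicalSpace G]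
  [ChartedSpace (EH × F) G] {H : Subgroup G} [ChartedSpace EH H] {R : Type} [NormedRing R]
  [NormedAlgebra ℂ R] {val : G →* R} {L : R →L[ℂ] EH × F}
  {V : Type} [NormedAddCommGroup V] [NormedSpace ℂ V] {M : Type}
  [TopologicalSpace M] [ChartedSpace V M] [IsManifold 𝓘(ℂ, V) ω M] {ι : Type} {O : ι → Set M}
  {hh : ι → ι → M → R} {θ : ι → M → V →L[ℂ] R}
  {E : Type} [TopologicalSpace E] [ChartedSpace (V × EH) E] [IsManifold 𝓘(ℂ, V × EH) ω E]
  {π : E → M} {r : E → H → E} {κ : ι → E → H}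

variable (EH) in
/-- The form in the frame `a`. -/
def ga (val : G →* R) (π : E → M) (κ : ι → E → H) (θ : ι → M → V →L[ℂ] R) (a : ι) :
    E → V × EH →L[ℂ] R :=
  gau (fun e' => val (κ a e')) (fun e' => val (κ a e' : G)⁻¹) (pull π (θ a))

theorem ga_apply (a : ι) (e : E) (u : V × EH) :
    ga EH val π κ θ a e u = val (κ a e : G)⁻¹ * θ a (π e) (D 𝓘(ℂ, V × EH) 𝓘(ℂ, V) π e u) *
      val (κ a e) + val (κ a e : G)⁻¹ *
        D 𝓘(ℂ, V × EH) 𝓘(ℂ, R) (fun e' => val (κ a e')) e u := rfl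

theorem ga_val (P : Pack EH F H val L) (B : Bun EH V val O hh π r κ)
    (hθ : ∀ a, ∀ m ∈ O a, ∀ u, ∃ X, dval (EH × F) val X = θ a m u) {a : ι} {e : E}
    (he : π e ∈ O a) (u : V × EH) :
    ga EH val π κ θ a e u = dval (EH × F) val (Ad (EH × F) (κ a e : G)⁻¹
      (L (θ a (π e) (D 𝓘(ℂ, V × EH) 𝓘(ℂ, V) π e u))) +
      (D 𝓘(ℂ, EH) 𝓘(ℂ, EH) (fun x : H => (κ a e)⁻¹ * x) (κ a e)
        (D 𝓘(ℂ, V × EH) 𝓘(ℂ, EH) (κ a) e u), 0)) := by
  haveI := P.model.lieG
  obtain ⟨X, hX⟩ := hθ a _ he (D 𝓘(ℂ, V × EH) 𝓘(ℂ, V) π e u)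
  rw [ga_apply, log_deriv P (B.hκ a e he), map_add, dval_Ad P.hval, ← hX, P.Ld, inv_inv]

theorem near (B : Bun EH V val O hh π r κ) (hC : IsCocycle V O hh) {a : ι} {e : E}
    (he : π e ∈ O a) : ∀ᶠ e' in 𝓝 e, π e' ∈ O a :=
  B.pri.holo_proj.continuous.continuousAt.preimage_mem_nhds ((hC.op a).mem_nhds he)

theorem ga_indep (P : Pack EH F H val L) (B : Bun EH V val O hh π r κ) (hC : IsCocycle V O hh)
    (hA : IsConn O hh θ) {a b : ι} {e : E} (ha : π e ∈ O a) (hb : π e ∈ O b) :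
    ga EH val π κ θ a e = ga EH val π κ θ b e := by
  refine ContinuousLinearMap.ext fun u => ?_
  have h1 : (fun e' => val (κ b e')) =ᶠ[𝓝 e] fun e' => hh a b (π e') * val (κ a e') := by
    filter_upwards [near B hC ha, near B hC hb] with e' h1 h2 using B.tr a b e' h1 h2
  have hΓ := md (hC.holo a b _ ⟨ha, hb⟩)
  have hπ := md (B.pri.holo_proj e)
  have h2 : D 𝓘(ℂ, V × EH) 𝓘(ℂ, R) (fun e' => val (κ b e')) e u =
      D 𝓘(ℂ, V) 𝓘(ℂ, R) (hh a b) (π e) (D 𝓘(ℂ, V × EH) 𝓘(ℂ, V) π e u) * val (κ a e) +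
        hh a b (π e) * D 𝓘(ℂ, V × EH) 𝓘(ℂ, R) (fun e' => val (κ a e')) e u := by
    rw [D_congr h1, D_mul (f := fun e' => hh a b (π e')) (hΓ.comp e hπ) (md (cm_val P (B.hκ a e ha)))]
    exact congrArg (fun T : V × EH →L[ℂ] R => T u * val (κ a e) +
      hh a b (π e) * D 𝓘(ℂ, V × EH) 𝓘(ℂ, R) (fun e' => val (κ a e')) e u) (D_comp hΓ hπ)
  have h3 := hA.gauge a b _ ⟨ha, hb⟩ (D 𝓘(ℂ, V × EH) 𝓘(ℂ, V) π e u)
  rw [mvfderiv_eq_D] at h3
  have h4 : val (κ b e : G)⁻¹ * hh a b (π e) = val (κ a e : G)⁻¹ := by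
    have h5 : val (κ a e : G) * val (κ a e : G)⁻¹ = 1 := by rw [← map_mul, mul_inv_cancel, map_one]
    have h6 : val (κ b e : G)⁻¹ * val (κ b e : G) = 1 := by rw [← map_mul, inv_mul_cancel, map_one]
    rw [← mul_one (val (κ b e : G)⁻¹ * hh a b (π e)), ← h5, ← mul_assoc,
      mul_assoc (val (κ b e : G)⁻¹), ← B.tr a b e ha hb, h6, one_mul]
  rw [ga_apply, ga_apply, h2, ← h4, mul_assoc (val (κ b e : G)⁻¹) (hh a b (π e)) (θ a _ _), h3]
  conv_rhs => rw [show val (κ b e : G)⁻¹ * θ b (π e) (D 𝓘(ℂ, V × EH) 𝓘(ℂ, V) π e u) *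
    val (κ b e : G) = val (κ b e : G)⁻¹ * θ b (π e) (D 𝓘(ℂ, V × EH) 𝓘(ℂ, V) π e u) *
      (hh a b (π e) * val (κ a e : G)) by rw [← B.tr a b e ha hb]]
  noncomm_ring

theorem ga_act (P : Pack EH F H val L) (B : Bun EH V val O hh π r κ) (hC : IsCocycle V O hh)
    {a : ι} {e : E} (ha : π e ∈ O a) (h : H) (v : V × EH) :
    ga EH val π κ θ a (r e h) (D 𝓘(ℂ, V × EH) 𝓘(ℂ, V × EH) (fun y => r y h) e v) =
      val (h : G)⁻¹ * ga EH val π κ θ a e v * val (h : G) := by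
  haveI := P.model.lieH
  have sr : MDifferentiableAt 𝓘(ℂ, V × EH) 𝓘(ℂ, V × EH) (fun y => r y h) e :=
    md ((B.pri.holo_act.comp (contMDiff_id.prodMk contMDiff_const) :
      ContMDiff 𝓘(ℂ, V × EH) 𝓘(ℂ, V × EH) ω (fun y => r y h)) _)
  have ha' : π (r e h) ∈ O a := by rw [B.pri.proj_act]; exact ha
  have h1 : (fun y => val (κ a (r y h))) =ᶠ[𝓝 e]
      fun y => (ContinuousLinearMap.mul ℂ R).flip (val (h : G)) (val (κ a y)) := by
    filter_upwards [near B hC ha] with y hy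
    rw [B.act a y h hy]; simp
  have h2 : D 𝓘(ℂ, V × EH) 𝓘(ℂ, R) (fun e' => val (κ a e')) (r e h)
      (D 𝓘(ℂ, V × EH) 𝓘(ℂ, V × EH) (fun y => r y h) e v) =
      D 𝓘(ℂ, V × EH) 𝓘(ℂ, R) (fun e' => val (κ a e')) e v * val (h : G) := by
    rw [← ContinuousLinearMap.comp_apply,
      ← D_comp (f := fun y => r y h) (g := fun e' => val (κ a e'))
        (md (cm_val P (B.hκ a _ ha'))) sr, D_congr h1,
      D_clm_comp _ (md (cm_val P (B.hκ a e ha)))]
    rfl
  rw [ga_apply, ga_apply, h2, B.pri.D_pr_act, B.pri.proj_act, B.act a e h ha]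
  simp only [Subgroup.coe_mul, mul_inv_rev, map_mul]
  noncomm_ring

theorem ga_vert (P : Pack EH F H val L) (B : Bun EH V val O hh π r κ)
    {a : ι} {e : E} (ha : π e ∈ O a) (A : EH) :
    ga EH val π κ θ a e (D 𝓘(ℂ, EH) 𝓘(ℂ, V × EH) (r e) 1 A) = dval (EH × F) val (A, 0) := by
  have sr : MDifferentiableAt 𝓘(ℂ, EH) 𝓘(ℂ, V × EH) (r e) 1 :=
    md ((B.pri.holo_act.comp (contMDiff_const.prodMk contMDiff_id) :
      ContMDiff 𝓘(ℂ, EH) 𝓘(ℂ, V × EH) ω (r e)) _)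
  have h1 : D 𝓘(ℂ, V × EH) 𝓘(ℂ, V) π e (D 𝓘(ℂ, EH) 𝓘(ℂ, V × EH) (r e) 1 A) = 0 := by
    rw [← ContinuousLinearMap.comp_apply,
      ← D_comp_of_eq (md (B.pri.holo_proj e)) sr (B.pri.act_one e)]
    simp only [B.pri.proj_act, D_const]
    rfl
  have h2 : (fun y => val (κ a (r e y))) =
      fun y => ContinuousLinearMap.mul ℂ R (val (κ a e : G)) ((val.comp H.subtype) y) := by
    funext y
    rw [B.act a e y ha]; simp
  have h3 : D 𝓘(ℂ, V × EH) 𝓘(ℂ, R) (fun e' => val (κ a e')) e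
      (D 𝓘(ℂ, EH) 𝓘(ℂ, V × EH) (r e) 1 A) = val (κ a e : G) * dval (EH × F) val (A, 0) := by
    rw [← ContinuousLinearMap.comp_apply,
      ← D_comp_of_eq (g := fun e' => val (κ a e')) (md (cm_val P (B.hκ a e ha))) sr
        (B.pri.act_one e), h2, D_clm_comp _ (md (cm_valH P 1)), dval_H P]
    rfl
  rw [ga_apply, h1, h3, map_zero, mul_zero, zero_mul, zero_add, ← mul_assoc, ← map_mul,
    inv_mul_cancel, map_one, one_mul]

theorem ga_bij (P : Pack EH F H val L) (B : Bun EH V val O hh π r κ)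
    (hθ : ∀ a, ∀ m ∈ O a, ∀ u, ∃ X, dval (EH × F) val X = θ a m u)
    (hb : ∀ a, ∀ m ∈ O a, Function.Bijective fun u => (L (θ a m u)).2) {a : ι} {e : E}
    (he : π e ∈ O a) : Function.Bijective fun u => L (ga EH val π κ θ a e u) := by
  haveI := P.model.lieG
  haveI := P.model.lieH
  set k := κ a e with hk
  have hn : Function.Bijective fun A : EH =>
      Ad EH k (D 𝓘(ℂ, EH) 𝓘(ℂ, EH) (fun x : H => k⁻¹ * x) k A) :=
    (Ad_bijective (EG := EH) k).comp (left_bij k)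
  have hT : Function.Bijective fun z : V × EH => (L (θ a (π e) z.1) +
      (Ad EH k (D 𝓘(ℂ, EH) 𝓘(ℂ, EH) (fun x : H => k⁻¹ * x) k z.2), 0) : EH × F) := by
    constructor
    · intro z z' h
      have h2 : z.1 = z'.1 := (hb a _ he).1 (by simpa using congrArg Prod.snd h)
      have h1 := congrArg Prod.fst h
      simp only [h2, Prod.fst_add, add_right_inj] at h1
      exact Prod.ext h2 (hn.1 h1)
    · intro y
      obtain ⟨v, hv⟩ := (hb a _ he).2 y.2
      obtain ⟨A, hA⟩ := hn.2 (y.1 - (L (θ a (π e) v)).1)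
      refine ⟨(v, A), Prod.ext ?_ ?_⟩
      · simp only [Prod.fst_add] at hA ⊢
        rw [hA]; abel
      · simpa using hv
  have h := ((Ad_bijective (EG := EH × F) (k : G)⁻¹).comp hT).comp (B.bij a e he)
  have h1 : ∀ X, Ad (EH × F) (k : G)⁻¹ (Ad (EH × F) (k : G) X) = X := fun X => by
    rw [← ContinuousLinearMap.comp_apply, ← Ad_mul, inv_mul_cancel, Ad_one]; rfl
  refine Eq.subst (motive := fun f => Function.Bijective f) (funext fun u => ?_) h
  simp only [Function.comp_apply]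
  rw [ga_val P B hθ he, P.Ld, map_add, ← Ad_H P, h1]

end Main

end T34

open T34 in
theorem st_GEO2 (hHOL : St_HOL) (hGAU : St_GAU) : St_GEO2 := by
  intro EH F _ _ _ _ G _ _ _ H _ R _ _ _ val L P V _ _ _ M _ _ _ ι O hh θ hC hA hθ hb E _ _ _ π r κ B
  haveI := P.model.lieG
  haveI := P.model.finH
  choose c hc using fun e : E => hC.cover (π e)
  have hw : ∀ a e, π e ∈ O a → ∀ u,
      dval (EH × F) val (L (ga EH val π κ θ (c e) e u)) = ga EH val π κ θ a e u := by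
    intro a e he u
    rw [ga_indep P B hC hA (hc e) he, ga_val P B hθ he, P.Ld]
  refine ⟨fun e => L.comp (ga EH val π κ θ (c e) e), ⟨?_, fun e => ga_bij P B hθ hb (hc e), ?_, ?_⟩, hw⟩
  · rintro ⟨e, u⟩
    have h1 : HoloAt (pull (V' := V × EH) π (θ (c e))) e :=
      (hHOL V M R (θ (c e)) (π e)).2.2.2.2.2.2 (V × EH) E π e rfl (B.pri.holo_proj e)
        (hA.holo _ _ (hc e))
    have h2 : HoloAt (ga EH val π κ θ (c e)) e :=
      (hGAU (V × EH) E R _ _ _ e h1 (cm_val P (B.hκ _ e (hc e))) (cm_vali P (B.hκ _ e (hc e)))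
        (Eventually.of_forall fun q => ⟨by rw [← map_mul, inv_mul_cancel, map_one],
          by rw [← map_mul, mul_inv_cancel, map_one]⟩)).1
    have h3 : HoloAt (fun q => L.comp (ga EH val π κ θ (c e) q)) e := fun v =>
      L.contDiff.contDiffAt.comp _ (h2 v)
    have h4 : (fun q => L.comp (ga EH val π κ θ (c e) q)) =ᶠ[𝓝 e]
        fun q => L.comp (ga EH val π κ θ (c q) q) := by
      filter_upwards [near B hC (hc e)] with q hq
      rw [ga_indep P B hC hA hq (hc q)]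
    have h5 := ((hHOL (V × EH) E (EH × F) _ e).1 _ h4).1 h3
    exact (hHOL (V × EH) E (EH × F) _ e).2.2.2.2.1.1 h5 u
  · intro e h v
    refine dval_inj P ?_
    have h1 := hw (c e) (r e h) (by rw [B.pri.proj_act]; exact hc e)
      (D 𝓘(ℂ, V × EH) 𝓘(ℂ, V × EH) (fun y => r y h) e v)
    rw [ga_act P B hC (hc e), ← hw (c e) e (hc e)] at h1
    rw [dval_Ad P.hval, inv_inv]
    exact h1
  · intro e A
    refine dval_inj P ?_
    have h1 := hw (c e) e (hc e) (D 𝓘(ℂ, EH) 𝓘(ℂ, V × EH) (r e) 1 A)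
    have h2 := ga_vert (θ := θ) P B (hc e) A
    rw [← P.incl A] at h2
    exact h1.trans h2

end Pool.Agent.Lib.ATQ
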