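import Pool.Agent.Lib.ATQ.Tools

/-! Project atq: the form and its curvature in a local frame. -/

open scoped Manifold ContDiff Topology Matrix.Norms.Operator Matrix
open Set Filter

set_option linter.unusedSectionVars false

noncomputable section

namespace Pool.Agent.Lib.ATQ

open Pool.Agent.Lib.MP_ad9325_ag

theorem st_GEO3 (hHOL : St_HOL) (hDF : St_DF) (hNAT : St_NAT) (hFORM : St_FORM) (hGAU : St_GAU) :
    St_GEO3 := by
  intro EH F _ _ _ _ G _ _ _ H _ R _ _ _ val L hP V _ _ _ M _ _ _ ι O hh θ hc hcon E _ _ _ π r κ hB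
    w hw hwv a e he
  have := hP.model.lieG
  have := hP.model.lieH
  have := hP.model.finG
  have := hP.model.finH
  have : CompleteSpace (EH × F) := FiniteDimensional.complete ℂ _
  have hι : ContMDiff 𝓘(ℂ, EH) 𝓘(ℂ, EH × F) ω (Subtype.val : H → G) := hP.model.emb.contMDiff
  have hκ := hB.hκ a e he
  have hπ := hB.pri.holo_proj
  have hκG : ContMDiffAt 𝓘(ℂ, V × EH) 𝓘(ℂ, EH × F) ω (fun e' => (κ a e' : G)) e :=
    (hι _).comp e hκ
  have hk : ContMDiffAt 𝓘(ℂ, V × EH) 𝓘(ℂ, R) ω (fun e' => val (κ a e')) e :=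
    (hP.hval _).comp e hκG
  have hki : ContMDiffAt 𝓘(ℂ, V × EH) 𝓘(ℂ, R) ω (fun e' => val (κ a e' : G)⁻¹) e :=
    (hP.hval _).comp e hκG.inv
  refine ⟨fun u => ?_, fun X Y hX hY => ?_⟩
  · have h0 : ContMDiffAt 𝓘(ℂ, V × EH) 𝓘(ℂ, EH) ω (fun e' => (κ a e)⁻¹ * κ a e') e :=
      contMDiffAt_const.mul hκ
    refine ⟨D 𝓘(ℂ, V × EH) 𝓘(ℂ, EH) (fun e' => (κ a e)⁻¹ * κ a e') e u, ?_⟩
    have hvs : ContMDiff 𝓘(ℂ, EH) 𝓘(ℂ, R) ω (val.comp H.subtype) := hP.hval.comp hι
    rw [hwv a e he u, gau_apply, ← hP.incl, dval_incl hP.hval hι, dval,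
      ← ContinuousLinearMap.comp_apply (D 𝓘(ℂ, EH) 𝓘(ℂ, R) _ 1),
      ← D_comp_of_eq (md (hvs 1)) (md h0) (inv_mul_cancel _)]
    have e1 : (fun y => (val.comp H.subtype) ((κ a e)⁻¹ * κ a y)) =
        fun y => ContinuousLinearMap.mul ℂ R (val (κ a e : G)⁻¹) (val (κ a y)) := by
      funext y; simp
    rw [e1, D_clm_comp _ (md hk)]
    rfl
  · have hwh : HoloAt w e := by
      refine ((hHOL (V × EH) E (EH × F) w e).2.2.2.2.1).2 fun u => ?_
      exact hw.holo _
    have hθ : HoloAt (θ a) (π e) := hcon.holo a _ he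
    have hpull : HoloAt (pull (V' := V × EH) π (θ a)) e :=
      (hHOL V M R (θ a) (π e)).2.2.2.2.2.2 (V × EH) E π e rfl (hπ e) hθ
    have hg := hGAU (V × EH) E R (pull π (θ a)) (fun e' => val (κ a e'))
      (fun e' => val (κ a e' : G)⁻¹) e hpull hk hki (Eventually.of_forall fun q => by
        constructor
        · rw [← map_mul, inv_mul_cancel, map_one]
        · rw [← map_mul, mul_inv_cancel, map_one])
    let B : ℂ →L[ℂ] (EH × F) →L[ℂ] R := (ContinuousLinearMap.id ℂ ℂ).smulRight (dval (EH × F) val)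
    have hB1 : B 1 = dval (EH × F) val := by simp [B]
    have h1 : ∀ u v : V × EH, dF (fun q => (B 1).comp (w q)) e u v =
        dval (EH × F) val (dF w e u v) := by
      intro u v
      have h := (hDF (V × EH) E (EH × F) w e hwh).2.2.2 ℂ R B (fun _ => (1 : ℂ)) contMDiffAt_const
        u v
      rw [h, D_const, hB1]
      simp
    have h2 : (fun q => (B 1).comp (w q)) =ᶠ[𝓝 e] gau (fun e' => val (κ a e'))
        (fun e' => val (κ a e' : G)⁻¹) (pull π (θ a)) := by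
      have : ∀ᶠ q in 𝓝 e, π q ∈ O a := hπ.continuous.continuousAt ((hc.op a).mem_nhds he)
      filter_upwards [this] with q hq
      rw [hB1]
      exact ContinuousLinearMap.ext fun u => hwv a q hq u
    have h3 := ((hHOL (V × EH) E R _ e).1 _ h2).2
    rw [h3] at h1
    have h4 : ∀ u v : V × EH, dval (EH × F) val (dF w e u v + lie G (w e u) (w e v)) =
        val (κ a e : G)⁻¹ * Curv (θ a) (π e) (D 𝓘(ℂ, V × EH) 𝓘(ℂ, V) π e u)
          (D 𝓘(ℂ, V × EH) 𝓘(ℂ, V) π e v) * val (κ a e) := by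
      intro u v
      have h5 : Curv (pull (V' := V × EH) π (θ a)) e u v = Curv (θ a) (π e)
          (D 𝓘(ℂ, V × EH) 𝓘(ℂ, V) π e u) (D 𝓘(ℂ, V × EH) 𝓘(ℂ, V) π e v) := by
        unfold Curv
        rw [hNAT V M R (θ a) (V × EH) E π e (hπ e) hθ]
        rfl
      rw [map_add, dval_lie hP.hval, ← h1, ← h5, ← hg.2, hwv a e he, hwv a e he]
      rfl
    have h6 := (hFORM (V × EH) E e).2 (EH × F) w X Y hwh hX hY
    exact (congrArg (fun z => dval (EH × F) val (z + lie G (w e (X e)) (w e (Y e)))) h6).trans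
      (h4 (X e) (Y e))

end Pool.Agent.Lib.ATQ
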