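import Pool.Agent.Lib.ATQ.Tools

/-! Project atq, row GLUE: a manifold structure from local homeomorphisms to a manifold. -/

open scoped Manifold ContDiff Topology Matrix.Norms.Operator Matrix
open Set Filter

set_option linter.unusedSectionVars false

noncomputable section

namespace Pool.Agent.Lib.ATQ

namespace T97

variable {W : Type} [NormedAddCommGroup W] [NormedSpace ℂ W] {HW : Type}
  [TopologicalSpace HW] {I : ModelWithCorners ℂ W HW} {N : Type} [TopologicalSpace N]
  [ChartedSpace HW N] {Z : Type} [TopologicalSpace Z] {ι : Type}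

/-- The glued atlas. -/
@[reducible] def glued (e : ι → OpenPartialHomeomorph Z N) (k : Z → ι)
    (hk : ∀ z, z ∈ (e (k z)).source) : ChartedSpace HW Z where
  atlas := {c | ∃ i y, c = (e i).trans (chartAt HW y)}
  chartAt z := (e (k z)).trans (chartAt HW (e (k z) z))
  mem_chart_source z := by
    rw [OpenPartialHomeomorph.trans_source]
    exact ⟨hk z, mem_chart_source HW _⟩
  chart_mem_atlas z := ⟨k z, e (k z) z, rfl⟩

theorem chart_at [IsManifold I ω N] (y : N) {x : N} (hx : x ∈ (chartAt HW y).source) :
    ContMDiffAt I I ω (chartAt HW y) x :=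
  (contMDiffOn_chart (I := I) (n := ω) (x := y)).contMDiffAt
    ((chartAt HW y).open_source.mem_nhds hx)

theorem chart_symm_at [IsManifold I ω N] (y : N) {x : HW} (hx : x ∈ (chartAt HW y).target) :
    ContMDiffAt I I ω (chartAt HW y).symm x :=
  (contMDiffOn_chart_symm (I := I) (n := ω) (x := y)).contMDiffAt
    ((chartAt HW y).open_target.mem_nhds hx)

theorem model_on {f : HW → HW} {s : Set HW} (h : ∀ x ∈ s, ContMDiffAt I I ω f x) :
    ContDiffOn ℂ ω (I ∘ f ∘ I.symm) (I.symm ⁻¹' s ∩ range I) := by
  rintro w ⟨hw, x, rfl⟩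
  have hx : x ∈ s := by simpa using hw
  have h1 := (contMDiffWithinAt_iff.1 ((h x hx).contMDiffWithinAt (s := s))).2
  simpa only [mfld_simps] using h1

theorem glued_manifold [IsManifold I ω N] (e : ι → OpenPartialHomeomorph Z N) (k : Z → ι)
    (hk : ∀ z, z ∈ (e (k z)).source)
    (he : ∀ i j, ∀ y ∈ (e i).target, (e i).symm y ∈ (e j).source →
      ContMDiffAt I I ω (fun y' => e j ((e i).symm y')) y) :
    @IsManifold ℂ _ W _ _ HW _ I ω Z _ (glued e k hk) := by
  let : ChartedSpace HW Z := glued e k hk
  refine isManifold_of_contDiffOn I ω Z ?_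
  rintro c c' ⟨i, y, rfl⟩ ⟨j, y', rfl⟩
  refine model_on fun x hx => ?_
  simp only [mfld_simps] at hx
  obtain ⟨⟨h1, h2⟩, h3, h4⟩ := hx
  have a1 := chart_symm_at (I := I) y h1
  have a2 := he i j _ h2 h3
  have a3 := chart_at (I := I) y' h4
  exact ContMDiffAt.comp x (g := chartAt HW y') a3 (a2.comp x a1)

end T97

theorem st_GLUE : St_GLUE := by
  intro W _ _ HW _ I N _ _ _ Z _ ι e hc he
  choose k hk using hc
  let : ChartedSpace HW Z := T97.glued e k hk
  have hM : IsManifold I ω Z := T97.glued_manifold e k hk he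
  refine ⟨T97.glued e k hk, hM, fun i => ⟨fun z hz => ?_, fun y hy => ?_⟩⟩
  · have b1 : ContMDiffAt I I ω (chartAt HW z) z := T97.chart_at z (mem_chart_source HW z)
    have hm : chartAt HW (e (k z) z) (e (k z) z) ∈ (chartAt HW (e (k z) z)).target :=
      mem_chart_target HW _
    have b2 : ContMDiffAt I I ω (chartAt HW (e (k z) z)).symm (chartAt HW z z) :=
      T97.chart_symm_at _ hm
    have e1 : (chartAt HW (e (k z) z)).symm (chartAt HW z z) = e (k z) z :=
      (chartAt HW (e (k z) z)).left_inv (mem_chart_source HW _)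
    have b3 : ContMDiffAt I I ω (fun y' => e i ((e (k z)).symm y'))
        ((chartAt HW (e (k z) z)).symm (chartAt HW z z)) := by
      rw [e1]
      refine he _ _ _ ((e (k z)).map_source (hk z)) ?_
      rwa [(e (k z)).left_inv (hk z)]
    refine (b3.comp z (b2.comp z b1)).congr_of_eventuallyEq ?_
    filter_upwards [(chartAt HW z).open_source.mem_nhds (mem_chart_source HW z)] with x hx
    have hx' : (chartAt HW z).symm (chartAt HW z x) = x := (chartAt HW z).left_inv hx
    exact (congrArg (e i) hx').symm
  · set z := (e i).symm y with hz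
    have b1 : ContMDiffAt I I ω (fun y' => e (k z) ((e i).symm y')) y := he _ _ _ hy (hk z)
    have b2 : ContMDiffAt I I ω (chartAt HW (e (k z) z)) (e (k z) z) :=
      T97.chart_at _ (mem_chart_source HW _)
    have b3 : ContMDiffAt I I ω (chartAt HW z).symm (chartAt HW z z) :=
      T97.chart_symm_at z (mem_chart_target HW z)
    have b4 := ContMDiffAt.comp y (g := (chartAt HW z).symm) b3 (b2.comp y b1)
    refine b4.congr_of_eventuallyEq ?_
    have hc : ContinuousAt (e i).symm y := (e i).continuousAt_symm hy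
    filter_upwards [hc.preimage_mem_nhds
      ((chartAt HW z).open_source.mem_nhds (mem_chart_source HW z))] with x hx
    exact ((chartAt HW z).left_inv hx).symm

end Pool.Agent.Lib.ATQ
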