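import Pool.Agent.Lib.ATQ.Tools

/-! Project atq: closure properties of holomorphic forms. -/

open scoped Manifold ContDiff Topology Matrix.Norms.Operator Matrix
open Set Filter

set_option linter.unusedSectionVars false

noncomputable section

namespace Pool.Agent.Lib.ATQ

open Pool.Agent.Lib.MP_ad9325_ag

namespace T59

variable {V : Type} [NormedAddCommGroup V] [NormedSpace ℂ V]
  {N : Type} [TopologicalSpace N] [ChartedSpace V N] [IsManifold 𝓘(ℂ, V) ω N]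
  {F : Type} [NormedAddCommGroup F] [NormedSpace ℂ F]

theorem transl_self (W : Type) [NormedAddCommGroup W] [NormedSpace ℂ W] : Transl W W :=
  fun x y z _ _ => tangentBundleCore_coordChange_model_space (I := 𝓘(ℂ, W)) x y z

theorem cd_clm [FiniteDimensional ℂ V] {E : Type} [NormedAddCommGroup E] [NormedSpace ℂ E]
    {f : E → V →L[ℂ] F} {z : E} (h : ∀ u, ContDiffAt ℂ ω (fun x => f x u) z) :
    ContDiffAt ℂ ω f z := by
  let d := Module.finrank ℂ V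
  have hd : d = Module.finrank ℂ (Fin d → ℂ) := (Module.finrank_fin_fun ℂ).symm
  let e₁ := ContinuousLinearEquiv.ofFinrankEq hd
  let e₂ := (e₁.arrowCongr (1 : F ≃L[ℂ] F)).trans (ContinuousLinearEquiv.piRing (Fin d))
  rw [← Function.id_comp f, ← e₂.symm_comp_self]
  exact e₂.symm.contDiff.contDiffAt.comp z (contDiffAt_pi.mpr fun i => h _)

/-- The form in the chart at `p`. -/
def fIn (θ : N → V →L[ℂ] F) (p : N) (z : V) : V →L[ℂ] F :=
  (θ ((chartAt V p).symm z)).comp (D 𝓘(ℂ, V) 𝓘(ℂ, V) (chartAt V p).symm z)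

theorem fIn_apply (θ : N → V →L[ℂ] F) (p : N) (z u : V) : fIn θ p z u = formIn θ p u z := rfl

theorem holo_fIn [FiniteDimensional ℂ V] {θ : N → V →L[ℂ] F} {p : N} (h : HoloAt θ p) :
    ContDiffAt ℂ ω (fIn θ p) (chartAt V p p) := cd_clm h

theorem symm_tendsto (p : N) : Tendsto (chartAt V p).symm (𝓝 (chartAt V p p)) (𝓝 p) :=
  (chartAt V p).tendsto_symm (mem_chart_source V p)

theorem symm_cm (p : N) : ContMDiffAt 𝓘(ℂ, V) 𝓘(ℂ, V) ω (chartAt V p).symm (chartAt V p p) :=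
  contMDiffOn_chart_symm.contMDiffAt ((chartAt V p).open_target.mem_nhds (mem_chart_target V p))

theorem comp_symm {F₁ : Type} [NormedAddCommGroup F₁] [NormedSpace ℂ F₁] {f : N → F₁} {p : N}
    (hf : ContMDiffAt 𝓘(ℂ, V) 𝓘(ℂ, F₁) ω f p) :
    ContDiffAt ℂ ω (fun z => f ((chartAt V p).symm z)) (chartAt V p p) :=
  contMDiffAt_iff_contDiffAt.1
    (hf.comp_of_eq (symm_cm p) ((chartAt V p).left_inv (mem_chart_source V p)))

theorem to_tan {θ : N → V →L[ℂ] F} {p q : N} (hq : q ∈ (chartAt V p).source)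
    (h : ContDiffAt ℂ ω (fIn θ p) (chartAt V p q)) (u : V) :
    ContMDiffAt 𝓘(ℂ, V).tangent 𝓘(ℂ, F) ω
      (fun z : TangentBundle 𝓘(ℂ, V) N => θ z.proj z.snd) ⟨q, u⟩ := by
  have h1 := contMDiffAt_tangent (I := 𝓘(ℂ, V)) (J := 𝓘(ℂ, V)) (K := 𝓘(ℂ, V).tangent)
    (f := chartAt V p) (chartAt V p).open_source contMDiffOn_chart
    (b := fun z : TangentBundle 𝓘(ℂ, V) N => z.proj) (v := fun z => z.snd) (p := ⟨q, u⟩)
    contMDiffAt_id hq
  obtain ⟨h2, h3⟩ := (transl_self V).contMDiffAt_iff.1 h1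
  have h4 := (h.contMDiffAt.comp (⟨q, u⟩ : TangentBundle 𝓘(ℂ, V) N) h2).clm_apply h3
  refine h4.congr_of_eventuallyEq ?_
  have hb : ContinuousAt (fun z : TangentBundle 𝓘(ℂ, V) N => z.proj) ⟨q, u⟩ :=
    (FiberBundle.continuous_proj V (TangentSpace 𝓘(ℂ, V) : N → Type)).continuousAt
  filter_upwards [hb.preimage_mem_nhds ((chartAt V p).open_source.mem_nhds hq)] with z hz
  have e1 : D 𝓘(ℂ, V) 𝓘(ℂ, V) (chartAt V p).symm (chartAt V p z.proj)
      (D 𝓘(ℂ, V) 𝓘(ℂ, V) (chartAt V p) z.proj z.snd) = z.snd :=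
    congrArg (fun L : V →L[ℂ] V => L z.snd)
      ((mdifferentiable_chart (I := 𝓘(ℂ, V)) p).symm_comp_deriv hz)
  change θ z.proj z.snd = θ ((chartAt V p).symm (chartAt V p z.proj))
    (D 𝓘(ℂ, V) 𝓘(ℂ, V) (chartAt V p).symm (chartAt V p z.proj)
      (D 𝓘(ℂ, V) 𝓘(ℂ, V) (chartAt V p) z.proj z.snd))
  rw [e1, (chartAt V p).left_inv hz]

theorem of_tan {θ : N → V →L[ℂ] F} {p : N}
    (h : ∀ u : V, ContMDiffAt 𝓘(ℂ, V).tangent 𝓘(ℂ, F) ω
      (fun z : TangentBundle 𝓘(ℂ, V) N => θ z.proj z.snd) ⟨p, u⟩) : HoloAt θ p := by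
  intro u
  have h0 : ∀ x, x = p → ∀ u : V, ContMDiffAt 𝓘(ℂ, V).tangent 𝓘(ℂ, F) ω
      (fun z : TangentBundle 𝓘(ℂ, V) N => θ z.proj z.snd) ⟨x, u⟩ := by
    intro x hx; subst hx; exact h
  have hZ : ContMDiffAt 𝓘(ℂ, V) 𝓘(ℂ, V).tangent ω
      (fun z : V => (⟨z, u⟩ : TangentBundle 𝓘(ℂ, V) V)) (chartAt V p p) :=
    (transl_self V).contMDiffAt_iff.2 ⟨contMDiffAt_id, contMDiffAt_const⟩
  have h1 := contMDiffAt_tangent (I := 𝓘(ℂ, V)) (J := 𝓘(ℂ, V)) (K := 𝓘(ℂ, V))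
    (f := (chartAt V p).symm) (chartAt V p).open_target contMDiffOn_chart_symm hZ
    (mem_chart_target V p)
  have h2 := (h0 _ ((chartAt V p).left_inv (mem_chart_source V p))
    (D 𝓘(ℂ, V) 𝓘(ℂ, V) (chartAt V p).symm (chartAt V p p) u)).comp_of_eq h1 rfl
  exact contMDiffAt_iff_contDiffAt.1 h2

theorem holo_iff [FiniteDimensional ℂ V] {θ : N → V →L[ℂ] F} {p : N} :
    HoloAt θ p ↔ ∀ u : V, ContMDiffAt 𝓘(ℂ, V).tangent 𝓘(ℂ, F) ω
      (fun z : TangentBundle 𝓘(ℂ, V) N => θ z.proj z.snd) ⟨p, u⟩ :=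
  ⟨fun h => to_tan (mem_chart_source V p) (holo_fIn h), of_tan⟩

theorem tan_map {V' : Type} [NormedAddCommGroup V'] [NormedSpace ℂ V'] {N' : Type}
    [TopologicalSpace N'] [ChartedSpace V' N'] [IsManifold 𝓘(ℂ, V') ω N'] {f : N' → N} {p : N'}
    (hf : ContMDiffAt 𝓘(ℂ, V') 𝓘(ℂ, V) ω f p) (u : V') :
    ContMDiffAt 𝓘(ℂ, V').tangent 𝓘(ℂ, V).tangent ω (fun z : TangentBundle 𝓘(ℂ, V') N' =>
      (⟨f z.proj, D 𝓘(ℂ, V') 𝓘(ℂ, V) f z.proj z.snd⟩ : TangentBundle 𝓘(ℂ, V) N)) ⟨p, u⟩ := by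
  obtain ⟨s, hs, hfs⟩ := (contMDiffAt_iff_contMDiffOn_nhds (by simp)).1 hf
  exact contMDiffAt_tangent (I := 𝓘(ℂ, V')) (J := 𝓘(ℂ, V)) (K := 𝓘(ℂ, V').tangent)
    isOpen_interior (hfs.mono interior_subset)
    (b := fun z : TangentBundle 𝓘(ℂ, V') N' => z.proj) (v := fun z => z.snd) (p := ⟨p, u⟩)
    contMDiffAt_id (mem_interior_iff_mem_nhds.2 hs)

theorem formIn_congr {θ θ' : N → V →L[ℂ] F} {p : N} (h : θ =ᶠ[𝓝 p] θ') (u : V) :
    formIn θ p u =ᶠ[𝓝 (chartAt V p p)] formIn θ' p u := by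
  filter_upwards [(symm_tendsto (V := V) p).eventually h] with z hz
  unfold formIn
  rw [hz]

end T59

open T59 in
theorem st_HOL : St_HOL := by
  intro V _ _ _ N _ _ _ F _ _ θ p
  refine ⟨fun θ' h => ⟨fun h1 u => ?_, ?_⟩, fun θ' h1 h2 u => ?_, fun f hf => ?_,
    fun F₁ _ _ F₂ _ _ B f hf h1 u => ?_, holo_iff, fun h => ?_,
    fun V' _ _ _ N' _ _ _ f p' e hf h => ?_⟩
  · exact (h1 u).congr_of_eventuallyEq (formIn_congr h u).symm
  · funext u v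
    unfold dF
    rw [(formIn_congr h u).fderiv_eq, (formIn_congr h v).fderiv_eq]
  · exact (h1 u).add (h2 u)
  · exact of_tan fun u => ((transl_self F).contMDiffAt_iff.1 (tan_map hf u)).2
  · exact ((B.contDiff.contDiffAt.comp _ (comp_symm hf)).clm_apply (h1 u) :)
  · have h1 := (holo_fIn h).eventually (by simp)
    have h2 := ((chartAt V p).continuousAt (mem_chart_source V p)).eventually h1
    filter_upwards [h2, chart_source_mem_nhds V p] with q hq hq2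
    exact of_tan (to_tan hq2 hq)
  · subst e
    refine of_tan fun u => ?_
    have h1 := (holo_iff.1 h (D 𝓘(ℂ, V') 𝓘(ℂ, V) f p' u)).comp_of_eq (tan_map hf u) rfl
    exact h1

end Pool.Agent.Lib.ATQ
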