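import Pool.Agent.Lib.ATQ.Tools
import Pool.Agent.Lib.AD86.Hom

/-! Project atq: homogeneous holomorphic functions of degree `-1`, `0`, `1`. -/

open scoped Manifold ContDiff Topology Matrix.Norms.Operator Matrix

namespace Pool.Agent.Lib.ATQ

open Pool.Agent.Lib.AD86

theorem st_HOM : St_HOM := fun _ _ _ _ f hf =>
  have a := fun v hv => (hf v hv).analyticAt
  ⟨fun h _ hv => Hom.neg (d := -1) ⟨a, fun c hc v hv => by rw [h v hv c hc, zpow_neg_one]⟩
      (by decide) hv,
    fun h => Hom.zero ⟨a, fun c hc v hv => by rw [h v hv c hc, zpow_zero, one_smul]⟩,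
    fun h => Hom.one ⟨a, fun c hc v hv => by rw [h v hv c hc, zpow_one]⟩⟩

end Pool.Agent.Lib.ATQ
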