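import Pool.Agent.Lib.ATQ.Tools

/-! Row JAC: the formula of Jacobi. -/

open scoped Manifold ContDiff Topology Matrix.Norms.Operator Matrix
open Set Filter

noncomputable section

namespace Pool.Agent.Lib.ATQ

open Pool.Agent.Lib.MP_ad9325_ag

namespace T84

variable {n : ℕ}

theorem det_diff : Differentiable ℂ (fun A : Mt n => A.det) := by
  simp only [Matrix.det_apply']
  refine Differentiable.fun_sum fun σ _ => Differentiable.const_mul ?_ _
  exact fun A => (HasFDerivAt.finsetProd (u := Finset.univ) (g := fun i (A : Mt n) => A (σ i) i)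
    fun i _ => (en (σ i) i).hasFDerivAt).differentiableAt

theorem fderiv_det (M : Mt n) : fderiv ℂ (fun A : Mt n => A.det) 1 M = M.trace := by
  have h1 : HasDerivAt (fun t : ℂ => (1 : Mt n) + t • M) M 0 := by
    simpa using ((hasDerivAt_id (0 : ℂ)).smul_const M).const_add (1 : Mt n)
  have h2 := (det_diff (n := n) 1).hasFDerivAt.comp_hasDerivAt_of_eq 0 h1 (by simp)
  have h3 := ((hasDerivAt_id (0 : ℂ)).const_mul M.trace).const_add 1 |>.add
    ((Polynomial.hasDerivAt (1 + (Polynomial.X : Polynomial ℂ) • M.map Polynomial.C).det.divX.divX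
      (0 : ℂ)).mul (hasDerivAt_pow 2 (0 : ℂ)))
  have h4 : HasDerivAt (fun t : ℂ => ((1 : Mt n) + t • M).det) M.trace 0 := by
    rw [funext fun t : ℂ => Matrix.det_one_add_smul t M]
    refine (h3.congr_deriv (by simp)).congr_of_eventuallyEq (Eventually.of_forall fun t => ?_)
    simp
  exact h2.unique h4

end T84
open T84

theorem st_JAC : St_JAC := by
  intro n V _ _ N _ _ Γ Γi p hΓ hd h1 u
  have a1 := md ((ContinuousLinearMap.mul ℂ (Mt n) Γi).contMDiff (n := ω) _ |>.comp p hΓ)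
  have a2 : D 𝓘(ℂ, V) 𝓘(ℂ, Mt n) (fun q => Γi * Γ q) p u = Γi * D 𝓘(ℂ, V) 𝓘(ℂ, Mt n) Γ p u :=
    congrArg (fun L : V →L[ℂ] Mt n => L u)
      (D_clm_comp (ContinuousLinearMap.mul ℂ (Mt n) Γi) (md hΓ))
  have a3 := D_fcomp (f := fun q => Γi * Γ q) a1 (det_diff (Γi * Γ p)).hasFDerivAt u
  have a4 : (fun q => (Γi * Γ q).det) =ᶠ[𝓝 p] fun _ => Γi.det :=
    hd.mono fun q hq => by simp only [Matrix.det_mul, hq, mul_one]
  rw [D_congr a4, D_const, h1, fderiv_det, a2] at a3
  exact a3.symm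

end Pool.Agent.Lib.ATQ
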