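import Pool.Agent.Lib.MP_ad9325_ag.Defs

open scoped Manifold ContDiff Topology
open Pool.Agent.Lib.MP_ad9325_ag

noncomputable section

namespace ATQ.FS

section Alg

variable {J : Type} [Fintype J]

/-- The standard Hermitian product. -/
def H (a b : J → ℂ) : ℂ := ∑ i, starRingEnd ℂ (a i) * b i

theorem H_conj (a b : J → ℂ) : starRingEnd ℂ (H a b) = H b a := by
  simp [H, mul_comm]

theorem H_add_left (a a' b : J → ℂ) : H (a + a') b = H a b + H a' b := by
  simp [H, add_mul, Finset.sum_add_distrib]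

theorem H_add_right (a b b' : J → ℂ) : H a (b + b') = H a b + H a b' := by
  simp [H, mul_add, Finset.sum_add_distrib]

theorem H_smul_left (c : ℂ) (a b : J → ℂ) : H (c • a) b = starRingEnd ℂ c * H a b := by
  simp [H, Finset.mul_sum, mul_assoc]

theorem H_smul_right (c : ℂ) (a b : J → ℂ) : H a (c • b) = c * H a b := by
  simp [H, Finset.mul_sum, mul_left_comm]

theorem H_self (a : J → ℂ) : H a a = ((∑ i, Complex.normSq (a i) : ℝ) : ℂ) := by
  simp [H, Complex.normSq_eq_conj_mul_self]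

theorem sum_pos {a : J → ℂ} (ha : a ≠ 0) : 0 < ∑ i, Complex.normSq (a i) := by
  obtain ⟨i, hi⟩ : ∃ i, a i ≠ 0 := by
    by_contra hc
    push Not at hc
    exact ha (funext hc)
  exact Finset.sum_pos' (fun j _ => Complex.normSq_nonneg _)
    ⟨i, Finset.mem_univ _, Complex.normSq_pos.2 hi⟩

theorem H_self_ne {a : J → ℂ} (ha : a ≠ 0) : H a a ≠ 0 := by
  rw [H_self]; exact_mod_cast (sum_pos ha).ne'

/-- The Fubini-Study expression at the point `F` on the vectors `p`, `q`. -/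
def fsv (F p q : J → ℂ) : ℂ := (H p q * H F F - H p F * H F q) / (H F F) ^ 2

theorem fsv_conj (F p q : J → ℂ) : starRingEnd ℂ (fsv F q p) = fsv F p q := by
  simp only [fsv, map_div₀, map_sub, map_mul, map_pow, H_conj]
  ring

theorem fsv_scale {F : J → ℂ} (hF : F ≠ 0) {c : ℂ} (hc : c ≠ 0) (a b : ℂ) (p q : J → ℂ) :
    fsv (c • F) (c • p + a • F) (c • q + b • F) = fsv F p q := by
  have h1 := H_self_ne hF
  have h2 : starRingEnd ℂ c ≠ 0 := by simpa using hc
  simp only [fsv, H_add_left, H_add_right, H_smul_left, H_smul_right]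
  field_simp
  ring

theorem fsv_self {F : J → ℂ} (hF : F ≠ 0) (p : J → ℂ) :
    fsv F p p = H (p + (-(H F p / H F F)) • F) (p + (-(H F p / H F F)) • F) / H F F := by
  have h1 := H_self_ne hF
  simp only [fsv, H_add_left, H_add_right, H_smul_left, H_smul_right, map_neg, map_div₀, H_conj]
  field_simp
  ring

theorem fsv_re_nonneg {F : J → ℂ} (hF : F ≠ 0) (p : J → ℂ) : 0 ≤ (fsv F p p).re := by
  rw [fsv_self hF, H_self, H_self F, ← Complex.ofReal_div, Complex.ofReal_re]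
  exact div_nonneg (Finset.sum_nonneg fun j _ => Complex.normSq_nonneg _) (sum_pos hF).le

theorem fsv_re_pos {F : J → ℂ} (hF : F ≠ 0) {p : J → ℂ} (hp : ∀ c : ℂ, p ≠ c • F) :
    0 < (fsv F p p).re := by
  rw [fsv_self hF, H_self, H_self F, ← Complex.ofReal_div, Complex.ofReal_re]
  refine div_pos (sum_pos ?_) (sum_pos hF)
  intro h
  rw [neg_smul, ← sub_eq_add_neg] at h
  exact hp _ (sub_eq_zero.1 h)

/-- The Fubini-Study form pulled back by a linear map. -/
def fsForm {T : Type} [AddCommGroup T] [Module ℂ T] (F : J → ℂ) (L : T →ₗ[ℂ] (J → ℂ)) :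
    T →ₗ⋆[ℂ] T →ₗ[ℂ] ℂ :=
  LinearMap.mk₂'ₛₗ (starRingEnd ℂ) (RingHom.id ℂ) (fun u v => fsv F (L u) (L v))
    (fun u u' v => by simp only [fsv, map_add, H_add_left]; ring)
    (fun c u v => by simp only [fsv, map_smul, H_smul_left, smul_eq_mul]; ring)
    (fun u v v' => by simp only [fsv, map_add, H_add_right]; ring)
    (fun c u v => by simp only [fsv, map_smul, H_smul_right, smul_eq_mul, RingHom.id_apply]; ring)

theorem fsForm_apply {T : Type} [AddCommGroup T] [Module ℂ T] (F : J → ℂ) (L : T →ₗ[ℂ] (J → ℂ))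
    (u v : T) : fsForm F L u v = fsv F (L u) (L v) := rfl

theorem H_deriv {p q : ℝ → J → ℂ} {p' q' : J → ℂ} {t : ℝ} (hp : HasDerivAt p p' t)
    (hq : HasDerivAt q q' t) :
    HasDerivAt (fun s => H (p s) (q s)) (H p' (q t) + H (p t) q') t := by
  unfold H
  rw [← Finset.sum_add_distrib]
  refine HasDerivAt.fun_sum fun i _ => ?_
  have h1 := (hasDerivAt_pi.1 hp i).star
  have h2 := hasDerivAt_pi.1 hq i
  exact h1.mul h2

/-- The derivative of `fsv` along a curve. -/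
def dfs (F p q F' p' q' : J → ℂ) : ℂ :=
  (((H p' q + H p q') * H F F + H p q * (H F' F + H F F')
      - ((H p' F + H p F') * H F q + H p F * (H F' q + H F q'))) * (H F F) ^ 2
    - (H p q * H F F - H p F * H F q) * (2 * H F F * (H F' F + H F F'))) / ((H F F) ^ 2) ^ 2

theorem fsv_deriv {F p q : ℝ → J → ℂ} {F' p' q' : J → ℂ} {t : ℝ} (hF : HasDerivAt F F' t)
    (hp : HasDerivAt p p' t) (hq : HasDerivAt q q' t) (h0 : F t ≠ 0) :
    HasDerivAt (fun s => fsv (F s) (p s) (q s)) (dfs (F t) (p t) (q t) F' p' q') t := by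
  have hN := H_deriv hF hF
  have h1 := ((H_deriv hp hq).mul hN).sub ((H_deriv hp hF).mul (H_deriv hF hq))
  have h2 := hN.pow 2
  have h3 := h1.div h2 (pow_ne_zero 2 (H_self_ne h0))
  refine h3.congr_deriv ?_
  simp [dfs]

theorem dfs_cyc {F : J → ℂ} (hF : F ≠ 0) (u v w uv vw wu : J → ℂ) :
    (dfs F v w u uv wu).im + (dfs F w u v vw uv).im + (dfs F u v w wu vw).im = 0 := by
  have h1 := H_self_ne hF
  rw [← Complex.add_im, ← Complex.add_im, ← Complex.conj_eq_iff_im]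
  simp only [dfs, map_add, map_div₀, map_sub, map_mul, map_pow, H_conj, map_ofNat]
  field_simp
  ring

end Alg

section Local

variable {J : Type} [Fintype J] {V : Type} [NormedAddCommGroup V] [NormedSpace ℂ V]

theorem H_smooth {p q : V → J → ℂ} {y : V} (hp : ContDiffAt ℝ ∞ p y) (hq : ContDiffAt ℝ ∞ q y) :
    ContDiffAt ℝ ∞ (fun z => H (p z) (q z)) y := by
  unfold H
  refine ContDiffAt.sum fun i _ => ContDiffAt.mul ?_ (contDiffAt_pi.1 hq i)
  exact (Complex.conjCLE.contDiff.contDiffAt).comp y (contDiffAt_pi.1 hp i)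

theorem fderiv_an {f : V → J → ℂ} {y : V} (hf : ContDiffAt ℂ ω f y) (v : V) :
    ContDiffAt ℂ ω (fun z => fderiv ℂ f z v) y :=
  (hf.fderiv_right (m := ω) le_rfl).clm_apply contDiffAt_const

theorem toReal {f : V → J → ℂ} {y : V} (hf : ContDiffAt ℂ ω f y) : ContDiffAt ℝ ∞ f y :=
  (hf.of_le le_top).restrict_scalars ℝ

theorem fsv_smooth {f : V → J → ℂ} {y : V} (hf : ContDiffAt ℂ ω f y) (h0 : f y ≠ 0) (u v : V) :
    ContDiffAt ℝ ∞ (fun z => fsv (f z) (fderiv ℂ f z u) (fderiv ℂ f z v)) y := by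
  have h1 := toReal hf
  have h2 := toReal (fderiv_an hf u)
  have h3 := toReal (fderiv_an hf v)
  unfold fsv
  simp only [div_eq_mul_inv]
  exact (((H_smooth h2 h3).mul (H_smooth h1 h1)).sub ((H_smooth h2 h1).mul (H_smooth h1 h3))).mul
    (((H_smooth h1 h1).pow 2).inv (pow_ne_zero 2 (H_self_ne h0)))

theorem line_deriv {f : V → J → ℂ} {y : V} (hf : DifferentiableAt ℂ f y) (u : V) :
    HasDerivAt (fun t : ℝ => f (y + t • u)) (fderiv ℂ f y u) 0 :=
  (hf.hasFDerivAt.restrictScalars ℝ).hasLineDerivAt u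

theorem fsv_fderiv {f : V → J → ℂ} {y : V} (hf : ContDiffAt ℂ ω f y) (h0 : f y ≠ 0) (u v w : V) :
    fderiv ℝ (fun z => (fsv (f z) (fderiv ℂ f z v) (fderiv ℂ f z w)).im) y u =
      (dfs (f y) (fderiv ℂ f y v) (fderiv ℂ f y w) (fderiv ℂ f y u)
        (fderiv ℂ (fderiv ℂ f) y u v) (fderiv ℂ (fderiv ℂ f) y u w)).im := by
  have hd : DifferentiableAt ℝ (fun z => (fsv (f z) (fderiv ℂ f z v) (fderiv ℂ f z w)).im) y :=
    Complex.imCLM.differentiableAt.comp y ((fsv_smooth hf h0 v w).differentiableAt (by simp))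
  have hf2 : DifferentiableAt ℂ (fderiv ℂ f) y :=
    (hf.fderiv_right (m := ω) le_rfl).differentiableAt (by simp)
  have e : ∀ v : V, fderiv ℂ (fun z => fderiv ℂ f z v) y u = fderiv ℂ (fderiv ℂ f) y u v := by
    intro v
    rw [fderiv_clm_apply hf2 (differentiableAt_const v)]
    simp
  have h1 := line_deriv (hf.differentiableAt (by simp)) u
  have h2 := line_deriv ((fderiv_an hf v).differentiableAt (by simp)) u
  have h3 := line_deriv ((fderiv_an hf w).differentiableAt (by simp)) u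
  rw [e] at h2 h3
  have h4 := fsv_deriv h1 h2 h3 (by simpa using h0)
  have h5 := Complex.imCLM.hasFDerivAt.comp_hasDerivAt (0 : ℝ) h4
  have h6 : HasDerivAt (fun t : ℝ => (fsv (f (y + t • u)) (fderiv ℂ f (y + t • u) v)
      (fderiv ℂ f (y + t • u) w)).im) (fderiv ℝ
        (fun z => (fsv (f z) (fderiv ℂ f z v) (fderiv ℂ f z w)).im) y u) 0 :=
    hd.hasFDerivAt.hasLineDerivAt u
  have := h6.unique h5
  simpa using this

theorem fsv_closed {f : V → J → ℂ} {y : V} (hf : ContDiffAt ℂ ω f y) (h0 : f y ≠ 0) (u v w : V) :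
    fderiv ℝ (fun z => (fsv (f z) (fderiv ℂ f z v) (fderiv ℂ f z w)).im) y u
      + fderiv ℝ (fun z => (fsv (f z) (fderiv ℂ f z w) (fderiv ℂ f z u)).im) y v
      + fderiv ℝ (fun z => (fsv (f z) (fderiv ℂ f z u) (fderiv ℂ f z v)).im) y w = 0 := by
  have hs : IsSymmSndFDerivAt ℂ f y := hf.isSymmSndFDerivAt (by simp)
  rw [fsv_fderiv hf h0, fsv_fderiv hf h0, fsv_fderiv hf h0, hs.eq u w, hs.eq v u, hs.eq w v]
  exact dfs_cyc h0 _ _ _ _ _ _

end Local

section Global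

variable {V : Type} [NormedAddCommGroup V] [NormedSpace ℂ V]
  {M : Type} [TopologicalSpace M] [ChartedSpace V M]

variable (V) in
/-- `F` is a holomorphic lift at `x` of the field of lines described by `P`. -/
def IsLift {J : Type} [Fintype J] (P : M → (J → ℂ) → Prop) (F : M → J → ℂ) (x : M) : Prop :=
  ContMDiffAt 𝓘(ℂ, V) 𝓘(ℂ, J → ℂ) ω F x ∧ ∀ᶠ y in 𝓝 x, P y (F y)

theorem IsLift.eventually [IsManifold 𝓘(ℂ, V) ω M] {J : Type} [Fintype J]
    {P : M → (J → ℂ) → Prop} {F : M → J → ℂ} {x : M} (h : IsLift V P F x) :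
    ∀ᶠ y in 𝓝 x, IsLift V P F y := by
  filter_upwards [(contMDiffAt_iff_contMDiffAt_nhds (by simp)).1 h.1, h.2.eventually_nhds]
    with y h1 h2 using ⟨h1, h2⟩

theorem lift_inv {J : Type} [Fintype J] {P : M → (J → ℂ) → Prop}
    (h0 : ∀ x a, P x a → a ≠ 0) (h1 : ∀ x a b, P x a → P x b → ∃ c : ℂ, b = c • a)
    {F G : M → J → ℂ} {x : M} (hF : IsLift V P F x) (hG : IsLift V P G x)
    (u v : TangentSpace 𝓘(ℂ, V) x) :
    fsv (G x) (mvfderiv 𝓘(ℂ, V) G x u) (mvfderiv 𝓘(ℂ, V) G x v)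
      = fsv (F x) (mvfderiv 𝓘(ℂ, V) F x u) (mvfderiv 𝓘(ℂ, V) F x v) := by
  have hFx := h0 x _ hF.2.self_of_nhds
  obtain ⟨i, hi⟩ : ∃ i, F x i ≠ 0 := by
    by_contra hc
    push Not at hc
    exact hFx (funext hc)
  have hFi := contMDiffAt_pi_space.1 hF.1 i
  have hGi := contMDiffAt_pi_space.1 hG.1 i
  set c : M → ℂ := fun y => G y i / F y i with hc
  have hcd : MDifferentiableAt 𝓘(ℂ, V) 𝓘(ℂ, ℂ) c x :=
    (hGi.mdifferentiableAt (by simp)).div (hFi.mdifferentiableAt (by simp)) hi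
  have hev : G =ᶠ[𝓝 x] c • F := by
    filter_upwards [hF.2, hG.2, hFi.continuousAt.eventually_ne hi] with y a1 a2 a3
    obtain ⟨d, hd⟩ := h1 y _ _ a1 a2
    have : c y = d := by
      simp only [hc, hd, Pi.smul_apply, smul_eq_mul]
      field_simp
    change G y = c y • F y
    rw [this, hd]
  have hGx : G x = c x • F x := hev.self_of_nhds
  have hcx : c x ≠ 0 := by
    intro h
    exact h0 x _ hG.2.self_of_nhds (by rw [hGx, h, zero_smul])
  have hD : mvfderiv 𝓘(ℂ, V) G x = mvfderiv 𝓘(ℂ, V) (c • F) x := by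
    ext1 w
    exact DFunLike.congr_fun (hev.mfderiv_eq (I := 𝓘(ℂ, V)) (I' := 𝓘(ℂ, J → ℂ))) w
  rw [hD, mvfderiv_smul hcd (hF.1.mdifferentiableAt (by simp)), hGx]
  exact fsv_scale hFx hcx _ _ _ _

theorem IsLift.comp {W : Type} [NormedAddCommGroup W] [NormedSpace ℂ W]
    {N : Type} [TopologicalSpace N] [ChartedSpace W N] {J : Type} [Fintype J]
    {P : M → (J → ℂ) → Prop} {F : M → J → ℂ} {π : N → M} {x : N} (h : IsLift V P F (π x))
    (hπ : ContMDiffAt 𝓘(ℂ, W) 𝓘(ℂ, V) ω π x) : IsLift W (fun y => P (π y)) (F ∘ π) x :=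
  ⟨h.1.comp x hπ, hπ.continuousAt.eventually h.2⟩

theorem mvfderiv_comp_apply {W : Type} [NormedAddCommGroup W] [NormedSpace ℂ W]
    {N : Type} [TopologicalSpace N] [ChartedSpace W N]
    {Z : Type} [NormedAddCommGroup Z] [NormedSpace ℂ Z]
    {F : M → Z} {π : N → M} {x : N} (h : MDifferentiableAt 𝓘(ℂ, V) 𝓘(ℂ, Z) F (π x))
    (hπ : MDifferentiableAt 𝓘(ℂ, W) 𝓘(ℂ, V) π x) (u : TangentSpace 𝓘(ℂ, W) x) :
    mvfderiv 𝓘(ℂ, W) (F ∘ π) x u =
      mvfderiv 𝓘(ℂ, V) F (π x) (mfderiv 𝓘(ℂ, W) 𝓘(ℂ, V) π x u) :=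
  DFunLike.congr_fun (mfderiv_comp x h hπ) u

/-- Finitely many holomorphic maps to projective spaces (given by local lifts) that jointly
separate tangent vectors give a Kaehler metric. -/
theorem kaehler_of_lifts [IsManifold 𝓘(ℂ, V) ω M] {ι : Type} [Fintype ι] {J : ι → Type}
    [∀ k, Fintype (J k)] (P : (k : ι) → M → (J k → ℂ) → Prop)
    (h0 : ∀ k x a, P k x a → a ≠ 0)
    (h1 : ∀ k x a b, P k x a → P k x b → ∃ c : ℂ, b = c • a)
    (hloc : ∀ k x, ∃ F, IsLift V (P k) F x)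
    (himm : ∀ (x : M) (u : TangentSpace 𝓘(ℂ, V) x), u ≠ 0 →
      ∃ k F, IsLift V (P k) F x ∧ ∀ c : ℂ, mvfderiv 𝓘(ℂ, V) F x u ≠ c • F x) :
    ∃ g : (x : M) → TangentSpace 𝓘(ℂ, V) x →ₗ⋆[ℂ] TangentSpace 𝓘(ℂ, V) x →ₗ[ℂ] ℂ,
      IsKaehlerMetric g := by
  choose L hL using hloc
  let g : (x : M) → TangentSpace 𝓘(ℂ, V) x →ₗ⋆[ℂ] TangentSpace 𝓘(ℂ, V) x →ₗ[ℂ] ℂ :=
    fun x => ∑ k, fsForm (L k x x) (mvfderiv 𝓘(ℂ, V) (L k x) x).toLinearMap
  have hg : ∀ x u v, g x u v =
      ∑ k, fsv (L k x x) (mvfderiv 𝓘(ℂ, V) (L k x) x u) (mvfderiv 𝓘(ℂ, V) (L k x) x v) := by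
    intro x u v
    simp only [g, LinearMap.sum_apply, fsForm_apply]
    rfl
  have key : ∀ (p : M), ∀ y ∈ (chartAt V p).target, ∃ f : (k : ι) → V → J k → ℂ,
      (∀ k, ContDiffAt ℂ ω (f k) y ∧ f k y ≠ 0) ∧ ∀ u v, inChart g p u v =ᶠ[𝓝 y]
        fun z => ∑ k, fsv (f k z) (fderiv ℂ (f k) z u) (fderiv ℂ (f k) z v) := by
    intro p y hy
    have hs : ∀ z ∈ (chartAt V p).target,
        ContMDiffAt 𝓘(ℂ, V) 𝓘(ℂ, V) ω (chartAt V p).symm z := fun z hz =>
      (contMDiffOn_chart_symm (I := 𝓘(ℂ, V)) (n := ω)).contMDiffAt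
        ((chartAt V p).open_target.mem_nhds hz)
    refine ⟨fun k => L k ((chartAt V p).symm y) ∘ (chartAt V p).symm, fun k => ⟨?_, ?_⟩, ?_⟩
    · exact contMDiffAt_iff_contDiffAt.1 ((hL k _).1.comp y (hs y hy))
    · exact h0 k _ _ (hL k _).2.self_of_nhds
    · intro u v
      have hev : ∀ᶠ z in 𝓝 y, ∀ k, IsLift V (P k) (L k ((chartAt V p).symm y))
          ((chartAt V p).symm z) :=
        Filter.eventually_all.2 fun k => (hs y hy).continuousAt.eventually (hL k _).eventually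
      filter_upwards [hev, (chartAt V p).open_target.mem_nhds hy] with z hz hzt
      unfold inChart
      rw [hg]
      refine Finset.sum_congr rfl fun k _ => ?_
      rw [lift_inv (h0 k) (h1 k) (hz k) (hL k _)]
      have hc := mfderiv_comp z ((hz k).1.mdifferentiableAt (by simp))
        ((hs z hzt).mdifferentiableAt (by simp))
      rw [mfderiv_eq_fderiv] at hc
      have e : ∀ u : V, fderiv ℂ (L k ((chartAt V p).symm y) ∘ (chartAt V p).symm) z u =
          mvfderiv 𝓘(ℂ, V) (L k ((chartAt V p).symm y)) ((chartAt V p).symm z)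
            (mfderiv 𝓘(ℂ, V) 𝓘(ℂ, V) (chartAt V p).symm z u) := fun u =>
        DFunLike.congr_fun hc u
      rw [e, e]
      rfl
  refine ⟨g, ?_, ?_, ?_, ?_⟩
  · intro x u v
    rw [hg, hg, map_sum]
    exact Finset.sum_congr rfl fun k _ => (fsv_conj _ _ _).symm
  · intro x u hu
    obtain ⟨k, F, hF, hne⟩ := himm x u hu
    rw [hg, Complex.re_sum]
    refine Finset.sum_pos' (fun j _ => fsv_re_nonneg (h0 j _ _ (hL j x).2.self_of_nhds) _)
      ⟨k, Finset.mem_univ _, ?_⟩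
    rw [lift_inv (h0 k) (h1 k) hF (hL k x)]
    exact fsv_re_pos (h0 k _ _ hF.2.self_of_nhds) hne
  · intro p u v y hy
    obtain ⟨f, hf, he⟩ := key p y hy
    refine ContDiffAt.contDiffWithinAt (ContDiffAt.congr_of_eventuallyEq ?_ (he u v))
    exact ContDiffAt.sum fun k _ => fsv_smooth (hf k).1 (hf k).2 u v
  · intro p y hy u v w
    obtain ⟨f, hf, he⟩ := key p y hy
    have e : ∀ a b c : V, fderiv ℝ (fun z => (inChart g p a b z).im) y c = ∑ k,
        fderiv ℝ (fun z => (fsv (f k z) (fderiv ℂ (f k) z a) (fderiv ℂ (f k) z b)).im) y c := by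
      intro a b c
      have h2 : (fun z => (inChart g p a b z).im) =ᶠ[𝓝 y] fun z =>
          ∑ k, (fsv (f k z) (fderiv ℂ (f k) z a) (fderiv ℂ (f k) z b)).im := by
        filter_upwards [he a b] with z hz
        rw [hz, Complex.im_sum]
      rw [h2.fderiv_eq, fderiv_fun_sum]
      · simp
      · intro k _
        exact Complex.imCLM.differentiableAt.comp y
          ((fsv_smooth (hf k).1 (hf k).2 a b).differentiableAt (by simp))
    rw [e, e, e, ← Finset.sum_add_distrib, ← Finset.sum_add_distrib]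
    exact Finset.sum_eq_zero fun k _ => fsv_closed (hf k).1 (hf k).2 u v w

end Global

end ATQ.FS
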