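import Pool.Agent.Lib.ATQ.Tools
import Pool.Agent.Lib.ATQ.FS

open scoped Manifold ContDiff Topology Matrix.Norms.Operator Matrix
open Set Filter

noncomputable section

namespace Pool.Agent.Lib.ATQ

open Pool.Agent.Lib.MP_ad9325_ag _root_.ATQ.FS

theorem st_KAE : St_KAE := by
  intro V _ _ M _ _ _ N _ l hloc
  let P : M → (N → ℂ) → Prop := fun m a => a ≠ 0 ∧ ∃ c : ℂ, c ≠ 0 ∧ l m = c • a
  have h0 : ∀ x a, P x a → a ≠ 0 := fun x a h => h.1
  have h1 : ∀ x a b, P x a → P x b → ∃ c : ℂ, b = c • a := by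
    rintro x a b ⟨-, c, -, hc⟩ ⟨-, d, hd0, hd⟩
    refine ⟨d⁻¹ * c, ?_⟩
    rw [mul_smul, ← hc, hd, inv_smul_smul₀ hd0]
  choose L hL' using hloc
  have hL : ∀ x, IsLift V P (L x) x := hL'
  let g : (x : M) → TangentSpace 𝓘(ℂ, V) x →ₗ⋆[ℂ] TangentSpace 𝓘(ℂ, V) x →ₗ[ℂ] ℂ :=
    fun x => fsForm (L x x) (mvfderiv 𝓘(ℂ, V) (L x) x).toLinearMap
  have hg : ∀ x u v, g x u v =
      fsv (L x x) (mvfderiv 𝓘(ℂ, V) (L x) x u) (mvfderiv 𝓘(ℂ, V) (L x) x v) := fun _ _ _ => rfl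
  have key : ∀ (p : M), ∀ y ∈ (chartAt V p).target, ∃ f : V → N → ℂ,
      (ContDiffAt ℂ ω f y ∧ f y ≠ 0) ∧ ∀ u v, inChart g p u v =ᶠ[𝓝 y]
        fun z => fsv (f z) (fderiv ℂ f z u) (fderiv ℂ f z v) := by
    intro p y hy
    have hs : ∀ z ∈ (chartAt V p).target,
        ContMDiffAt 𝓘(ℂ, V) 𝓘(ℂ, V) ω (chartAt V p).symm z := fun z hz =>
      (contMDiffOn_chart_symm (I := 𝓘(ℂ, V)) (n := ω)).contMDiffAt
        ((chartAt V p).open_target.mem_nhds hz)
    refine ⟨L ((chartAt V p).symm y) ∘ (chartAt V p).symm, ⟨?_, ?_⟩, ?_⟩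
    · exact contMDiffAt_iff_contDiffAt.1 ((hL _).1.comp y (hs y hy))
    · exact h0 _ _ (hL _).2.self_of_nhds
    · intro u v
      have hev : ∀ᶠ z in 𝓝 y, IsLift V P (L ((chartAt V p).symm y)) ((chartAt V p).symm z) :=
        (hs y hy).continuousAt.eventually (hL _).eventually
      filter_upwards [hev, (chartAt V p).open_target.mem_nhds hy] with z hz hzt
      unfold inChart
      rw [hg, lift_inv h0 h1 hz (hL _)]
      have hc := mfderiv_comp z (hz.1.mdifferentiableAt (by simp))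
        ((hs z hzt).mdifferentiableAt (by simp))
      rw [mfderiv_eq_fderiv] at hc
      have e : ∀ u : V, fderiv ℂ (L ((chartAt V p).symm y) ∘ (chartAt V p).symm) z u =
          mvfderiv 𝓘(ℂ, V) (L ((chartAt V p).symm y)) ((chartAt V p).symm z)
            (mfderiv 𝓘(ℂ, V) 𝓘(ℂ, V) (chartAt V p).symm z u) := fun u =>
        DFunLike.congr_fun hc u
      rw [e, e]
      rfl
  refine ⟨g, ⟨?_, ?_, ?_, ?_⟩, ?_⟩
  · intro x u v
    rw [hg, hg]
    exact (fsv_conj _ _ _).symm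
  · intro x u
    rw [hg]
    exact fsv_re_nonneg (h0 _ _ (hL x).2.self_of_nhds) _
  · intro p u v y hy
    obtain ⟨f, hf, he⟩ := key p y hy
    exact ((fsv_smooth hf.1 hf.2 u v).congr_of_eventuallyEq (he u v)).contDiffWithinAt
  · intro p y hy u v w
    obtain ⟨f, hf, he⟩ := key p y hy
    have e : ∀ a b : V, fderiv ℝ (fun z => (inChart g p a b z).im) y =
        fderiv ℝ (fun z => (fsv (f z) (fderiv ℂ f z a) (fderiv ℂ f z b)).im) y := by
      intro a b
      refine Filter.EventuallyEq.fderiv_eq ?_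
      filter_upwards [he a b] with z hz
      rw [hz]
    rw [e, e, e]
    exact fsv_closed hf.1 hf.2 u v w
  · intro m u F hF hz
    have hF' : IsLift V P F m := hF
    by_contra hc
    push Not at hc
    have h2 := fsv_re_pos (h0 _ _ hF'.2.self_of_nhds) (p := mvfderiv 𝓘(ℂ, V) F m u) hc
    rw [← lift_inv h0 h1 hF' (hL m)] at h2
    exact h2.ne' hz

end Pool.Agent.Lib.ATQ
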