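import Pool.Agent.Lib.ATQ.Tools

open scoped Manifold ContDiff Topology Matrix.Norms.Operator Matrix
open Set Filter

set_option linter.unusedSectionVars false

noncomputable section

namespace Pool.Agent.Lib.ATQ

open Pool.Agent.Lib.MP_ad9325_ag

namespace T94

variable {V : Type} [NormedAddCommGroup V] [NormedSpace ℂ V] {M : Type} [TopologicalSpace M]
  [ChartedSpace V M]
  {g h : (x : M) → TangentSpace 𝓘(ℂ, V) x →ₗ⋆[ℂ] TangentSpace 𝓘(ℂ, V) x →ₗ[ℂ] ℂ}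

theorem prek_add (hg : PreK g) (hh : PreK h) : PreK (g + h) where
  herm x u v := by
    show g x u v + h x u v = starRingEnd ℂ (g x v u + h x v u)
    rw [map_add, ← hg.herm, ← hh.herm]
  nonneg x u := add_nonneg (hg.nonneg x u) (hh.nonneg x u)
  smooth p u v := (hg.smooth p u v).add (hh.smooth p u v)
  closed p y hy u v w := by
    have n := (chartAt V p).open_target.mem_nhds hy
    have e (a b c : V) : fderiv ℝ (fun z => (inChart (g + h) p a b z).im) y c =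
        fderiv ℝ (fun z => (inChart g p a b z).im) y c +
          fderiv ℝ (fun z => (inChart h p a b z).im) y c := by
      have h1 := Complex.imCLM.differentiableAt.comp y
        (((hg.smooth p a b).contDiffAt n).differentiableAt (by simp))
      have h2 := Complex.imCLM.differentiableAt.comp y
        (((hh.smooth p a b).contDiffAt n).differentiableAt (by simp))
      exact congrArg (fun L : V →L[ℝ] ℝ => L c) (fderiv_add h1 h2)
    rw [e, e, e]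
    linarith [hg.closed p y hy u v w, hh.closed p y hy u v w]

theorem kae (hg : PreK g) (h0 : ∀ x u, (g x u u).re ≤ 0 → u = 0) : IsKaehlerMetric g :=
  ⟨hg.herm, fun x u hu => not_le.1 fun h => hu (h0 x u h), hg.smooth, hg.closed⟩

theorem lift_comp {W : Type} [NormedAddCommGroup W] [NormedSpace ℂ W] {S : Type}
    [TopologicalSpace S] [ChartedSpace W S] {N : Type} [Fintype N] {l F : S → N → ℂ} {π : M → S}
    {m : M} (hπ : ContMDiffAt 𝓘(ℂ, V) 𝓘(ℂ, W) ω π m) (hF : Lift W l F (π m)) :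
    Lift V (fun x => l (π x)) (fun x => F (π x)) m :=
  ⟨hF.1.comp m hπ, hπ.continuousAt.eventually hF.2⟩

end T94

open T94 in
theorem st_KM (hK : St_KAE) : St_KM := by
  rintro VS _ _ S _ _ _ ⟨l₁, l₂, hl⟩
  choose F₁ F₂ f1 f2 f3 using hl
  refine ⟨?_, fun ι n U Γ N _ J K M _ _ _ π Ψ σ hc he hb hd => ?_⟩
  · obtain ⟨g₁, a1, b1⟩ := hK VS S _ l₁ fun m => ⟨_, f1 m⟩
    obtain ⟨g₂, a2, b2⟩ := hK VS S _ l₂ fun m => ⟨_, f2 m⟩
    refine ⟨_, kae (prek_add a1 a2) fun x u (h : (g₁ x u u).re + (g₂ x u u).re ≤ 0) => ?_⟩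
    have n1 := a1.nonneg x u
    have n2 := a2.nonneg x u
    exact f3 x u (b1 x u _ (f1 x) (by linarith)) (b2 x u _ (f2 x) (by linarith))
  have ex (m : M) : ∃ a, m ∈ Oc U π Ψ a := by
    obtain ⟨c, h⟩ := hc.cover (π m)
    obtain ⟨i, h⟩ := hd.cover m c h
    exact ⟨_, h⟩
  choose a ha using ex
  have s0 (b) (m) (h : m ∈ Oc U π Ψ b) : σ b m ≠ 0 := fun e => by
    simpa [e] using hd.one b m h
  have inj (c) (p) (h : p ∈ U c) (v w) (e : J c p *ᵥ v = J c p *ᵥ w) : v = w := by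
    have := congrArg (K c p *ᵥ ·) e
    simpa [Matrix.mulVec_mulVec, he.inv c p h] using this
  have cJ (c) (p) (h : p ∈ U c) := cm_mat (he.hJ c p h)
  have lf (m : M) : Lift (VS × (Fin n → ℂ)) (fun x => J (a x).1 (π x) *ᵥ σ (a x) x)
      (fun x => J (a m).1 (π x) *ᵥ σ (a m) x) m := by
    refine ⟨cm_bil (mv N _) ((cJ _ _ (ha m).1).comp m (hb.hπ m)) (hb.hσ _ m (ha m)), ?_⟩
    filter_upwards [(hb.op _).mem_nhds (ha m)] with x hx
    have n0 : J (a m).1 (π x) *ᵥ σ (a m) x ≠ 0 := fun e =>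
      s0 _ x hx (inj _ _ hx.1 _ _ (e.trans (Matrix.mulVec_zero _).symm))
    obtain ⟨e, e0, e1⟩ := he.tr (a m).1 (a x).1 (π x) ⟨hx.1, (ha x).1⟩
    have e2 : J (a x).1 (π x) *ᵥ (Γ (a m).1 (a x).1 (π x) *ᵥ σ (a m) x) =
        e • J (a m).1 (π x) *ᵥ σ (a m) x := by
      rw [Matrix.mulVec_mulVec, e1, Matrix.smul_mulVec]
    obtain ⟨b, e3⟩ := (hb.eqv (a x).1 (π x) (ha x).1 (Γ (a m).1 (a x).1 (π x) *ᵥ σ (a m) x)
      (σ (a x) x) (fun h => smul_ne_zero e0 n0 (by rw [← e2, h, Matrix.mulVec_zero]))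
      (s0 _ x (ha x))).1 (by
        rw [hb.tr _ _ _ ⟨hx.1, (ha x).1⟩ _ (s0 _ x hx), hd.back _ x hx, hd.back _ x (ha x)])
    refine ⟨n0, b * e, mul_ne_zero (fun h => s0 _ x (ha x) (by rw [e3, h, zero_smul])) e0, ?_⟩
    rw [e3, Matrix.mulVec_smul, e2, smul_smul]
  obtain ⟨g₁, a1, b1⟩ := hK _ M _ _ fun m => ⟨_, lift_comp (hb.hπ m) (f1 _)⟩
  obtain ⟨g₂, a2, b2⟩ := hK _ M _ _ fun m => ⟨_, lift_comp (hb.hπ m) (f2 _)⟩
  obtain ⟨g₃, a3, b3⟩ := hK _ M _ _ fun m => ⟨_, lf m⟩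
  refine ⟨_, kae (prek_add (prek_add a1 a2) a3)
    fun x u (h : (g₁ x u u).re + (g₂ x u u).re + (g₃ x u u).re ≤ 0) => ?_⟩
  have n1 := a1.nonneg x u
  have n2 := a2.nonneg x u
  have n3 := a3.nonneg x u
  have c1 := b1 x u _ (lift_comp (hb.hπ x) (f1 _)) (by linarith)
  have c2 := b2 x u _ (lift_comp (hb.hπ x) (f2 _)) (by linarith)
  obtain ⟨b, c3⟩ := b3 x u _ (lf x) (by linarith)
  rw [D_comp (md (f1 _).1) (md (hb.hπ x))] at c1
  rw [D_comp (md (f2 _).1) (md (hb.hπ x))] at c2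
  have d0 : D 𝓘(ℂ, VS × (Fin n → ℂ)) 𝓘(ℂ, VS) π x u = 0 := f3 (π x) _ c1 c2
  have d1 := D_bil (mv N _) (md ((cJ _ _ (ha x).1).comp x (hb.hπ x))) (md (hb.hσ _ x (ha x))) u
  have d2 : D 𝓘(ℂ, VS × (Fin n → ℂ)) 𝓘(ℂ, Matrix N (Fin (n + 1)) ℂ) (J (a x).1 ∘ π) x u = 0 :=
    (congrArg (fun L : VS × (Fin n → ℂ) →L[ℂ] Matrix N (Fin (n + 1)) ℂ => L u)
      (D_comp (md (cJ _ _ (ha x).1)) (md (hb.hπ x)))).trans (by
        rw [ContinuousLinearMap.comp_apply, d0, map_zero])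
  rw [d2, map_zero, zero_apply, zero_add] at d1
  have d3 := inj _ _ (ha x).1 _ _ ((d1.symm.trans c3).trans (Matrix.mulVec_smul _ _ _).symm)
  exact (hd.dback _ x (ha x) u).symm.trans
    ((hd.dker _ _ (ha x).1 _ (s0 _ x (ha x)) _ _).2 ⟨d0, b, d3⟩)

end Pool.Agent.Lib.ATQ
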