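import Pool.Agent.Lib.ATQ.Tools

/-! Project atq, block KOS: the Koszul homotopy. -/

open scoped Manifold ContDiff Topology Matrix.Norms.Operator Matrix
open Set Filter

noncomputable section

namespace Pool.Agent.Lib.ATQ

namespace T5

lemma ev_ne {v : E6} (hv : v ≠ 0) : ∀ᶠ w in 𝓝 v, w ≠ 0 := isOpen_ne.mem_nhds hv

lemma euler {f : E6 → ℂ} {n : ℕ} {v : E6} (hf : DifferentiableAt ℂ f v)
    (hh : ∀ c : ℂ, c ≠ 0 → f (c • v) = c ^ n * f v) :
    ∑ k, v k * fderiv ℂ f v (Pi.single k 1) = n * f v := by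
  have h1 : HasDerivAt (fun c : ℂ => f (c • v)) (fderiv ℂ f v v) 1 := by
    have h0 : HasDerivAt (fun c : ℂ => c • v) v 1 := by
      simpa using (hasDerivAt_id (1 : ℂ)).smul_const v
    have hf' : HasFDerivAt f (fderiv ℂ f v) ((1 : ℂ) • v) := by
      rw [one_smul]; exact hf.hasFDerivAt
    exact hf'.comp_hasDerivAt (1 : ℂ) h0
  have h2 : HasDerivAt (fun c : ℂ => c ^ n * f v) (n * f v) 1 := by
    simpa using (hasDerivAt_pow n (1 : ℂ)).mul_const (f v)
  have h3 : (fun c : ℂ => f (c • v)) =ᶠ[𝓝 1] fun c : ℂ => c ^ n * f v := by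
    filter_upwards [isOpen_ne.mem_nhds (one_ne_zero : (1 : ℂ) ≠ 0)] with c hc using hh c hc
  rw [(h2.congr_of_eventuallyEq h3).unique h1]
  have h4 : v = ∑ k, v k • (Pi.single k 1 : E6) := by
    funext j; simp [Finset.sum_apply, Pi.single_apply]
  calc _ = fderiv ℂ f v (∑ k, v k • (Pi.single k 1 : E6)) := by simp
    _ = _ := by rw [← h4]

lemma hom_fderiv {f : E6 → ℂ} {d : ℕ} {v : E6} (hv : v ≠ 0) {c : ℂ} (hc : c ≠ 0)
    (hf : ∀ w, w ≠ 0 → DifferentiableAt ℂ f w)
    (hh : ∀ w, w ≠ 0 → f (c • w) = c ^ (d + 1) * f w) (u : E6) :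
    fderiv ℂ f (c • v) u = c ^ d * fderiv ℂ f v u := by
  have h1 : HasFDerivAt (fun w => f (c • w))
      ((fderiv ℂ f (c • v)).comp (c • ContinuousLinearMap.id ℂ E6)) v :=
    (hf _ (smul_ne_zero hc hv)).hasFDerivAt.comp v ((hasFDerivAt_id v).const_smul c)
  have h2 : HasFDerivAt (fun w => c ^ (d + 1) * f w) (c ^ (d + 1) • fderiv ℂ f v) v :=
    (hf v hv).hasFDerivAt.const_mul _
  have h3 : (fun w => f (c • w)) =ᶠ[𝓝 v] fun w => c ^ (d + 1) * f w := by
    filter_upwards [ev_ne hv] with w hw using hh w hw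
  have h4 := congrArg (fun L : E6 →L[ℂ] ℂ => L u) (h1.unique (h2.congr_of_eventuallyEq h3))
  simp only [ContinuousLinearMap.comp_apply, ContinuousLinearMap.smul_apply,
    ContinuousLinearMap.id_apply, map_smul, smul_eq_mul] at h4
  apply mul_left_cancel₀ hc
  rw [h4]; ring

lemma cd_fderiv {f : E6 → ℂ} {v : E6} (hf : ContDiffAt ℂ ω f v) (u : E6) :
    ContDiffAt ℂ ω (fun w => fderiv ℂ f w u) v :=
  (hf.fderiv_right (m := ω) le_rfl).clm_apply contDiffAt_const

lemma fderiv2 {f : E6 → ℂ} {v : E6} (hf : ContDiffAt ℂ ω f v) (u u' : E6) :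
    fderiv ℂ (fun w => fderiv ℂ f w u) v u' = fderiv ℂ (fderiv ℂ f) v u' u := by
  have h1 : DifferentiableAt ℂ (fderiv ℂ f) v :=
    (hf.fderiv_right (m := ω) le_rfl).differentiableAt (by simp)
  rw [fderiv_clm_apply h1 (differentiableAt_const u)]
  simp

end T5

open T5 in
theorem st_KOS : St_KOS := by
  intro d Q hs hh hp v hv
  have hd : ∀ w, w ≠ 0 → ∀ i j, DifferentiableAt ℂ (fun v' => Q v' i j) w :=
    fun w hw i j => (hs w hw i j).differentiableAt (by simp)
  have hanti : ∀ w, w ≠ 0 → ∀ i j, Q w i j = -Q w j i := fun w hw i j => by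
    obtain ⟨h, H⟩ := hp w hw
    rw [H, H]; ring
  have hanti' : ∀ w, w ≠ 0 → ∀ i j, fderiv ℂ (fun v' => Q v' i j) w =
      -fderiv ℂ (fun v' => Q v' j i) w := fun w hw i j => by
    rw [← fderiv_fun_neg]
    refine Filter.EventuallyEq.fderiv_eq ?_
    filter_upwards [ev_ne hw] with x hx using hanti x hx i j
  refine ⟨fun i j => ?_, fun j => ?_, fun c hc j => ?_, ?_⟩
  · have key : ∀ k : Fin 6, Q v i j + v k * fderiv ℂ (fun v' => Q v' i j) v (Pi.single k 1) +
        ((Pi.single k 1 : E6) i * Q v j k + v i * fderiv ℂ (fun v' => Q v' j k) v (Pi.single k 1)) +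
        ((Pi.single k 1 : E6) j * Q v k i + v j * fderiv ℂ (fun v' => Q v' k i) v (Pi.single k 1))
        = 0 := fun k => by
      have hc : ∀ a : Fin 6, HasFDerivAt (fun w : E6 => w a)
          (ContinuousLinearMap.proj (R := ℂ) (φ := fun _ : Fin 6 => ℂ) a) v :=
        fun a => hasFDerivAt_apply a v
      have h1 := (((hc k).mul (hd v hv i j).hasFDerivAt).add
        ((hc i).mul (hd v hv j k).hasFDerivAt)).add ((hc j).mul (hd v hv k i).hasFDerivAt)
      have h2 : HasFDerivAt (fun _ : E6 => (0 : ℂ)) (0 : E6 →L[ℂ] ℂ) v := hasFDerivAt_const _ _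
      have h3 := h1.unique (h2.congr_of_eventuallyEq (by
        filter_upwards [ev_ne hv] with w hw
        obtain ⟨h, H⟩ := hp w hw
        simp only [Pi.add_apply, Pi.mul_apply, H]; ring))
      have h4 := congrArg (fun L : E6 →L[ℂ] ℂ => L (Pi.single k 1)) h3
      simp only [ContinuousLinearMap.add_apply, ContinuousLinearMap.smul_apply,
        ContinuousLinearMap.proj_apply, smul_eq_mul, ContinuousLinearMap.zero_apply,
        Pi.single_eq_same] at h4
      linear_combination h4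
    have hsum := Finset.sum_eq_zero (s := Finset.univ) fun k _ => key k
    simp only [Finset.sum_add_distrib, ← Finset.mul_sum] at hsum
    rw [euler (hd v hv i j) (fun c hc => hh v hv c hc i j)] at hsum
    have e1 : ∑ k : Fin 6, (Pi.single k 1 : E6) i * Q v j k = Q v j i := by
      simp [Pi.single_apply]
    have e2 : ∑ k : Fin 6, (Pi.single k 1 : E6) j * Q v k i = Q v j i := by
      simp [Pi.single_apply]
    have e3 : ∑ k : Fin 6, fderiv ℂ (fun v' => Q v' j k) v (Pi.single k 1) = -dv Q j v := by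
      rw [dv, ← Finset.sum_neg_distrib]
      exact Finset.sum_congr rfl fun k _ => by rw [hanti' v hv j k]; rfl
    rw [e1, e2, e3, hanti v hv j i] at hsum
    simp only [Finset.sum_const, Finset.card_univ, Fintype.card_fin, nsmul_eq_mul] at hsum
    unfold dv at hsum ⊢
    push_cast at hsum
    linear_combination hsum
  · exact ContDiffAt.sum fun k _ => cd_fderiv (hs v hv k j) _
  · unfold dv
    rw [Finset.mul_sum]
    exact Finset.sum_congr rfl fun k _ =>
      hom_fderiv hv hc (fun w hw => hd w hw k j) (fun w hw => hh w hw c hc k j) _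
  · have e1 : ∀ j, fderiv ℂ (dv Q j) v (Pi.single j 1) = ∑ k,
        fderiv ℂ (fderiv ℂ fun v' => Q v' k j) v (Pi.single j 1) (Pi.single k 1) := fun j => by
      have : dv Q j = fun w => ∑ k, fderiv ℂ (fun v' => Q v' k j) w (Pi.single k 1) := rfl
      rw [this, fderiv_fun_sum fun k _ => (cd_fderiv (hs v hv k j) _).differentiableAt (by simp),
        ContinuousLinearMap.sum_apply]
      exact Finset.sum_congr rfl fun k _ => fderiv2 (hs v hv k j) _ _
    have e2 : ∀ j k, fderiv ℂ (fderiv ℂ fun v' => Q v' k j) v (Pi.single j 1) (Pi.single k 1) =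
        -fderiv ℂ (fderiv ℂ fun v' => Q v' j k) v (Pi.single k 1) (Pi.single j 1) := fun j k => by
      have h1 : fderiv ℂ (fderiv ℂ fun v' => Q v' k j) v =
          -fderiv ℂ (fderiv ℂ fun v' => Q v' j k) v := by
        rw [← fderiv_fun_neg]
        refine Filter.EventuallyEq.fderiv_eq ?_
        filter_upwards [ev_ne hv] with x hx using hanti' x hx k j
      rw [h1, ((hs v hv j k).isSymmSndFDerivAt (by simp)).eq (Pi.single k 1) (Pi.single j 1)]
      rfl
    simp only [e1]
    have e3 : ∑ j : Fin 6, ∑ k : Fin 6,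
        fderiv ℂ (fderiv ℂ fun v' => Q v' k j) v (Pi.single j 1) (Pi.single k 1) =
        -∑ j : Fin 6, ∑ k : Fin 6,
        fderiv ℂ (fderiv ℂ fun v' => Q v' k j) v (Pi.single j 1) (Pi.single k 1) := by
      conv_rhs => rw [Finset.sum_comm]
      rw [← Finset.sum_neg_distrib]
      refine Finset.sum_congr rfl fun j _ => ?_
      rw [← Finset.sum_neg_distrib]
      exact Finset.sum_congr rfl fun k _ => e2 j k
    linear_combination (1 / 2 : ℂ) * e3

end Pool.Agent.Lib.ATQ
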