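import Pool.Agent.Lib.ATQ.Tools

open scoped Manifold ContDiff Topology Matrix.Norms.Operator Matrix
open Set Filter

set_option linter.unusedSectionVars false

noncomputable section

namespace Pool.Agent.Lib.ATQ

open Pool.Agent.Lib.MP_ad9325_ag

namespace Thelper4

theorem col_mul {n : ℕ} {A B : Mt (n + 1)} (hA : ∀ i, i ≠ 0 → A i 0 = 0)
    (hB : ∀ i, i ≠ 0 → B i 0 = 0) : ∀ i, i ≠ 0 → (A * B) i 0 = 0 := by
  intro i hi
  rw [Matrix.mul_apply]
  refine Finset.sum_eq_zero fun j _ => ?_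
  by_cases hj : j = 0
  · rw [hj, hA i hi, zero_mul]
  · rw [hB j hj, mul_zero]

theorem col_two {A : Mt 2} (h : A 1 0 = 0) : ∀ i, i ≠ 0 → A i 0 = 0 := by
  intro i hi
  fin_cases i
  · exact absurd rfl hi
  · exact h

theorem col_six {A : Mt 6} (h : (fun k : Fin 5 => A k.succ 0) = 0) : ∀ i, i ≠ 0 → A i 0 = 0 := by
  intro i hi
  obtain ⟨k, rfl⟩ := Fin.exists_succ_eq.2 hi
  exact congrFun h k

theorem pc_one {g g' : G3} (hg : g ∈ H3) (hg' : g' ∈ H3) {x : R3} (h : (Pc x).1 = 0) :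
    (Pc (val3 g * x * val3 g')).1 = 0 := by
  have a1 : x.1 1 0 = 0 := congrArg Prod.fst h
  have a2 : x.2.1 1 0 = 0 := congrArg Prod.snd h
  exact Prod.ext (col_mul (col_mul hg.1 (col_two a1)) hg'.1 1 (by decide))
    (col_mul (col_mul hg.2.1 (col_two a2)) hg'.2.1 1 (by decide))

theorem pc_two {g g' : G3} (hg : g ∈ H3) (hg' : g' ∈ H3) {x : R3} (h : (Pc x).2 = 0) :
    (Pc (val3 g * x * val3 g')).2 = 0 := by
  funext k
  exact col_mul (col_mul hg.2.2 (col_six h)) hg'.2.2 k.succ (Fin.succ_ne_zero k)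

theorem pc_br {x y : R3} (hx : (Pc x).2 = 0) (hy : (Pc y).2 = 0) : (Pc (x * y - y * x)).2 = 0 := by
  funext k
  have a1 := col_mul (col_six hx) (col_six hy) k.succ (Fin.succ_ne_zero k)
  have a2 := col_mul (col_six hy) (col_six hx) k.succ (Fin.succ_ne_zero k)
  change (x.2.2 * y.2.2) k.succ 0 - (y.2.2 * x.2.2) k.succ 0 = 0
  rw [a1, a2, sub_zero]

end Thelper4

open Thelper4

theorem st_MF : St_MF := by
  intro EH _ _ _ _ L P hL
  have := P.model.lieG
  have := P.model.finG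
  have : CompleteSpace (EH × VM) := FiniteDimensional.complete ℂ _
  have hX : ∀ X : EH × VM, X.2 = Pc (dval (EH × VM) val3 X) := fun X => by
    rw [← hL, P.Ld]
  refine ⟨fun h X h0 => ?_, fun h X h0 => ?_, fun X Y h0 h1 => ?_⟩
  · rw [hX] at h0 ⊢
    rw [dval_Ad P.hval]
    exact pc_one (H3.inv_mem h.2) (H3.inv_mem (H3.inv_mem h.2)) h0
  · rw [hX] at h0 ⊢
    rw [dval_Ad P.hval]
    exact pc_two (H3.inv_mem h.2) (H3.inv_mem (H3.inv_mem h.2)) h0
  · rw [hX] at h0 h1 ⊢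
    rw [dval_lie P.hval]
    exact pc_br h0 h1

end Pool.Agent.Lib.ATQ
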