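import Pool.Agent.Lib.ATQ.Tools

/-! Project atq: the model group. -/

open scoped Manifold ContDiff Topology Matrix.Norms.Operator Matrix
open Set Filter

noncomputable section

namespace Pool.Agent.Lib.ATQ

open Pool.Agent.Lib.MP_ad9325_ag

namespace Thelper50

abbrev An (n : ℕ) := (Fin n → ℂ) × (Fin n → Fin n → ℂ)

/-- The shuffle of the coordinates. -/
def shf : ((An 1 × (Fin 1 → ℂ)) × (An 1 × (Fin 1 → ℂ)) × (An 5 × (Fin 5 → ℂ))) ≃L[ℂ]
    (An 1 × An 1 × An 5) × VM :=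
  LinearEquiv.toContinuousLinearEquiv
    { toFun := fun x => ((x.1.1, x.2.1.1, x.2.2.1), ((x.1.2 0, x.2.1.2 0), x.2.2.2))
      invFun := fun y => ((y.1.1, fun _ => y.2.1.1), (y.1.2.1, fun _ => y.2.1.2), (y.1.2.2, y.2.2))
      map_add' := fun _ _ => rfl
      map_smul' := fun _ _ => rfl
      left_inv := fun x => by
        have h : ∀ f : Fin 1 → ℂ, (fun _ => f 0) = f := fun f => funext fun i => by
          rw [Subsingleton.elim i 0]
        simp only [h]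
      right_inv := fun _ => rfl }

theorem ind (n : ℕ) : Topology.IsInducing (valS n) := ⟨rfl⟩

theorem Ln_inj {n : ℕ} {x : Mt (n + 1)} (h : Ln n x = 0) (ht : x.trace = 0) : x = 0 := by
  rw [Ln_apply] at h
  have h1 : ∀ j : Fin n, x 0 j.succ = 0 := fun j => congrFun (congrArg (·.1.1) h) j
  have h2 : ∀ i j : Fin n, x i.succ j.succ = 0 := fun i j =>
    congrFun (congrFun (congrArg (·.1.2) h) i) j
  have h3 : ∀ i : Fin n, x i.succ 0 = 0 := fun i => congrFun (congrArg (·.2) h) i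
  have h4 : x 0 0 = 0 := by simpa [Matrix.trace, Fin.sum_univ_succ, h2] using ht
  ext i j
  refine Fin.cases ?_ (fun i => ?_) i <;> refine Fin.cases ?_ (fun j => ?_) j
  exacts [h4, h1 j, h3 i, h2 i j]

theorem tr_zero (hJ : St_JAC) {V : Type} [NormedAddCommGroup V] [NormedSpace ℂ V]
    [ChartedSpace V G3] (hv : ContMDiff 𝓘(ℂ, V) 𝓘(ℂ, R3) ω val3) {n : ℕ} (l : R3 →L[ℂ] Mt n)
    (h1 : l 1 = 1) (hd : ∀ g, (l (val3 g)).det = 1) (X : V) :
    (l (D 𝓘(ℂ, V) 𝓘(ℂ, R3) val3 1 X)).trace = 0 := by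
  have h := hJ n V G3 (fun g => l (val3 g)) 1 1 ((l.contMDiff (n := ω) _).comp 1 (hv 1))
    (Eventually.of_forall hd) (by rw [map_one, h1, one_mul]) X
  rwa [one_mul, D_clm_comp l (md (hv 1))] at h

theorem mem_par {n : ℕ} (g : SLn (n + 1)) : g ∈ par n ↔ ∀ k : Fin n, g.1 k.succ 0 = 0 :=
  ⟨fun h k => h _ k.succ_ne_zero, fun h i hi => by
    obtain ⟨k, rfl⟩ := Fin.exists_succ_eq.2 hi
    exact h k⟩

end Thelper50

open Thelper50 in
theorem st_MOD (hS : St_SLN) (hP : St_PRD) (hU : St_SUB) (hJ : St_JAC) : St_MOD := by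
  obtain ⟨φ₁, h₁⟩ := hS 1
  obtain ⟨φ₅, h₅⟩ := hS 5
  obtain ⟨φ₂, h₂⟩ := hP.1 _ _ _ _ _ _ _ _ _ _ _ _ h₁ h₅
  obtain ⟨φ₃, h₃⟩ := hP.1 _ _ _ _ _ _ _ _ _ _ _ _ h₁ h₂
  obtain ⟨φ, h⟩ := hP.2 _ _ _ _ _ _ _ shf h₃
  set L : R3 →L[ℂ] (An 1 × An 1 × An 5) × VM :=
    (shf : _ →L[ℂ] _).comp ((Ln 1).prodMap ((Ln 1).prodMap (Ln 5))) with hL
  have hc : ∀ x, (L x).2 = Pc x := fun _ => rfl
  have hi : Topology.IsInducing val3 := (ind 2).prodMap ((ind 2).prodMap (ind 6))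
  have hj : Function.Injective val3 :=
    Subtype.val_injective.prodMap (Subtype.val_injective.prodMap Subtype.val_injective)
  have : ∀ n, SecondCountableTopology (SLn n) := fun n => (ind n).secondCountableTopology
  obtain ⟨c₁, c₂, hp⟩ := hU (An 1 × An 1 × An 5) VM G3 H3 R3 val3 φ L h hi hj fun g => by
    rw [hc, H3, Subgroup.mem_prod, Subgroup.mem_prod, mem_par, mem_par, mem_par]
    simp [Pc, Prod.ext_iff, funext_iff, and_assoc]
  have ht : ∀ X, TrFree (dval ((An 1 × An 1 × An 5) × VM) val3 X) := fun X =>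
    ⟨tr_zero hJ hp.hval (ContinuousLinearMap.fst ℂ _ _) rfl (fun g => g.1.2) X,
      tr_zero hJ hp.hval ((ContinuousLinearMap.fst ℂ _ _).comp (ContinuousLinearMap.snd ℂ _ _)) rfl
        (fun g => g.2.1.2) X,
      tr_zero hJ hp.hval ((ContinuousLinearMap.snd ℂ _ _).comp (ContinuousLinearMap.snd ℂ _ _)) rfl
        (fun g => g.2.2.2) X⟩
  refine ⟨An 1 × An 1 × An 5, inferInstance, inferInstance, c₁, c₂, L, hp, hc, fun x =>
    ⟨fun ⟨X, hX⟩ => hX ▸ ht X, fun hx => ⟨L x, ?_⟩⟩⟩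
  set y := dval ((An 1 × An 1 × An 5) × VM) val3 (L x)
  have h0 : L (y - x) = 0 := by rw [map_sub, hp.Ld, sub_self]
  have h1 : (Ln 1).prodMap ((Ln 1).prodMap (Ln 5)) (y - x) = 0 := shf.map_eq_zero_iff.1 h0
  obtain ⟨a, b, c⟩ := ht (L x)
  refine sub_eq_zero.1 (Prod.ext (Ln_inj (congrArg (·.1) h1) ?_)
    (Prod.ext (Ln_inj (congrArg (·.2.1) h1) ?_) (Ln_inj (congrArg (·.2.2) h1) ?_)))
  · exact (Matrix.trace_sub _ _).trans (by rw [a, hx.1, sub_zero])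
  · exact (Matrix.trace_sub _ _).trans (by rw [b, hx.2.1, sub_zero])
  · exact (Matrix.trace_sub _ _).trans (by rw [c, hx.2.2, sub_zero])

end Pool.Agent.Lib.ATQ
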