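import Pool.Agent.Lib.ATQ.Tools

/-! Project atq: the splitting defined by a flat geometry. -/

open scoped Manifold ContDiff Topology Matrix.Norms.Operator Matrix
open Set Filter

noncomputable section

namespace Pool.Agent.Lib.ATQ

open Pool.Agent.Lib.MP_ad9325_ag

theorem st_N1 (hHOL : St_HOL) (hSELF : St_SELF) (hNAT : St_NAT) (hFORM : St_FORM) : St_N1 := by
  intro EH _ _ _ G _ _ _ H _ _ hin hA1 hA2 hbr M _ _ _
  rintro ⟨EE, _, _, E, _, _, _, pr, r, w₀, hP, hC, hF⟩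
  replace hF := hF trivial
  let w : E → EE →L[ℂ] EH × VM := w₀
  have weq : ∀ e h v, w (r e h) (D 𝓘(ℂ, EE) 𝓘(ℂ, EE) (fun y => r y h) e v) =
      Ad (EH × VM) ((h : G)⁻¹) (w e v) := hC.equivariant
  have wfund : ∀ e (A : EH), w e (D 𝓘(ℂ, EH) 𝓘(ℂ, EE) (r e) 1 A) =
      D 𝓘(ℂ, EH) 𝓘(ℂ, EH × VM) (Subtype.val : H → G) 1 A := hC.fundamental
  have hσ : ∀ e : E, ∃ σ : VM →L[ℂ] EE, ∀ u, D 𝓘(ℂ, EE) 𝓘(ℂ, VM) pr e (σ u) = u := by
    intro e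
    obtain ⟨U, φ, hx, hU⟩ := hP.exists_triv (pr e)
    exact ⟨lift φ e, hU.D_pr_lift hP (by rw [hU.src]; exact hx)⟩
  choose σ hσ using hσ
  let c : E → VM →L[ℂ] VM := fun e =>
    (ContinuousLinearMap.snd ℂ EH VM).comp ((w e).comp (σ e))
  have hc : ∀ e v, (w e v).2 = c e (D 𝓘(ℂ, EE) 𝓘(ℂ, VM) pr e v) := by
    intro e v
    obtain ⟨A, hA⟩ := hP.vertical (e := e) (v := v - σ e (D 𝓘(ℂ, EE) 𝓘(ℂ, VM) pr e v))
      (by rw [map_sub, hσ, sub_self])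
    have := congrArg Prod.snd ((wfund e A).trans (hin A))
    rw [← hA, map_sub, Prod.snd_sub, sub_eq_zero] at this
    exact this
  have csurj : ∀ e, Function.Surjective (c e : VM →ₗ[ℂ] VM) := by
    intro e y
    obtain ⟨v, hv⟩ := (hC.bij e).2 (0, y)
    exact ⟨_, (hc e v).symm.trans (congrArg Prod.snd hv)⟩
  have hr : ∀ e h x, c (r e h) x = (Ad (EH × VM) ((h : G)⁻¹) (w e (σ e x))).2 := by
    intro e h x
    have h5 := hc (r e h) (D 𝓘(ℂ, EE) 𝓘(ℂ, EE) (fun y => r y h) e (σ e x))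
    rw [hP.D_pr_act, hσ, weq] at h5
    exact h5.symm
  refine ⟨fun m => ⨅ e : {e // pr e = m},
      LinearMap.ker ((LinearMap.snd ℂ BB _).comp (c e.1 : VM →ₗ[ℂ] VM)),
    fun m => ⨅ e : {e // pr e = m},
      LinearMap.ker ((LinearMap.fst ℂ BB _).comp (c e.1 : VM →ₗ[ℂ] VM)), fun Ψ z₀ hΨ => ?_⟩
  obtain ⟨U, φ, hx, hU⟩ := hP.exists_triv (Ψ z₀)
  have hxt : ∀ m ∈ U, (m, (1 : H)) ∈ φ.target := fun m hm => by rw [hU.tgt]; exact ⟨hm, trivial⟩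
  let s : WW → E := fun z => φ.invFun (Ψ z, 1)
  have : FiniteDimensional ℂ EE :=
    FiniteDimensional.of_injective (w (s z₀) : EE →ₗ[ℂ] EH × VM) (hC.bij _).1
  have hw : ∀ e, HoloAt w e := fun e =>
    (hHOL EE E _ w e).2.2.2.2.1.2 fun u => hC.holo _
  have hs : ∀ z, ContMDiffAt 𝓘(ℂ, WW) 𝓘(ℂ, VM) ω Ψ z → Ψ z ∈ U →
      ContMDiffAt 𝓘(ℂ, WW) 𝓘(ℂ, EE) ω s z := fun z hz hz' =>
    (φ.contMDiffOn_invFun.contMDiffAt (φ.open_target.mem_nhds (hxt _ hz'))).comp z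
      (hz.prodMk contMDiffAt_const)
  let Θ : WW → WW →L[ℂ] EH × VM := pull s w
  have hΘ : ∀ z, ContMDiffAt 𝓘(ℂ, WW) 𝓘(ℂ, EE) ω s z → HoloAt Θ z := fun z hz =>
    (hHOL EE E _ w (s z)).2.2.2.2.2.2 WW WW s z rfl hz (hw _)
  let La : EH × VM →L[ℂ] BB :=
    (ContinuousLinearMap.fst ℂ BB _).comp (ContinuousLinearMap.snd ℂ EH VM)
  let Lb : EH × VM →L[ℂ] (Fin 5 → ℂ) :=
    (ContinuousLinearMap.snd ℂ BB _).comp (ContinuousLinearMap.snd ℂ EH VM)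
  have h0 := (hSELF.1 WW _ Θ z₀).1.1 (hΘ _ (hs _ hΨ hx))
  refine ⟨fun z => La.comp (Θ z), fun z => Lb.comp (Θ z), contDiffAt_const.clm_comp h0,
    contDiffAt_const.clm_comp h0, ?_⟩
  have hU' : ∀ᶠ z in 𝓝 z₀, Ψ z ∈ U := hΨ.continuousAt.preimage_mem_nhds (hU.op.mem_nhds hx)
  filter_upwards [(contMDiffAt_iff_contMDiffAt_nhds (by simp)).1 hΨ, hU'.eventually_nhds]
    with z hz hzU
  have hsz := hs z hz hzU.self_of_nhds
  have hp : pr (s z) = Ψ z := hU.pr_inv (hxt _ hzU.self_of_nhds)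
  have hD : D 𝓘(ℂ, WW) 𝓘(ℂ, VM) Ψ z =
      (D 𝓘(ℂ, EE) 𝓘(ℂ, VM) pr (s z)).comp (D 𝓘(ℂ, WW) 𝓘(ℂ, EE) s z) := by
    rw [← D_comp (md (hP.holo_proj _)) (md hsz)]
    exact D_congr (hzU.mono fun y hy => (hU.pr_inv (hxt _ hy)).symm)
  refine ⟨⟨LinearEquiv.ofBijective (c (s z) : VM →ₗ[ℂ] VM)
    ⟨LinearMap.injective_iff_surjective.2 (csurj _), csurj _⟩, fun a => ?_, fun x => ?_,
      fun x => ?_⟩, fun a b ha hb => ?_⟩
  · rw [hD]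
    exact (hc (s z) _).symm
  · rw [Submodule.mem_iInf]
    refine ⟨fun h => h ⟨s z, hp⟩, fun h e => ?_⟩
    obtain ⟨k, hk⟩ := hP.transitive (hp.trans e.2.symm)
    change (c e.1 x).2 = 0
    rw [hk, hr]
    exact hA2 k _ h
  · rw [Submodule.mem_iInf]
    refine ⟨fun h => h ⟨s z, hp⟩, fun h e => ?_⟩
    obtain ⟨k, hk⟩ := hP.transitive (hp.trans e.2.symm)
    change (c e.1 x).1 = 0
    rw [hk, hr]
    exact hA1 k _ h
  · have h1 := (hSELF.1 WW _ Θ z).2 (hΘ z hsz) a b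
    have h2 := hNAT EE E _ w WW WW s z hsz (hw _) a b
    obtain ⟨X, hX, hXe⟩ := (hFORM EE E (s z)).1 (D 𝓘(ℂ, WW) 𝓘(ℂ, EE) s z a)
    obtain ⟨Y, hY, hYe⟩ := (hFORM EE E (s z)).1 (D 𝓘(ℂ, WW) 𝓘(ℂ, EE) s z b)
    have h3 := (hFORM EE E (s z)).2 _ w X Y (hw _) hX hY
    have h4 := hF (s z) X Y hX hY
    rw [hXe, hYe] at h3 h4
    have h5 : Lb (dF Θ z a b) = 0 := by
      rw [show dF Θ z a b = _ from h2, ← h3, eq_neg_of_add_eq_zero_left h4, map_neg, neg_eq_zero]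
      exact hbr _ _ ha hb
    have h6 := ((ContinuousLinearMap.compL ℂ WW (EH × VM) (Fin 5 → ℂ) Lb).hasFDerivAt.comp z
      (((hSELF.1 WW _ Θ z).1.1 (hΘ z hsz)).differentiableAt (by simp)).hasFDerivAt).fderiv
    rw [h1, map_sub, sub_eq_zero] at h5
    rw [show fderiv ℂ (fun z => Lb.comp (Θ z)) z = _ from h6]
    exact h5

end Pool.Agent.Lib.ATQ
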