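import Pool.Agent.Lib.ATQ.B_FORM

/-! Project atq: the exterior derivative commutes with pull-back. -/

open scoped Manifold ContDiff Topology Matrix.Norms.Operator Matrix
open Set Filter

set_option linter.unusedSectionVars false

noncomputable section

namespace Pool.Agent.Lib.ATQ

open Pool.Agent.Lib.MP_ad9325_ag

namespace T80

/-- The flat computation: the second derivatives of the map cancel. -/
theorem flat_nat {V V' F : Type} [NormedAddCommGroup V] [NormedSpace ℂ V] [CompleteSpace V]
    [NormedAddCommGroup V'] [NormedSpace ℂ V'] [NormedAddCommGroup F] [NormedSpace ℂ F]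
    {W : V → V →L[ℂ] F} {g : V' → V} {x : V'} (hW : DifferentiableAt ℂ W (g x))
    (hg : ContDiffAt ℂ ω g x) (u v : V') :
    fderiv ℂ (fun z => W (g z) (fderiv ℂ g z v)) x u -
      fderiv ℂ (fun z => W (g z) (fderiv ℂ g z u)) x v =
    fderiv ℂ (fun y => W y (fderiv ℂ g x v)) (g x) (fderiv ℂ g x u) -
      fderiv ℂ (fun y => W y (fderiv ℂ g x u)) (g x) (fderiv ℂ g x v) := by
  have hg1 : DifferentiableAt ℂ g x := hg.differentiableAt (by simp)
  have hg2 : DifferentiableAt ℂ (fderiv ℂ g) x :=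
    (hg.fderiv_right (m := 1) (by simp)).differentiableAt (by simp)
  have hs : IsSymmSndFDerivAt ℂ g x := hg.isSymmSndFDerivAt (by simp)
  have hWg : DifferentiableAt ℂ (fun z => W (g z)) x := hW.comp x hg1
  have e1 : ∀ a b : V', fderiv ℂ (fun z => W (g z) (fderiv ℂ g z b)) x a =
      W (g x) (fderiv ℂ (fderiv ℂ g) x a b) +
        fderiv ℂ W (g x) (fderiv ℂ g x a) (fderiv ℂ g x b) := by
    intro a b
    rw [fderiv_clm_apply hWg (hg2.clm_apply (differentiableAt_const b)),
      fderiv_clm_apply hg2 (differentiableAt_const b), fderiv_fun_comp x hW hg1]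
    simp
  have e2 : ∀ a b : V, fderiv ℂ (fun y => W y b) (g x) a = fderiv ℂ W (g x) a b := by
    intro a b
    rw [fderiv_clm_apply hW (differentiableAt_const b)]
    simp
  rw [e1, e1, e2, e2, hs u v]
  abel

end T80

set_option backward.isDefEq.respectTransparency false in
theorem st_NAT : St_NAT := by
  intro V _ _ _ N _ _ _ F _ _ θ V' _ _ _ N' _ _ _ f p hf hθ u v
  have : CompleteSpace V := FiniteDimensional.complete ℂ V
  have : CompleteSpace V' := FiniteDimensional.complete ℂ V'
  let g : V' → V := fun z => chartAt V (f p) (f ((chartAt V' p).symm z))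
  have hp : (chartAt V' p).symm (chartAt V' p p) = p :=
    (chartAt V' p).left_inv (mem_chart_source V' p)
  have hg0 : g (chartAt V' p p) = chartAt V (f p) (f p) := by simp only [g, hp]
  have hg : ContDiffAt ℂ ω g (chartAt V' p p) := by
    have h := (contMDiffAt_iff.1 hf).2
    simpa [contDiffWithinAt_univ, Function.comp_def] using h
  have hD : D 𝓘(ℂ, V') 𝓘(ℂ, V) f p = fderiv ℂ g (chartAt V' p p) := by
    have h := (md hf).mfderiv
    simp [writtenInExtChartAt, Function.comp_def] at h
    exact h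
  let W : V → V →L[ℂ] F := fun z =>
    (θ ((chartAt V (f p)).symm z)).comp (D 𝓘(ℂ, V) 𝓘(ℂ, V) (chartAt V (f p)).symm z)
  have hW : DifferentiableAt ℂ W (g (chartAt V' p p)) := by
    rw [hg0]
    exact T90.diff_clm fun u => (hθ u).differentiableAt (by simp)
  have hc : ContinuousAt (chartAt V' p).symm (chartAt V' p p) :=
    (chartAt V' p).continuousAt_symm (mem_chart_target V' p)
  have ht : Tendsto (chartAt V' p).symm (𝓝 (chartAt V' p p)) (𝓝 p) := by
    have h := hc.tendsto
    rwa [hp] at h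
  have key : ∀ w, formIn (pull f θ) p w =ᶠ[𝓝 (chartAt V' p p)]
      fun z => W (g z) (fderiv ℂ g z w) := by
    intro w
    have e1 : ∀ᶠ z in 𝓝 (chartAt V' p p), z ∈ (chartAt V' p).target :=
      chart_target_mem_nhds V' p
    have e2 : ∀ᶠ z in 𝓝 (chartAt V' p p), f ((chartAt V' p).symm z) ∈ (chartAt V (f p)).source :=
      (hf.continuousAt.tendsto.comp ht).eventually (chart_source_mem_nhds V (f p))
    have e3 : ∀ᶠ z in 𝓝 (chartAt V' p p),
        ContMDiffAt 𝓘(ℂ, V') 𝓘(ℂ, V) ω f ((chartAt V' p).symm z) :=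
      ht.eventually ((contMDiffAt_iff_contMDiffAt_nhds (by simp)).1 hf)
    have e4 : ∀ᶠ z in 𝓝 (chartAt V' p p), ContDiffAt ℂ ω g z := hg.eventually (by simp)
    filter_upwards [e1, e2.eventually_nhds, e3, e4] with z h1 h2 h3 h4
    have h2' := h2.self_of_nhds
    have h5 : (chartAt V (f p)).symm (g z) = f ((chartAt V' p).symm z) :=
      (chartAt V (f p)).left_inv h2'
    have h6 : (fun y => f ((chartAt V' p).symm y)) =ᶠ[𝓝 z]
        fun y => (chartAt V (f p)).symm (g y) := by
      filter_upwards [h2] with y hy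
      exact ((chartAt V (f p)).left_inv hy).symm
    have m1 : MDifferentiableAt 𝓘(ℂ, V') 𝓘(ℂ, V') (chartAt V' p).symm z :=
      (mdifferentiable_chart p).mdifferentiableAt_symm h1
    have m2 : MDifferentiableAt 𝓘(ℂ, V) 𝓘(ℂ, V) (chartAt V (f p)).symm (g z) :=
      (mdifferentiable_chart (f p)).mdifferentiableAt_symm ((chartAt V (f p)).map_source h2')
    have m3 : MDifferentiableAt 𝓘(ℂ, V') 𝓘(ℂ, V) g z :=
      (h4.differentiableAt (by simp)).mdifferentiableAt
    have h7 := D_congr (I := 𝓘(ℂ, V')) (J := 𝓘(ℂ, V)) h6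
    rw [D_comp (md h3) m1, D_comp m2 m3, D_eq_fderiv] at h7
    have h8 := congrArg (fun L : V' →L[ℂ] V => L w) h7
    show θ (f ((chartAt V' p).symm z)) _ = θ ((chartAt V (f p)).symm (g z)) _
    rw [h5]
    exact congrArg _ h8
  rw [dF, (key u).fderiv_eq, (key v).fderiv_eq, T80.flat_nat hW hg, hD, hg0]
  rfl

end Pool.Agent.Lib.ATQ
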