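import Pool.Agent.Lib.ATQ.Tools

open scoped Manifold ContDiff Topology Matrix.Norms.Operator Matrix
open Set Filter

set_option linter.unusedSectionVars false

noncomputable section

namespace Pool.Agent.Lib.ATQ

open Pool.Agent.Lib.MP_ad9325_ag

namespace Thelper6

theorem up_mul {A B : Mt 2} (hA : A 1 0 = 0) (hB : B 1 0 = 0) : (A * B) 1 0 = 0 := by
  simp [Matrix.mul_apply, Fin.sum_univ_two, hA, hB]

theorem up_conj (k : SLn 2) (hk : k ∈ par 1) {A : Mt 2} (h : ((k⁻¹).1 * A * k.1) 1 0 = 0) :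
    A 1 0 = 0 := by
  have h1 : k.1 1 0 = 0 := hk 1 (by decide)
  have h2 : (k⁻¹).1 1 0 = 0 := (par 1).inv_mem hk 1 (by decide)
  have h3 : k.1 * (k⁻¹).1 = 1 := by
    rw [← Matrix.SpecialLinearGroup.coe_mul, mul_inv_cancel]; rfl
  have h4 : A = k.1 * ((k⁻¹).1 * A * k.1) * (k⁻¹).1 := by
    calc A = (k.1 * (k⁻¹).1) * A * (k.1 * (k⁻¹).1) := by rw [h3, one_mul, mul_one]
      _ = _ := by simp only [mul_assoc]
  rw [h4]
  exact up_mul (up_mul h1 h) h2

theorem pc_bij {f : VM →L[ℂ] R3} {EH : Type} [NormedAddCommGroup EH] [NormedSpace ℂ EH]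
    (L : R3 →L[ℂ] EH × VM) (hL : ∀ x, (L x).2 = Pc x) (h : ∀ u, Pc (f u) = 0 → u = 0) :
    Function.Bijective fun u => (L (f u)).2 := by
  let g : VM →ₗ[ℂ] VM := (LinearMap.snd ℂ EH VM).comp (L.comp f).toLinearMap
  have h1 : Function.Injective g := (injective_iff_map_eq_zero g).2 fun u hu =>
    h u ((hL _).symm.trans hu)
  exact ⟨h1, LinearMap.injective_iff_surjective.1 h1⟩

end Thelper6

open Thelper6

theorem st_NORM (g1 : St_GEO1) (g2 : St_GEO2) (g3 : St_GEO3) : St_NORM := by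
  intro EH _ _ _ _ L P hL hT M _ _ _ ι O hh θ hO
  obtain ⟨E, _, _, _, π, r, κ, hB⟩ :=
    g1 EH VM G3 H3 R3 val3 L P VM M ι O hh hO.coc hO.mem
  obtain ⟨w, hw, hw'⟩ := g2 EH VM G3 H3 R3 val3 L P VM M ι O hh θ hO.coc hO.con
    (fun a m hm u => (hT _).2 (hO.trf a m hm u))
    (fun a m hm => pc_bij L hL (hO.nd a m hm)) E π r κ hB
  have h3 := g3 EH VM G3 H3 R3 val3 L P VM M ι O hh θ hO.coc hO.con E π r κ hB w hw hw'
  refine ⟨VM × EH, inferInstance, inferInstance, E, inferInstance, inferInstance, inferInstance,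
    π, r, w, hB.pri, hw, ?_⟩
  intro e X Y hX hY a ha hXa Z hZ
  have := P.model.lieG
  have := P.model.finG
  have : CompleteSpace (EH × VM) := FiniteDimensional.complete ℂ _
  obtain ⟨c, hc⟩ := hO.coc.cover (π e)
  obtain ⟨k1, k2⟩ := h3 c e hc
  have k3 := k2 X Y hX hY
  obtain ⟨A, k4⟩ := k1 (X e)
  have hinj : ∀ x y, dval (EH × VM) val3 x = dval (EH × VM) val3 y → x = y := fun x y h => by
    rw [← P.Ld x, h, P.Ld]
  have hlie := fun x y => dval_lie (G := G3) P.hval x y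
  generalize dForm (EE := VM × EH) w X Y e + lie G3 (w e (X e)) (w e (Y e)) = K at k3 ⊢
  let b : Submodule ℂ (EH × VM) :=
    { carrier := {x | (dval (EH × VM) val3 x).1 = 0 ∧ (dval (EH × VM) val3 x).2.1 = 0}
      add_mem' := fun {x y} hx hy => by
        simp only [mem_ofPred_eq, map_add, Prod.fst_add, Prod.snd_add, hx.1, hx.2, hy.1, hy.2,
          add_zero, and_self]
      zero_mem' := by simp
      smul_mem' := fun s x hx => by
        simp only [mem_ofPred_eq, map_smul, Prod.smul_fst, Prod.smul_snd, hx.1, hx.2, smul_zero,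
          and_self] }
  have hb : ∀ x ∈ b, ∀ y, lie G3 y x ∈ b := fun x hx y => by
    constructor
    · rw [hlie, Prod.fst_sub, Prod.fst_mul, Prod.fst_mul, hx.1, mul_zero, zero_mul, sub_zero]
    · rw [hlie, Prod.snd_sub, Prod.snd_mul, Prod.snd_mul, Prod.fst_sub, Prod.fst_mul, Prod.fst_mul,
        hx.2, mul_zero, zero_mul, sub_zero]
  have hK : K ∈ b := by
    obtain ⟨c1, c2⟩ := hO.cur c _ hc (D 𝓘(ℂ, VM × EH) 𝓘(ℂ, VM) π e (X e))
      (D 𝓘(ℂ, VM × EH) 𝓘(ℂ, VM) π e (Y e))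
    constructor
    · rw [k3, Prod.fst_mul, Prod.fst_mul, c1, mul_zero, zero_mul]
    · rw [k3, Prod.snd_mul, Prod.snd_mul, Prod.fst_mul, Prod.fst_mul, c2, mul_zero, zero_mul]
  rcases ha.2.2 (a ⊓ b) inf_le_left (fun x hx y => ⟨ha.2.1 x hx.1 y, hb x hx.2 y⟩) with h | h
  · have e1 : lie G3 Z K = -lie G3 K Z := hinj _ _ (by rw [map_neg, hlie, hlie, neg_sub])
    have e2 : lie G3 Z K ∈ a ⊓ b := ⟨by rw [e1]; exact a.neg_mem (ha.2.1 Z hZ K), hb K hK Z⟩
    rwa [h, Submodule.mem_bot] at e2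
  · have e1 : w e (X e) ∈ b := (h.symm ▸ hXa : w e (X e) ∈ a ⊓ b).2
    have e2 : Pc (dval (EH × VM) val3 (A, 0)) = 0 := by rw [← hL, P.Ld]
    have e3 : (dval (EH × VM) val3 (A, 0)).1 1 0 = 0 := congrArg (fun x : VM => x.1.1) e2
    have e4 : (dval (EH × VM) val3 (A, 0)).2.1 1 0 = 0 := congrArg (fun x : VM => x.1.2) e2
    have e5 := congrArg (fun x : R3 => x.1 1 0) k4
    have e6 := congrArg (fun x : R3 => x.2.1 1 0) k4
    simp only [e1.1, e1.2, Prod.fst_add, Prod.snd_add, Matrix.add_apply, e3, e4, add_zero,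
      Matrix.zero_apply] at e5 e6
    have e7 := hO.hor c _ hc _ (D 𝓘(ℂ, VM × EH) 𝓘(ℂ, VM) π e (Y e))
      (up_conj (κ c e).1.1 (κ c e).2.1 e5.symm) (up_conj (κ c e).1.2.1 (κ c e).2.2.1 e6.symm)
    rw [e7, mul_zero, zero_mul] at k3
    exact hinj _ _ (by rw [hlie, k3, mul_zero, zero_mul, sub_zero, map_zero])

end Pool.Agent.Lib.ATQ
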