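import Pool.Agent.Lib.ATQ.Tools

/-! The projective bundle of a cocycle as a compact complex manifold. -/

open scoped Manifold ContDiff Topology Matrix.Norms.Operator Matrix ComplexOrder
open Set Filter

set_option linter.unusedSectionVars false

noncomputable section

namespace Pool.Agent.Lib.ATQ

open Pool.Agent.Lib.MP_ad9325_ag

namespace T35

section Alg

variable {N : Type} [Fintype N] {n : ℕ}

/-- The orthogonal projector on the line of `w`. -/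
def pr (w : N → ℂ) : N → N → ℂ := fun a b => w a * star (w b) / (w ⬝ᵥ star w)

/-- The entries of `K P K^*`. -/
def kk (K : Matrix (Fin (n + 1)) N ℂ) (P : N → N → ℂ) (i j : Fin (n + 1)) : ℂ :=
  ∑ a, ∑ b, K i a * P a b * star (K j b)

theorem pr_smul {a : ℂ} (ha : a ≠ 0) (w : N → ℂ) : pr (a • w) = pr w := by
  funext i j
  have h : star a ≠ 0 := star_ne_zero.mpr ha
  simp only [pr, Pi.smul_apply, star_smul, smul_dotProduct, dotProduct_smul, smul_eq_mul, star_mul']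
  rw [show a * w i * (star a * star (w j)) = star a * (a * (w i * star (w j))) by ring,
    mul_div_mul_left _ _ h, mul_div_mul_left _ _ ha]

theorem kk_pr (K : Matrix (Fin (n + 1)) N ℂ) (w : N → ℂ) (i j : Fin (n + 1)) :
    kk K (pr w) i j = (K *ᵥ w) i * (star ((K *ᵥ w) j) / (w ⬝ᵥ star w)) := by
  simp only [kk, pr, Matrix.mulVec, dotProduct, star_sum, star_mul', Finset.sum_div,
    Finset.sum_mul_sum]
  exact Finset.sum_congr rfl fun a _ => Finset.sum_congr rfl fun b _ => by ring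

theorem pr_cont {X : Type} [TopologicalSpace X] {f : X → N → ℂ} {x : X} (hf : ContinuousAt f x)
    (h : f x ≠ 0) : ContinuousAt (fun y => pr (f y)) x := by
  have h1 := continuousAt_pi.mp hf
  refine continuousAt_pi.mpr fun a => continuousAt_pi.mpr fun b =>
    ((h1 a).mul (h1 b).star).div ?_ (dotProduct_self_star_eq_zero.not.mpr h)
  exact tendsto_finsetSum _ fun k _ => (h1 k).mul (h1 k).star

/-- The vector with `1` in place `i`. -/
def ins (i : Fin (n + 1)) (w : Fin n → ℂ) : Fin (n + 1) → ℂ := Fin.insertNth i 1 w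

theorem ins_same (i : Fin (n + 1)) (w : Fin n → ℂ) : ins i w i = 1 := Fin.insertNth_apply_same _ _ _

theorem ins_succ (i : Fin (n + 1)) (w : Fin n → ℂ) (k : Fin n) : ins i w (i.succAbove k) = w k :=
  Fin.insertNth_apply_succAbove (α := fun _ => ℂ) _ _ _ _

theorem ins_ne (i : Fin (n + 1)) (w : Fin n → ℂ) : ins i w i ≠ 0 := by
  rw [ins_same]; exact one_ne_zero

theorem ins_eq {i : Fin (n + 1)} {v : Fin (n + 1) → ℂ} (h : v i = 1) :
    ins i (fun k => v (i.succAbove k)) = v := Fin.insertNth_eq_iff.mpr ⟨h.symm, rfl⟩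

theorem ins_cd (i : Fin (n + 1)) : ContDiff ℂ ω (ins i) :=
  contDiff_pi.mpr ((Fin.forall_iff_succAbove i).mpr
    ⟨by simp only [ins_same]; exact contDiff_const,
      fun k => by simp only [ins_succ]; exact contDiff_apply ℂ ℂ k⟩)

theorem ne_of {i : Fin (n + 1)} {v : Fin (n + 1) → ℂ} (h : v i ≠ 0) : v ≠ 0 := fun e => h (by simp [e])

end Alg

variable {S : Type} {ι : Type} {n : ℕ} (U : ι → Set S) {N : Type} [Fintype N]
  (J : ι → S → Matrix N (Fin (n + 1)) ℂ) (K : ι → S → Matrix (Fin (n + 1)) N ℂ)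

/-- The total space. -/
abbrev MM : Type :=
  {x : S × (N → N → ℂ) // ∃ c v, x.1 ∈ U c ∧ v ≠ 0 ∧ x.2 = pr (J c x.1 *ᵥ v)}

open Classical in
/-- The line of a vector in a frame. -/
def Psi (m₀ : MM U J) (c : ι) (y : S × (Fin (n + 1) → ℂ)) : MM U J :=
  if h : y.1 ∈ U c ∧ y.2 ≠ 0 then ⟨(y.1, pr (J c y.1 *ᵥ y.2)), c, y.2, h.1, h.2, rfl⟩ else m₀

/-- The normalized vector of a line. -/
def sg (a : ι × Fin (n + 1)) (m : MM U J) (k : Fin (n + 1)) : ℂ :=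
  kk (K a.1 m.1.1) m.1.2 k a.2 / kk (K a.1 m.1.1) m.1.2 a.2 a.2

variable {U J K} {m₀ : MM U J} {c d : ι} {p : S} {v : Fin (n + 1) → ℂ}

theorem Psi_val (hp : p ∈ U c) (hv : v ≠ 0) :
    (Psi U J m₀ c (p, v)).1 = (p, pr (J c p *ᵥ v)) := by
  rw [Psi, dif_pos ⟨hp, hv⟩]

theorem Psi_fst (hp : p ∈ U c) (hv : v ≠ 0) : (Psi U J m₀ c (p, v)).1.1 = p := by
  rw [Psi_val hp hv]

theorem Psi_smul (hp : p ∈ U c) (hv : v ≠ 0) {a : ℂ} (ha : a ≠ 0) :
    Psi U J m₀ c (p, a • v) = Psi U J m₀ c (p, v) := Subtype.ext (by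
  rw [Psi_val hp hv, Psi_val hp (smul_ne_zero ha hv), Matrix.mulVec_smul, pr_smul ha])

variable {VS : Type} [NormedAddCommGroup VS] [NormedSpace ℂ VS] [TopologicalSpace S]
  [ChartedSpace VS S] {Γ : ι → ι → S → Mt (n + 1)} (hc : IsCocycle VS U Γ) (he : Emb VS U Γ J K)
include he

theorem KJ (hp : p ∈ U c) (v : Fin (n + 1) → ℂ) : K c p *ᵥ (J c p *ᵥ v) = v := by
  rw [Matrix.mulVec_mulVec, he.inv c p hp, Matrix.one_mulVec]

theorem J_ne (hp : p ∈ U c) (hv : v ≠ 0) : J c p *ᵥ v ≠ 0 := fun e => hv (by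
  rw [← KJ he hp v, e, Matrix.mulVec_zero])

theorem G_ne (hp : p ∈ U c ∩ U d) (hv : v ≠ 0) :
    Γ c d p *ᵥ v ≠ 0 ∧ pr (J d p *ᵥ (Γ c d p *ᵥ v)) = pr (J c p *ᵥ v) := by
  obtain ⟨a, ha, h⟩ := he.tr c d p hp
  have h1 : J d p *ᵥ (Γ c d p *ᵥ v) = a • (J c p *ᵥ v) := by
    rw [Matrix.mulVec_mulVec, h, Matrix.smul_mulVec]
  exact ⟨fun e => smul_ne_zero ha (J_ne he hp.1 hv) (by rw [← h1, e, Matrix.mulVec_zero]),
    by rw [h1, pr_smul ha]⟩

theorem Psi_tr (hp : p ∈ U c ∩ U d) (hv : v ≠ 0) :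
    Psi U J m₀ d (p, Γ c d p *ᵥ v) = Psi U J m₀ c (p, v) := Subtype.ext (by
  rw [Psi_val hp.1 hv, Psi_val hp.2 (G_ne he hp hv).1, (G_ne he hp hv).2])

theorem Psi_surj (c : ι) (m : MM U J) (h : m.1.1 ∈ U c) :
    ∃ v, v ≠ 0 ∧ Psi U J m₀ c (m.1.1, v) = m := by
  obtain ⟨d, v, h1, h2, h3⟩ := m.2
  refine ⟨_, (G_ne he ⟨h1, h⟩ h2).1, (Psi_tr he ⟨h1, h⟩ h2).trans (Subtype.ext ?_)⟩
  rw [Psi_val h1 h2, ← h3]

theorem kk_Psi (hp : p ∈ U c) (hv : v ≠ 0) : ∃ a : ℂ, a ≠ 0 ∧ ∀ k i,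
    kk (K c (Psi U J m₀ c (p, v)).1.1) (Psi U J m₀ c (p, v)).1.2 k i = v k * (star (v i) / a) :=
  ⟨_, dotProduct_self_star_eq_zero.not.mpr (J_ne he hp hv), fun k i => by
    rw [Psi_val hp hv, kk_pr, KJ he hp]⟩

theorem kk_ne (hp : p ∈ U c) (hv : v ≠ 0) (i : Fin (n + 1)) :
    kk (K c (Psi U J m₀ c (p, v)).1.1) (Psi U J m₀ c (p, v)).1.2 i i ≠ 0 ↔ v i ≠ 0 := by
  obtain ⟨a, ha, h⟩ := kk_Psi (m₀ := m₀) he hp hv
  rw [h]
  simp [ha]

theorem sg_Psi (hp : p ∈ U c) {i : Fin (n + 1)} (hv : v i ≠ 0) :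
    sg U J K (c, i) (Psi U J m₀ c (p, v)) = (v i)⁻¹ • v := by
  obtain ⟨a, ha, h⟩ := kk_Psi (m₀ := m₀) he hp (ne_of hv)
  funext k
  rw [sg, h, h, mul_div_mul_right _ _ (div_ne_zero (star_ne_zero.mpr hv) ha), div_eq_inv_mul]
  rfl

theorem kk_cont {m : MM U J} (h : m.1.1 ∈ U c) (k i : Fin (n + 1)) :
    ContinuousAt (fun m : MM U J => kk (K c m.1.1) m.1.2 k i) m := by
  have h1 : ∀ i a, ContinuousAt (fun m : MM U J => K c m.1.1 i a) m := fun i a =>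
    (he.hK c _ h i a).continuousAt.comp (f := fun m : MM U J => m.1.1) (by fun_prop)
  exact tendsto_finsetSum _ fun a _ => tendsto_finsetSum _ fun b _ =>
    ((h1 k a).mul (show ContinuousAt (fun m : MM U J => m.1.2 a b) m by fun_prop)).mul (h1 i b).star

include hc

omit he in
theorem ev (hp : p ∈ U c) {i : Fin (n + 1)} (hv : v i ≠ 0) :
    ∀ᶠ y : S × (Fin (n + 1) → ℂ) in 𝓝 (p, v), y.1 ∈ U c ∧ y.2 i ≠ 0 :=
  (continuous_fst.continuousAt.eventually ((hc.op c).mem_nhds hp)).and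
    (((continuous_apply i).comp continuous_snd).continuousAt.eventually_ne hv)

theorem Psi_ca (hp : p ∈ U c) (hv : v ≠ 0) : ContinuousAt (Psi U J m₀ c) (p, v) := by
  obtain ⟨i, hi⟩ := Function.ne_iff.mp hv
  have h1 : ContinuousAt (fun y : S × (Fin (n + 1) → ℂ) => J c y.1 *ᵥ y.2) (p, v) :=
    (cm_bil (I := 𝓘(ℂ, VS).prod 𝓘(ℂ, Fin (n + 1) → ℂ)) (mv _ _)
      ((cm_mat (he.hJ c p hp)).comp (p, v) contMDiffAt_fst) contMDiffAt_snd).continuousAt
  refine Topology.IsInducing.subtypeVal.continuousAt_iff.mpr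
    ((continuousAt_fst.prodMk (pr_cont h1 (J_ne he hp hv))).congr ?_)
  filter_upwards [ev hc hp hi] with y hy
  exact (Psi_val hy.1 (ne_of hy.2)).symm

/-- The charts. -/
def ch (m₀ : MM U J) (a : ι × Fin (n + 1)) : OpenPartialHomeomorph (MM U J) (S × (Fin n → ℂ)) where
  toFun m := (m.1.1, fun k => sg U J K a m (a.2.succAbove k))
  invFun y := Psi U J m₀ a.1 (y.1, ins a.2 y.2)
  source := {m | m.1.1 ∈ U a.1 ∧ kk (K a.1 m.1.1) m.1.2 a.2 a.2 ≠ 0}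
  target := U a.1 ×ˢ univ
  map_source' _ h := ⟨h.1, trivial⟩
  map_target' y h := ⟨by rw [Psi_val h.1 (ne_of (ins_ne _ _))]; exact h.1,
    (kk_ne he h.1 (ne_of (ins_ne _ _)) _).mpr (ins_ne _ _)⟩
  left_inv' m h := by
    obtain ⟨v, hv, e⟩ := Psi_surj (m₀ := m₀) he a.1 m h.1
    have h1 := (kk_ne he h.1 hv _).mp (e.symm ▸ h.2)
    have h2 := sg_Psi (m₀ := m₀) he h.1 h1
    rw [e] at h2
    change Psi U J m₀ a.1 (m.1.1, ins a.2 fun k => sg U J K (a.1, a.2) m (a.2.succAbove k)) = m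
    rw [ins_eq (div_self h.2), h2, Psi_smul h.1 hv (inv_ne_zero h1), e]
  right_inv' y h := by
    refine Prod.ext (Psi_fst h.1 (ne_of (ins_ne _ _))) (funext fun k => ?_)
    change sg U J K (a.1, a.2) _ _ = _
    rw [sg_Psi he h.1 (ins_ne _ _), ins_same, inv_one, one_smul, ins_succ]
  open_source := isOpen_iff_mem_nhds.mpr fun m h =>
    ((show ContinuousAt (fun m : MM U J => m.1.1) m by fun_prop).eventually
      ((hc.op a.1).mem_nhds h.1)).and ((kk_cont he h.1 _ _).eventually_ne h.2)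
  open_target := (hc.op _).prod isOpen_univ
  continuousOn_toFun m h := ((show ContinuousAt (fun m : MM U J => m.1.1) m by fun_prop).prodMk
    (continuousAt_pi.mpr fun k =>
      (kk_cont he h.1 _ _).div (kk_cont he h.1 _ _) h.2)).continuousWithinAt
  continuousOn_invFun y h := ((Psi_ca hc he h.1 (ne_of (ins_ne _ _))).comp
    (f := fun y : S × (Fin n → ℂ) => (y.1, ins a.2 y.2)) (continuousAt_fst.prodMk
      ((ins_cd a.2).continuous.comp continuous_snd).continuousAt)).continuousWithinAt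

theorem ch_Psi (hp : p ∈ U c) (hv : v ≠ 0) {b : ι × Fin (n + 1)}
    (hb : Psi U J m₀ c (p, v) ∈ (ch hc he m₀ b).source) :
    ContMDiffAt (𝓘(ℂ, VS).prod 𝓘(ℂ, Fin (n + 1) → ℂ)) (𝓘(ℂ, VS).prod 𝓘(ℂ, Fin n → ℂ)) ω
      (fun y => ch hc he m₀ b (Psi U J m₀ c y)) (p, v) := by
  obtain ⟨d, j⟩ := b
  have hd : p ∈ U d := by have := hb.1; rwa [Psi_val hp hv] at this
  have h1 := (kk_ne he hd (G_ne he ⟨hp, hd⟩ hv).1 j).mp ((Psi_tr he ⟨hp, hd⟩ hv).symm ▸ hb.2)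
  have h2 : ContMDiffAt (𝓘(ℂ, VS).prod 𝓘(ℂ, Fin (n + 1) → ℂ)) 𝓘(ℂ, Fin (n + 1) → ℂ) ω
      (fun y : S × (Fin (n + 1) → ℂ) => Γ c d y.1 *ᵥ y.2) (p, v) :=
    cm_bil (mv _ _) ((hc.holo c d p ⟨hp, hd⟩).comp (p, v) contMDiffAt_fst) contMDiffAt_snd
  have h3 := contMDiffAt_pi_space.mp h2
  obtain ⟨i, hi⟩ := Function.ne_iff.mp hv
  refine (contMDiffAt_fst.prodMk (contMDiffAt_pi_space.mpr fun k =>
    cm_mul (cm_inv (h3 j) h1) (h3 (j.succAbove k)))).congr_of_eventuallyEq ?_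
  filter_upwards [ev hc hp hi, ev hc hd hi, (h3 j).continuousAt.eventually_ne h1] with y a1 a2 a3
  refine Prod.ext (Psi_fst a1.1 (ne_of a1.2)) (funext fun k => ?_)
  change sg U J K (d, j) (Psi U J m₀ c (y.1, y.2)) _ = _
  rw [← Psi_tr he ⟨a1.1, a2.1⟩ (ne_of a1.2), sg_Psi he a2.1 a3]
  rfl

theorem cpt [CompactSpace S] [LocallyCompactSpace S] (m₀ : MM U J) : CompactSpace (MM U J) := by
  choose ix hix using hc.cover
  choose C h1 h2 h3 using fun p => exists_compact_subset (hc.op (ix p)) (hix p)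
  obtain ⟨t, -, ht⟩ := isCompact_univ.elim_nhds_subcover C
    fun p _ => mem_interior_iff_mem_nhds.mp (h2 p)
  refine ⟨(t.isCompact_biUnion (f := fun p => Psi U J m₀ (ix p) '' C p ×ˢ Metric.sphere 0 1)
    fun p _ => ((h1 p).prod (isCompact_sphere _ _)).image_of_continuousOn fun y hy =>
      (Psi_ca hc he (h3 p hy.1) (ne_zero_of_mem_sphere one_ne_zero ⟨_, hy.2⟩)).continuousWithinAt
    ).of_isClosed_subset isClosed_univ fun m _ => ?_⟩
  obtain ⟨p, hp, hm⟩ := mem_iUnion₂.mp (ht (mem_univ m.1.1))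
  obtain ⟨v, hv, e⟩ := Psi_surj (m₀ := m₀) he _ m (h3 p hm)
  have h4 : (‖v‖ : ℂ) ≠ 0 := by exact_mod_cast norm_ne_zero_iff.mpr hv
  refine mem_iUnion₂.mpr ⟨p, hp, (m.1.1, (‖v‖ : ℂ)⁻¹ • v), ⟨hm, ?_⟩,
    (Psi_smul (h3 p hm) hv (inv_ne_zero h4)).trans e⟩
  simp [norm_smul, norm_ne_zero_iff.mpr hv]

end T35

open T35 in
theorem st_PB (hG : St_GLUE) : St_PB := by
  intro VS _ _ S _ _ _ _ _ _ _ ι n U Γ N _ J K hc he
  obtain ⟨p₀⟩ : Nonempty S := inferInstance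
  obtain ⟨c₀, h₀⟩ := hc.cover p₀
  have m₀ : MM U J := ⟨(p₀, pr (J c₀ p₀ *ᵥ 1)), c₀, 1, h₀, one_ne_zero, rfl⟩
  have cov : ∀ c (m : MM U J), m.1.1 ∈ U c → ∃ i, m ∈ (ch hc he m₀ (c, i)).source := fun c m h => by
    obtain ⟨v, hv, e⟩ := Psi_surj (m₀ := m₀) he c m h
    obtain ⟨i, hi⟩ := Function.ne_iff.mp hv
    exact ⟨i, h, e ▸ (kk_ne he h hv i).mpr hi⟩
  obtain ⟨cs, hm, hs⟩ := hG (VS × (Fin n → ℂ)) (ModelProd VS (Fin n → ℂ))
    (𝓘(ℂ, VS).prod 𝓘(ℂ, Fin n → ℂ)) (S × (Fin n → ℂ)) (MM U J) _ (ch hc he m₀)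
    (fun m => (hc.cover m.1.1).elim fun c h => (cov c m h).elim fun i hi => ⟨_, hi⟩)
    fun a b y hy hy' => (ch_Psi hc he hy.1 (ne_of (ins_ne _ _)) hy').comp
      (f := fun y : S × (Fin n → ℂ) => (y.1, ins a.2 y.2)) y
      (contMDiffAt_fst.prodMk (((ins_cd a.2).contMDiff _).comp y contMDiffAt_snd))
  have hO : ∀ a, Oc U (fun m : MM U J => m.1.1) (Psi U J m₀) a = (ch hc he m₀ a).source := fun a =>
    Set.ext fun m => and_congr_right fun h => ⟨fun ⟨v, hv, e⟩ =>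
      e ▸ (kk_ne he h (ne_of hv) _).mpr hv, fun h' => by
        obtain ⟨v, hv, e⟩ := Psi_surj (m₀ := m₀) he a.1 m h
        exact ⟨v, (kk_ne he h hv _).mp (e.symm ▸ h'), e⟩⟩
  let cs' : ChartedSpace (VS × (Fin n → ℂ)) (MM U J) := cs
  refine ⟨MM U J, inferInstance, cs', fun m => m.1.1, Psi U J m₀, sg U J K, ?_, inferInstance,
    cpt hc he m₀, fun m => ?_, fun c p hp v hv => ?_,
    fun c p hp v hv => Psi_fst hp hv, fun c p hp v v' hv hv' => ⟨fun e => ?_, ?_⟩,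
    fun c d p hp v hv => Psi_tr he hp hv, Psi_surj he, fun a => hO a ▸ (ch hc he m₀ a).open_source,
    fun c i p hp v hv => sg_Psi he hp hv, fun a m h => ?_⟩
  · rw [modelWithCornersSelf_prod]
    exact hm
  · obtain ⟨c, h⟩ := hc.cover m.1.1
    obtain ⟨i, hi⟩ := cov c m h
    rw [modelWithCornersSelf_prod]
    have h1 := contMDiffAt_fst.comp m ((hs _).1 m hi)
    exact h1
  · obtain ⟨i, hi⟩ := cov c (Psi U J m₀ c (p, v)) (by rw [Psi_val hp hv]; exact hp)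
    rw [modelWithCornersSelf_prod (E := VS)]
    refine (((hs _).2 _ ((ch hc he m₀ _).map_source hi)).comp (p, v)
      (ch_Psi hc he hp hv hi)).congr_of_eventuallyEq ?_
    filter_upwards [(Psi_ca hc he hp hv).eventually ((ch hc he m₀ _).open_source.mem_nhds hi)]
      with y hy
    exact ((ch hc he m₀ _).left_inv hy).symm
  · obtain ⟨i, hi⟩ := Function.ne_iff.mp hv
    have h1 := (kk_ne he hp hv' i).mp (e ▸ (kk_ne he hp hv i).mpr hi)
    have h2 := sg_Psi (m₀ := m₀) he hp hi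
    rw [e, sg_Psi he hp h1] at h2
    exact ⟨v' i * (v i)⁻¹, by rw [mul_smul, ← h2, smul_inv_smul₀ h1]⟩
  · rintro ⟨a, rfl⟩
    exact (Psi_smul hp hv (left_ne_zero_of_smul hv')).symm
  · rw [hO] at h
    rw [modelWithCornersSelf_prod]
    refine (((ins_cd a.2).contMDiff _).comp m
      (contMDiffAt_snd.comp m ((hs _).1 m h))).congr_of_eventuallyEq ?_
    filter_upwards [(ch hc he m₀ a).open_source.mem_nhds h] with y hy
    exact (ins_eq (div_self hy.2)).symm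

end Pool.Agent.Lib.ATQ
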