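import Pool.Agent.Lib.ATQ.Tools

/-! Project atq: a projective bundle over a connected base is connected. -/

open scoped Manifold ContDiff Topology Matrix.Norms.Operator Matrix
open Set Filter

noncomputable section

namespace Pool.Agent.Lib.ATQ

theorem st_PBC : St_PBC := by
  intro VS _ _ S _ _ _ ι n U Γ M _ _ π Ψ σ hc hp
  have h1 : (fun _ => 1 : Fin (n + 1) → ℂ) ≠ 0 := fun h => one_ne_zero (congrFun h 0)
  have hs : ∀ p, ∃ m, π m = p := fun p =>
    let ⟨c, h⟩ := hc.cover p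
    ⟨_, hp.proj c p h _ h1⟩
  have hr : 1 < Module.rank ℝ (Fin (n + 1) → ℂ) := by
    rw [← Module.finrank_eq_rank, Module.finrank_pi_fintype]
    simp only [Complex.finrank_real_complex, Finset.sum_const, Finset.card_univ, Fintype.card_fin,
      smul_eq_mul]
    exact_mod_cast (by omega : 1 < (n + 1) * 2)
  have hfib : ∀ A : Set M, IsClopen A → ∀ m ∈ A, ∀ m', π m' = π m → m' ∈ A := by
    intro A hA m hm m' e
    obtain ⟨c, h⟩ := hc.cover (π m)
    obtain ⟨v, hv, a⟩ := hp.surj c m h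
    obtain ⟨v', hv', a'⟩ := hp.surj c m' (e ▸ h)
    have hco : ContinuousOn (fun w => Ψ c (π m, w)) {0}ᶜ := fun w hw =>
      ((hp.hΨ c _ h w hw).continuousAt.comp (f := fun w => (π m, w))
        (continuousAt_const.prodMk continuousAt_id)).continuousWithinAt
    exact ((isConnected_compl_singleton_of_one_lt_rank hr 0).image _ hco).isPreconnected.subset_isClopen
      hA ⟨m, ⟨v, hv, a⟩, hm⟩ ⟨v', hv', e ▸ a'⟩
  have hop : ∀ A : Set M, IsOpen A → IsOpen (π '' A) := by
    intro A hA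
    refine isOpen_iff_mem_nhds.2 ?_
    rintro _ ⟨m, hm, rfl⟩
    obtain ⟨c, h⟩ := hc.cover (π m)
    obtain ⟨v, hv, a⟩ := hp.surj c m h
    have hco : ContinuousAt (fun q => Ψ c (q, v)) (π m) :=
      (hp.hΨ c _ h v hv).continuousAt.comp (f := fun q => (q, v))
        (continuousAt_id.prodMk continuousAt_const)
    filter_upwards [(hc.op c).mem_nhds h, hco.preimage_mem_nhds (hA.mem_nhds (a.symm ▸ hm))]
      with q hq hq'
    exact ⟨_, hq', hp.proj c q hq v hv⟩
  refine connectedSpace_iff_clopen.2 ⟨⟨(hs (Classical.arbitrary S)).choose⟩, fun A hA => ?_⟩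
  have e : (π '' A)ᶜ = π '' Aᶜ := by
    ext p
    constructor
    · intro h
      obtain ⟨m, rfl⟩ := hs p
      exact ⟨m, fun hm => h ⟨m, hm, rfl⟩, rfl⟩
    · rintro ⟨m, hm, rfl⟩ ⟨m', hm', a⟩
      exact hm (hfib A hA m' hm' m a.symm)
  rcases isClopen_iff.1 ⟨isOpen_compl_iff.1 (e ▸ hop _ hA.compl.isOpen), hop _ hA.isOpen⟩ with h | h
  · exact Or.inl (image_eq_empty.1 h)
  · refine Or.inr (compl_empty_iff.1 ((image_eq_empty (f := π)).1 ?_))
    rw [← e, h, compl_univ]

end Pool.Agent.Lib.ATQ
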