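import Pool.Agent.Lib.ATQ.Tools

/-! Project atq, block PBD1: first order consequences of the projective bundle data. -/

open scoped Manifold ContDiff Topology Matrix.Norms.Operator Matrix
open Set Filter

set_option linter.unusedSectionVars false

noncomputable section

namespace Pool.Agent.Lib.ATQ

open Pool.Agent.Lib.MP_ad9325_ag

namespace T65

variable {VS : Type} [NormedAddCommGroup VS] [NormedSpace ℂ VS] {S : Type} [TopologicalSpace S]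
  [ChartedSpace VS S] {ι : Type} {n : ℕ} {U : ι → Set S} {Γ : ι → ι → S → Mt (n + 1)}
  {M : Type} [TopologicalSpace M] [ChartedSpace (VS × (Fin n → ℂ)) M] {π : M → S}
  {Ψ : ι → S × (Fin (n + 1) → ℂ) → M} {σ : ι × Fin (n + 1) → M → Fin (n + 1) → ℂ}

theorem pb_ne {v : Fin (n + 1) → ℂ} {i : Fin (n + 1)} (h : v i ≠ 0) : v ≠ 0 :=
  fun e => h (by rw [e]; rfl)

theorem pb_scale (h : PBD VS U Γ π Ψ σ) {c : ι} {p : S} (hp : p ∈ U c) {v : Fin (n + 1) → ℂ}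
    (hv : v ≠ 0) {a : ℂ} (ha : a ≠ 0) : Ψ c (p, a • v) = Ψ c (p, v) :=
  ((h.eqv c p hp v _ hv (smul_ne_zero ha hv)).2 ⟨a, rfl⟩).symm

theorem pb_mem (h : PBD VS U Γ π Ψ σ) {c : ι} {p : S} (hp : p ∈ U c) {v : Fin (n + 1) → ℂ}
    {i : Fin (n + 1)} (hv : v i ≠ 0) : Ψ c (p, v) ∈ Oc U π Ψ (c, i) := by
  have e := h.proj c p hp v (pb_ne hv)
  exact ⟨by rw [e]; exact hp, v, hv, by rw [e]⟩

theorem pb_sec (h : PBD VS U Γ π Ψ σ) {a : ι × Fin (n + 1)} {m : M} (hm : m ∈ Oc U π Ψ a) :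
    σ a m a.2 = 1 ∧ Ψ a.1 (π m, σ a m) = m := by
  obtain ⟨hp, v, hv, e⟩ := hm
  have e1 : σ a m = (v a.2)⁻¹ • v := by
    have := h.sec a.1 a.2 (π m) hp v hv
    rwa [e] at this
  refine ⟨by rw [e1]; simp [hv], ?_⟩
  rw [e1, pb_scale h hp (pb_ne hv) (inv_ne_zero hv), e]

theorem pb_near (hc : IsCocycle VS U Γ) {c : ι} {p : S} (hp : p ∈ U c) {v : Fin (n + 1) → ℂ}
    {i : Fin (n + 1)} (hv : v i ≠ 0) :
    ∀ᶠ w : S × (Fin (n + 1) → ℂ) in 𝓝 (p, v), w.1 ∈ U c ∧ w.2 i ≠ 0 := by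
  have h1 : ∀ᶠ w : S × (Fin (n + 1) → ℂ) in 𝓝 (p, v), w.1 ∈ U c :=
    continuous_fst.continuousAt.preimage_mem_nhds ((hc.op c).mem_nhds hp)
  have h2 : ContinuousAt (fun w : S × (Fin (n + 1) → ℂ) => w.2 i) (p, v) :=
    ((continuous_apply i).comp continuous_snd).continuousAt
  exact h1.and (h2.eventually_ne hv)

theorem pb_dback (h : PBD VS U Γ π Ψ σ) {a : ι × Fin (n + 1)} {m : M} (hm : m ∈ Oc U π Ψ a)
    (x : VS × (Fin n → ℂ)) : DΨ VS Ψ a.1 (π m, σ a m)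
    (D 𝓘(ℂ, VS × (Fin n → ℂ)) 𝓘(ℂ, VS) π m x,
      D 𝓘(ℂ, VS × (Fin n → ℂ)) 𝓘(ℂ, Fin (n + 1) → ℂ) (σ a) m x) = x := by
  have h0 : σ a m ≠ 0 := pb_ne (i := a.2) (by rw [(pb_sec h hm).1]; exact one_ne_zero)
  have h1 := md (h.hπ m)
  have h2 := md (h.hσ a m hm)
  have h3 := D_comp (f := fun m' => (π m', σ a m')) (md (h.hΨ a.1 _ hm.1 _ h0)) (h1.prodMk h2)
  have h4 : (fun m' => Ψ a.1 (π m', σ a m')) =ᶠ[𝓝 m] fun m' => m' := by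
    filter_upwards [(h.op a).mem_nhds hm] with m' hm'
    exact (pb_sec h hm').2
  rw [D_congr h4, D_id, D_prodMk h1 h2] at h3
  exact (congrArg (fun L : VS × (Fin n → ℂ) →L[ℂ] VS × (Fin n → ℂ) => L x) h3).symm

theorem pb_dhom (hc : IsCocycle VS U Γ) (h : PBD VS U Γ π Ψ σ) {c : ι} {p : S} (hp : p ∈ U c)
    {v : Fin (n + 1) → ℂ} (hv : v ≠ 0) {a : ℂ} (ha : a ≠ 0) (u : VS) (ξ : Fin (n + 1) → ℂ) :
    DΨ VS Ψ c (p, a • v) (u, a • ξ) = DΨ VS Ψ c (p, v) (u, ξ) := by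
  obtain ⟨i, hi⟩ := Function.ne_iff.1 hv
  let L : (Fin (n + 1) → ℂ) →L[ℂ] (Fin (n + 1) → ℂ) := a • ContinuousLinearMap.id ℂ _
  have h1 : MDifferentiableAt (𝓘(ℂ, VS).prod 𝓘(ℂ, Fin (n + 1) → ℂ)) 𝓘(ℂ, VS)
      (Prod.fst : S × (Fin (n + 1) → ℂ) → S) (p, v) := mdifferentiableAt_fst
  have h2 : MDifferentiableAt (𝓘(ℂ, VS).prod 𝓘(ℂ, Fin (n + 1) → ℂ)) 𝓘(ℂ, Fin (n + 1) → ℂ)
      (Prod.snd : S × (Fin (n + 1) → ℂ) → _) (p, v) := mdifferentiableAt_snd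
  have h2' : MDifferentiableAt (𝓘(ℂ, VS).prod 𝓘(ℂ, Fin (n + 1) → ℂ)) 𝓘(ℂ, Fin (n + 1) → ℂ)
      (fun w : S × (Fin (n + 1) → ℂ) => L w.2) (p, v) := L.mdifferentiableAt.comp _ h2
  have h3 := D_comp (f := fun w : S × (Fin (n + 1) → ℂ) => (w.1, L w.2)) (x := (p, v))
    (md (h.hΨ c p hp _ (smul_ne_zero ha hv))) (h1.prodMk h2')
  have h4 : (fun w : S × (Fin (n + 1) → ℂ) => Ψ c (w.1, L w.2)) =ᶠ[𝓝 (p, v)] Ψ c := by
    filter_upwards [pb_near hc hp hi] with w hw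
    exact pb_scale h hw.1 (pb_ne hw.2) ha
  rw [D_congr h4, D_prodMk h1 h2', D_clm_comp L h2, D_fst, D_snd] at h3
  exact (congrArg (fun L : VS × (Fin (n + 1) → ℂ) →L[ℂ] VS × (Fin n → ℂ) => L (u, ξ)) h3).symm

theorem pb_euler (h : PBD VS U Γ π Ψ σ) {c : ι} {p : S} (hp : p ∈ U c)
    {v : Fin (n + 1) → ℂ} (hv : v ≠ 0) (a : ℂ) : DΨ VS Ψ c (p, v) (0, a • v) = 0 := by
  let L : ℂ →L[ℂ] (Fin (n + 1) → ℂ) := (ContinuousLinearMap.id ℂ ℂ).smulRight v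
  have hL : L 1 = v := one_smul ℂ v
  have h1 : MDifferentiableAt 𝓘(ℂ, ℂ) 𝓘(ℂ, VS) (fun _ : ℂ => p) 1 := mdifferentiableAt_const
  have h2 : MDifferentiableAt 𝓘(ℂ, ℂ) 𝓘(ℂ, Fin (n + 1) → ℂ) L 1 := L.mdifferentiableAt
  have h3 := D_comp_of_eq (f := fun t : ℂ => (p, L t)) (x := 1) (md (h.hΨ c p hp v hv))
    (h1.prodMk h2) (by rw [hL])
  have h4 : (fun t : ℂ => Ψ c (p, L t)) =ᶠ[𝓝 1] fun _ => Ψ c (p, v) := by
    filter_upwards [eventually_ne_nhds (one_ne_zero (α := ℂ))] with t ht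
    exact pb_scale h hp hv ht
  rw [D_congr h4, D_const, D_prodMk h1 h2, D_const, D_clm] at h3
  exact (congrArg (fun L : ℂ →L[ℂ] VS × (Fin n → ℂ) => L a) h3).symm

theorem pb_ker (hc : IsCocycle VS U Γ) (h : PBD VS U Γ π Ψ σ) {c : ι} {p : S} (hp : p ∈ U c)
    {v : Fin (n + 1) → ℂ} (hv : v ≠ 0) (u : VS) (ξ : Fin (n + 1) → ℂ)
    (h0 : DΨ VS Ψ c (p, v) (u, ξ) = 0) : u = 0 ∧ ∃ a : ℂ, ξ = a • v := by
  obtain ⟨i, hi⟩ := Function.ne_iff.1 hv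
  have hi' : v i ≠ 0 := hi
  have hΨ := md (h.hΨ c p hp v hv)
  constructor
  · have h3 := D_comp (md (h.hπ (Ψ c (p, v)))) hΨ
    have h4 : (fun w : S × (Fin (n + 1) → ℂ) => π (Ψ c w)) =ᶠ[𝓝 (p, v)] Prod.fst := by
      filter_upwards [pb_near hc hp hi'] with w hw
      exact h.proj c w.1 hw.1 w.2 (pb_ne hw.2)
    rw [D_congr h4, D_fst] at h3
    have h5 := congrArg (fun L : VS × (Fin (n + 1) → ℂ) →L[ℂ] VS => L (u, ξ)) h3
    simp only [ContinuousLinearMap.comp_apply] at h5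
    rw [h0, map_zero] at h5
    exact h5
  · have hσ := (md (h.hσ (c, i) _ (pb_mem h hp hi'))).comp (p, v) hΨ
    have h3 := congrArg (fun L : VS × (Fin (n + 1) → ℂ) →L[ℂ] (Fin (n + 1) → ℂ) => L (u, ξ))
      (D_comp (md (h.hσ (c, i) _ (pb_mem h hp hi'))) hΨ)
    simp only [ContinuousLinearMap.comp_apply] at h3
    rw [h0, map_zero] at h3
    have h2 : MDifferentiableAt (𝓘(ℂ, VS).prod 𝓘(ℂ, Fin (n + 1) → ℂ)) 𝓘(ℂ, ℂ)
        (fun w : S × (Fin (n + 1) → ℂ) => w.2 i) (p, v) :=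
      (ContinuousLinearMap.proj (R := ℂ) (φ := fun _ : Fin (n + 1) => ℂ) i).mdifferentiableAt.comp _
        mdifferentiableAt_snd
    have h5 := D_smul (g := fun w => σ (c, i) (Ψ c w)) h2 hσ (u, ξ)
    have h4 : (fun w : S × (Fin (n + 1) → ℂ) => w.2 i • σ (c, i) (Ψ c w)) =ᶠ[𝓝 (p, v)]
        Prod.snd := by
      filter_upwards [pb_near hc hp hi'] with w hw
      rw [h.sec c i w.1 hw.1 w.2 hw.2, smul_inv_smul₀ hw.2]
    rw [D_congr h4, D_snd, h3, smul_zero, add_zero, h.sec c i p hp v hi', smul_smul] at h5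
    exact ⟨_, h5⟩

end T65

open T65 in
theorem st_PBD1 : St_PBD1 := by
  intro VS _ _ S _ _ _ ι n U Γ M _ _ _ π Ψ σ hc h
  refine ⟨?_, fun a m hm => (pb_sec h hm).1, fun a m hm => (pb_sec h hm).2,
    fun a m hm x => pb_dback h hm x, ?_, ?_, fun c p hp v hv a ha u ξ => pb_dhom hc h hp hv ha u ξ⟩
  · intro m c hm
    obtain ⟨v, hv, e⟩ := h.surj c m hm
    obtain ⟨i, hi⟩ := Function.ne_iff.1 hv
    exact ⟨i, hm, v, hi, e⟩
  · intro c p hp v hv x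
    obtain ⟨i, hi⟩ := Function.ne_iff.1 hv
    have hi' : v i ≠ 0 := hi
    have h1 := pb_dback h (pb_mem h hp hi') x
    rw [h.sec c i p hp v hi', h.proj c p hp v hv,
      ← pb_dhom hc h hp (smul_ne_zero (inv_ne_zero hi') hv) hi', smul_inv_smul₀ hi'] at h1
    exact ⟨_, h1⟩
  · intro c p hp v hv u ξ
    refine ⟨pb_ker hc h hp hv u ξ, ?_⟩
    rintro ⟨rfl, a, rfl⟩
    exact pb_euler h hp hv a

end Pool.Agent.Lib.ATQ
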