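import Pool.Agent.Lib.ATQ.Tools

/-! Project atq: products and linear changes of chart data. -/

open scoped Manifold ContDiff Topology Matrix.Norms.Operator Matrix
open Set Filter

noncomputable section

namespace Pool.Agent.Lib.ATQ

open Pool.Agent.Lib.MP_ad9325_ag

theorem st_PRD : St_PRD := by
  refine ⟨fun E₁ _ _ G₁ _ _ R₁ _ _ E₂ _ _ G₂ _ _ R₂ _ _ v₁ φ₁ L₁ v₂ φ₂ L₂ h₁ h₂ => ?_,
    fun E _ _ G _ _ R _ _ E' _ _ v φ L e h => ?_⟩
  · obtain ⟨J₁, a₁, b₁⟩ := h₁.inv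
    obtain ⟨J₂, a₂, b₂⟩ := h₂.inv
    refine ⟨φ₁.prod φ₂, ⟨h₁.one, h₂.one⟩, h₁.cont.prodMap h₂.cont,
      fun x hx => Prod.ext (h₁.lin _ hx.1) (h₂.lin _ hx.2), ?_,
      Prod.map J₁ J₂, a₁.prodMap a₂, fun g => Prod.ext (b₁ g.1) (b₂ g.2)⟩
    exact (h₁.symm.comp contDiffOn_fst fun _ hy => hy.1).prodMk
      (h₂.symm.comp contDiffOn_snd fun _ hy => hy.2)
  · refine ⟨φ.transHomeomorph e.toHomeomorph, h.one, h.cont,
      fun x hx => congrArg e (h.lin x hx), ?_, h.inv⟩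
    exact h.symm.comp e.symm.contDiff.contDiffOn fun _ hy => hy

end Pool.Agent.Lib.ATQ
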