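import Pool.Agent.Lib.ATQ.Tools

/-! Project atq: the projection to `Hh` along `Tt`. -/

open scoped Manifold ContDiff Topology Matrix.Norms.Operator Matrix
open Set Filter

noncomputable section

namespace Pool.Agent.Lib.ATQ

namespace T24

/-- The pointwise properties of the two forms. -/
structure Good (Hh Tt : Submodule ℂ WW) (v : E6) (α : WW →L[ℂ] BB)
    (β : WW →L[ℂ] (Fin 5 → ℂ)) : Prop where
  hH : ∀ a, a ∈ Hh ↔ β a = 0
  hT : ∀ a, a ∈ Tt ↔ α a = 0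
  su : Function.Surjective fun a => (α a, β a)
  ke : ∀ a, (α a = 0 ∧ β a = 0) ↔ ∃ c : ℂ, a = (0, c • v)

variable {Hh Tt : Submodule ℂ WW} {v : E6} {α : WW →L[ℂ] BB} {β : WW →L[ℂ] (Fin 5 → ℂ)}

theorem Good.ex (g : Good Hh Tt v α β) (a : WW) : ∃ h ∈ Hh, a - h ∈ Tt := by
  obtain ⟨h, hh⟩ := g.su (α a, 0)
  have h1 : α h = α a := congrArg Prod.fst hh
  have h2 : β h = 0 := congrArg Prod.snd hh
  exact ⟨h, (g.hH h).2 h2, (g.hT _).2 (by rw [map_sub, h1, sub_self])⟩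

theorem Good.inf (g : Good Hh Tt v α β) (a : WW) :
    (a ∈ Hh ∧ a ∈ Tt) ↔ ∃ c : ℂ, a = (0, c • v) := by
  rw [g.hH, g.hT, and_comm, g.ke]

theorem Good.uniq (g : Good Hh Tt v α β) {a h h' : WW} (h1 : h ∈ Hh) (h2 : a - h ∈ Tt)
    (h1' : h' ∈ Hh) (h2' : a - h' ∈ Tt) :
    h.1 = h'.1 ∧ ∀ i j, v i * h.2 j - v j * h.2 i = v i * h'.2 j - v j * h'.2 i := by
  have e : h - h' = (a - h') - (a - h) := by abel
  obtain ⟨c, hc⟩ := (g.inf (h - h')).1 ⟨Hh.sub_mem h1 h1', e ▸ Tt.sub_mem h2' h2⟩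
  have e1 : h.1 - h'.1 = 0 := congrArg Prod.fst hc
  have e2 : ∀ k, h.2 k - h'.2 k = c * v k := fun k => congrFun (congrArg Prod.snd hc) k
  refine ⟨sub_eq_zero.1 e1, fun i j => ?_⟩
  linear_combination v i * e2 j - v j * e2 i

theorem rk_WW : Module.finrank ℂ WW = 8 := by simp

theorem Good.dimH (g : Good Hh Tt v α β) : Module.finrank ℂ Hh = 3 := by
  have e : Hh = LinearMap.ker (β : WW →ₗ[ℂ] (Fin 5 → ℂ)) := by
    ext a
    exact g.hH a
  have hs : LinearMap.range (β : WW →ₗ[ℂ] (Fin 5 → ℂ)) = ⊤ := by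
    refine LinearMap.range_eq_top.2 fun y => ?_
    obtain ⟨a, ha⟩ := g.su (0, y)
    exact ⟨a, congrArg Prod.snd ha⟩
  have h := LinearMap.finrank_range_add_finrank_ker (β : WW →ₗ[ℂ] (Fin 5 → ℂ))
  rw [hs, finrank_top, rk_WW, ← e] at h
  have h5 : Module.finrank ℂ (Fin 5 → ℂ) = 5 := by simp
  omega

theorem Good.dimT (g : Good Hh Tt v α β) : Module.finrank ℂ Tt = 6 := by
  have e : Tt = LinearMap.ker (α : WW →ₗ[ℂ] BB) := by
    ext a
    exact g.hT a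
  have hs : LinearMap.range (α : WW →ₗ[ℂ] BB) = ⊤ := by
    refine LinearMap.range_eq_top.2 fun y => ?_
    obtain ⟨a, ha⟩ := g.su (y, 0)
    exact ⟨a, congrArg Prod.fst ha⟩
  have h := LinearMap.finrank_range_add_finrank_ker (α : WW →ₗ[ℂ] BB)
  rw [hs, finrank_top, rk_WW, ← e] at h
  have h2 : Module.finrank ℂ BB = 2 := by simp
  omega

/-- The coordinate `i` of the second component. -/
def co (i : Fin 6) : WW →L[ℂ] ℂ :=
  (ContinuousLinearMap.proj i).comp (ContinuousLinearMap.snd ℂ BB E6)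

theorem Good.inv (g : Good Hh Tt v α β) {i : Fin 6} (hi : v i ≠ 0) :
    (α.prod (β.prod (co i))).IsInvertible := by
  have hk : LinearMap.ker (α.prod (β.prod (co i)) : WW →ₗ[ℂ] BB × (Fin 5 → ℂ) × ℂ) = ⊥ := by
    refine LinearMap.ker_eq_bot'.2 fun a ha => ?_
    have h1 : α a = 0 := congrArg Prod.fst ha
    have h2 : β a = 0 := congrArg (fun x => x.2.1) ha
    have h3 : a.2 i = 0 := congrArg (fun x => x.2.2) ha
    obtain ⟨c, rfl⟩ := (g.ke a).1 ⟨h1, h2⟩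
    have h4 : c * v i = 0 := h3
    rw [(mul_eq_zero.1 h4).resolve_right hi, zero_smul]
    rfl
  have hr : LinearMap.range (α.prod (β.prod (co i)) : WW →ₗ[ℂ] BB × (Fin 5 → ℂ) × ℂ) = ⊤ :=
    (LinearMap.ker_eq_bot_iff_range_eq_top_of_finrank_eq_finrank (by simp)).1 hk
  exact ⟨ContinuousLinearEquiv.ofBijective _ hk hr, rfl⟩

/-- A chosen component. -/
def ch (Hh Tt : WW → Submodule ℂ WW) (w a : WW) : WW :=
  Classical.epsilon fun h => h ∈ Hh w ∧ a - h ∈ Tt w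

theorem ch_spec {Hh Tt : WW → Submodule ℂ WW} {w : WW} (g : Good (Hh w) (Tt w) v α β) (a : WW) :
    ch Hh Tt w a ∈ Hh w ∧ a - ch Hh Tt w a ∈ Tt w :=
  Classical.epsilon_spec (p := fun h => h ∈ Hh w ∧ a - h ∈ Tt w) (g.ex a)

theorem loc {Ω : Set BB} {Hh Tt : WW → Submodule ℂ WW} (hd : RigData Ω Hh Tt) {z : BB}
    (hz : z ∈ Ω) (hv : v ≠ 0) : ∃ (α : WW → WW →L[ℂ] BB) (β : WW → WW →L[ℂ] (Fin 5 → ℂ)),
      ContDiffAt ℂ ω α (z, v) ∧ ContDiffAt ℂ ω β (z, v) ∧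
        ∀ᶠ w in 𝓝 ((z, v) : WW), Good (Hh w) (Tt w) w.2 (α w) (β w) := by
  obtain ⟨α, β, hα, hβ, h⟩ := hd.loc z hz v hv
  exact ⟨α, β, hα, hβ, h.mono fun w hw => ⟨hw.1, hw.2.1, hw.2.2.1, hw.2.2.2.1⟩⟩

theorem good {Ω : Set BB} {Hh Tt : WW → Submodule ℂ WW} (hd : RigData Ω Hh Tt) {z : BB}
    (hz : z ∈ Ω) (hv : v ≠ 0) : ∃ α β, Good (Hh (z, v)) (Tt (z, v)) v α β := by
  obtain ⟨α, β, -, -, h⟩ := loc hd hz hv
  exact ⟨_, _, h.self_of_nhds⟩

theorem cd_prod {F₁ F₂ : Type} [NormedAddCommGroup F₁] [NormedSpace ℂ F₁] [NormedAddCommGroup F₂]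
    [NormedSpace ℂ F₂] {f : WW → WW →L[ℂ] F₁} {g : WW → WW →L[ℂ] F₂} {w : WW}
    (hf : ContDiffAt ℂ ω f w) (hg : ContDiffAt ℂ ω g w) :
    ContDiffAt ℂ ω (fun x => (f x).prod (g x)) w := by
  have e : (fun x => (f x).prod (g x)) = fun x => (ContinuousLinearMap.inl ℂ F₁ F₂).comp (f x) +
      (ContinuousLinearMap.inr ℂ F₁ F₂).comp (g x) := by
    funext x
    refine ContinuousLinearMap.ext fun a => ?_
    simp
  rw [e]
  exact (contDiffAt_const.clm_comp hf).add (contDiffAt_const.clm_comp hg)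

/-- A holomorphic local component. -/
theorem smooth {Ω : Set BB} {Hh Tt : WW → Submodule ℂ WW} (hd : RigData Ω Hh Tt) {z : BB}
    (hz : z ∈ Ω) (hv : v ≠ 0) (a : WW) : ∃ h : WW → WW, ContDiffAt ℂ ω h (z, v) ∧
      ∀ᶠ w in 𝓝 ((z, v) : WW), (ch Hh Tt w a).1 = (h w).1 ∧ ∀ i j,
        w.2 i * (ch Hh Tt w a).2 j - w.2 j * (ch Hh Tt w a).2 i =
          w.2 i * (h w).2 j - w.2 j * (h w).2 i := by
  obtain ⟨α, β, hα, hβ, hg⟩ := loc hd hz hv
  obtain ⟨i, hi⟩ := Function.ne_iff.1 hv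
  have hi0 : v i ≠ 0 := hi
  have hG : ContDiffAt ℂ ω (fun w => (α w).prod ((β w).prod (co i))) (z, v) := by
    exact cd_prod hα (cd_prod hβ contDiffAt_const)
  have hI : ContDiffAt ℂ ω (fun w => ((α w).prod ((β w).prod (co i))).inverse) (z, v) :=
    ContDiffAt.comp (g := ContinuousLinearMap.inverse) (z, v)
      (hg.self_of_nhds.inv hi0).contDiffAt_map_inverse hG
  have hne : ∀ᶠ w in 𝓝 ((z, v) : WW), w.2 i ≠ 0 :=
    ((continuous_apply i).comp continuous_snd).continuousAt.eventually_ne hi0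
  refine ⟨fun w => ((α w).prod ((β w).prod (co i))).inverse (α w a, 0, 0),
    hI.clm_apply ((hα.clm_apply contDiffAt_const).prodMk contDiffAt_const), ?_⟩
  filter_upwards [hg, hne] with w g hw
  have e := ((g.inv hw).inverse_apply_eq (y := (α w a, 0, 0))).1 rfl
  have e1 : α w a = α w (((α w).prod ((β w).prod (co i))).inverse (α w a, 0, 0)) :=
    congrArg Prod.fst e
  have e2 : 0 = β w (((α w).prod ((β w).prod (co i))).inverse (α w a, 0, 0)) :=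
    congrArg (fun x => x.2.1) e
  exact g.uniq (ch_spec g a).1 (ch_spec g a).2 ((g.hH _).2 e2.symm)
    ((g.hT _).2 (by rw [map_sub, ← e1, sub_self]))

end T24

open T24 in
theorem st_RIG1 : St_RIG1 := by
  intro Ω Hh Tt hd
  refine ⟨fun w a => (ch Hh Tt w a).1,
    fun w a i j => w.2 i * (ch Hh Tt w a).2 j - w.2 j * (ch Hh Tt w a).2 i,
    ?_, ?_, ?_, ?_, ?_, ?_, ?_⟩
  · intro z hz v hv a
    obtain ⟨h, hh, he⟩ := smooth hd hz hv a
    exact hh.fst.congr_of_eventuallyEq (he.mono fun w hw => hw.1)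
  · intro z hz v hv a i j
    obtain ⟨h, hh, he⟩ := smooth hd hz hv a
    have c1 : ∀ k, ContDiffAt ℂ ω (fun w : WW => w.2 k) (z, v) := fun k =>
      (co k).contDiff.contDiffAt
    have c2 : ∀ k, ContDiffAt ℂ ω (fun w : WW => (h w).2 k) (z, v) := fun k =>
      (co k).contDiff.contDiffAt.comp _ hh
    exact (((c1 i).mul (c2 j)).sub ((c1 j).mul (c2 i))).congr_of_eventuallyEq
      (he.mono fun w hw => hw.2 i j)
  · intro z hz v hv a
    obtain ⟨α, β, g⟩ := good hd hz hv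
    exact g.ex a
  · intro z hz v hv a h h1 h2
    obtain ⟨α, β, g⟩ := good hd hz hv
    exact g.uniq (ch_spec g a).1 (ch_spec g a).2 h1 h2
  · intro z hz v hv a
    obtain ⟨α, β, g⟩ := good hd hz hv
    exact g.inf a
  · intro z hz v hv
    obtain ⟨α, β, g⟩ := good hd hz hv
    exact g.dimH
  · intro z hz v hv
    obtain ⟨α, β, g⟩ := good hd hz hv
    exact g.dimT

end Pool.Agent.Lib.ATQ
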