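import Pool.Agent.Lib.ATQ.Tools

/-! Project atq: the second field of subspaces is the vertical one. -/

open scoped Manifold ContDiff Topology Matrix.Norms.Operator Matrix
open Set Filter

noncomputable section

namespace Pool.Agent.Lib.ATQ

namespace T73

variable {Ω : Set BB} {Hh Tt : WW → Submodule ℂ WW} {b : WW → WW → BB}
  {Q : WW → WW → Fin 6 → Fin 6 → ℂ}

lemma scale (hd : RigData Ω Hh Tt) (hp : RigProj Ω Hh Tt b Q) {z : BB} (hz : z ∈ Ω) (ξ : E6)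
    (v : E6) (hv : v ≠ 0) (c : ℂ) (hc : c ≠ 0) :
    b (z, c • v) (0, ξ) = c⁻¹ • b (z, v) (0, ξ) ∧
      ∀ i j, Q (z, c • v) (0, ξ) i j = c ^ (0 + 1) * Q (z, v) (0, ξ) i j := by
  obtain ⟨h, h1, h2⟩ := hp.ex z hz v hv (0, ξ)
  have a1 := (Hh _).smul_mem c⁻¹ (hd.homH z hz v hv c hc h.1 h.2 h1)
  have a2 := (Tt _).smul_mem c⁻¹ (hd.homT z hz v hv c hc (0 - h.1) (ξ - h.2) h2)
  have e : c⁻¹ • ((0 - h.1, c • (ξ - h.2)) : WW) = (0, ξ) - c⁻¹ • (h.1, c • h.2) := by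
    simp [smul_smul, hc]
  rw [e] at a2
  obtain ⟨b1, b2⟩ := hp.val z hz v hv _ h h1 h2
  obtain ⟨b3, b4⟩ := hp.val z hz _ (smul_ne_zero hc hv) _ _ a1 a2
  refine ⟨by rw [b1, b3]; rfl, fun i j => ?_⟩
  rw [b2, b4]
  simp [smul_smul, hc]
  ring

lemma split (h1 : St_HOM) (h2 : St_KOS) (hd : RigData Ω Hh Tt) (hp : RigProj Ω Hh Tt b Q) {z : BB}
    (hz : z ∈ Ω) (ξ : E6) :
    ∃ w : E6, ∀ v, v ≠ 0 → (0, w) ∈ Hh (z, v) ∧ (0, ξ - w) ∈ Tt (z, v) := by
  have pr : ∀ v : E6, ContDiffAt ℂ ω (fun v' : E6 => ((z, v') : WW)) v := fun v =>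
    contDiffAt_const.prodMk contDiffAt_id
  have hb := (h1 BB (fun v => b (z, v) (0, ξ)) fun v hv =>
    (hp.hb z hz v hv (0, ξ)).comp v (pr v)).1 fun v hv c hc => (scale hd hp hz ξ v hv c hc).1
  have hk := h2 0 (fun v => Q (z, v) (0, ξ))
    (fun v hv i j => (hp.hQ z hz v hv (0, ξ) i j).comp v (pr v))
    (fun v hv c hc => (scale hd hp hz ξ v hv c hc).2) fun v hv => by
      obtain ⟨h, a1, a2⟩ := hp.ex z hz v hv (0, ξ)
      exact ⟨h.2, (hp.val z hz v hv _ h a1 a2).2⟩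
  have hc : ∀ j, ∃ k, ∀ v, v ≠ 0 → dv (fun v => Q (z, v) (0, ξ)) j v = k := fun j =>
    (h1 ℂ _ fun v hv => (hk v hv).2.1 j).2.1 fun v hv c hc => by
      rw [(hk v hv).2.2.1 c hc j, pow_zero, one_mul]
  choose k hk' using hc
  refine ⟨(5 : ℂ)⁻¹ • k, fun v hv => ?_⟩
  obtain ⟨h, a1, a2⟩ := hp.ex z hz v hv (0, ξ)
  obtain ⟨b1, b2⟩ := hp.val z hz v hv _ h a1 a2
  have h0 : h.1 = 0 := b1.symm.trans (hb v hv)
  obtain ⟨i, hi⟩ : ∃ i, v i ≠ 0 := Function.ne_iff.mp hv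
  have e : h = (0, (5 : ℂ)⁻¹ • k) + (0, ((h.2 i - 5⁻¹ * k i) / v i) • v) := by
    refine Prod.ext (by simp [h0]) (funext fun j => ?_)
    have := (hk v hv).1 i j
    rw [hk' j v hv, hk' i v hv, b2] at this
    simp only [Prod.snd_add, Pi.add_apply, Pi.smul_apply, smul_eq_mul]
    field_simp
    push_cast at this
    linear_combination this
  have a3 := (hp.inf z hz v hv _).2 ⟨(h.2 i - 5⁻¹ * k i) / v i, rfl⟩
  set t : WW := (0, ((h.2 i - 5⁻¹ * k i) / v i) • v)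
  constructor
  · have := (Hh _).sub_mem a1 a3.1
    rwa [e, add_sub_cancel_right] at this
  · have := (Tt _).add_mem a2 a3.2
    rwa [e, sub_add_eq_sub_sub, sub_add_cancel, Prod.mk_sub_mk, sub_self] at this

lemma rank_vert : Module.finrank ℂ (LinearMap.range (LinearMap.inr ℂ BB E6)) = 6 := by
  rw [LinearMap.finrank_range_of_inj LinearMap.inr_injective]
  simp

end T73

theorem st_RIG2 (h1 : St_HOM) (h2 : St_KOS) : St_RIG2 := by
  intro Ω Hh Tt b Q hd hp z hz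
  have key : ∀ x : E6, (∀ v, v ≠ 0 → (0, x) ∈ Hh (z, v)) ∨ ∀ v, v ≠ 0 → (0, x) ∈ Tt (z, v) := by
    intro x
    by_cases hx : x = 0
    · exact Or.inl fun v _ => by rw [hx]; exact (Hh _).zero_mem
    obtain ⟨w, hw⟩ := T73.split h1 h2 hd hp hz x
    have a1 := (hp.inf z hz x hx _).2 ⟨1, rfl⟩
    have a2 := (Tt _).sub_mem a1.2 (hw x hx).2
    have e : ((0, (1 : ℂ) • x) : WW) - (0, x - w) = (0, w) := by simp
    rw [e] at a2
    obtain ⟨c, hc⟩ := (hp.inf z hz x hx _).1 ⟨(hw x hx).1, a2⟩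
    have hc' : w = c • x := congrArg Prod.snd hc
    by_cases h0 : c = 0
    · refine Or.inr fun v hv => ?_
      have := (hw v hv).2
      rwa [hc', h0, zero_smul, sub_zero] at this
    · refine Or.inl fun v hv => ?_
      have := (Hh _).smul_mem c⁻¹ (hw v hv).1
      rwa [hc', Prod.smul_mk, smul_zero, inv_smul_smul₀ h0] at this
  intro v hv
  obtain ⟨y, hy⟩ : ∃ y : E6, (0, y) ∉ Hh (z, v) := by
    by_contra hc
    push Not at hc
    have := Submodule.finrank_mono (show LinearMap.range (LinearMap.inr ℂ BB E6) ≤ Hh (z, v) by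
      rintro _ ⟨y, rfl⟩; exact hc y)
    rw [T73.rank_vert, hp.dimH z hz v hv] at this
    omega
  have hyT := (key y).resolve_left (fun h => hy (h v hv)) v hv
  have hle : LinearMap.range (LinearMap.inr ℂ BB E6) ≤ Tt (z, v) := by
    rintro _ ⟨x, rfl⟩
    rcases key x with hx | hx
    · rcases key (x + y) with h | h
      · have := (Hh _).sub_mem (h v hv) (hx v hv)
        exact absurd (by simpa using this) hy
      · simpa using (Tt _).sub_mem (h v hv) hyT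
    · exact hx v hv
  have := Submodule.eq_of_le_of_finrank_eq hle (by rw [T73.rank_vert, hp.dimT z hz v hv])
  intro a
  rw [← this, LinearMap.range_inr, LinearMap.mem_ker, LinearMap.fst_apply]

end Pool.Agent.Lib.ATQ
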