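import Pool.Agent.Lib.ATQ.Tools

/-! Project atq: the horizontal field is given by a traceless matrix-valued form. -/

open scoped Manifold ContDiff Topology Matrix.Norms.Operator Matrix
open Set Filter

noncomputable section

namespace Pool.Agent.Lib.ATQ

namespace T29r

variable {Ω : Set BB} {Hh Tt : WW → Submodule ℂ WW} {b : WW → WW → BB}
  {Q : WW → WW → Fin 6 → Fin 6 → ℂ}

lemma one_dir (h1 : St_HOM) (h2 : St_KOS) (hd : RigData Ω Hh Tt) (hp : RigProj Ω Hh Tt b Q)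
    (hT : ∀ z ∈ Ω, ∀ v, v ≠ 0 → ∀ a, a ∈ Tt (z, v) ↔ a.1 = 0) (u : BB) :
    ∃ A : BB → Mt 6, ∀ z ∈ Ω, ContDiffAt ℂ ω A z ∧ (A z).trace = 0 ∧
      ∀ v, v ≠ 0 → (u, -(A z *ᵥ v)) ∈ Hh (z, v) := by
  refine ⟨fun z => Matrix.of fun j l =>
    -(6 : ℂ)⁻¹ * dv (fun v => Q (z, v) (u, 0)) j (Pi.single l 1), fun z hz => ?_⟩
  have e1 : ∀ l : Fin 6, (Pi.single l 1 : E6) ≠ 0 := fun l h => by
    have := congrFun h l
    simp at this
  have pr : ∀ v : E6, ContDiffAt ℂ ω (fun v' : E6 => ((z, v') : WW)) v := fun v =>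
    contDiffAt_const.prodMk contDiffAt_id
  have hex : ∀ v, v ≠ 0 → ∃ ξ : E6, (u, ξ) ∈ Hh (z, v) ∧
      ∀ i j, Q (z, v) (u, 0) i j = v i * ξ j - v j * ξ i := by
    intro v hv
    obtain ⟨h, a1, a2⟩ := hp.ex z hz v hv (u, 0)
    have a3 : u - h.1 = 0 := (hT z hz v hv _).1 a2
    have a4 : h = (u, h.2) := Prod.ext (sub_eq_zero.1 a3).symm rfl
    exact ⟨h.2, a4 ▸ a1, (hp.val z hz v hv _ h a1 a2).2⟩
  have hk := h2 1 (fun v => Q (z, v) (u, 0))
    (fun v hv i j => (hp.hQ z hz v hv (u, 0) i j).comp v (pr v))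
    (fun v hv c hc i j => by
      obtain ⟨ξ, a1, a2⟩ := hex v hv
      have a3 := hd.homH z hz v hv c hc u ξ a1
      have hcv := smul_ne_zero hc hv
      have a4 := (hp.val z hz _ hcv (u, 0) _ a3 ((hT z hz _ hcv _).2 (by simp))).2 i j
      rw [a4, a2]
      simp only [Pi.smul_apply, smul_eq_mul]
      ring)
    (fun v hv => by
      obtain ⟨ξ, -, a2⟩ := hex v hv
      exact ⟨ξ, a2⟩)
  have hL : ∀ j, ∃ L : E6 →L[ℂ] ℂ, ∀ v, v ≠ 0 → dv (fun v => Q (z, v) (u, 0)) j v = L v := fun j =>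
    (h1 ℂ _ fun v hv => (hk v hv).2.1 j).2.2 fun v hv c hc => by
      rw [(hk v hv).2.2.1 c hc j, pow_one, smul_eq_mul]
  choose L hL using hL
  refine ⟨cd_mat fun j l => ?_, ?_, fun v hv => ?_⟩
  · simp only [Matrix.of_apply, dv]
    refine contDiffAt_const.mul (ContDiffAt.sum fun k _ => ?_)
    have := ContDiffAt.fderiv (𝕜 := ℂ) (f := fun (z' : BB) (v' : E6) => Q (z', v') (u, 0) k j)
      (g := fun _ => (Pi.single l 1 : E6)) (x₀ := z) (m := ω) (n := ω)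
      (hp.hQ z hz _ (e1 l) (u, 0) k j) contDiffAt_const le_top
    exact this.clm_apply contDiffAt_const
  · have h0 := (hk _ (e1 0)).2.2.2
    have h3 : ∀ j, fderiv ℂ (dv (fun v => Q (z, v) (u, 0)) j) (Pi.single 0 1) = L j := fun j => by
      have : dv (fun v => Q (z, v) (u, 0)) j =ᶠ[𝓝 (Pi.single 0 1 : E6)] L j := by
        filter_upwards [isOpen_ne.mem_nhds (e1 0)] with w hw using hL j w hw
      rw [this.fderiv_eq, (L j).fderiv]
    simp only [h3] at h0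
    simp only [Matrix.trace, Matrix.diag, Matrix.of_apply, hL _ _ (e1 _), ← Finset.mul_sum, h0,
      mul_zero]
  · obtain ⟨ξ, a1, a2⟩ := hex v hv
    obtain ⟨i, hi⟩ : ∃ i, v i ≠ 0 := Function.ne_iff.mp hv
    have h4 : v = ∑ k, v k • (Pi.single k 1 : E6) := by
      funext j; simp [Finset.sum_apply, Pi.single_apply]
    have h5 : ∀ j, L j v = ∑ k, L j (Pi.single k 1) * v k := fun j => by
      conv_lhs => rw [h4]
      simp [mul_comm]
    have a3 := ((hp.inf z hz v hv _).2 ⟨(6⁻¹ * L i v - ξ i) / v i, rfl⟩).1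
    have a4 := (Hh _).add_mem a1 a3
    refine (congrArg (· ∈ Hh (z, v)) ?_).mp a4
    refine Prod.ext (by simp) (funext fun j => ?_)
    have a5 := (hk v hv).1 i j
    rw [hL j v hv, hL i v hv, a2] at a5
    have a6 : (Matrix.of (fun j l => -(6 : ℂ)⁻¹ * dv (fun v => Q (z, v) (u, 0)) j (Pi.single l 1))
        *ᵥ v) j = -(6 : ℂ)⁻¹ * L j v := by
      simp only [Matrix.mulVec, dotProduct, Matrix.of_apply, hL _ _ (e1 _), h5 j, Finset.mul_sum,
        mul_assoc]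
    simp only [Prod.snd_add, Pi.add_apply, Pi.smul_apply, smul_eq_mul, Pi.neg_apply, a6]
    field_simp
    push_cast at a5
    linear_combination a5

end T29r

theorem st_RIG3 (h1 : St_HOM) (h2 : St_KOS) : St_RIG3 := by
  intro Ω Hh Tt b Q hd hp hT
  obtain ⟨A1, hA1⟩ := T29r.one_dir h1 h2 hd hp hT (1, 0)
  obtain ⟨A2, hA2⟩ := T29r.one_dir h1 h2 hd hp hT (0, 1)
  refine ⟨fun z => ContinuousLinearMap.smulRightL ℂ BB (Mt 6) (ContinuousLinearMap.fst ℂ ℂ ℂ) (A1 z)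
    + ContinuousLinearMap.smulRightL ℂ BB (Mt 6) (ContinuousLinearMap.snd ℂ ℂ ℂ) (A2 z),
    fun z hz => ⟨?_, fun u => ?_, fun u v hv => ?_⟩⟩
  · exact (contDiffAt_const.clm_apply (hA1 z hz).1).add (contDiffAt_const.clm_apply (hA2 z hz).1)
  · simp [Matrix.trace_add, Matrix.trace_smul, (hA1 z hz).2.1, (hA2 z hz).2.1]
  · have := (Hh _).add_mem ((Hh _).smul_mem u.1 ((hA1 z hz).2.2 v hv))
      ((Hh _).smul_mem u.2 ((hA2 z hz).2.2 v hv))
    refine (congrArg (· ∈ Hh (z, v)) ?_).mp this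
    refine Prod.ext (by simp) ?_
    simp [Matrix.add_mulVec, Matrix.smul_mulVec, add_comm]

end Pool.Agent.Lib.ATQ
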