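import Pool.Agent.Lib.ATQ.Tools

open scoped Manifold ContDiff Topology Matrix.Norms.Operator Matrix
open Set Filter

noncomputable section

namespace Pool.Agent.Lib.ATQ

namespace T45

theorem hasF_X {A : BB → BB →L[ℂ] Mt 6} {z : BB} (hA : DifferentiableAt ℂ A z) (u : BB) (v : E6) :
    ∃ L : WW →L[ℂ] WW, HasFDerivAt (fun w : WW => ((u, -(A w.1 u *ᵥ w.2)) : WW)) L (z, v) ∧
      ∀ a, L a = (0, -(fderiv ℂ A z a.1 u *ᵥ v + A z u *ᵥ a.2)) := by
  have h1 : HasFDerivAt (fun w : WW => A w.1) ((fderiv ℂ A z).comp (ContinuousLinearMap.fst ℂ BB E6))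
      ((z, v) : WW) := HasFDerivAt.comp ((z, v) : WW) (g := A) hA.hasFDerivAt hasFDerivAt_fst
  have h2 := h1.clm_apply (hasFDerivAt_const u ((z, v) : WW))
  have h3 := ((mv (Fin 6) (Fin 6)).hasFDerivAt.comp ((z, v) : WW) h2).clm_apply
    (hasFDerivAt_snd (𝕜 := ℂ) (p := ((z, v) : WW)))
  refine ⟨_, (hasFDerivAt_const u ((z, v) : WW)).prodMk h3.neg, fun a => ?_⟩
  simp [add_comm]

theorem trace_fderiv {A : BB → BB →L[ℂ] Mt 6} {z : BB} (hA : DifferentiableAt ℂ A z)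
    (h : ∀ᶠ y in 𝓝 z, ∀ u, (A y u).trace = 0) (a u : BB) : (fderiv ℂ A z a u).trace = 0 := by
  let T : Mt 6 →L[ℂ] ℂ := LinearMap.toContinuousLinearMap (Matrix.traceLinearMap (Fin 6) ℂ ℂ)
  have h2 := T.hasFDerivAt.comp z (hA.hasFDerivAt.clm_apply (hasFDerivAt_const u z))
  have h3 : HasFDerivAt (T ∘ fun y => A y u) (0 : BB →L[ℂ] ℂ) z :=
    (hasFDerivAt_const (0 : ℂ) z).congr_of_eventuallyEq (h.mono fun y hy => hy u)
  have h4 := congrArg (fun L : BB →L[ℂ] ℂ => L a) (h2.unique h3)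
  simpa [T] using h4

end T45

theorem st_RIG4 : St_RIG4 := by
  intro Ω Hh Tt hd hu A hA z hz u u'
  have hAd : DifferentiableAt ℂ A z := (hA z hz).1.differentiableAt (by simp)
  have hΩ : ∀ᶠ y in 𝓝 z, y ∈ Ω := hd.op.mem_nhds hz
  refine zero_of_eig (k := 5) (fun v hv => hu z hz v hv _ ?_) ?_
  · obtain ⟨α, β, -, hβ, hev⟩ := hd.loc z hz v hv
    have hβd : DifferentiableAt ℂ β (z, v) := hβ.differentiableAt (by simp)
    obtain ⟨h1, -, -, -, h5⟩ := hev.self_of_nhds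
    have hne : ∀ᶠ w : WW in 𝓝 (z, v), w.1 ∈ Ω ∧ w.2 ≠ 0 :=
      (continuous_fst.continuousAt.eventually hΩ).and
        ((continuous_snd.continuousAt (x := ((z, v) : WW))).eventually_ne hv)
    have key : ∀ x : BB, ∀ a : WW, fderiv ℂ β (z, v) a (x, -(A z x *ᵥ v)) +
        β (z, v) (0, -(fderiv ℂ A z a.1 x *ᵥ v + A z x *ᵥ a.2)) = 0 := by
      intro x a
      obtain ⟨L, hL, hLa⟩ := T45.hasF_X hAd x v
      have h2 := hβd.hasFDerivAt.clm_apply hL
      have h3 : HasFDerivAt (fun w : WW => β w (x, -(A w.1 x *ᵥ w.2))) (0 : WW →L[ℂ] (Fin 5 → ℂ))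
          (z, v) := by
        refine (hasFDerivAt_const (0 : Fin 5 → ℂ) ((z, v) : WW)).congr_of_eventuallyEq ?_
        filter_upwards [hev, hne] with w hw hw'
        exact (hw.1 _).1 ((hA w.1 hw'.1).2.2 x w.2 hw'.2)
      have h4 := congrArg (fun M : WW →L[ℂ] (Fin 5 → ℂ) => M a) (h2.unique h3)
      rw [← hLa a, add_comm]
      simpa using h4
    have e1 := key u (u', -(A z u' *ᵥ v))
    have e2 := key u' (u, -(A z u *ᵥ v))
    rw [h5 _ _ ((h1 _).1 ((hA z hz).2.2 u v hv)) ((h1 _).1 ((hA z hz).2.2 u' v hv))] at e2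
    rw [h1]
    have e3 := sub_eq_zero.2 (add_left_cancel (e1.trans e2.symm))
    rw [← map_sub] at e3
    refine Eq.trans (congrArg (β (z, v)) ?_) e3
    refine Prod.ext (by simp) ?_
    simp only [Prod.snd_sub, Matrix.add_mulVec, Matrix.sub_mulVec, Matrix.mulVec_neg,
      Matrix.mulVec_mulVec]
    abel
  · have ht := T45.trace_fderiv hAd (hΩ.mono fun y hy => (hA y hy).2.1)
    rw [Matrix.trace_add, Matrix.trace_sub, Matrix.trace_sub, ht, ht, Matrix.trace_mul_comm]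
    simp

end Pool.Agent.Lib.ATQ
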