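import Pool.Agent.Lib.ATQ.Tools

/-! Project atq: the horizontal lifts in each frame. -/

open scoped Manifold ContDiff Topology Matrix.Norms.Operator Matrix
open Set Filter

set_option linter.unusedSectionVars false

noncomputable section

namespace Pool.Agent.Lib.ATQ

open Pool.Agent.Lib.MP_ad9325_ag

namespace T23

variable {S : Type} [TopologicalSpace S] [ChartedSpace BB S] [IsManifold 𝓘(ℂ, BB) ω S]

/-- The differential of the inverse chart. -/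
abbrev mm (p : S) (z : BB) : BB →L[ℂ] BB := D 𝓘(ℂ, BB) 𝓘(ℂ, BB) (chartAt BB p).symm z

theorem mm_centre (p : S) : mm p (chartAt BB p p) = ContinuousLinearMap.id ℂ BB := by
  have h0 := mem_chart_source BB p
  have h1 : (D 𝓘(ℂ, BB) 𝓘(ℂ, BB) (chartAt BB p).symm (chartAt BB p p)).comp
      (D 𝓘(ℂ, BB) 𝓘(ℂ, BB) (chartAt BB p) p) = ContinuousLinearMap.id ℂ BB :=
    (mdifferentiable_chart (I := 𝓘(ℂ, BB)) p).symm_comp_deriv h0
  have h2 : D 𝓘(ℂ, BB) 𝓘(ℂ, BB) (chartAt BB p) p = ContinuousLinearMap.id ℂ BB := by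
    refine (mfderiv_chartAt_eq_tangentCoordChange h0).trans ?_
    ext1 v
    exact tangentCoordChange_self (mem_extChartAt_source p)
  rwa [h2, ContinuousLinearMap.comp_id] at h1

theorem mm_bij (p : S) {z : BB} (hz : z ∈ (chartAt BB p).target) : Function.Bijective (mm p z) :=
  (mdifferentiable_chart (I := 𝓘(ℂ, BB)) p).symm.mfderiv_bijective hz

theorem cm_symm (p : S) {z : BB} (hz : z ∈ (chartAt BB p).target) :
    ContMDiffAt 𝓘(ℂ, BB) 𝓘(ℂ, BB) ω (chartAt BB p).symm z :=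
  contMDiffOn_chart_symm.contMDiffAt ((chartAt BB p).open_target.mem_nhds hz)

variable {ι : Type} {U : ι → Set S} {Γ : ι → ι → S → Mt 6} {M : Type}
  [TopologicalSpace M] [ChartedSpace VM M] [IsManifold 𝓘(ℂ, VM) ω M] {π : M → S}
  {Ψ : ι → S × E6 → M} {σ : ι × Fin 6 → M → E6} {Hh Tt : M → Submodule ℂ VM}

/-- The frame map read in the chart at `p`. -/
def ps (Ψ : ι → S × E6 → M) (c : ι) (p : S) (w : WW) : M := Ψ c ((chartAt BB p).symm w.1, w.2)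

theorem cm_in (p : S) {w : WW} (hz : w.1 ∈ (chartAt BB p).target) :
    ContMDiffAt 𝓘(ℂ, WW) 𝓘(ℂ, BB) ω (fun w : WW => (chartAt BB p).symm w.1) w :=
  (cm_symm p hz).comp w (contDiff_fst (𝕜 := ℂ) (E := BB) (F := E6)).contMDiff.contMDiffAt

theorem cm_sn (w : WW) : ContMDiffAt 𝓘(ℂ, WW) 𝓘(ℂ, E6) ω (fun w : WW => w.2) w :=
  (contDiff_snd (𝕜 := ℂ) (E := BB) (F := E6)).contMDiff.contMDiffAt

theorem cm_ps (hP : PBD (n := 5) BB U Γ π Ψ σ) {c : ι} {p : S} {w : WW}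
    (hz : w.1 ∈ (chartAt BB p).target) (hU : (chartAt BB p).symm w.1 ∈ U c) (hv : w.2 ≠ 0) :
    ContMDiffAt 𝓘(ℂ, WW) 𝓘(ℂ, VM) ω (ps Ψ c p) w :=
  (hP.hΨ c _ hU _ hv).comp w ((cm_in p hz).prodMk (cm_sn w))

theorem D_ps (hP : PBD (n := 5) BB U Γ π Ψ σ) {c : ι} {p : S} {w : WW}
    (hz : w.1 ∈ (chartAt BB p).target) (hU : (chartAt BB p).symm w.1 ∈ U c) (hv : w.2 ≠ 0)
    (a : WW) : D 𝓘(ℂ, WW) 𝓘(ℂ, VM) (ps Ψ c p) w a =
      DΨ (n := 5) BB Ψ c ((chartAt BB p).symm w.1, w.2) (mm p w.1 a.1, a.2) := by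
  have h1 := D_comp (f := fun w : WW => ((chartAt BB p).symm w.1, w.2)) (x := w)
    (md (hP.hΨ c _ hU _ hv)) (md ((cm_in p hz).prodMk (cm_sn w)))
  rw [D_prodMk (md (cm_in p hz)) (md (cm_sn w))] at h1
  have h2 : D 𝓘(ℂ, WW) 𝓘(ℂ, BB) (fun w : WW => (chartAt BB p).symm w.1) w =
      (mm p w.1).comp (ContinuousLinearMap.fst ℂ BB E6) := by
    rw [← D_clm (ContinuousLinearMap.fst ℂ BB E6) w]
    exact D_comp (md (cm_symm p hz)) (ContinuousLinearMap.fst ℂ BB E6).mdifferentiableAt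
  have h3 : D 𝓘(ℂ, WW) 𝓘(ℂ, E6) (fun w : WW => w.2) w = ContinuousLinearMap.snd ℂ BB E6 :=
    D_clm (ContinuousLinearMap.snd ℂ BB E6) w
  rw [h2, h3] at h1
  exact congrArg (fun L : WW →L[ℂ] VM => L a) h1

/-- The pull-back of a field of subspaces. -/
def pb (Ψ : ι → S × E6 → M) (c : ι) (p : S) (Hh : M → Submodule ℂ VM) (w : WW) :
    Submodule ℂ WW :=
  (Hh (ps Ψ c p w)).comap (D 𝓘(ℂ, WW) 𝓘(ℂ, VM) (ps Ψ c p) w : WW →ₗ[ℂ] VM)

theorem mem_pb {c : ι} {p : S} {w a : WW} :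
    a ∈ pb Ψ c p Hh w ↔ D 𝓘(ℂ, WW) 𝓘(ℂ, VM) (ps Ψ c p) w a ∈ Hh (ps Ψ c p w) := Iff.rfl

theorem mem_pb' (hP : PBD (n := 5) BB U Γ π Ψ σ) {c : ι} {p : S} {z : BB} {v : E6}
    (hz : z ∈ (chartAt BB p).target) (hU : (chartAt BB p).symm z ∈ U c) (hv : v ≠ 0) (u : BB)
    (ξ : E6) : (u, ξ) ∈ pb Ψ c p Hh (z, v) ↔ DΨ (n := 5) BB Ψ c ((chartAt BB p).symm z, v)
      (mm p z u, ξ) ∈ Hh (Ψ c ((chartAt BB p).symm z, v)) := by
  rw [mem_pb, D_ps hP (w := (z, v)) hz hU hv]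
  rfl

theorem pb_hom (hP : PBD (n := 5) BB U Γ π Ψ σ) (h1 : PBD1 (n := 5) BB U π Ψ σ) {c : ι} {p : S}
    {z : BB} (hz : z ∈ (chartAt BB p).target) (hU : (chartAt BB p).symm z ∈ U c) (v : E6)
    (hv : v ≠ 0) (a : ℂ) (ha : a ≠ 0) (u : BB) (ξ : E6) (h : (u, ξ) ∈ pb Ψ c p Hh (z, v)) :
    (u, a • ξ) ∈ pb Ψ c p Hh (z, a • v) := by
  have hav := smul_ne_zero ha hv
  rw [mem_pb' hP hz hU hav, h1.dhom c _ hU v hv a ha,
    ← (hP.eqv c _ hU v (a • v) hv hav).2 ⟨a, rfl⟩]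
  exact (mem_pb' hP hz hU hv u ξ).1 h

theorem rigData (hc : IsCocycle BB U Γ) (hP : PBD (n := 5) BB U Γ π Ψ σ)
    (h1 : PBD1 (n := 5) BB U π Ψ σ) (hS : Split VM M Hh Tt) (c : ι) (p : S) :
    RigData ((chartAt BB p).target ∩ (chartAt BB p).symm ⁻¹' U c) (pb Ψ c p Hh)
      (pb Ψ c p Tt) := by
  have ho : IsOpen ((chartAt BB p).target ∩ (chartAt BB p).symm ⁻¹' U c) :=
    (chartAt BB p).isOpen_inter_preimage_symm (hc.op c)
  refine ⟨ho, fun z hz => pb_hom hP h1 hz.1 hz.2, fun z hz => pb_hom hP h1 hz.1 hz.2,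
    fun z hz v hv => ?_⟩
  obtain ⟨α, β, hα, hβ, he⟩ := hS (ps Ψ c p) (z, v) (cm_ps hP (w := (z, v)) hz.1 hz.2 hv)
  refine ⟨α, β, hα, hβ, ?_⟩
  have e1 : ∀ᶠ w : WW in 𝓝 (z, v), w.1 ∈ (chartAt BB p).target ∩ (chartAt BB p).symm ⁻¹' U c :=
    continuous_fst.continuousAt.preimage_mem_nhds (ho.mem_nhds hz)
  have e2 : ∀ᶠ w : WW in 𝓝 (z, v), w.2 ≠ 0 :=
    continuous_snd.continuousAt.eventually_ne hv
  filter_upwards [he, e1, e2] with w ⟨⟨k, k1, k2, k3⟩, k4⟩ hw hw2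
  have hb := mm_bij p hw.1
  refine ⟨fun a => by rw [mem_pb, k2, k1], fun a => by rw [mem_pb, k3, k1], fun x => ?_,
    fun a => ?_, k4⟩
  · obtain ⟨⟨u, ξ⟩, hx⟩ := h1.dsurj c _ hw.2 _ hw2 (k.symm x)
    obtain ⟨u, rfl⟩ := hb.2 u
    refine ⟨(u, ξ), ?_⟩
    change (α w (u, ξ), β w (u, ξ)) = x
    rw [← k1, D_ps hP hw.1 hw.2 hw2, hx, k.apply_symm_apply]
  · rw [← Prod.mk_eq_zero, ← k1, k.map_eq_zero_iff, D_ps hP hw.1 hw.2 hw2,
      h1.dker c _ hw.2 _ hw2, map_eq_zero_iff _ hb.1]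
    exact ⟨fun ⟨b1, b, b2⟩ => ⟨b, Prod.ext b1 b2⟩,
      fun ⟨b, e⟩ => ⟨congrArg Prod.fst e, b, congrArg Prod.snd e⟩⟩

end T23

open T23

theorem st_RW1 (hR : St_RIG) : St_RW1 := by
  intro S _ _ _ ι U Γ M _ _ _ π Ψ σ Hh Tt hc hP h1 hS
  choose B hB using fun (c : ι) (p : S) => hR _ _ _ (rigData hc hP h1 hS c p)
  have hmem : ∀ c, ∀ p ∈ U c,
      chartAt BB p p ∈ (chartAt BB p).target ∩ (chartAt BB p).symm ⁻¹' U c := fun c p hp =>
    ⟨mem_chart_target BB p, by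
      rw [mem_preimage, (chartAt BB p).left_inv (mem_chart_source BB p)]; exact hp⟩
  have hlift : ∀ c, ∀ p ∈ U c, ∀ u v, v ≠ 0 → DΨ (n := 5) BB Ψ c (p, v)
      (u, -(B c p (chartAt BB p p) u *ᵥ v)) ∈ Hh (Ψ c (p, v)) := fun c p hp u v hv => by
    have h := (mem_pb' hP (hmem c p hp).1 (hmem c p hp).2 hv _ _).1
      ((hB c p _ (hmem c p hp)).2.2.1 u v hv)
    rwa [mm_centre, (chartAt BB p).left_inv (mem_chart_source BB p)] at h
  have hver : ∀ c, ∀ p ∈ U c, ∀ v, v ≠ 0 → ∀ ξ, DΨ (n := 5) BB Ψ c (p, v) (0, ξ) ∈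
      Hh (Ψ c (p, v)) → ∃ a : ℂ, ξ = a • v := fun c p hp v hv ξ h => by
    refine (hB c p _ (hmem c p hp)).2.2.2.1 v hv ξ
      ((mem_pb' hP (hmem c p hp).1 (hmem c p hp).2 hv _ _).2 ?_)
    rwa [map_zero, (chartAt BB p).left_inv (mem_chart_source BB p)]
  refine ⟨fun c p => B c p (chartAt BB p p), fun c p hp => ?_⟩
  obtain ⟨b1, b2, -, -, b5⟩ := hB c p _ (hmem c p hp)
  have hev : ∀ u, formIn (fun q => B c q (chartAt BB q q)) p u =ᶠ[𝓝 (chartAt BB p p)]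
      fun z => B c p z u := fun u => by
    filter_upwards [(rigData hc hP h1 hS c p).op.mem_nhds (hmem c p hp)] with z hz
    change B c _ (chartAt BB ((chartAt BB p).symm z) ((chartAt BB p).symm z)) (mm p z u) = _
    rw [← sub_eq_zero]
    refine zero_of_eig (fun v hv => hver c _ hz.2 v hv _ ?_) ?_
    · have g := (Hh _).sub_mem ((mem_pb' hP hz.1 hz.2 hv _ _).1 ((hB c p z hz).2.2.1 u v hv))
        (hlift c _ hz.2 (mm p z u) v hv)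
      rwa [← map_sub, Prod.mk_sub_mk, sub_self, neg_sub_neg, ← Matrix.sub_mulVec] at g
    · rw [Matrix.trace_sub, (hB c _ _ (hmem c _ hz.2)).2.1, (hB c p z hz).2.1, sub_self]
  have hfd : ∀ u v, fderiv ℂ (formIn (fun q => B c q (chartAt BB q q)) p v) (chartAt BB p p) u =
      fderiv ℂ (B c p) (chartAt BB p p) u v := fun u v => by
    rw [(hev v).fderiv_eq,
      fderiv_clm_apply (b1.differentiableAt (by simp)) (differentiableAt_const v)]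
    simp
  refine ⟨fun u => (b1.clm_apply contDiffAt_const).congr_of_eventuallyEq (hev u), fun u v => ?_,
    b2, hlift c p hp, hver c p hp⟩
  rw [Curv, dF, hfd, hfd]
  exact b5 u v

end Pool.Agent.Lib.ATQ
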