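import Pool.Agent.Lib.ATQ.Tools

/-! Project atq: the lifts transform as a connection. -/

open scoped Manifold ContDiff Topology Matrix.Norms.Operator Matrix
open Set Filter

noncomputable section

namespace Pool.Agent.Lib.ATQ

open Pool.Agent.Lib.MP_ad9325_ag

theorem st_RW2 (hJ : St_JAC) : St_RW2 := by
  intro S _ _ _ ι U Γ M _ _ _ π Ψ σ Hh A hΓ hdet hP hA c d p hp u
  have g1 : Γ d c p * Γ c d p = 1 := by
    rw [hΓ.comp c d c p ⟨hp, hp.1⟩, hΓ.self c p hp.1]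
  have g2 : Γ c d p * Γ d c p = 1 := by
    rw [hΓ.comp d c d p ⟨⟨hp.2, hp.1⟩, hp.2⟩, hΓ.self d p hp.2]
  have hU : U c ∩ U d ∈ 𝓝 p := ((hΓ.op c).inter (hΓ.op d)).mem_nhds hp
  have hG := hΓ.holo c d p hp
  have key : Γ d c p * (D 𝓘(ℂ, BB) 𝓘(ℂ, Mt 6) (Γ c d) p u - Γ c d p * A c p u +
      A d p u * Γ c d p) = 0 := by
    refine zero_of_eig (fun v hv => ?_) ?_
    · have hv' : Γ c d p *ᵥ v ≠ 0 := fun h => hv (by
        rw [← Matrix.one_mulVec v, ← g1, ← Matrix.mulVec_mulVec, h, Matrix.mulVec_zero])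
      have m1 : MDifferentiableAt (𝓘(ℂ, BB).prod 𝓘(ℂ, E6)) 𝓘(ℂ, BB) (Prod.fst : S × E6 → S) (p, v) :=
        mdifferentiableAt_fst
      have m2 : MDifferentiableAt (𝓘(ℂ, BB).prod 𝓘(ℂ, E6)) 𝓘(ℂ, E6) (Prod.snd : S × E6 → E6) (p, v) :=
        mdifferentiableAt_snd
      have m3 : MDifferentiableAt (𝓘(ℂ, BB).prod 𝓘(ℂ, E6)) 𝓘(ℂ, Mt 6)
          (fun w : S × E6 => Γ c d w.1) (p, v) := (md hG).comp (p, v) m1
      have m4 : MDifferentiableAt (𝓘(ℂ, BB).prod 𝓘(ℂ, E6)) 𝓘(ℂ, E6)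
          (fun w : S × E6 => mv (Fin 6) (Fin 6) (Γ c d w.1) w.2) (p, v) :=
        md (cm_bil _ (hG.comp (p, v) contMDiffAt_fst) contMDiffAt_snd)
      have e1 : Ψ c =ᶠ[𝓝 (p, v)]
          fun w : S × E6 => Ψ d (w.1, mv (Fin 6) (Fin 6) (Γ c d w.1) w.2) := by
        filter_upwards [continuous_fst.continuousAt.preimage_mem_nhds (t := U c ∩ U d) hU,
          continuous_snd.continuousAt.preimage_mem_nhds (t := {0}ᶜ) (isOpen_compl_singleton.mem_nhds hv)]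
          with w h1 h2
        exact (hP.tr c d w.1 h1 w.2 h2).symm
      have e2 : ∀ ξ, DΨ (n := 5) BB Ψ c (p, v) (u, ξ) = DΨ (n := 5) BB Ψ d (p, Γ c d p *ᵥ v)
          (u, D 𝓘(ℂ, BB) 𝓘(ℂ, Mt 6) (Γ c d) p u *ᵥ v + Γ c d p *ᵥ ξ) := by
        intro ξ
        have a1 := D_comp (g := Ψ d) (x := (p, v))
          (f := fun w : S × E6 => (w.1, mv (Fin 6) (Fin 6) (Γ c d w.1) w.2))
          (md (hP.hΨ d p hp.2 _ hv')) (m1.prodMk m4)
        have a2 := D_bil (mv (Fin 6) (Fin 6)) m3 m2 (u, ξ)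
        rw [D_comp (g := Γ c d) (f := Prod.fst) (md hG) m1, D_fst, D_snd] at a2
        rw [DΨ, D_congr e1, a1, D_prodMk m1 m4, D_fst, ContinuousLinearMap.comp_apply,
          ContinuousLinearMap.prod_apply, a2]
        rfl
      have h1 := (hA c p hp.1).2.1 u v hv
      have h2 := (hA d p hp.2).2.1 u _ hv'
      rw [e2, ← hP.tr c d p hp v hv] at h1
      have h3 := Submodule.sub_mem _ h1 h2
      rw [← map_sub, Prod.mk_sub_mk, sub_self] at h3
      obtain ⟨a, ha⟩ := (hA d p hp.2).2.2 _ hv' _ h3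
      refine ⟨a, ?_⟩
      rw [Matrix.mulVec_neg, sub_neg_eq_add, Matrix.mulVec_mulVec, Matrix.mulVec_mulVec,
        ← sub_eq_add_neg, ← Matrix.sub_mulVec, ← Matrix.add_mulVec] at ha
      rw [← Matrix.mulVec_mulVec, ha, Matrix.mulVec_smul, Matrix.mulVec_mulVec, g1,
        Matrix.one_mulVec]
    · rw [mul_add, mul_sub, Matrix.trace_add, Matrix.trace_sub,
        hJ 6 BB S (Γ c d) _ p hG (mem_of_superset hU fun q hq => hdet c d q hq) g1 u, ← mul_assoc, g1,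
        one_mul, (hA c p hp.1).1, Matrix.trace_mul_comm, mul_assoc, g2, mul_one, (hA d p hp.2).1]
      simp
  have := congrArg (Γ c d p * ·) key
  simp only [← mul_assoc, g2, one_mul, mul_zero] at this
  linear_combination (norm := noncomm_ring) -this

end Pool.Agent.Lib.ATQ
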