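import Pool.Agent.Lib.ATQ.Tools

/-! Project atq, block SELF: forms on a vector space, and the ratio of two forms on a curve. -/

open scoped Manifold ContDiff Topology Matrix.Norms.Operator Matrix
open Set Filter

noncomputable section

namespace Pool.Agent.Lib.ATQ

open Pool.Agent.Lib.MP_ad9325_ag

namespace T98

theorem formIn_self {V : Type} [NormedAddCommGroup V] [NormedSpace ℂ V]
    {F : Type} [NormedAddCommGroup F] [NormedSpace ℂ F] (θ : V → V →L[ℂ] F) (z u : V) :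
    formIn θ z u = fun w => θ w u := by
  funext w
  have h : ((chartAt V z).symm : V → V) = id := rfl
  unfold formIn
  rw [h, mfderiv_id]
  rfl

theorem cda_clm {V : Type} [NormedAddCommGroup V] [NormedSpace ℂ V] [FiniteDimensional ℂ V]
    {F : Type} [NormedAddCommGroup F] [NormedSpace ℂ F] {θ : V → V →L[ℂ] F} {z : V}
    (h : ∀ u, ContDiffAt ℂ ω (fun w => θ w u) z) : ContDiffAt ℂ ω θ z := by
  let d := Module.finrank ℂ V
  have hd : d = Module.finrank ℂ (Fin d → ℂ) := (Module.finrank_fin_fun ℂ).symm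
  let e₁ := ContinuousLinearEquiv.ofFinrankEq hd
  let e₂ := (e₁.arrowCongr (1 : F ≃L[ℂ] F)).trans (ContinuousLinearEquiv.piRing (Fin d))
  rw [← Function.id_comp θ, ← e₂.symm_comp_self]
  exact e₂.symm.contDiff.contDiffAt.comp z (contDiffAt_pi.mpr fun i => h _)

theorem holo_iff {V : Type} [NormedAddCommGroup V] [NormedSpace ℂ V] [FiniteDimensional ℂ V]
    {F : Type} [NormedAddCommGroup F] [NormedSpace ℂ F] (θ : V → V →L[ℂ] F) (z : V) :
    HoloAt θ z ↔ ContDiffAt ℂ ω θ z := by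
  constructor
  · intro h
    refine cda_clm fun u => ?_
    have := h u
    rwa [formIn_self] at this
  · intro h u
    rw [formIn_self]
    exact h.clm_apply contDiffAt_const

theorem fd_app {V : Type} [NormedAddCommGroup V] [NormedSpace ℂ V]
    {F : Type} [NormedAddCommGroup F] [NormedSpace ℂ F] {θ : V → V →L[ℂ] F} {z : V}
    (h : DifferentiableAt ℂ θ z) (u v : V) :
    fderiv ℂ (fun w => θ w v) z u = fderiv ℂ θ z u v := by
  rw [fderiv_clm_apply h (differentiableAt_const v)]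
  simp

/-- In dimension one a form read in a chart is a scalar multiple of its value at `1`. -/
theorem formIn_one {N : Type} [TopologicalSpace N] [ChartedSpace ℂ N]
    {F : Type} [NormedAddCommGroup F] [NormedSpace ℂ F] (a : N → ℂ →L[ℂ] F) (P Q : N)
    (hQ : Q ∈ (chartAt ℂ P).source) (m : ℂ)
    (hm : mfderiv 𝓘(ℂ, ℂ) 𝓘(ℂ, ℂ) (chartAt ℂ P).symm (chartAt ℂ P Q) (1 : ℂ) = m) :
    formIn a P 1 (chartAt ℂ P Q) = m • a Q 1 := by
  unfold formIn
  rw [hm, (chartAt ℂ P).left_inv hQ, ← map_smul, smul_eq_mul, mul_one]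

theorem mult_ne {N : Type} [TopologicalSpace N] [ChartedSpace ℂ N] [IsManifold 𝓘(ℂ, ℂ) ω N]
    (P Q : N) (hQ : Q ∈ (chartAt ℂ P).source) (m : ℂ)
    (hm : mfderiv 𝓘(ℂ, ℂ) 𝓘(ℂ, ℂ) (chartAt ℂ P).symm (chartAt ℂ P Q) (1 : ℂ) = m) : m ≠ 0 := by
  intro h0
  have hd : (chartAt ℂ P).MDifferentiable 𝓘(ℂ, ℂ) 𝓘(ℂ, ℂ) := mdifferentiable_chart P
  have hinj := hd.symm.mfderiv_injective (x := chartAt ℂ P Q) ((chartAt ℂ P).map_source hQ)
  have h1 : mfderiv 𝓘(ℂ, ℂ) 𝓘(ℂ, ℂ) (chartAt ℂ P).symm (chartAt ℂ P Q) (1 : ℂ) =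
      mfderiv 𝓘(ℂ, ℂ) 𝓘(ℂ, ℂ) (chartAt ℂ P).symm (chartAt ℂ P Q) 0 := by
    rw [hm, map_zero]
    exact h0
  exact one_ne_zero (α := ℂ) (hinj h1)

end T98

theorem st_SELF : St_SELF := by
  refine ⟨fun V _ _ _ F _ _ θ z => ⟨T98.holo_iff θ z, fun h u v => ?_⟩, ?_⟩
  · have hd : DifferentiableAt ℂ θ z := ((T98.holo_iff θ z).1 h).differentiableAt (by simp)
    unfold dF
    rw [T98.formIn_self, T98.formIn_self]
    exact congrArg₂ (· - ·) (T98.fd_app hd u v) (T98.fd_app hd v u)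
  · intro N _ _ _ F _ _ a η P ha hη h0
    have hP : P ∈ (chartAt ℂ P).source := mem_chart_source ℂ P
    have hn : (chartAt ℂ P).source ∈ 𝓝 P := (chartAt ℂ P).open_source.mem_nhds hP
    have hc : ContMDiffAt 𝓘(ℂ, ℂ) 𝓘(ℂ, ℂ) ω (chartAt ℂ P) P :=
      (contMDiffOn_chart (I := 𝓘(ℂ, ℂ)) (x := P)).contMDiffAt hn
    have h1 : ContMDiffAt 𝓘(ℂ, ℂ) 𝓘(ℂ, F) ω (fun Q => formIn a P 1 (chartAt ℂ P Q)) P :=
      (ha 1).contMDiffAt.comp P hc
    have h2 : ContMDiffAt 𝓘(ℂ, ℂ) 𝓘(ℂ, ℂ) ω (fun Q => formIn η P 1 (chartAt ℂ P Q)) P :=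
      (hη 1).contMDiffAt.comp P hc
    have h3 : formIn η P 1 (chartAt ℂ P P) ≠ 0 := by
      rw [T98.formIn_one η P P hP _ rfl]
      exact smul_ne_zero (T98.mult_ne P P hP _ rfl) h0
    have h4 := cm_bil (ContinuousLinearMap.lsmul ℂ ℂ : ℂ →L[ℂ] F →L[ℂ] F) (cm_inv h2 h3) h1
    refine h4.congr_of_eventuallyEq ?_
    filter_upwards [hn] with Q hQ
    obtain ⟨m, hm⟩ : ∃ m : ℂ,
      mfderiv 𝓘(ℂ, ℂ) 𝓘(ℂ, ℂ) (chartAt ℂ P).symm (chartAt ℂ P Q) (1 : ℂ) = m := ⟨_, rfl⟩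
    have hm0 := T98.mult_ne P Q hQ m hm
    rw [T98.formIn_one a P Q hQ m hm, T98.formIn_one η P Q hQ m hm,
      ContinuousLinearMap.lsmul_apply, smul_smul, smul_eq_mul, mul_inv, mul_right_comm,
      inv_mul_cancel₀ hm0, one_mul]

end Pool.Agent.Lib.ATQ
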