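import Pool.Agent.Lib.ATQ.Tools

open scoped Manifold ContDiff Topology Matrix.Norms.Operator Matrix
open Set Filter

noncomputable section

namespace Pool.Agent.Lib.ATQ

open Pool.Agent.Lib.MP_ad9325_ag

namespace T67

variable {X : Type} [TopologicalSpace X] [ChartedSpace ℂ X] [IsManifold 𝓘(ℂ, ℂ) ω X]

theorem cm_ch (P : X) : ContMDiffAt 𝓘(ℂ, ℂ) 𝓘(ℂ, ℂ) ω (chartAt ℂ P) P :=
  (contMDiffOn_chart (I := 𝓘(ℂ, ℂ)) (n := ω)).contMDiffAt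
    ((chartAt ℂ P).open_source.mem_nhds (mem_chart_source ℂ P))

theorem cm_sy (P : X) {z : ℂ} (hz : z ∈ (chartAt ℂ P).target) :
    ContMDiffAt 𝓘(ℂ, ℂ) 𝓘(ℂ, ℂ) ω (chartAt ℂ P).symm z :=
  (contMDiffOn_chart_symm (I := 𝓘(ℂ, ℂ)) (n := ω)).contMDiffAt
    ((chartAt ℂ P).open_target.mem_nhds hz)

theorem D_ch (P : X) (u : ℂ) : D 𝓘(ℂ, ℂ) 𝓘(ℂ, ℂ) (chartAt ℂ P) P u = u := by
  have h := mfderiv_chartAt_eq_tangentCoordChange (I := 𝓘(ℂ, ℂ)) (mem_chart_source ℂ P)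
  unfold D
  rw [h]
  exact tangentCoordChange_self (mem_extChartAt_source P)

theorem D_sy (P : X) (u : ℂ) : D 𝓘(ℂ, ℂ) 𝓘(ℂ, ℂ) (chartAt ℂ P).symm (chartAt ℂ P P) u = u := by
  have h1 := D_comp (md (cm_sy P (mem_chart_target ℂ P))) (md (cm_ch P))
  have h2 : (fun y => (chartAt ℂ P).symm (chartAt ℂ P y)) =ᶠ[𝓝 P] fun y => y := by
    filter_upwards [(chartAt ℂ P).open_source.mem_nhds (mem_chart_source ℂ P)] with y hy
    exact (chartAt ℂ P).left_inv hy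
  rw [D_congr h2, D_id] at h1
  have h3 := DFunLike.congr_fun h1 u
  rw [ContinuousLinearMap.comp_apply, D_ch] at h3
  exact h3.symm

theorem D_prod (P Q : X) {z : BB} (h1 : z.1 ∈ (chartAt ℂ P).target)
    (h2 : z.2 ∈ (chartAt ℂ Q).target) (w : BB) :
    mfderiv 𝓘(ℂ, BB) 𝓘(ℂ, BB) (chartAt BB (SS.mk P Q)).symm z w =
      (D 𝓘(ℂ, ℂ) 𝓘(ℂ, ℂ) (chartAt ℂ P).symm z.1 w.1,
        D 𝓘(ℂ, ℂ) 𝓘(ℂ, ℂ) (chartAt ℂ Q).symm z.2 w.2) := by
  have f1 : MDifferentiableAt 𝓘(ℂ, BB) 𝓘(ℂ, ℂ) (ContinuousLinearMap.fst ℂ ℂ ℂ) z :=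
    (ContinuousLinearMap.fst ℂ ℂ ℂ).mdifferentiableAt
  have f2 : MDifferentiableAt 𝓘(ℂ, BB) 𝓘(ℂ, ℂ) (ContinuousLinearMap.snd ℂ ℂ ℂ) z :=
    (ContinuousLinearMap.snd ℂ ℂ ℂ).mdifferentiableAt
  have g1 := md (cm_sy P h1)
  have g2 := md (cm_sy Q h2)
  have h := D_mk (g1.comp z f1) (g2.comp z f2) w
  have e1 := DFunLike.congr_fun (D_comp g1 f1) w
  have e2 := DFunLike.congr_fun (D_comp g2 f2) w
  have k1 : D 𝓘(ℂ, BB) 𝓘(ℂ, ℂ) Prod.fst z = ContinuousLinearMap.fst ℂ ℂ ℂ :=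
    D_clm (ContinuousLinearMap.fst ℂ ℂ ℂ) z
  have k2 : D 𝓘(ℂ, BB) 𝓘(ℂ, ℂ) Prod.snd z = ContinuousLinearMap.snd ℂ ℂ ℂ :=
    D_clm (ContinuousLinearMap.snd ℂ ℂ ℂ) z
  rw [k1] at e1
  rw [k2] at e2
  exact h.trans (Prod.ext e1 e2)

theorem slice {F : Type} [NormedAddCommGroup F] [NormedSpace ℂ F] {f : X → F} {g : BB → F}
    {P : X} {c : BB} (j : ℂ →L[ℂ] BB) {z : BB} (hz : c + j (chartAt ℂ P P) = z)
    (hg : ContDiffAt ℂ ω g z)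
    (he : ∀ y ∈ (chartAt ℂ P).source, f y = g (c + j (chartAt ℂ P y))) (u : ℂ) :
    ContMDiffAt 𝓘(ℂ, ℂ) 𝓘(ℂ, F) ω f P ∧ D 𝓘(ℂ, ℂ) 𝓘(ℂ, F) f P u = fderiv ℂ g z (j u) := by
  subst hz
  have hev : f =ᶠ[𝓝 P] fun y => g (c + j (chartAt ℂ P y)) := by
    filter_upwards [(chartAt ℂ P).open_source.mem_nhds (mem_chart_source ℂ P)] with y hy
    exact he y hy
  have h0 : ContDiffAt ℂ ω (fun t : ℂ => c + j t) (chartAt ℂ P P) :=
    contDiffAt_const.add j.contDiff.contDiffAt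
  have h1 : ContDiffAt ℂ ω (fun t : ℂ => g (c + j t)) (chartAt ℂ P P) :=
    ContDiffAt.comp (g := g) (f := fun t : ℂ => c + j t) _ hg h0
  have h2 : HasFDerivAt (fun t : ℂ => g (c + j t))
      ((fderiv ℂ g (c + j (chartAt ℂ P P))).comp j) (chartAt ℂ P P) :=
    HasFDerivAt.comp (g := g) (f := fun t : ℂ => c + j t) _
      (hg.differentiableAt (by simp)).hasFDerivAt (j.hasFDerivAt.const_add c)
  refine ⟨(h1.contMDiffAt.comp P (cm_ch P)).congr_of_eventuallyEq hev, ?_⟩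
  rw [D_congr hev, D_comp (md h1.contMDiffAt) (md (cm_ch P)), D_eq_fderiv, h2.fderiv]
  simp only [ContinuousLinearMap.comp_apply, D_ch]

end T67

open T67 in
theorem st_SLC : St_SLC := by
  intro X _ _ _ F _ _ A P Q hA u v
  have a1 := slice (f := fun P' => A (SS.mk P' Q) (0, v)) (P := P) (c := (0, chartAt ℂ Q Q))
    (ContinuousLinearMap.inl ℂ ℂ ℂ) (z := chartAt BB (SS.mk P Q) (SS.mk P Q))
    (Prod.ext (zero_add _) (add_zero _)) (hA (0, v)) (fun y hy => by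
      have e : ((0, chartAt ℂ Q Q) : BB) + ContinuousLinearMap.inl ℂ ℂ ℂ (chartAt ℂ P y) =
          (chartAt ℂ P y, chartAt ℂ Q Q) := Prod.ext (zero_add _) (add_zero _)
      rw [e]
      unfold formIn
      rw [D_prod P Q ((chartAt ℂ P).map_source hy) (mem_chart_target ℂ Q), D_sy, map_zero]
      have e2 : (chartAt BB (SS.mk P Q)).symm (chartAt ℂ P y, chartAt ℂ Q Q) = SS.mk y Q :=
        Prod.ext ((chartAt ℂ P).left_inv hy) ((chartAt ℂ Q).left_inv (mem_chart_source ℂ Q))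
      rw [e2]) u
  have a2 := slice (f := fun Q' => A (SS.mk P Q') (u, 0)) (P := Q) (c := (chartAt ℂ P P, 0))
    (ContinuousLinearMap.inr ℂ ℂ ℂ) (z := chartAt BB (SS.mk P Q) (SS.mk P Q))
    (Prod.ext (add_zero _) (zero_add _)) (hA (u, 0)) (fun y hy => by
      have e : ((chartAt ℂ P P, 0) : BB) + ContinuousLinearMap.inr ℂ ℂ ℂ (chartAt ℂ Q y) =
          (chartAt ℂ P P, chartAt ℂ Q y) := Prod.ext (add_zero _) (zero_add _)
      rw [e]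
      unfold formIn
      rw [D_prod P Q (mem_chart_target ℂ P) ((chartAt ℂ Q).map_source hy), D_sy, map_zero]
      have e2 : (chartAt BB (SS.mk P Q)).symm (chartAt ℂ P P, chartAt ℂ Q y) = SS.mk P y :=
        Prod.ext ((chartAt ℂ P).left_inv (mem_chart_source ℂ P)) ((chartAt ℂ Q).left_inv hy)
      rw [e2]) v
  refine ⟨a1.1, a2.1, ?_⟩
  rw [a1.2, a2.2]
  rfl

end Pool.Agent.Lib.ATQ
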