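import Pool.Agent.Lib.ATQ.Tools

/-! Project atq: a chart of `SL (n+1)` at the identity. -/

open scoped Manifold ContDiff Topology Matrix.Norms.Operator Matrix
open Set Filter

noncomputable section

namespace Pool.Agent.Lib.ATQ

open Pool.Agent.Lib.MP_ad9325_ag

namespace T56

/-- The coordinate space of `SL (n+1)`. -/
abbrev En (n : ℕ) := ((Fin n → ℂ) × (Fin n → Fin n → ℂ)) × (Fin n → ℂ)

variable {n : ℕ}

/-- The matrix with corner `a` and the other entries given by `y`. -/
def mk (a : ℂ) (y : En n) : Mt (n + 1) :=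
  Matrix.of (Fin.cons (Fin.cons a y.1.1 : Fin (n + 1) → ℂ)
    (fun i => (Fin.cons (y.2 i) (y.1.2 i) : Fin (n + 1) → ℂ)) : Fin (n + 1) → Fin (n + 1) → ℂ)

theorem mk_00 (a : ℂ) (y : En n) : mk a y 0 0 = a := rfl
theorem mk_0s (a : ℂ) (y : En n) (j : Fin n) : mk a y 0 j.succ = y.1.1 j := rfl
theorem mk_s0 (a : ℂ) (y : En n) (i : Fin n) : mk a y i.succ 0 = y.2 i := rfl
theorem mk_ss (a : ℂ) (y : En n) (i j : Fin n) : mk a y i.succ j.succ = y.1.2 i j := rfl

/-- The determinant of the lower block. -/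
def dl (y : En n) : ℂ := (Matrix.of y.1.2 : Mt n).det

theorem det_mk (a : ℂ) (y : En n) : (mk a y).det = a * dl y + (mk 0 y).det := by
  have h0 : ∀ b : ℂ, (mk b y).submatrix Fin.succ (0 : Fin (n + 1)).succAbove = Matrix.of y.1.2 := by
    intro b; ext i j; rfl
  have h1 : ∀ j : Fin (n + 1), (mk a y).submatrix Fin.succ j.succAbove =
      (mk 0 y).submatrix Fin.succ j.succAbove := by
    intro j; ext i k; rfl
  rw [Matrix.det_succ_row_zero (mk a y), Matrix.det_succ_row_zero (mk 0 y), Fin.sum_univ_succ,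
    Fin.sum_univ_succ, h0, h0]
  simp only [h1, mk_00, mk_0s, dl]
  simp

theorem mk_Ln (x : Mt (n + 1)) : mk (x 0 0) (Ln n x) = x := by
  ext i j
  refine Fin.cases ?_ (fun i => ?_) i <;> refine Fin.cases ?_ (fun j => ?_) j <;> rfl

theorem Ln_mk (a : ℂ) (y : En n) : Ln n (mk a y) = y := rfl

theorem cd_det {E : Type} [NormedAddCommGroup E] [NormedSpace ℂ E] {k : ℕ} {f : E → Mt k} {z : E}
    (h : ∀ i j, ContDiffAt ℂ ω (fun q => f q i j) z) : ContDiffAt ℂ ω (fun q => (f q).det) z := by
  simp only [Matrix.det_apply']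
  exact ContDiffAt.sum fun σ _ => contDiffAt_const.mul (contDiffAt_prod fun i _ => h _ _)

theorem cd_dl (y : En n) : ContDiffAt ℂ ω (dl (n := n)) y :=
  cd_det (f := fun y : En n => (Matrix.of y.1.2 : Mt n)) fun i j => by
    change ContDiffAt ℂ ω (fun q : En n => q.1.2 i j) y
    fun_prop

theorem cd_mk {a : En n → ℂ} {y : En n} (ha : ContDiffAt ℂ ω a y) (i j : Fin (n + 1)) :
    ContDiffAt ℂ ω (fun q => mk (a q) q i j) y := by
  refine Fin.cases ?_ (fun i => ?_) i <;> refine Fin.cases ?_ (fun j => ?_) j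
  · exact ha
  · change ContDiffAt ℂ ω (fun q : En n => q.1.1 j) y
    fun_prop
  · change ContDiffAt ℂ ω (fun q : En n => q.2 i) y
    fun_prop
  · change ContDiffAt ℂ ω (fun q : En n => q.1.2 i j) y
    fun_prop

/-- The matrix of determinant one with given coordinates. -/
def psi (y : En n) : Mt (n + 1) := mk ((1 - (mk 0 y).det) / dl y) y

theorem det_psi {y : En n} (h : dl y ≠ 0) : (psi y).det = 1 := by
  rw [psi, det_mk, div_mul_cancel₀ _ h, sub_add_cancel]

theorem cd_psi {y : En n} (h : dl y ≠ 0) : ContDiffAt ℂ ω (psi (n := n)) y :=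
  cd_mat (cd_mk ((contDiffAt_const.sub (cd_det (cd_mk contDiffAt_const))).div (cd_dl y) h))

theorem psi_Ln (g : SLn (n + 1)) (h : dl (Ln n g.1) ≠ 0) : psi (Ln n g.1) = g.1 := by
  have hd := det_mk (g.1 0 0) (Ln n g.1)
  rw [mk_Ln, g.2] at hd
  have h1 : (1 - (mk 0 (Ln n g.1)).det) / dl (Ln n g.1) = g.1 0 0 := by
    rw [div_eq_iff h]
    linear_combination hd
  rw [psi, h1, mk_Ln]

open Classical in
/-- The inverse of the chart. -/
def invS (y : En n) : SLn (n + 1) := if h : dl y ≠ 0 then ⟨psi y, det_psi h⟩ else 1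

theorem invS_val {y : En n} (h : dl y ≠ 0) : (invS y).1 = psi y :=
  congrArg Subtype.val (dif_pos h)

theorem cont_val (k : ℕ) : Continuous (fun g : SLn k => (g.1 : Mt k)) := continuous_subtype_val

theorem ind_val (k : ℕ) : Topology.IsInducing (fun g : SLn k => (g.1 : Mt k)) :=
  Topology.IsInducing.subtypeVal

theorem cont_dl : Continuous (dl (n := n)) :=
  continuous_iff_continuousAt.2 fun y => (cd_dl y).continuousAt

/-- The chart of `SL (n+1)` at the identity. -/
def phi (n : ℕ) : OpenPartialHomeomorph (SLn (n + 1)) (En n) where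
  toFun g := Ln n g.1
  invFun := invS
  source := {g | dl (Ln n g.1) ≠ 0}
  target := {y | dl y ≠ 0}
  map_source' _ hg := hg
  map_target' y hy := by
    have hy' : dl y ≠ 0 := hy
    change dl (Ln n (invS y).1) ≠ 0
    rw [invS_val hy']
    exact hy'
  left_inv' g hg := Subtype.ext ((invS_val hg).trans (psi_Ln g hg))
  right_inv' y hy := by
    rw [invS_val hy]
    rfl
  open_source :=
    isOpen_ne_fun (cont_dl.comp ((Ln n).continuous.comp (cont_val _))) continuous_const
  open_target := isOpen_ne_fun cont_dl continuous_const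
  continuousOn_toFun := ((Ln n).continuous.comp (cont_val _)).continuousOn
  continuousOn_invFun := by
    rw [(ind_val _).continuousOn_iff]
    exact ContinuousOn.congr (f := psi)
      (fun y hy => (cd_psi hy).continuousAt.continuousWithinAt) fun y hy => invS_val hy

theorem cd_adj (k : ℕ) : ContDiff ℂ ω (fun x : Mt k => x.adjugate) := by
  rw [contDiff_iff_contDiffAt]
  intro x
  refine cd_mat fun i j => ?_
  simp only [Matrix.adjugate_apply]
  refine cd_det fun a b => ?_
  simp only [Matrix.updateRow_apply]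
  by_cases hab : a = j
  · simp only [hab, if_true]
    exact contDiffAt_const
  · simp only [hab, if_false]
    exact (en a b).contDiff.contDiffAt

end T56

theorem st_SLN : St_SLN := fun n =>
  ⟨T56.phi n,
    { one := by
        change T56.dl (Ln n (1 : Mt (n + 1))) ≠ 0
        have h : (Matrix.of (Ln n (1 : Mt (n + 1))).1.2 : Mt n) = 1 := by
          ext i j
          change (1 : Mt (n + 1)) i.succ j.succ = _
          simp [Matrix.one_apply]
        rw [T56.dl, h, Matrix.det_one]
        exact one_ne_zero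
      cont := T56.cont_val _
      lin := fun _ _ => rfl
      symm := ContDiffOn.congr (f := T56.psi) (fun _ hy => (T56.cd_psi hy).contDiffWithinAt)
        fun _ hy => T56.invS_val hy
      inv := ⟨_, T56.cd_adj _, fun _ => rfl⟩ }⟩

end Pool.Agent.Lib.ATQ
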