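import Pool.Agent.Lib.ATQ.Tools
import Pool.Agent.Lib.AD7.Chart

/-! Project atq: a matrix group with a subgroup that is a linear slice of the chart. -/

open scoped Manifold ContDiff Topology Matrix.Norms.Operator Matrix
open Set Filter

set_option linter.style.haveILetI false

noncomputable section

namespace Pool.Agent.Lib.ATQ

open Pool.Agent.Lib.MP_ad9325_ag

theorem st_SUB : St_SUB := by
  intro EH F _ _ _ _ _ _ G _ _ _ _ _ H R _ _ val φ L h hi hinj hmem
  have hH : ∀ g ∈ φ.source, g ∈ H ↔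
      ((ContinuousLinearEquiv.refl ℂ (EH × F)).symm (φ g)).2 = 0 := fun g hg => by
    rw [hmem g, h.lin g hg]; rfl
  have hs := AD7.data_sub h hH
  have hemb := AD7.sub_emb h hH
  letI csG : ChartedSpace (EH × F) G := translCS φ h.one
  letI csH : ChartedSpace EH H := translCS _ hs.one
  haveI lG : LieGroup 𝓘(ℂ, EH × F) ω G := h.lieGroup
  haveI lH : LieGroup 𝓘(ℂ, EH) ω H := hs.lieGroup
  have hv : ContMDiff 𝓘(ℂ, EH × F) 𝓘(ℂ, R) ω val := h.contMDiff_val
  have hvH : ContMDiff 𝓘(ℂ, EH) 𝓘(ℂ, R) ω (val.comp H.subtype) := hs.contMDiff_val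
  have hι : ContMDiff 𝓘(ℂ, EH) 𝓘(ℂ, EH × F) ω (Subtype.val : H → G) := fun k =>
    AD7.contMDiffAt_of_val h hi (hvH k)
  have hcl : IsClosed (H : Set G) := by
    have e : (H : Set G) = {g | (L (val g)).2 = 0} := Set.ext hmem
    rw [e]
    exact isClosed_eq (L.continuous.comp h.cont).snd continuous_const
  refine ⟨csG, csH, ⟨inferInstance, inferInstance, inferInstance, inferInstance, lG, lH, hcl, hemb⟩,
    hv, hinj, h.L_D_val, fun A => ?_, hmem, fun E' _ _ H' _ I N _ _ f x hf => ?_⟩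
  · rw [← h.L_D_val (D 𝓘(ℂ, EH) 𝓘(ℂ, EH × F) (Subtype.val : H → G) 1 A), dval_incl hv hι]
    refine Prod.ext (hs.L_D_val A) ?_
    have h3 := D_clm_comp ((ContinuousLinearMap.snd ℂ EH F).comp L) (md (hvH 1))
    have h4 : (fun y : H => ((ContinuousLinearMap.snd ℂ EH F).comp L) (val.comp H.subtype y)) =
        fun _ => 0 := funext fun y => (hmem y).1 y.2
    rw [h4, D_const] at h3
    exact (congrArg (fun M : EH →L[ℂ] F => M A) h3).symm
  · exact AD7.contMDiffAt_of_val hs (hi.comp Topology.IsInducing.subtypeVal) hf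

end Pool.Agent.Lib.ATQ
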