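import Pool.Agent.Lib.ATQ.Defs

/-! Project atq: blueprint. -/

open scoped Manifold ContDiff Topology Matrix.Norms.Operator Matrix
open Set Filter

noncomputable section

namespace Pool.Agent.Lib.ATQ

open Pool.Agent.Lib.MP_ad9325_ag

/-! ### Calculus of forms -/

/-- Closure properties of holomorphic forms. -/
def St_HOL : Prop := ∀ (V : Type) [NormedAddCommGroup V] [NormedSpace ℂ V] [FiniteDimensional ℂ V]
  (N : Type) [TopologicalSpace N] [ChartedSpace V N] [IsManifold 𝓘(ℂ, V) ω N]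
  (F : Type) [NormedAddCommGroup F] [NormedSpace ℂ F] (θ : N → V →L[ℂ] F) (p : N),
  (∀ θ', θ =ᶠ[𝓝 p] θ' → (HoloAt θ p → HoloAt θ' p) ∧ dF θ p = dF θ' p) ∧
  (∀ θ', HoloAt θ p → HoloAt θ' p → HoloAt (fun q => θ q + θ' q) p) ∧
  (∀ f : N → F, ContMDiffAt 𝓘(ℂ, V) 𝓘(ℂ, F) ω f p → HoloAt (D 𝓘(ℂ, V) 𝓘(ℂ, F) f) p) ∧
  (∀ (F₁ : Type) [NormedAddCommGroup F₁] [NormedSpace ℂ F₁] (F₂ : Type) [NormedAddCommGroup F₂]
    [NormedSpace ℂ F₂] (B : F₁ →L[ℂ] F →L[ℂ] F₂) (f : N → F₁),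
    ContMDiffAt 𝓘(ℂ, V) 𝓘(ℂ, F₁) ω f p → HoloAt θ p → HoloAt (fun q => (B (f q)).comp (θ q)) p) ∧
  (HoloAt θ p ↔ ∀ u : V, ContMDiffAt 𝓘(ℂ, V).tangent 𝓘(ℂ, F) ω
    (fun q : TangentBundle 𝓘(ℂ, V) N => θ q.proj q.snd) ⟨p, u⟩) ∧
  (HoloAt θ p → ∀ᶠ q in 𝓝 p, HoloAt θ q) ∧
  (∀ (V' : Type) [NormedAddCommGroup V'] [NormedSpace ℂ V'] [FiniteDimensional ℂ V']
    (N' : Type) [TopologicalSpace N'] [ChartedSpace V' N'] [IsManifold 𝓘(ℂ, V') ω N']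
    (f : N' → N) (p' : N'), f p' = p → ContMDiffAt 𝓘(ℂ, V') 𝓘(ℂ, V) ω f p' → HoloAt θ p →
      HoloAt (pull (V' := V') f θ) p')

/-- Forms on a vector space, and quotients of forms on a curve. -/
def St_SELF : Prop :=
  (∀ (V : Type) [NormedAddCommGroup V] [NormedSpace ℂ V] [FiniteDimensional ℂ V]
    (F : Type) [NormedAddCommGroup F] [NormedSpace ℂ F] (θ : V → V →L[ℂ] F) (z : V),
    (HoloAt θ z ↔ ContDiffAt ℂ ω θ z) ∧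
    (HoloAt θ z → ∀ u v, dF θ z u v = fderiv ℂ θ z u v - fderiv ℂ θ z v u)) ∧
  ∀ (N : Type) [TopologicalSpace N] [ChartedSpace ℂ N] [IsManifold 𝓘(ℂ, ℂ) ω N]
    (F : Type) [NormedAddCommGroup F] [NormedSpace ℂ F] (a : N → ℂ →L[ℂ] F) (η : N → ℂ →L[ℂ] ℂ)
    (P : N), HoloAt a P → HoloAt η P → η P 1 ≠ 0 →
      ContMDiffAt 𝓘(ℂ, ℂ) 𝓘(ℂ, F) ω (fun Q => (η Q 1)⁻¹ • a Q 1) P

/-- Rules for the exterior derivative. -/
def St_DF : Prop := ∀ (V : Type) [NormedAddCommGroup V] [NormedSpace ℂ V] [FiniteDimensional ℂ V]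
  (N : Type) [TopologicalSpace N] [ChartedSpace V N] [IsManifold 𝓘(ℂ, V) ω N]
  (F : Type) [NormedAddCommGroup F] [NormedSpace ℂ F] [CompleteSpace F]
  (θ : N → V →L[ℂ] F) (p : N), HoloAt θ p →
  (∃ β : V →L[ℂ] V →L[ℂ] F, ∀ u v, dF θ p u v = β u v - β v u) ∧
  (∀ θ', HoloAt θ' p → ∀ u v, dF (fun q => θ q + θ' q) p u v = dF θ p u v + dF θ' p u v) ∧
  (∀ f : N → F, ContMDiffAt 𝓘(ℂ, V) 𝓘(ℂ, F) ω f p → ∀ u v, dF (D 𝓘(ℂ, V) 𝓘(ℂ, F) f) p u v = 0) ∧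
  (∀ (F₁ : Type) [NormedAddCommGroup F₁] [NormedSpace ℂ F₁] (F₂ : Type) [NormedAddCommGroup F₂]
    [NormedSpace ℂ F₂] (B : F₁ →L[ℂ] F →L[ℂ] F₂) (f : N → F₁),
    ContMDiffAt 𝓘(ℂ, V) 𝓘(ℂ, F₁) ω f p → ∀ u v, dF (fun q => (B (f q)).comp (θ q)) p u v =
      B (D 𝓘(ℂ, V) 𝓘(ℂ, F₁) f p u) (θ p v) - B (D 𝓘(ℂ, V) 𝓘(ℂ, F₁) f p v) (θ p u) +
        B (f p) (dF θ p u v))

/-- Naturality of the exterior derivative. -/
def St_NAT : Prop := ∀ (V : Type) [NormedAddCommGroup V] [NormedSpace ℂ V] [FiniteDimensional ℂ V]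
  (N : Type) [TopologicalSpace N] [ChartedSpace V N] [IsManifold 𝓘(ℂ, V) ω N]
  (F : Type) [NormedAddCommGroup F] [NormedSpace ℂ F] (θ : N → V →L[ℂ] F)
  (V' : Type) [NormedAddCommGroup V'] [NormedSpace ℂ V'] [FiniteDimensional ℂ V']
  (N' : Type) [TopologicalSpace N'] [ChartedSpace V' N'] [IsManifold 𝓘(ℂ, V') ω N']
  (f : N' → N) (p : N'), ContMDiffAt 𝓘(ℂ, V') 𝓘(ℂ, V) ω f p → HoloAt θ (f p) → ∀ u v : V',
    dF (pull f θ) p u v = dF θ (f p) (D 𝓘(ℂ, V') 𝓘(ℂ, V) f p u) (D 𝓘(ℂ, V') 𝓘(ℂ, V) f p v)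

/-- The invariant formula for the exterior derivative; extension of tangent vectors. -/
def St_FORM : Prop := ∀ (V : Type) [NormedAddCommGroup V] [NormedSpace ℂ V] [FiniteDimensional ℂ V]
  (N : Type) [TopologicalSpace N] [ChartedSpace V N] [IsManifold 𝓘(ℂ, V) ω N] (e : N),
  (∀ u : V, ∃ X : (e : N) → TangentSpace 𝓘(ℂ, V) e, VF V X e ∧ X e = u) ∧
  ∀ (F : Type) [NormedAddCommGroup F] [NormedSpace ℂ F] (w : N → V →L[ℂ] F)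
    (X Y : (e : N) → TangentSpace 𝓘(ℂ, V) e), HoloAt w e → VF V X e → VF V Y e →
      dForm (EE := V) w X Y e = dF w e (X e) (Y e)

/-- Gauge transformations. -/
def St_GAU : Prop := ∀ (V : Type) [NormedAddCommGroup V] [NormedSpace ℂ V] [FiniteDimensional ℂ V]
  (N : Type) [TopologicalSpace N] [ChartedSpace V N] [IsManifold 𝓘(ℂ, V) ω N]
  (R : Type) [NormedRing R] [NormedAlgebra ℂ R] [CompleteSpace R] (θ : N → V →L[ℂ] R)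
  (k ki : N → R) (p : N), HoloAt θ p → ContMDiffAt 𝓘(ℂ, V) 𝓘(ℂ, R) ω k p →
  ContMDiffAt 𝓘(ℂ, V) 𝓘(ℂ, R) ω ki p → (∀ᶠ q in 𝓝 p, ki q * k q = 1 ∧ k q * ki q = 1) →
    HoloAt (gau k ki θ) p ∧ ∀ u v, Curv (gau k ki θ) p u v = ki p * Curv θ p u v * k p

/-- The formula of Jacobi. -/
def St_JAC : Prop := ∀ (n : ℕ) (V : Type) [NormedAddCommGroup V] [NormedSpace ℂ V]
  (N : Type) [TopologicalSpace N] [ChartedSpace V N] (Γ : N → Mt n) (Γi : Mt n) (p : N),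
  ContMDiffAt 𝓘(ℂ, V) 𝓘(ℂ, Mt n) ω Γ p → (∀ᶠ q in 𝓝 p, (Γ q).det = 1) → Γi * Γ p = 1 →
    ∀ u, (Γi * D 𝓘(ℂ, V) 𝓘(ℂ, Mt n) Γ p u).trace = 0

/-- A manifold structure from local homeomorphisms to a manifold. -/
def St_GLUE : Prop := ∀ (W : Type) [NormedAddCommGroup W] [NormedSpace ℂ W] (HW : Type)
  [TopologicalSpace HW] (I : ModelWithCorners ℂ W HW) (N : Type) [TopologicalSpace N]
  [ChartedSpace HW N] [IsManifold I ω N] (Z : Type) [TopologicalSpace Z] (ι : Type)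
  (e : ι → OpenPartialHomeomorph Z N), (∀ z, ∃ i, z ∈ (e i).source) →
  (∀ i j, ∀ y ∈ (e i).target, (e i).symm y ∈ (e j).source →
    ContMDiffAt I I ω (fun y' => e j ((e i).symm y')) y) →
  ∃ _ : ChartedSpace HW Z, IsManifold I ω Z ∧ ∀ i,
    (∀ z ∈ (e i).source, ContMDiffAt I I ω (e i) z) ∧
      ∀ y ∈ (e i).target, ContMDiffAt I I ω (e i).symm y

/-! ### The model -/

def St_SLN : Prop := ∀ n : ℕ, ∃ φ, ChartData (valS (n + 1)) φ (Ln n)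

def St_PRD : Prop :=
  (∀ (E₁ : Type) [NormedAddCommGroup E₁] [NormedSpace ℂ E₁] (G₁ : Type) [Group G₁]
    [TopologicalSpace G₁] (R₁ : Type) [NormedRing R₁] [NormedAlgebra ℂ R₁]
    (E₂ : Type) [NormedAddCommGroup E₂] [NormedSpace ℂ E₂] (G₂ : Type) [Group G₂]
    [TopologicalSpace G₂] (R₂ : Type) [NormedRing R₂] [NormedAlgebra ℂ R₂]
    (v₁ : G₁ →* R₁) (φ₁ : OpenPartialHomeomorph G₁ E₁) (L₁ : R₁ →L[ℂ] E₁)
    (v₂ : G₂ →* R₂) (φ₂ : OpenPartialHomeomorph G₂ E₂) (L₂ : R₂ →L[ℂ] E₂),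
    ChartData v₁ φ₁ L₁ → ChartData v₂ φ₂ L₂ →
      ∃ φ, ChartData (v₁.prodMap v₂) φ (L₁.prodMap L₂)) ∧
  ∀ (E : Type) [NormedAddCommGroup E] [NormedSpace ℂ E] (G : Type) [Group G]
    [TopologicalSpace G] (R : Type) [NormedRing R] [NormedAlgebra ℂ R]
    (E' : Type) [NormedAddCommGroup E'] [NormedSpace ℂ E'] (v : G →* R)
    (φ : OpenPartialHomeomorph G E) (L : R →L[ℂ] E) (e : E ≃L[ℂ] E'),
    ChartData v φ L → ∃ φ', ChartData v φ' ((e : E →L[ℂ] E').comp L)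

def St_SUB : Prop := ∀ (EH F : Type) [NormedAddCommGroup EH] [NormedSpace ℂ EH]
  [FiniteDimensional ℂ EH] [NormedAddCommGroup F] [NormedSpace ℂ F] [FiniteDimensional ℂ F]
  (G : Type) [Group G] [TopologicalSpace G] [IsTopologicalGroup G] [T2Space G]
  [SecondCountableTopology G] (H : Subgroup G) (R : Type) [NormedRing R] [NormedAlgebra ℂ R]
  (val : G →* R) (φ : OpenPartialHomeomorph G (EH × F)) (L : R →L[ℂ] EH × F),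
  ChartData val φ L → Topology.IsInducing val → Function.Injective val →
  (∀ g, g ∈ H ↔ (L (val g)).2 = 0) →
    ∃ (_ : ChartedSpace (EH × F) G) (_ : ChartedSpace EH H), Pack EH F H val L

/-- The model `SL2 × SL2 × SL6` with its parabolic subgroup. -/
def St_MOD : Prop := ∃ (EH : Type) (_ : NormedAddCommGroup EH) (_ : NormedSpace ℂ EH)
  (_ : ChartedSpace (EH × VM) G3) (_ : ChartedSpace EH H3) (L : R3 →L[ℂ] EH × VM),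
  Pack EH VM H3 val3 L ∧ (∀ x, (L x).2 = Pc x) ∧
    ∀ x, (∃ X, dval (EH × VM) val3 X = x) ↔ TrFree x

/-- The isotropy representation splits and one summand is closed under the bracket. -/
def St_MF : Prop := ∀ (EH : Type) [NormedAddCommGroup EH] [NormedSpace ℂ EH]
  [ChartedSpace (EH × VM) G3] [ChartedSpace EH H3] (L : R3 →L[ℂ] EH × VM),
  Pack EH VM H3 val3 L → (∀ x, (L x).2 = Pc x) →
    (∀ (h : H3) (X : EH × VM), X.2.1 = 0 → (Ad (EH × VM) ((h : G3)⁻¹) X).2.1 = 0) ∧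
    (∀ (h : H3) (X : EH × VM), X.2.2 = 0 → (Ad (EH × VM) ((h : G3)⁻¹) X).2.2 = 0) ∧
    ∀ X Y : EH × VM, X.2.2 = 0 → Y.2.2 = 0 → (lie G3 X Y).2.2 = 0

/-! ### From a cocycle to a geometry -/

/-- The principal bundle of a cocycle, with its fibre coordinates `κ`. -/
structure Bun (EH V : Type) [NormedAddCommGroup EH] [NormedSpace ℂ EH] [NormedAddCommGroup V]
    [NormedSpace ℂ V] {G : Type} [Group G] [TopologicalSpace G] {H : Subgroup G}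
    [ChartedSpace EH H] {R : Type} [NormedRing R] (val : G →* R) {M : Type} [TopologicalSpace M]
    [ChartedSpace V M] {ι : Type} (O : ι → Set M) (hh : ι → ι → M → R) {E : Type}
    [TopologicalSpace E] [ChartedSpace (V × EH) E] (π : E → M) (r : E → H → E) (κ : ι → E → H) :
    Prop where
  pri : IsPrincipal EH V (V × EH) π r
  hκ : ∀ a e, π e ∈ O a → ContMDiffAt 𝓘(ℂ, V × EH) 𝓘(ℂ, EH) ω (κ a) e
  tr : ∀ a b e, π e ∈ O a → π e ∈ O b → val (κ b e) = hh a b (π e) * val (κ a e)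
  act : ∀ a e h, π e ∈ O a → κ a (r e h) = κ a e * h
  bij : ∀ a e, π e ∈ O a → Function.Bijective fun u : V × EH =>
    (D 𝓘(ℂ, V × EH) 𝓘(ℂ, V) π e u, D 𝓘(ℂ, V × EH) 𝓘(ℂ, EH) (κ a) e u)

def St_GEO1 : Prop := ∀ (EH F : Type) [NormedAddCommGroup EH] [NormedSpace ℂ EH]
  [NormedAddCommGroup F] [NormedSpace ℂ F] (G : Type) [Group G] [TopologicalSpace G]
  [ChartedSpace (EH × F) G] (H : Subgroup G) [ChartedSpace EH H] (R : Type) [NormedRing R]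
  [NormedAlgebra ℂ R] (val : G →* R) (L : R →L[ℂ] EH × F), Pack EH F H val L →
  ∀ (V : Type) [NormedAddCommGroup V] [NormedSpace ℂ V] (M : Type) [TopologicalSpace M]
    [ChartedSpace V M] [IsManifold 𝓘(ℂ, V) ω M] (ι : Type) (O : ι → Set M) (hh : ι → ι → M → R),
    IsCocycle V O hh → (∀ a b, ∀ m ∈ O a ∩ O b, ∃ k : H, val k = hh a b m) →
    ∃ (E : Type) (_ : TopologicalSpace E) (_ : ChartedSpace (V × EH) E)
      (_ : IsManifold 𝓘(ℂ, V × EH) ω E) (π : E → M) (r : E → H → E) (κ : ι → E → H),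
      Bun EH V val O hh π r κ

def St_GEO2 : Prop := ∀ (EH F : Type) [NormedAddCommGroup EH] [NormedSpace ℂ EH]
  [NormedAddCommGroup F] [NormedSpace ℂ F] (G : Type) [Group G] [TopologicalSpace G]
  [ChartedSpace (EH × F) G] (H : Subgroup G) [ChartedSpace EH H] (R : Type) [NormedRing R]
  [NormedAlgebra ℂ R] [CompleteSpace R] (val : G →* R) (L : R →L[ℂ] EH × F), Pack EH F H val L →
  ∀ (V : Type) [NormedAddCommGroup V] [NormedSpace ℂ V] [FiniteDimensional ℂ V] (M : Type)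
    [TopologicalSpace M] [ChartedSpace V M] [IsManifold 𝓘(ℂ, V) ω M] (ι : Type) (O : ι → Set M)
    (hh : ι → ι → M → R) (θ : ι → M → V →L[ℂ] R), IsCocycle V O hh → IsConn O hh θ →
    (∀ a, ∀ m ∈ O a, ∀ u, ∃ X, dval (EH × F) val X = θ a m u) →
    (∀ a, ∀ m ∈ O a, Function.Bijective fun u => (L (θ a m u)).2) →
    ∀ (E : Type) [TopologicalSpace E] [ChartedSpace (V × EH) E] [IsManifold 𝓘(ℂ, V × EH) ω E]
      (π : E → M) (r : E → H → E) (κ : ι → E → H), Bun EH V val O hh π r κ →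
      ∃ w : E → V × EH →L[ℂ] EH × F, IsCartanForm (EE := V × EH) EH r w ∧
        ∀ a e, π e ∈ O a → ∀ u, dval (EH × F) val (w e u) =
          gau (fun e' => val (κ a e')) (fun e' => val (κ a e')⁻¹) (pull π (θ a)) e u

/-- The form and its curvature in a local frame. -/
def St_GEO3 : Prop := ∀ (EH F : Type) [NormedAddCommGroup EH] [NormedSpace ℂ EH]
  [NormedAddCommGroup F] [NormedSpace ℂ F] (G : Type) [Group G] [TopologicalSpace G]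
  [ChartedSpace (EH × F) G] (H : Subgroup G) [ChartedSpace EH H] (R : Type) [NormedRing R]
  [NormedAlgebra ℂ R] [CompleteSpace R] (val : G →* R) (L : R →L[ℂ] EH × F), Pack EH F H val L →
  ∀ (V : Type) [NormedAddCommGroup V] [NormedSpace ℂ V] [FiniteDimensional ℂ V] (M : Type)
    [TopologicalSpace M] [ChartedSpace V M] [IsManifold 𝓘(ℂ, V) ω M] (ι : Type) (O : ι → Set M)
    (hh : ι → ι → M → R) (θ : ι → M → V →L[ℂ] R), IsCocycle V O hh → IsConn O hh θ →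
    ∀ (E : Type) [TopologicalSpace E] [ChartedSpace (V × EH) E] [IsManifold 𝓘(ℂ, V × EH) ω E]
      (π : E → M) (r : E → H → E) (κ : ι → E → H), Bun EH V val O hh π r κ →
      ∀ w : E → V × EH →L[ℂ] EH × F, IsCartanForm (EE := V × EH) EH r w →
        (∀ a e, π e ∈ O a → ∀ u, dval (EH × F) val (w e u) =
          gau (fun e' => val (κ a e')) (fun e' => val (κ a e')⁻¹) (pull π (θ a)) e u) →
        ∀ a e, π e ∈ O a →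
          (∀ u, ∃ A : EH, dval (EH × F) val (w e u) = val (κ a e)⁻¹ *
            θ a (π e) (D 𝓘(ℂ, V × EH) 𝓘(ℂ, V) π e u) * val (κ a e) + dval (EH × F) val (A, 0)) ∧
          ∀ X Y, VF (V × EH) X e → VF (V × EH) Y e → dval (EH × F) val
            (dForm (EE := V × EH) w X Y e + lie G (w e (X e)) (w e (Y e))) = val (κ a e)⁻¹ *
              Curv (θ a) (π e) (D 𝓘(ℂ, V × EH) 𝓘(ℂ, V) π e (X e))
                (D 𝓘(ℂ, V × EH) 𝓘(ℂ, V) π e (Y e)) * val (κ a e)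

/-- The local data of the geometry on the projective bundle. -/
structure Loc {M : Type} [TopologicalSpace M] [ChartedSpace VM M] {ι : Type} (O : ι → Set M)
    (hh : ι → ι → M → R3) (θ : ι → M → VM →L[ℂ] R3) : Prop where
  coc : IsCocycle VM O hh
  con : IsConn O hh θ
  mem : ∀ a b, ∀ m ∈ O a ∩ O b, ∃ k : H3, val3 k = hh a b m
  trf : ∀ a, ∀ m ∈ O a, ∀ u, TrFree (θ a m u)
  nd : ∀ a, ∀ m ∈ O a, ∀ u, Pc (θ a m u) = 0 → u = 0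
  cur : ∀ a, ∀ m ∈ O a, ∀ u v, (Curv (θ a) m u v).1 = 0 ∧ (Curv (θ a) m u v).2.1 = 0
  hor : ∀ a, ∀ m ∈ O a, ∀ u v, (θ a m u).1 1 0 = 0 → (θ a m u).2.1 1 0 = 0 → Curv (θ a) m u v = 0

/-- Frames adapted to a line. -/
def St_FRM : Prop := ∀ i : Fin 6, ∃ n ni : E6 → Mt 6, ContDiff ℂ ω n ∧ ContDiff ℂ ω ni ∧
  (∀ s k, n s k 0 = s k) ∧ ∀ s, s i = 1 → ni s * n s = 1 ∧ n s * ni s = 1 ∧ (n s).det = 1

def St_EX2 : Prop := ∀ (S : Type) [TopologicalSpace S] [ChartedSpace BB S] [IsManifold 𝓘(ℂ, BB) ω S]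
  (ι : Type) (U : ι → Set S) (Γ : ι → ι → S → R3) (θ : ι → S → BB →L[ℂ] R3), BaseData U Γ θ →
  ∀ (M : Type) [TopologicalSpace M] [ChartedSpace VM M] [IsManifold 𝓘(ℂ, VM) ω M] (π : M → S)
    (Ψ : ι → S × E6 → M) (σ : ι × Fin 6 → M → E6),
    PBD (n := 5) BB U (fun c d p => (Γ c d p).2.2) π Ψ σ → PBD1 (n := 5) BB U π Ψ σ →
      ∃ hh θ', Loc (Oc (n := 5) U π Ψ) hh θ'

def St_NORM : Prop := ∀ (EH : Type) [NormedAddCommGroup EH] [NormedSpace ℂ EH]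
  [ChartedSpace (EH × VM) G3] [ChartedSpace EH H3] (L : R3 →L[ℂ] EH × VM),
  Pack EH VM H3 val3 L → (∀ x, (L x).2 = Pc x) →
  (∀ x, (∃ X, dval (EH × VM) val3 X = x) ↔ TrFree x) →
  ∀ (M : Type) [TopologicalSpace M] [ChartedSpace VM M] [IsManifold 𝓘(ℂ, VM) ω M] (ι : Type)
    (O : ι → Set M) (hh : ι → ι → M → R3) (θ : ι → M → VM →L[ℂ] R3), Loc O hh θ →
      HasNormalGeometry (EH × VM) EH H3 VM M

/-! ### Projective bundles and Kaehler metrics -/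

def St_PB : Prop := ∀ (VS : Type) [NormedAddCommGroup VS] [NormedSpace ℂ VS] (S : Type)
  [TopologicalSpace S] [ChartedSpace VS S] [IsManifold 𝓘(ℂ, VS) ω S] [T2Space S] [CompactSpace S]
  [ConnectedSpace S] [LocallyCompactSpace S] (ι : Type) (n : ℕ) (U : ι → Set S)
  (Γ : ι → ι → S → Mt (n + 1)) (N : Type) [Fintype N] (J : ι → S → Matrix N (Fin (n + 1)) ℂ)
  (K : ι → S → Matrix (Fin (n + 1)) N ℂ), IsCocycle VS U Γ → Emb VS U Γ J K →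
  ∃ (M : Type) (_ : TopologicalSpace M) (_ : ChartedSpace (VS × (Fin n → ℂ)) M) (π : M → S)
    (Ψ : ι → S × (Fin (n + 1) → ℂ) → M) (σ : ι × Fin (n + 1) → M → Fin (n + 1) → ℂ),
    IsManifold 𝓘(ℂ, VS × (Fin n → ℂ)) ω M ∧ T2Space M ∧ CompactSpace M ∧ PBD VS U Γ π Ψ σ

def St_PBD1 : Prop := ∀ (VS : Type) [NormedAddCommGroup VS] [NormedSpace ℂ VS] (S : Type)
  [TopologicalSpace S] [ChartedSpace VS S] [IsManifold 𝓘(ℂ, VS) ω S] (ι : Type) (n : ℕ)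
  (U : ι → Set S) (Γ : ι → ι → S → Mt (n + 1)) (M : Type) [TopologicalSpace M]
  [ChartedSpace (VS × (Fin n → ℂ)) M] [IsManifold 𝓘(ℂ, VS × (Fin n → ℂ)) ω M] (π : M → S)
  (Ψ : ι → S × (Fin (n + 1) → ℂ) → M) (σ : ι × Fin (n + 1) → M → Fin (n + 1) → ℂ),
  IsCocycle VS U Γ → PBD VS U Γ π Ψ σ → PBD1 VS U π Ψ σ

def St_PBC : Prop := ∀ (VS : Type) [NormedAddCommGroup VS] [NormedSpace ℂ VS] (S : Type)
  [TopologicalSpace S] [ChartedSpace VS S] [ConnectedSpace S] (ι : Type) (n : ℕ)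
  (U : ι → Set S) (Γ : ι → ι → S → Mt (n + 1)) (M : Type) [TopologicalSpace M]
  [ChartedSpace (VS × (Fin n → ℂ)) M] (π : M → S)
  (Ψ : ι → S × (Fin (n + 1) → ℂ) → M) (σ : ι × Fin (n + 1) → M → Fin (n + 1) → ℂ),
  IsCocycle VS U Γ → PBD VS U Γ π Ψ σ → ConnectedSpace M

/-- The pull-back of the Fubini-Study form. -/
def St_KAE : Prop := ∀ (V : Type) [NormedAddCommGroup V] [NormedSpace ℂ V] (M : Type)
  [TopologicalSpace M] [ChartedSpace V M] [IsManifold 𝓘(ℂ, V) ω M] (N : Type) [Fintype N]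
  (l : M → N → ℂ), (∀ m, ∃ F, Lift V l F m) →
  ∃ g : (x : M) → TangentSpace 𝓘(ℂ, V) x →ₗ⋆[ℂ] TangentSpace 𝓘(ℂ, V) x →ₗ[ℂ] ℂ, PreK g ∧
    ∀ (m : M) (u : V) F, Lift V l F m → (g m u u).re = 0 →
      ∃ a : ℂ, D 𝓘(ℂ, V) 𝓘(ℂ, N → ℂ) F m u = a • F m

def St_KM : Prop := ∀ (VS : Type) [NormedAddCommGroup VS] [NormedSpace ℂ VS] (S : Type)
  [TopologicalSpace S] [ChartedSpace VS S] [IsManifold 𝓘(ℂ, VS) ω S], FSData VS S →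
  (∃ g : (x : S) → TangentSpace 𝓘(ℂ, VS) x →ₗ⋆[ℂ] TangentSpace 𝓘(ℂ, VS) x →ₗ[ℂ] ℂ,
    IsKaehlerMetric g) ∧
  ∀ (ι : Type) (n : ℕ) (U : ι → Set S) (Γ : ι → ι → S → Mt (n + 1)) (N : Type) [Fintype N]
    (J : ι → S → Matrix N (Fin (n + 1)) ℂ) (K : ι → S → Matrix (Fin (n + 1)) N ℂ)
    (M : Type) [TopologicalSpace M] [ChartedSpace (VS × (Fin n → ℂ)) M]
    [IsManifold 𝓘(ℂ, VS × (Fin n → ℂ)) ω M] (π : M → S)
    (Ψ : ι → S × (Fin (n + 1) → ℂ) → M) (σ : ι × Fin (n + 1) → M → Fin (n + 1) → ℂ),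
    IsCocycle VS U Γ → Emb VS U Γ J K → PBD VS U Γ π Ψ σ → PBD1 VS U π Ψ σ →
    ∃ g : (x : M) → TangentSpace 𝓘(ℂ, VS × (Fin n → ℂ)) x →ₗ⋆[ℂ]
      TangentSpace 𝓘(ℂ, VS × (Fin n → ℂ)) x →ₗ[ℂ] ℂ, IsKaehlerMetric g

/-! ### From a flat geometry to a flat connection -/

def St_N1 : Prop := ∀ (EH : Type) [NormedAddCommGroup EH] [NormedSpace ℂ EH]
  [FiniteDimensional ℂ EH] (G : Type) [Group G] [TopologicalSpace G] [ChartedSpace (EH × VM) G]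
  (H : Subgroup G) [ChartedSpace EH H] [LieGroup 𝓘(ℂ, EH) ω H],
  (∀ A : EH, D 𝓘(ℂ, EH) 𝓘(ℂ, EH × VM) (Subtype.val : H → G) 1 A = (A, 0)) →
  (∀ (h : H) (X : EH × VM), X.2.1 = 0 → (Ad (EH × VM) ((h : G)⁻¹) X).2.1 = 0) →
  (∀ (h : H) (X : EH × VM), X.2.2 = 0 → (Ad (EH × VM) ((h : G)⁻¹) X).2.2 = 0) →
  (∀ X Y : EH × VM, X.2.2 = 0 → Y.2.2 = 0 → (lie G X Y).2.2 = 0) →
  ∀ (M : Type) [TopologicalSpace M] [ChartedSpace VM M] [IsManifold 𝓘(ℂ, VM) ω M],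
    HasGeometry (EH × VM) EH H VM M True → ∃ Hh Tt, Split VM M Hh Tt

/-- Homogeneous holomorphic functions off the origin. -/
def St_HOM : Prop := ∀ (F : Type) [NormedAddCommGroup F] [NormedSpace ℂ F] [CompleteSpace F]
  (f : E6 → F), (∀ v, v ≠ 0 → ContDiffAt ℂ ω f v) →
  ((∀ v, v ≠ 0 → ∀ c : ℂ, c ≠ 0 → f (c • v) = c⁻¹ • f v) → ∀ v, v ≠ 0 → f v = 0) ∧
  ((∀ v, v ≠ 0 → ∀ c : ℂ, c ≠ 0 → f (c • v) = f v) → ∃ k, ∀ v, v ≠ 0 → f v = k) ∧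
  ((∀ v, v ≠ 0 → ∀ c : ℂ, c ≠ 0 → f (c • v) = c • f v) → ∃ L : E6 →L[ℂ] F, ∀ v, v ≠ 0 → f v = L v)

/-- The contraction of the derivative of an antisymmetric array of functions. -/
def dv (Q : E6 → Fin 6 → Fin 6 → ℂ) (j : Fin 6) (v : E6) : ℂ :=
  ∑ k, fderiv ℂ (fun v' => Q v' k j) v (Pi.single k 1)

/-- The Koszul homotopy. -/
def St_KOS : Prop := ∀ (d : ℕ) (Q : E6 → Fin 6 → Fin 6 → ℂ),
  (∀ v, v ≠ 0 → ∀ i j, ContDiffAt ℂ ω (fun v' => Q v' i j) v) →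
  (∀ v, v ≠ 0 → ∀ c : ℂ, c ≠ 0 → ∀ i j, Q (c • v) i j = c ^ (d + 1) * Q v i j) →
  (∀ v, v ≠ 0 → ∃ h : E6, ∀ i j, Q v i j = v i * h j - v j * h i) →
  ∀ v, v ≠ 0 → (∀ i j, ((d : ℂ) + 5) * Q v i j = v i * dv Q j v - v j * dv Q i v) ∧
    (∀ j, ContDiffAt ℂ ω (dv Q j) v) ∧ (∀ c : ℂ, c ≠ 0 → ∀ j, dv Q j (c • v) = c ^ d * dv Q j v) ∧
    ∑ j, fderiv ℂ (dv Q j) v (Pi.single j 1) = 0

def St_RIG1 : Prop := ∀ Ω Hh Tt, RigData Ω Hh Tt → ∃ b Q, RigProj Ω Hh Tt b Q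

def St_RIG2 : Prop := ∀ Ω Hh Tt b Q, RigData Ω Hh Tt → RigProj Ω Hh Tt b Q →
  ∀ z ∈ Ω, ∀ v, v ≠ 0 → ∀ a, a ∈ Tt (z, v) ↔ a.1 = 0

def St_RIG3 : Prop := ∀ Ω Hh Tt b Q, RigData Ω Hh Tt → RigProj Ω Hh Tt b Q →
  (∀ z ∈ Ω, ∀ v, v ≠ 0 → ∀ a, a ∈ Tt (z, v) ↔ a.1 = 0) →
  ∃ A : BB → BB →L[ℂ] Mt 6, ∀ z ∈ Ω, ContDiffAt ℂ ω A z ∧ (∀ u, (A z u).trace = 0) ∧
    ∀ u v, v ≠ 0 → (u, -(A z u *ᵥ v)) ∈ Hh (z, v)

def St_RIG4 : Prop := ∀ Ω Hh Tt, RigData Ω Hh Tt →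
  (∀ z ∈ Ω, ∀ v, v ≠ 0 → ∀ ξ, (0, ξ) ∈ Hh (z, v) → ∃ c : ℂ, ξ = c • v) →
  ∀ A : BB → BB →L[ℂ] Mt 6, (∀ z ∈ Ω, ContDiffAt ℂ ω A z ∧ (∀ u, (A z u).trace = 0) ∧
    ∀ u v, v ≠ 0 → (u, -(A z u *ᵥ v)) ∈ Hh (z, v)) →
  ∀ z ∈ Ω, ∀ u u', fderiv ℂ A z u u' - fderiv ℂ A z u' u + (A z u * A z u' - A z u' * A z u) = 0

/-- The outcome of the rigidity argument. -/
def St_RIG : Prop := ∀ Ω Hh Tt, RigData Ω Hh Tt → ∃ A : BB → BB →L[ℂ] Mt 6, ∀ z ∈ Ω,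
  ContDiffAt ℂ ω A z ∧ (∀ u, (A z u).trace = 0) ∧
    (∀ u v, v ≠ 0 → (u, -(A z u *ᵥ v)) ∈ Hh (z, v)) ∧
    (∀ v, v ≠ 0 → ∀ ξ, (0, ξ) ∈ Hh (z, v) → ∃ c : ℂ, ξ = c • v) ∧
    ∀ u u', fderiv ℂ A z u u' - fderiv ℂ A z u' u + (A z u * A z u' - A z u' * A z u) = 0

theorem rig_of (h1 : St_RIG1) (h2 : St_RIG2) (h3 : St_RIG3) (h4 : St_RIG4) : St_RIG := by
  intro Ω Hh Tt hd
  obtain ⟨b, Q, hp⟩ := h1 Ω Hh Tt hd
  have hv := h2 Ω Hh Tt b Q hd hp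
  obtain ⟨A, hA⟩ := h3 Ω Hh Tt b Q hd hp hv
  have hu : ∀ z ∈ Ω, ∀ v, v ≠ 0 → ∀ ξ, (0, ξ) ∈ Hh (z, v) → ∃ c : ℂ, ξ = c • v := by
    intro z hz v hv0 ξ hξ
    obtain ⟨c, hc⟩ := (hp.inf z hz v hv0 (0, ξ)).1 ⟨hξ, (hv z hz v hv0 _).2 rfl⟩
    exact ⟨c, congrArg Prod.snd hc⟩
  exact ⟨A, fun z hz => ⟨(hA z hz).1, (hA z hz).2.1, (hA z hz).2.2, hu z hz,
    h4 Ω Hh Tt hd hu A hA z hz⟩⟩

/-- The horizontal lifts in each frame. -/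
def St_RW1 : Prop := ∀ (S : Type) [TopologicalSpace S] [ChartedSpace BB S]
  [IsManifold 𝓘(ℂ, BB) ω S] (ι : Type) (U : ι → Set S) (Γ : ι → ι → S → Mt 6) (M : Type)
  [TopologicalSpace M] [ChartedSpace VM M] [IsManifold 𝓘(ℂ, VM) ω M] (π : M → S)
  (Ψ : ι → S × E6 → M) (σ : ι × Fin 6 → M → E6) (Hh Tt : M → Submodule ℂ VM),
  IsCocycle BB U Γ → PBD (n := 5) BB U Γ π Ψ σ → PBD1 (n := 5) BB U π Ψ σ → Split VM M Hh Tt →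
  ∃ A : ι → S → BB →L[ℂ] Mt 6, ∀ c, ∀ p ∈ U c, HoloAt (A c) p ∧ (∀ u v, Curv (A c) p u v = 0) ∧
    (∀ u, (A c p u).trace = 0) ∧
    (∀ u v, v ≠ 0 → DΨ (n := 5) BB Ψ c (p, v) (u, -(A c p u *ᵥ v)) ∈ Hh (Ψ c (p, v))) ∧
    ∀ v, v ≠ 0 → ∀ ξ, DΨ (n := 5) BB Ψ c (p, v) (0, ξ) ∈ Hh (Ψ c (p, v)) → ∃ a : ℂ, ξ = a • v

/-- The lifts transform as a connection. -/
def St_RW2 : Prop := ∀ (S : Type) [TopologicalSpace S] [ChartedSpace BB S]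
  [IsManifold 𝓘(ℂ, BB) ω S] (ι : Type) (U : ι → Set S) (Γ : ι → ι → S → Mt 6) (M : Type)
  [TopologicalSpace M] [ChartedSpace VM M] [IsManifold 𝓘(ℂ, VM) ω M] (π : M → S)
  (Ψ : ι → S × E6 → M) (σ : ι × Fin 6 → M → E6) (Hh : M → Submodule ℂ VM)
  (A : ι → S → BB →L[ℂ] Mt 6), IsCocycle BB U Γ → (∀ c d, ∀ p ∈ U c ∩ U d, (Γ c d p).det = 1) →
  PBD (n := 5) BB U Γ π Ψ σ →
  (∀ c, ∀ p ∈ U c, (∀ u, (A c p u).trace = 0) ∧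
    (∀ u v, v ≠ 0 → DΨ (n := 5) BB Ψ c (p, v) (u, -(A c p u *ᵥ v)) ∈ Hh (Ψ c (p, v))) ∧
    ∀ v, v ≠ 0 → ∀ ξ, DΨ (n := 5) BB Ψ c (p, v) (0, ξ) ∈ Hh (Ψ c (p, v)) → ∃ a : ℂ, ξ = a • v) →
  ∀ c d, ∀ p ∈ U c ∩ U d, ∀ u,
    Γ c d p * A c p u = A d p u * Γ c d p + D 𝓘(ℂ, BB) 𝓘(ℂ, Mt 6) (Γ c d) p u

/-! ### The curve -/

/-- A chart of a plane curve. -/
def St_PC : Prop := ∀ (Q : ℂ × ℂ → ℂ) (Z : Set (ℂ × ℂ)) (l : ℂ × ℂ →L[ℂ] ℂ) (p₀ : Z),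
  ContDiff ℂ ω Q → (∀ p, p ∈ Z ↔ Q p = 0) → (∀ u, l u = 0 → fderiv ℂ Q p₀ u = 0 → u = 0) →
  ∃ e : OpenPartialHomeomorph Z ℂ, p₀ ∈ e.source ∧ (∀ p, e p = l p) ∧
    ∀ z ∈ e.target, ContDiffAt ℂ ω (fun z' => (e.symm z' : ℂ × ℂ)) z

def St_C0C : Prop := ConnectedSpace C0 ∧ NoncompactSpace C0

/-- The neighbourhood of the point at infinity. -/
def St_CINF : Prop := ∃ e : OpenPartialHomeomorph (OnePoint C0) C1,
  (∀ z, z ∈ e.source ↔ z = OnePoint.infty ∨ ∃ p : C0, z = p ∧ p.1.1 ≠ 0 ∧ p.1.2 ≠ 0) ∧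
  (∀ q, q ∈ e.target ↔ q.1.2 ≠ 0) ∧ (e OnePoint.infty).1 = (0, 1) ∧
  (∀ p : C0, p.1.1 ≠ 0 → p.1.2 ≠ 0 → (e p).1 = (p.1.1 ^ 2 / p.1.2, p.1.1 ^ 5 / p.1.2 ^ 2)) ∧
  ∀ q ∈ e.target, q.1.1 ≠ 0 →
    ∃ p : C0, e.symm q = p ∧ p.1 = (q.1.2 / q.1.1 ^ 2, q.1.2 ^ 2 / q.1.1 ^ 5)

def St_CUR : Prop := ∃ (X : Type) (_ : TopologicalSpace X) (_ : ChartedSpace ℂ X), Nonempty (CD X)

def St_FT : Prop := ∀ (X : Type) [TopologicalSpace X] [ChartedSpace ℂ X] (C : CD X), C.FT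

def St_ETA : Prop := ∀ (X : Type) [TopologicalSpace X] [ChartedSpace ℂ X] (C : CD X), C.Eta

/-- The cocycles. -/
def St_COC : Prop := ∀ (X : Type) [TopologicalSpace X] [ChartedSpace ℂ X] (C : CD X),
  IsCocycle ℂ C.U C.tr ∧ IsCocycle BB C.UU C.Γ6 ∧ IsCocycle BB C.UU C.Γ3 ∧
  (∀ a b c d P Q, cj (C.tr a b P) * C.tr c d Q = C.tr c d Q * cj (C.tr a b P)) ∧
  ∀ c d, ∀ p ∈ C.UU c ∩ C.UU d,
    ((C.Γ3 c d p).1.det = 1 ∧ (C.Γ3 c d p).2.1.det = 1 ∧ (C.Γ3 c d p).2.2.det = 1) ∧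
      (C.Γ3 c d p).1 1 0 = 0 ∧ (C.Γ3 c d p).2.1 1 0 = 0

def St_EMB : Prop := ∀ (X : Type) [TopologicalSpace X] [ChartedSpace ℂ X] (C : CD X),
  ∃ (J : Bool × Bool → SS X → Matrix ((Bool × Bool) × Fin 6) (Fin 6) ℂ)
    (K : Bool × Bool → SS X → Matrix (Fin 6) ((Bool × Bool) × Fin 6) ℂ),
    Emb (n := 5) BB C.UU C.Γ6 J K

def St_FSX : Prop := ∀ (X : Type) [TopologicalSpace X] [ChartedSpace ℂ X] (_ : CD X),
  FSData BB (SS X)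

/-- The connection on the curve. -/
def St_EX0 : Prop := ∀ (X : Type) [TopologicalSpace X] [ChartedSpace ℂ X] (C : CD X),
  IsConn C.U C.tr C.aY

/-- The connection on the rank six bundle. -/
def St_EX6 : Prop := ∀ (X : Type) [TopologicalSpace X] [ChartedSpace ℂ X] (C : CD X),
  IsConn C.UU C.Γ6 C.θ6

def St_EX1 : Prop := ∀ (X : Type) [TopologicalSpace X] [ChartedSpace ℂ X] (C : CD X),
  BaseData C.UU C.Γ3 C.θ3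

/-- Restriction of a form on the square to the two rulings. -/
def St_SLC : Prop := ∀ (X : Type) [TopologicalSpace X] [ChartedSpace ℂ X] [IsManifold 𝓘(ℂ, ℂ) ω X]
  (F : Type) [NormedAddCommGroup F] [NormedSpace ℂ F] (A : SS X → BB →L[ℂ] F) (P Q : X),
  HoloAt A (SS.mk P Q) → ∀ u v : ℂ,
    ContMDiffAt 𝓘(ℂ, ℂ) 𝓘(ℂ, F) ω (fun P' => A (SS.mk P' Q) (0, v)) P ∧
    ContMDiffAt 𝓘(ℂ, ℂ) 𝓘(ℂ, F) ω (fun Q' => A (SS.mk P Q') (u, 0)) Q ∧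
    dF A (SS.mk P Q) (u, 0) (0, v) =
      D 𝓘(ℂ, ℂ) 𝓘(ℂ, F) (fun P' => A (SS.mk P' Q) (0, v)) P u -
        D 𝓘(ℂ, ℂ) 𝓘(ℂ, F) (fun Q' => A (SS.mk P Q') (u, 0)) Q v

/-- Endomorphisms of the bundle on the curve. -/
def St_END : Prop := ∀ (X : Type) [TopologicalSpace X] [ChartedSpace ℂ X] (C : CD X)
  (T T' : X → Mt 6), (∀ P, P ≠ C.inf → ∀ i j, ContMDiffAt 𝓘(ℂ, ℂ) 𝓘(ℂ, ℂ) ω (fun Q => T Q i j) P) →
  (∀ i j, ContinuousAt (fun Q => T' Q i j) C.inf) →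
  (∀ P, P ≠ C.inf → P ∈ C.U1 → gY (C.x P) (C.y P) * T P = T' P * gY (C.x P) (C.y P)) →
  ∃ k₀ k₁ k₂ : ℂ, ∀ P, P ≠ C.inf → ∀ i,
    T P i 0 = ![k₀, 0, 0, 0, 0, 0] i ∧ T P i 1 = ![k₁, k₂, 0, 0, 0, 0] i

/-- No connection on the bundle on the curve preserves the first line. -/
def St_CON : Prop := ∀ (X : Type) [TopologicalSpace X] [ChartedSpace ℂ X] (C : CD X)
  (a : Bool → X → ℂ →L[ℂ] Mt 6), IsConn C.U C.tr a →
    ¬ ∀ P, P ≠ C.inf → ∀ i, i ≠ 0 → a false P 1 i 0 = 0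

/-- No connection on the rank six bundle is flat. -/
def St_ATI : Prop := ∀ (X : Type) [TopologicalSpace X] [ChartedSpace ℂ X] (C : CD X)
  (A : Bool × Bool → SS X → BB →L[ℂ] Mt 6), IsConn C.UU C.Γ6 A →
    ¬ ∀ c, ∀ p ∈ C.UU c, ∀ u v, Curv (A c) p u v = 0

end Pool.Agent.Lib.ATQ
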