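import Pool.Agent.Lib.ATQ.B_ETA
import Pool.Agent.Lib.ATQ.B_HOL

open scoped Manifold ContDiff Topology Matrix.Norms.Operator Matrix
open Set Filter

noncomputable section

namespace Pool.Agent.Lib.ATQ

open Pool.Agent.Lib.MP_ad9325_ag

namespace C29

/-- The common shape of the transition matrices. -/
def sh (a b c d e f : ℂ) : Mt 6 :=
  !![1, 0, 0, 0, a, b; 0, 1, 0, 0, 0, c; 0, 0, 1, 0, 0, 0; 0, 0, 0, 1, 0, 0;
    0, 0, 0, 0, d, e; 0, 0, 0, 0, 0, f]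

theorem sh_one : (1 : Mt 6) = sh 0 0 0 1 0 1 := by
  ext i j; fin_cases i <;> fin_cases j <;> rfl

theorem sh_mul (a b c d e f a' b' c' d' e' f' : ℂ) : sh a b c d e f * sh a' b' c' d' e' f' =
    sh (a' + a * d') (b' + a * e' + b * f') (c' + c * f') (d * d') (d * e' + e * f') (f * f') := by
  ext i j
  fin_cases i <;> fin_cases j <;> simp [sh, Matrix.mul_apply, Fin.sum_univ_succ, add_assoc]

theorem sh_comm (a b c d e f a' b' c' d' e' f' : ℂ) :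
    cj (sh a b c d e f) * sh a' b' c' d' e' f' = sh a' b' c' d' e' f' * cj (sh a b c d e f) := by
  ext i j
  fin_cases i <;> fin_cases j <;> simp [sh, cj, sw, Matrix.mul_apply, Fin.sum_univ_succ]

theorem blk_sh (a b c d e f : ℂ) : blk (sh a b c d e f) = !![d, e; 0, f] := by
  ext i j; fin_cases i <;> fin_cases j <;> rfl

theorem det_sh (a b c d e f : ℂ) : (sh a b c d e f).det = d * f := by
  rw [Matrix.det_of_isUpperTriangular]
  · simp [sh, Fin.prod_univ_succ]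
  · intro i j h
    fin_cases i <;> fin_cases j <;> first | rfl | exact absurd h (by decide)

theorem cm_sh {N : Type} [TopologicalSpace N] [ChartedSpace ℂ N] {a b c d e f : N → ℂ} {p : N}
    (ha : ContMDiffAt 𝓘(ℂ, ℂ) 𝓘(ℂ, ℂ) ω a p) (hb : ContMDiffAt 𝓘(ℂ, ℂ) 𝓘(ℂ, ℂ) ω b p)
    (hc : ContMDiffAt 𝓘(ℂ, ℂ) 𝓘(ℂ, ℂ) ω c p) (hd : ContMDiffAt 𝓘(ℂ, ℂ) 𝓘(ℂ, ℂ) ω d p)
    (he : ContMDiffAt 𝓘(ℂ, ℂ) 𝓘(ℂ, ℂ) ω e p) (hf : ContMDiffAt 𝓘(ℂ, ℂ) 𝓘(ℂ, ℂ) ω f p) :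
    ContMDiffAt 𝓘(ℂ, ℂ) 𝓘(ℂ, Mt 6) ω (fun q => sh (a q) (b q) (c q) (d q) (e q) (f q)) p := by
  refine cm_mat fun i j => ?_
  fin_cases i <;> fin_cases j <;>
    first | exact contMDiffAt_const | exact ha | exact hb | exact hc | exact hd | exact he | exact hf

variable {X : Type} [TopologicalSpace X] [ChartedSpace ℂ X] (C : CD X)

theorem tr_sh (a b : Bool) (P : X) : ∃ a' b' c' d' e' f', C.tr a b P = sh a' b' c' d' e' f' ∧
    (P ∈ C.U a ∩ C.U b → d' * f' = 1) := by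
  have h : P ≠ C.inf → P ∈ C.U1 → C.x P ^ 2 / C.y P * (C.y P / C.x P ^ 2) = 1 := fun h1 h2 => by
    obtain ⟨hx, hy⟩ := (C.ov P h1).1 h2
    field_simp
  cases a <;> cases b
  · exact ⟨_, _, _, _, _, _, sh_one, fun _ => mul_one _⟩
  · exact ⟨_, _, _, _, _, _, rfl, fun hp => h hp.1 hp.2⟩
  · exact ⟨_, _, _, _, _, _, rfl, fun hp => (mul_comm _ _).trans (h hp.2 hp.1)⟩
  · exact ⟨_, _, _, _, _, _, sh_one, fun _ => mul_one _⟩

theorem coc1 : IsCocycle ℂ C.U C.tr := by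
  have E := st_ETA st_HOL X C
  have i1 : ∀ P, P ≠ C.inf → P ∈ C.U1 → gYi (C.x P) (C.y P) * gY (C.x P) (C.y P) = 1 := by
    intro P h1 h2
    obtain ⟨hx, hy⟩ := (C.ov P h1).1 h2
    change sh _ _ _ _ _ _ * sh _ _ _ _ _ _ = _
    rw [sh_mul, sh_one]
    congr 1 <;> field_simp <;> ring
  refine ⟨E.opU, E.cover, fun a b P hp => ?_, fun a P _ => by cases a <;> rfl,
    fun a b c P hp => ?_⟩
  · cases a <;> cases b
    · exact contMDiffAt_const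
    · obtain ⟨hx, hy⟩ := (C.ov P hp.1).1 hp.2
      have x := C.hx P hp.1
      have y := C.hy P hp.1
      exact cm_sh (cm_div y (cm_pow x 2) (pow_ne_zero 2 hx)) contMDiffAt_const (cm_div y x hx)
        (cm_div (cm_pow x 2) y hy) x (cm_div y (cm_pow x 2) (pow_ne_zero 2 hx))
    · obtain ⟨hx, hy⟩ := (C.ov P hp.2).1 hp.1
      have x := C.hx P hp.2
      have y := C.hy P hp.2
      exact cm_sh (cm_div (cm_pow y 2) (cm_pow x 4) (pow_ne_zero 4 hx)).neg (cm_div y x hx) x.neg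
        (cm_div y (cm_pow x 2) (pow_ne_zero 2 hx)) x.neg (cm_div (cm_pow x 2) y hy)
    · exact contMDiffAt_const
  · cases a <;> cases b <;> cases c <;>
      first
      | exact mul_one _
      | exact one_mul _
      | exact i1 P hp.1.1 hp.1.2
      | exact mul_eq_one_comm.1 (i1 P hp.1.2 hp.1.1)

theorem comm (a b c d : Bool) (P Q : X) :
    cj (C.tr a b P) * C.tr c d Q = C.tr c d Q * cj (C.tr a b P) := by
  obtain ⟨_, _, _, _, _, _, h1, -⟩ := tr_sh C a b P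
  obtain ⟨_, _, _, _, _, _, h2, -⟩ := tr_sh C c d Q
  rw [h1, h2, sh_comm]

theorem blk_tr (a b c d : Bool) (P : X) :
    blk (C.tr a b P * C.tr c d P) = blk (C.tr a b P) * blk (C.tr c d P) := by
  obtain ⟨_, _, _, _, _, _, h1, -⟩ := tr_sh C a b P
  obtain ⟨_, _, _, _, _, _, h2, -⟩ := tr_sh C c d P
  rw [h1, h2, sh_mul, blk_sh, blk_sh, blk_sh]
  simp

theorem coc6 : IsCocycle BB C.UU C.Γ6 := by
  have h := coc1 C
  refine ⟨fun c => ((h.op c.1).preimage continuous_fst).inter ((h.op c.2).preimage continuous_snd),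
    fun p => ?_, fun c d p hp => ?_, fun c p hp => ?_, fun c d e p hp => ?_⟩
  · obtain ⟨a, ha⟩ := h.cover p.1
    obtain ⟨b, hb⟩ := h.cover p.2
    exact ⟨(a, b), ha, hb⟩
  · exact cm_mul ((cjL.contMDiff (n := ω) _).comp p
      ((h.holo _ _ _ ⟨hp.1.1, hp.2.1⟩).comp p (ss_fst p)))
      ((h.holo _ _ _ ⟨hp.1.2, hp.2.2⟩).comp p (ss_snd p))
  · rw [CD.Γ6, h.self _ _ hp.1, h.self _ _ hp.2, cj_one, one_mul]
  · rw [CD.Γ6, CD.Γ6, CD.Γ6, mul_assoc, ← mul_assoc (C.tr _ _ _), ← comm, mul_assoc, ← mul_assoc,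
      ← cj_mul, h.comp _ _ _ _ ⟨⟨hp.1.1.1, hp.1.2.1⟩, hp.2.1⟩,
      h.comp _ _ _ _ ⟨⟨hp.1.1.2, hp.1.2.2⟩, hp.2.2⟩]

end C29

open C29 in
theorem coc29 : St_COC := by
  intro X _ _ C
  have h := coc1 C
  have h6 := coc6 C
  have b1 : blk 1 = 1 := by rw [sh_one, blk_sh, Matrix.one_fin_two]
  refine ⟨h, h6, ⟨h6.op, h6.cover, fun c d p hp => ?_, fun c p hp => ?_, fun c d e p hp => ?_⟩,
    comm C, fun c d p hp => ?_⟩
  · exact ((blkL.contMDiff (n := ω) _).comp p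
      ((h.holo _ _ _ ⟨hp.1.1, hp.2.1⟩).comp p (ss_fst p))).prodMk_space
      (((blkL.contMDiff (n := ω) _).comp p
        ((h.holo _ _ _ ⟨hp.1.2, hp.2.2⟩).comp p (ss_snd p))).prodMk_space (h6.holo c d p hp))
  · rw [CD.Γ3, h.self _ _ hp.1, h.self _ _ hp.2, h6.self _ _ hp, b1]
    rfl
  · refine Prod.ext ?_ (Prod.ext ?_ (h6.comp c d e p hp))
    · exact (blk_tr C _ _ _ _ _).symm.trans
        (congrArg blk (h.comp _ _ _ _ ⟨⟨hp.1.1.1, hp.1.2.1⟩, hp.2.1⟩))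
    · exact (blk_tr C _ _ _ _ _).symm.trans
        (congrArg blk (h.comp _ _ _ _ ⟨⟨hp.1.1.2, hp.1.2.2⟩, hp.2.2⟩))
  · obtain ⟨_, _, _, _, _, _, h1, k1⟩ := tr_sh C c.1 d.1 p.1
    obtain ⟨_, _, _, _, _, _, h2, k2⟩ := tr_sh C c.2 d.2 p.2
    have k1 := k1 ⟨hp.1.1, hp.2.1⟩
    have k2 := k2 ⟨hp.1.2, hp.2.2⟩
    simp only [CD.Γ3, CD.Γ6, h1, h2, blk_sh, Matrix.det_mul, cj, Matrix.det_submatrix_equiv_self,
      det_sh, Matrix.det_fin_two_of, k1, k2]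
    simp

end Pool.Agent.Lib.ATQ
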