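import Pool.Agent.Lib.ATQ.SDefs
import Pool.Agent.Lib.MP_ad9325_ag.MatGroup
import Pool.Agent.Lib.MP_ad9325_ag.Local

open scoped Manifold ContDiff Topology Matrix.Norms.Operator Matrix
open Set Filter

set_option linter.unusedSectionVars false

noncomputable section

namespace Pool.Agent.Lib.ATQ

open Pool.Agent.Lib.MP_ad9325_ag

abbrev Mt (n : ℕ) := Matrix (Fin n) (Fin n) ℂ
/-- The topology of the operator norm (the usual one). -/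
@[reducible] def topM (m n : Type) [Fintype m] [Fintype n] : TopologicalSpace (Matrix m n ℂ) :=
  (Matrix.linftyOpNormedAddCommGroup :
    NormedAddCommGroup (Matrix m n ℂ)).toMetricSpace.toPseudoMetricSpace.toUniformSpace.toTopologicalSpace

scoped[Pool.Agent.Lib.ATQ] attribute [instance high] Pool.Agent.Lib.ATQ.topM

abbrev SLn (n : ℕ) := Matrix.SpecialLinearGroup (Fin n) ℂ
abbrev BB := ℂ × ℂ
abbrev E6 := Fin 6 → ℂ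
abbrev WW := BB × E6
abbrev VM := BB × (Fin 5 → ℂ)
abbrev R3 := Mt 2 × Mt 2 × Mt 6
abbrev G3 := SLn 2 × SLn 2 × SLn 6

/-- The entry functional. -/
def en {m n : Type} [Fintype m] [Fintype n] (i : m) (j : n) : Matrix m n ℂ →L[ℂ] ℂ :=
  LinearMap.toContinuousLinearMap (Matrix.entryLinearMap ℂ ℂ i j)

@[simp] theorem en_apply {m n : Type} [Fintype m] [Fintype n] (i : m) (j : n) (x : Matrix m n ℂ) :
    en i j x = x i j := rfl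

/-! ### The groups -/

/-- The stabiliser of the first coordinate line. -/
def par (n : ℕ) : Subgroup (SLn (n + 1)) where
  carrier := {g | ∀ i, i ≠ 0 → g.1 i 0 = 0}
  one_mem' := fun i hi => by simp [Matrix.one_apply_ne hi]
  mul_mem' := by
    intro a b ha hb i hi
    rw [Matrix.SpecialLinearGroup.coe_mul, Matrix.mul_apply]
    refine Finset.sum_eq_zero fun j _ => ?_
    by_cases hj : j = 0
    · rw [hj, ha i hi, zero_mul]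
    · rw [hb j hj, mul_zero]
  inv_mem' := by
    intro a ha i hi
    have h1 : (a⁻¹).1 * a.1 = 1 := by
      rw [← Matrix.SpecialLinearGroup.coe_mul, inv_mul_cancel]; rfl
    have h2 : ∀ k, (a⁻¹).1 k 0 * a.1 0 0 = (1 : Mt (n + 1)) k 0 := by
      intro k
      rw [← h1, Matrix.mul_apply, Finset.sum_eq_single 0]
      · intro j _ hj
        rw [ha j hj, mul_zero]
      · simp
    have h3 : a.1 0 0 ≠ 0 := right_ne_zero_of_mul_eq_one ((h2 0).trans (Matrix.one_apply_eq 0))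
    have h4 := h2 i
    rw [Matrix.one_apply_ne hi] at h4
    exact (mul_eq_zero.1 h4).resolve_right h3

/-- The parabolic subgroup. -/
def H3 : Subgroup G3 := (par 1).prod ((par 1).prod (par 5))

/-- The inclusion of `SL n` in the matrices. -/
def valS (n : ℕ) : SLn n →* Mt n := Matrix.SpecialLinearGroup.coeMonoidHom

/-- The inclusion of `G3` in `R3`. -/
def val3 : G3 →* R3 := (valS 2).prodMap ((valS 2).prodMap (valS 6))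

@[simp] theorem val3_apply (g : G3) : val3 g = (g.1.1, g.2.1.1, g.2.2.1) := rfl

/-- Coordinates on `SL (n+1)`: first row, lower block, first column. -/
def Ln (n : ℕ) : Mt (n + 1) →L[ℂ] ((Fin n → ℂ) × (Fin n → Fin n → ℂ)) × (Fin n → ℂ) :=
  ((ContinuousLinearMap.pi fun j => en 0 j.succ).prod
    (ContinuousLinearMap.pi fun i => ContinuousLinearMap.pi fun j => en i.succ j.succ)).prod
    (ContinuousLinearMap.pi fun i => en i.succ 0)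

theorem Ln_apply (n : ℕ) (x : Mt (n + 1)) :
    Ln n x = ((fun j => x 0 j.succ, fun i j => x i.succ j.succ), fun i => x i.succ 0) := rfl

/-- The lower entries of the first columns. -/
def Pc (x : R3) : VM := ((x.1 1 0, x.2.1 1 0), fun k => x.2.2 k.succ 0)

/-- All three traces vanish. -/
def TrFree (x : R3) : Prop := x.1.trace = 0 ∧ x.2.1.trace = 0 ∧ x.2.2.trace = 0

/-- A matrix group `G` with a subgroup `H`, in adapted coordinates. -/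
structure Pack (EH F : Type) [NormedAddCommGroup EH] [NormedSpace ℂ EH]
    [NormedAddCommGroup F] [NormedSpace ℂ F]
    {G : Type} [Group G] [TopologicalSpace G] [ChartedSpace (EH × F) G]
    (H : Subgroup G) [ChartedSpace EH H] {R : Type} [NormedRing R] [NormedAlgebra ℂ R]
    (val : G →* R) (L : R →L[ℂ] EH × F) : Prop where
  model : IsModel (EH × F) EH H
  hval : ContMDiff 𝓘(ℂ, EH × F) 𝓘(ℂ, R) ω val
  inj : Function.Injective val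
  Ld : ∀ X, L (dval (EH × F) val X) = X
  incl : ∀ A : EH, D 𝓘(ℂ, EH) 𝓘(ℂ, EH × F) (Subtype.val : H → G) 1 A = (A, 0)
  mem : ∀ g, g ∈ H ↔ (L (val g)).2 = 0
  lift : ∀ (E' : Type) [NormedAddCommGroup E'] [NormedSpace ℂ E'] (H' : Type) [TopologicalSpace H']
    (I : ModelWithCorners ℂ E' H') (N : Type) [TopologicalSpace N] [ChartedSpace H' N]
    (f : N → H) (x : N), ContMDiffAt I 𝓘(ℂ, R) ω (fun y => val (f y)) x →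
      ContMDiffAt I 𝓘(ℂ, EH) ω f x

/-! ### Forms and vector fields -/

/-- A vector field holomorphic near `e`. -/
def VF (V : Type) [NormedAddCommGroup V] [NormedSpace ℂ V] {N : Type} [TopologicalSpace N]
    [ChartedSpace V N] [IsManifold 𝓘(ℂ, V) ω N] (X : (e : N) → TangentSpace 𝓘(ℂ, V) e) (e : N) :
    Prop :=
  ContMDiffAt 𝓘(ℂ, V) 𝓘(ℂ, V).tangent ω (fun y => (⟨y, X y⟩ : TangentBundle 𝓘(ℂ, V) N)) e

/-- The pull-back of a form. -/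
def pull {V V' : Type} [NormedAddCommGroup V] [NormedSpace ℂ V] [NormedAddCommGroup V']
    [NormedSpace ℂ V'] {N N' : Type} [TopologicalSpace N] [ChartedSpace V N] [TopologicalSpace N']
    [ChartedSpace V' N'] {F : Type} [NormedAddCommGroup F] [NormedSpace ℂ F]
    (f : N' → N) (θ : N → V →L[ℂ] F) (p : N') : V' →L[ℂ] F :=
  (θ (f p)).comp (D 𝓘(ℂ, V') 𝓘(ℂ, V) f p)

/-- The gauge transform `k⁻¹ θ k + k⁻¹ dk`, with `ki` the inverse of `k`. -/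
def gau {V : Type} [NormedAddCommGroup V] [NormedSpace ℂ V] {N : Type} [TopologicalSpace N]
    [ChartedSpace V N] {R : Type} [NormedRing R] [NormedAlgebra ℂ R] (k ki : N → R)
    (θ : N → V →L[ℂ] R) (p : N) : V →L[ℂ] R :=
  (ContinuousLinearMap.mulLeftRight ℂ R (ki p) (k p)).comp (θ p) +
    (ContinuousLinearMap.mul ℂ R (ki p)).comp (D 𝓘(ℂ, V) 𝓘(ℂ, R) k p)

theorem gau_apply {V : Type} [NormedAddCommGroup V] [NormedSpace ℂ V] {N : Type}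
    [TopologicalSpace N] [ChartedSpace V N] {R : Type} [NormedRing R] [NormedAlgebra ℂ R]
    (k ki : N → R) (θ : N → V →L[ℂ] R) (p : N) (u : V) :
    gau k ki θ p u = ki p * θ p u * k p + ki p * D 𝓘(ℂ, V) 𝓘(ℂ, R) k p u := rfl

/-! ### Kaehler metrics from maps to projective space -/

section Kae

variable (V : Type) [NormedAddCommGroup V] [NormedSpace ℂ V] {M : Type} [TopologicalSpace M]
  [ChartedSpace V M] {N : Type} [Fintype N]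

/-- `F` is a holomorphic lift near `m` of the field of lines spanned by `l`. -/
def Lift (l F : M → N → ℂ) (m : M) : Prop :=
  ContMDiffAt 𝓘(ℂ, V) 𝓘(ℂ, N → ℂ) ω F m ∧
    ∀ᶠ m' in 𝓝 m, F m' ≠ 0 ∧ ∃ a : ℂ, a ≠ 0 ∧ l m' = a • F m'

variable {V} in
/-- A smooth closed semipositive Hermitian form. -/
structure PreK (g : (x : M) → TangentSpace 𝓘(ℂ, V) x →ₗ⋆[ℂ] TangentSpace 𝓘(ℂ, V) x →ₗ[ℂ] ℂ) :
    Prop where
  herm : ∀ x u v, g x u v = starRingEnd ℂ (g x v u)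
  nonneg : ∀ x u, 0 ≤ (g x u u).re
  smooth : ∀ p u v, ContDiffOn ℝ ∞ (inChart g p u v) (chartAt V p).target
  closed : ∀ p, ∀ y ∈ (chartAt V p).target, ∀ u v w : V,
    fderiv ℝ (fun z => (inChart g p v w z).im) y u + fderiv ℝ (fun z => (inChart g p w u z).im) y v
      + fderiv ℝ (fun z => (inChart g p u v z).im) y w = 0

variable (M) in
/-- Two holomorphic maps to projective 3-space that together give an immersion. -/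
def FSData : Prop := ∃ l₁ l₂ : M → Fin 4 → ℂ, ∀ p, ∃ F₁ F₂, Lift V l₁ F₁ p ∧ Lift V l₂ F₂ p ∧
  ∀ u : V, (∃ a : ℂ, D 𝓘(ℂ, V) 𝓘(ℂ, Fin 4 → ℂ) F₁ p u = a • F₁ p) →
    (∃ a : ℂ, D 𝓘(ℂ, V) 𝓘(ℂ, Fin 4 → ℂ) F₂ p u = a • F₂ p) → u = 0

end Kae

/-! ### Projective bundles -/

section PB

variable (VS : Type) [NormedAddCommGroup VS] [NormedSpace ℂ VS] {S : Type} [TopologicalSpace S]
  [ChartedSpace VS S] {ι : Type} {n : ℕ}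

/-- Twisted frames: the bundle with transition functions `Γ` sits in a trivial bundle. -/
structure Emb (U : ι → Set S) (Γ : ι → ι → S → Mt (n + 1)) {N : Type} [Fintype N]
    (J : ι → S → Matrix N (Fin (n + 1)) ℂ) (K : ι → S → Matrix (Fin (n + 1)) N ℂ) : Prop where
  hJ : ∀ c, ∀ p ∈ U c, ∀ i j, ContMDiffAt 𝓘(ℂ, VS) 𝓘(ℂ, ℂ) ω (fun q => J c q i j) p
  hK : ∀ c, ∀ p ∈ U c, ∀ i j, ContMDiffAt 𝓘(ℂ, VS) 𝓘(ℂ, ℂ) ω (fun q => K c q i j) p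
  inv : ∀ c, ∀ p ∈ U c, K c p * J c p = 1
  tr : ∀ c d, ∀ p ∈ U c ∩ U d, ∃ a : ℂ, a ≠ 0 ∧ J d p * Γ c d p = a • J c p

variable {M : Type} [TopologicalSpace M] [ChartedSpace (VS × (Fin n → ℂ)) M]

/-- The chart domain `v i ≠ 0` over `U c`. -/
def Oc (U : ι → Set S) (π : M → S) (Ψ : ι → S × (Fin (n + 1) → ℂ) → M) (a : ι × Fin (n + 1)) :
    Set M := {m | π m ∈ U a.1 ∧ ∃ v, v a.2 ≠ 0 ∧ Ψ a.1 (π m, v) = m}

/-- `π : M → S` is the projective bundle of `Γ`; `Ψ c (p, v)` is the line of `v` in frame `c`. -/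
structure PBD (U : ι → Set S) (Γ : ι → ι → S → Mt (n + 1)) (π : M → S)
    (Ψ : ι → S × (Fin (n + 1) → ℂ) → M) (σ : ι × Fin (n + 1) → M → Fin (n + 1) → ℂ) : Prop where
  hπ : ContMDiff 𝓘(ℂ, VS × (Fin n → ℂ)) 𝓘(ℂ, VS) ω π
  hΨ : ∀ c, ∀ p ∈ U c, ∀ v, v ≠ 0 → ContMDiffAt (𝓘(ℂ, VS).prod 𝓘(ℂ, Fin (n + 1) → ℂ))
    𝓘(ℂ, VS × (Fin n → ℂ)) ω (Ψ c) (p, v)
  proj : ∀ c, ∀ p ∈ U c, ∀ v, v ≠ 0 → π (Ψ c (p, v)) = p
  eqv : ∀ c, ∀ p ∈ U c, ∀ v v', v ≠ 0 → v' ≠ 0 → (Ψ c (p, v) = Ψ c (p, v') ↔ ∃ a : ℂ, v' = a • v)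
  tr : ∀ c d, ∀ p ∈ U c ∩ U d, ∀ v, v ≠ 0 → Ψ d (p, Γ c d p *ᵥ v) = Ψ c (p, v)
  surj : ∀ c m, π m ∈ U c → ∃ v, v ≠ 0 ∧ Ψ c (π m, v) = m
  op : ∀ a, IsOpen (Oc U π Ψ a)
  sec : ∀ c i, ∀ p ∈ U c, ∀ v, v i ≠ 0 → σ (c, i) (Ψ c (p, v)) = (v i)⁻¹ • v
  hσ : ∀ a, ∀ m ∈ Oc U π Ψ a,
    ContMDiffAt 𝓘(ℂ, VS × (Fin n → ℂ)) 𝓘(ℂ, Fin (n + 1) → ℂ) ω (σ a) m

/-- The differential of `Ψ c`. -/
abbrev DΨ (Ψ : ι → S × (Fin (n + 1) → ℂ) → M) (c : ι) (w : S × (Fin (n + 1) → ℂ)) :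
    VS × (Fin (n + 1) → ℂ) →L[ℂ] VS × (Fin n → ℂ) :=
  D (𝓘(ℂ, VS).prod 𝓘(ℂ, Fin (n + 1) → ℂ)) 𝓘(ℂ, VS × (Fin n → ℂ)) (Ψ c) w

/-- First order consequences of `PBD`. -/
structure PBD1 (U : ι → Set S) (π : M → S)
    (Ψ : ι → S × (Fin (n + 1) → ℂ) → M) (σ : ι × Fin (n + 1) → M → Fin (n + 1) → ℂ) : Prop where
  cover : ∀ m c, π m ∈ U c → ∃ i, m ∈ Oc U π Ψ (c, i)
  one : ∀ a, ∀ m ∈ Oc U π Ψ a, σ a m a.2 = 1
  back : ∀ a, ∀ m ∈ Oc U π Ψ a, Ψ a.1 (π m, σ a m) = m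
  dback : ∀ a, ∀ m ∈ Oc U π Ψ a, ∀ x, DΨ VS Ψ a.1 (π m, σ a m)
    (D 𝓘(ℂ, VS × (Fin n → ℂ)) 𝓘(ℂ, VS) π m x,
      D 𝓘(ℂ, VS × (Fin n → ℂ)) 𝓘(ℂ, Fin (n + 1) → ℂ) (σ a) m x) = x
  dsurj : ∀ c, ∀ p ∈ U c, ∀ v, v ≠ 0 → Function.Surjective (DΨ VS Ψ c (p, v))
  dker : ∀ c, ∀ p ∈ U c, ∀ v, v ≠ 0 → ∀ u ξ,
    (DΨ VS Ψ c (p, v) (u, ξ) = 0 ↔ u = 0 ∧ ∃ a : ℂ, ξ = a • v)
  dhom : ∀ c, ∀ p ∈ U c, ∀ v, v ≠ 0 → ∀ a : ℂ, a ≠ 0 → ∀ u ξ,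
    DΨ VS Ψ c (p, a • v) (u, a • ξ) = DΨ VS Ψ c (p, v) (u, ξ)

end PB

/-! ### Rigidity data -/

/-- Two homogeneous fields of subspaces on `Ω × (ℂ⁶ ∖ 0)`, cut out by holomorphic forms. -/
structure RigData (Ω : Set BB) (Hh Tt : WW → Submodule ℂ WW) : Prop where
  op : IsOpen Ω
  homH : ∀ z ∈ Ω, ∀ v, v ≠ 0 → ∀ c : ℂ, c ≠ 0 → ∀ u ξ, (u, ξ) ∈ Hh (z, v) → (u, c • ξ) ∈ Hh (z, c • v)
  homT : ∀ z ∈ Ω, ∀ v, v ≠ 0 → ∀ c : ℂ, c ≠ 0 → ∀ u ξ, (u, ξ) ∈ Tt (z, v) → (u, c • ξ) ∈ Tt (z, c • v)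
  loc : ∀ z ∈ Ω, ∀ v, v ≠ 0 → ∃ (α : WW → WW →L[ℂ] BB) (β : WW → WW →L[ℂ] (Fin 5 → ℂ)),
    ContDiffAt ℂ ω α (z, v) ∧ ContDiffAt ℂ ω β (z, v) ∧ ∀ᶠ w in 𝓝 ((z, v) : WW),
      (∀ a, a ∈ Hh w ↔ β w a = 0) ∧ (∀ a, a ∈ Tt w ↔ α w a = 0) ∧
      Function.Surjective (fun a => (α w a, β w a)) ∧
      (∀ a, (α w a = 0 ∧ β w a = 0) ↔ ∃ c : ℂ, a = (0, c • w.2)) ∧
      ∀ a b, β w a = 0 → β w b = 0 → fderiv ℂ β w a b = fderiv ℂ β w b a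

/-- The components of the projection to `Hh` along `Tt`. -/
structure RigProj (Ω : Set BB) (Hh Tt : WW → Submodule ℂ WW) (b : WW → WW → BB)
    (Q : WW → WW → Fin 6 → Fin 6 → ℂ) : Prop where
  hb : ∀ z ∈ Ω, ∀ v, v ≠ 0 → ∀ a, ContDiffAt ℂ ω (fun w => b w a) (z, v)
  hQ : ∀ z ∈ Ω, ∀ v, v ≠ 0 → ∀ a i j, ContDiffAt ℂ ω (fun w => Q w a i j) (z, v)
  ex : ∀ z ∈ Ω, ∀ v, v ≠ 0 → ∀ a, ∃ h ∈ Hh (z, v), a - h ∈ Tt (z, v)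
  val : ∀ z ∈ Ω, ∀ v, v ≠ 0 → ∀ a, ∀ h ∈ Hh (z, v), a - h ∈ Tt (z, v) →
    b (z, v) a = h.1 ∧ ∀ i j, Q (z, v) a i j = v i * h.2 j - v j * h.2 i
  inf : ∀ z ∈ Ω, ∀ v, v ≠ 0 → ∀ a, (a ∈ Hh (z, v) ∧ a ∈ Tt (z, v)) ↔ ∃ c : ℂ, a = (0, c • v)
  dimH : ∀ z ∈ Ω, ∀ v, v ≠ 0 → Module.finrank ℂ (Hh (z, v)) = 3
  dimT : ∀ z ∈ Ω, ∀ v, v ≠ 0 → Module.finrank ℂ (Tt (z, v)) = 6

/-- The splitting of the tangent bundle defined by a flat geometry. -/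
def Split (V : Type) [NormedAddCommGroup V] [NormedSpace ℂ V] (M : Type) [TopologicalSpace M]
    [ChartedSpace V M] (Hh Tt : M → Submodule ℂ V) : Prop :=
  ∀ (Ψ : WW → M) (w₀ : WW), ContMDiffAt 𝓘(ℂ, WW) 𝓘(ℂ, V) ω Ψ w₀ →
    ∃ (α : WW → WW →L[ℂ] BB) (β : WW → WW →L[ℂ] (Fin 5 → ℂ)),
      ContDiffAt ℂ ω α w₀ ∧ ContDiffAt ℂ ω β w₀ ∧ ∀ᶠ w in 𝓝 w₀,
        (∃ c : V ≃ₗ[ℂ] VM, (∀ a, c (D 𝓘(ℂ, WW) 𝓘(ℂ, V) Ψ w a) = (α w a, β w a)) ∧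
          (∀ x, x ∈ Hh (Ψ w) ↔ (c x).2 = 0) ∧ ∀ x, x ∈ Tt (Ψ w) ↔ (c x).1 = 0) ∧
        ∀ a b, β w a = 0 → β w b = 0 → fderiv ℂ β w a b = fderiv ℂ β w b a

/-! ### The curve -/

/-- The affine curve. -/
abbrev C0 := {p : ℂ × ℂ // p.2 ^ 2 = p.1 ^ 5 + 1}

/-- The second affine model, coordinates `t = x²/y`, `ξ = x⁵/y²`. -/
abbrev C1 := {q : ℂ × ℂ // q.2 ^ 4 = q.2 ^ 5 + q.1 ^ 10}

/-- The compact Riemann surface of `y² = x⁵ + 1`. -/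
structure CD (X : Type) [TopologicalSpace X] [ChartedSpace ℂ X] where
  inf : X
  x : X → ℂ
  y : X → ℂ
  t : X → ℂ
  ξ : X → ℂ
  U1 : Set X
  pt : ℂ × ℂ → X
  mfd : IsManifold 𝓘(ℂ, ℂ) ω X
  t2 : T2Space X
  cpt : CompactSpace X
  conn : ConnectedSpace X
  op : IsOpen U1
  inf_mem : inf ∈ U1
  hx : ∀ P, P ≠ inf → ContMDiffAt 𝓘(ℂ, ℂ) 𝓘(ℂ, ℂ) ω x P
  hy : ∀ P, P ≠ inf → ContMDiffAt 𝓘(ℂ, ℂ) 𝓘(ℂ, ℂ) ω y P
  ht : ∀ P ∈ U1, ContMDiffAt 𝓘(ℂ, ℂ) 𝓘(ℂ, ℂ) ω t P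
  hξ : ∀ P ∈ U1, ContMDiffAt 𝓘(ℂ, ℂ) 𝓘(ℂ, ℂ) ω ξ P
  eq0 : ∀ P, P ≠ inf → y P ^ 2 = x P ^ 5 + 1
  ov : ∀ P, P ≠ inf → (P ∈ U1 ↔ x P ≠ 0 ∧ y P ≠ 0)
  tx : ∀ P, P ≠ inf → P ∈ U1 → t P = x P ^ 2 / y P ∧ ξ P = x P ^ 5 / y P ^ 2
  t_inf : t inf = 0
  ξ_inf : ξ inf = 1
  imm0 : ∀ P, P ≠ inf → D 𝓘(ℂ, ℂ) 𝓘(ℂ, ℂ) x P 1 = 0 → D 𝓘(ℂ, ℂ) 𝓘(ℂ, ℂ) y P 1 = 0 → False
  imm1 : D 𝓘(ℂ, ℂ) 𝓘(ℂ, ℂ) t inf 1 ≠ 0
  pt_spec : ∀ a b, b ^ 2 = a ^ 5 + 1 → pt (a, b) ≠ inf ∧ x (pt (a, b)) = a ∧ y (pt (a, b)) = b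
  pt_xy : ∀ P, P ≠ inf → pt (x P, y P) = P
  pt_holo : ∀ (γ : ℂ → ℂ × ℂ) (z : ℂ), ContDiffAt ℂ ω γ z →
    (∀ᶠ z' in 𝓝 z, (γ z').2 ^ 2 = (γ z').1 ^ 5 + 1) →
    ContMDiffAt 𝓘(ℂ, ℂ) 𝓘(ℂ, ℂ) ω (fun z' => pt (γ z')) z
  pt_inf : ∀ O ∈ 𝓝 inf, ∃ r : ℝ, ∀ a b, b ^ 2 = a ^ 5 + 1 → r ≤ ‖a‖ → pt (a, b) ∈ O

/-- The square of a curve, charted on `ℂ × ℂ`. -/
def SS (X : Type) : Type := X × X

instance {X : Type} [TopologicalSpace X] : TopologicalSpace (SS X) :=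
  inferInstanceAs (TopologicalSpace (X × X))

instance {X : Type} [TopologicalSpace X] [ChartedSpace ℂ X] : ChartedSpace BB (SS X) :=
  prodChartedSpace ℂ X ℂ X

/-- A point of the square. -/
def SS.mk {X : Type} (P Q : X) : SS X := (P, Q)

/-- The transition matrix on the coordinates `(a1, a2, pY, qY)`. -/
def gY (x y : ℂ) : Mt 6 :=
  !![1, 0, 0, 0, y / x ^ 2, 0; 0, 1, 0, 0, 0, y / x; 0, 0, 1, 0, 0, 0; 0, 0, 0, 1, 0, 0;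
    0, 0, 0, 0, x ^ 2 / y, x; 0, 0, 0, 0, 0, y / x ^ 2]

/-- Its inverse. -/
def gYi (x y : ℂ) : Mt 6 :=
  !![1, 0, 0, 0, -(y ^ 2 / x ^ 4), y / x; 0, 1, 0, 0, 0, -x; 0, 0, 1, 0, 0, 0; 0, 0, 0, 1, 0, 0;
    0, 0, 0, 0, y / x ^ 2, -x; 0, 0, 0, 0, 0, x ^ 2 / y]

/-- The block on `(pY, qY)`. -/
def blk (A : Mt 6) : Mt 2 := A.submatrix ![4, 5] ![4, 5]

/-- The exchange of the two factors. -/
def sw : Equiv.Perm (Fin 6) :=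
  ⟨![1, 0, 4, 5, 2, 3], ![1, 0, 4, 5, 2, 3], by decide, by decide⟩

/-- Conjugation by the exchange. -/
def cj (A : Mt 6) : Mt 6 := A.submatrix sw sw

/-- Conjugation by the exchange as a continuous linear map. -/
def cjL : Mt 6 →L[ℂ] Mt 6 :=
  LinearMap.toContinuousLinearMap
    { toFun := cj, map_add' := fun _ _ => rfl, map_smul' := fun _ _ => rfl }

/-- The block as a continuous linear map. -/
def blkL : Mt 6 →L[ℂ] Mt 2 :=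
  LinearMap.toContinuousLinearMap
    { toFun := blk, map_add' := fun _ _ => rfl, map_smul' := fun _ _ => rfl }

/-- The connection matrix on the affine part. -/
def A0 (x y : ℂ) : Mt 6 :=
  !![0, 0, 0, 0, x ^ 2 / 2, -(x * y); -(x / 2), 0, 0, 0, 0, 3 * x ^ 3 / 2; 0, 0, 0, 0, 0, 0;
    0, 0, 0, 0, 0, 0; 0, 0, 0, 0, 0, x ^ 3; 0, 0, 0, 0, -(1 / 2), 0]

/-- The connection matrix near infinity. -/
def A1 (t ξ : ℂ) : Mt 6 :=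
  !![0, 0, 0, 0, 2 * t ^ 7 / ξ ^ 3, -(2 * t ^ 6 / ξ ^ 2); -(ξ / 2), 0, 0, 0, 0, t ^ 7 / ξ ^ 2;
    0, 0, 0, 0, 0, 0; 0, 0, 0, 0, 0, 0; 0, 0, 0, 0, 0, 3 * t ^ 8 / (2 * ξ ^ 2);
    0, 0, 0, 0, -(1 / 2), 0]

/-- The degrees. -/
def dg : Mt 6 := Matrix.diagonal ![0, 0, 0, 0, 1, -1]

namespace CD

variable {X : Type} [TopologicalSpace X] [ChartedSpace ℂ X] (C : CD X)

/-- The cover. -/
def U : Bool → Set X
  | false => {C.inf}ᶜ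
  | true => C.U1

/-- The transition functions on the curve. -/
def tr : Bool → Bool → X → Mt 6
  | false, true => fun P => gY (C.x P) (C.y P)
  | true, false => fun P => gYi (C.x P) (C.y P)
  | false, false => fun _ => 1
  | true, true => fun _ => 1

/-- The form `dx / y` in the two frames. -/
def η : Bool → X → ℂ →L[ℂ] ℂ
  | false => fun P => C.y P • D 𝓘(ℂ, ℂ) 𝓘(ℂ, ℂ) C.x P - (2 / 5 * C.x P) • D 𝓘(ℂ, ℂ) 𝓘(ℂ, ℂ) C.y P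
  | true => fun P => (C.t P / C.ξ P ^ 2) • D 𝓘(ℂ, ℂ) 𝓘(ℂ, ℂ) C.ξ P -
      (2 / C.ξ P) • D 𝓘(ℂ, ℂ) 𝓘(ℂ, ℂ) C.t P

/-- The section `x` of degree two in the two frames. -/
def xs : Bool → X → ℂ
  | false => C.x
  | true => C.ξ

/-- The connection on the curve. -/
def aY : Bool → X → ℂ →L[ℂ] Mt 6
  | false => fun P => (C.η false P).smulRight (A0 (C.x P) (C.y P))
  | true => fun P => (C.η true P).smulRight (A1 (C.t P) (C.ξ P)) -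
      ((2 * C.ξ P)⁻¹ • D 𝓘(ℂ, ℂ) 𝓘(ℂ, ℂ) C.ξ P).smulRight dg

/-- The cover of the square. -/
def UU (c : Bool × Bool) : Set (SS X) := {p | p.1 ∈ C.U c.1 ∧ p.2 ∈ C.U c.2}

/-- The transition functions of the rank six bundle. -/
def Γ6 (c d : Bool × Bool) (p : SS X) : Mt 6 := cj (C.tr c.1 d.1 p.1) * C.tr c.2 d.2 p.2

/-- The transition functions of the principal bundle. -/
def Γ3 (c d : Bool × Bool) (p : SS X) : R3 :=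
  (blk (C.tr c.1 d.1 p.1), blk (C.tr c.2 d.2 p.2), C.Γ6 c d p)

/-- The part of the connection along the factor of `Q`. -/
def aZ (a b : Bool) (P Q : X) : ℂ →L[ℂ] Mt 6 :=
  C.aY b Q + (C.η b Q).smulRight ((-(C.xs b Q / 2) * C.xs a P) • (Matrix.single 2 3 1 : Mt 6))

/-- The connection on the rank six bundle. -/
def θ6 (c : Bool × Bool) (p : SS X) : BB →L[ℂ] Mt 6 :=
  (cjL.comp (C.aZ c.2 c.1 p.2 p.1)).comp (ContinuousLinearMap.fst ℂ ℂ ℂ) +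
    (C.aZ c.1 c.2 p.1 p.2).comp (ContinuousLinearMap.snd ℂ ℂ ℂ)

/-- The connection on the principal bundle. -/
def θ3 (c : Bool × Bool) (p : SS X) : BB →L[ℂ] R3 :=
  ((blkL.comp (C.aY c.1 p.1)).comp (ContinuousLinearMap.fst ℂ ℂ ℂ)).prod
    (((blkL.comp (C.aY c.2 p.2)).comp (ContinuousLinearMap.snd ℂ ℂ ℂ)).prod (C.θ6 c p))

/-- Derived facts on the curve. -/
structure Eta : Prop where
  opU : ∀ a, IsOpen (C.U a)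
  cover : ∀ P, ∃ a, P ∈ C.U a
  nebot : (𝓝[≠] C.inf).NeBot
  ξ_ne : ∀ P ∈ C.U1, C.ξ P ≠ 0
  eq1 : ∀ P ∈ C.U1, C.ξ P ^ 4 = C.ξ P ^ 5 + C.t P ^ 10
  holo : ∀ a, ∀ P ∈ C.U a, HoloAt (C.η a) P
  ne : ∀ a, ∀ P ∈ C.U a, C.η a P 1 ≠ 0
  dx : ∀ P, P ≠ C.inf → ∀ u, D 𝓘(ℂ, ℂ) 𝓘(ℂ, ℂ) C.x P u = C.y P * C.η false P u
  dy : ∀ P, P ≠ C.inf → ∀ u, D 𝓘(ℂ, ℂ) 𝓘(ℂ, ℂ) C.y P u = 5 / 2 * C.x P ^ 4 * C.η false P u
  dt : ∀ P, P ≠ C.inf → P ∈ C.U1 → ∀ u, D 𝓘(ℂ, ℂ) 𝓘(ℂ, ℂ) C.t P u =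
    (2 * C.x P - 5 / 2 * C.x P ^ 6 / C.y P ^ 2) * C.η false P u
  dξ : ∀ P, P ≠ C.inf → P ∈ C.U1 → ∀ u, D 𝓘(ℂ, ℂ) 𝓘(ℂ, ℂ) C.ξ P u =
    5 * C.x P ^ 4 / C.y P ^ 3 * C.η false P u
  ov : ∀ P, P ≠ C.inf → P ∈ C.U1 → ∀ u, C.t P ^ 2 * C.η true P u = C.η false P u

/-- Function theory on the curve. -/
structure FT : Prop where
  neg : ∀ u u' : X → ℂ, (∀ P, P ≠ C.inf → ContMDiffAt 𝓘(ℂ, ℂ) 𝓘(ℂ, ℂ) ω u P) →
    ContinuousAt u' C.inf → (∀ P, P ≠ C.inf → P ∈ C.U1 → u P = C.t P * u' P) →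
    ∀ P, P ≠ C.inf → u P = 0
  one : ∀ u u' : X → ℂ, (∀ P, P ≠ C.inf → ContMDiffAt 𝓘(ℂ, ℂ) 𝓘(ℂ, ℂ) ω u P) →
    ContinuousAt u' C.inf → (∀ P, P ≠ C.inf → P ∈ C.U1 → u' P = C.t P * u P) →
    ∃ k, ∀ P, P ≠ C.inf → u P = k
  two : ∀ (u u' : X → ℂ) (k : ℂ), (∀ P, P ≠ C.inf → ContMDiffAt 𝓘(ℂ, ℂ) 𝓘(ℂ, ℂ) ω u P) →
    ContinuousAt u' C.inf →
    (∀ P, P ≠ C.inf → P ∈ C.U1 → u' P = C.t P ^ 2 * (u P - k * (C.y P / C.x P))) → k = 0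

end CD

/-- The data on the base from which the geometry is built. -/
structure BaseData {S : Type} [TopologicalSpace S] [ChartedSpace BB S] {ι : Type} (U : ι → Set S)
    (Γ : ι → ι → S → R3) (θ : ι → S → BB →L[ℂ] R3) : Prop where
  coc : IsCocycle BB U Γ
  con : IsConn U Γ θ
  det : ∀ c d, ∀ p ∈ U c ∩ U d, (Γ c d p).1.det = 1 ∧ (Γ c d p).2.1.det = 1 ∧ (Γ c d p).2.2.det = 1
  tri : ∀ c d, ∀ p ∈ U c ∩ U d, (Γ c d p).1 1 0 = 0 ∧ (Γ c d p).2.1 1 0 = 0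
  trf : ∀ c, ∀ p ∈ U c, ∀ u, TrFree (θ c p u)
  nd : ∀ c, ∀ p ∈ U c, ∀ u, (θ c p u).1 1 0 = 0 → (θ c p u).2.1 1 0 = 0 → u = 0
  cur : ∀ c, ∀ p ∈ U c, ∀ u v, (Curv (θ c) p u v).1 = 0 ∧ (Curv (θ c) p u v).2.1 = 0

end Pool.Agent.Lib.ATQ
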