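import Pool.Agent.Lib.ATQ.FinalB
import Pool.Agent.Lib.ATQ.B_DF
import Pool.Agent.Lib.ATQ.B_EMB
import Pool.Agent.Lib.ATQ.B_EX1
import Pool.Agent.Lib.ATQ.B_EX2
import Pool.Agent.Lib.ATQ.B_FORM
import Pool.Agent.Lib.ATQ.B_FRM
import Pool.Agent.Lib.ATQ.B_GAU
import Pool.Agent.Lib.ATQ.B_GEO1
import Pool.Agent.Lib.ATQ.B_GEO2
import Pool.Agent.Lib.ATQ.B_GEO3
import Pool.Agent.Lib.ATQ.B_GLUE
import Pool.Agent.Lib.ATQ.B_HOM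
import Pool.Agent.Lib.ATQ.B_JAC
import Pool.Agent.Lib.ATQ.B_KOS
import Pool.Agent.Lib.ATQ.B_MF
import Pool.Agent.Lib.ATQ.B_MOD
import Pool.Agent.Lib.ATQ.B_N1
import Pool.Agent.Lib.ATQ.B_NAT
import Pool.Agent.Lib.ATQ.B_NORM
import Pool.Agent.Lib.ATQ.B_PB
import Pool.Agent.Lib.ATQ.B_PBC
import Pool.Agent.Lib.ATQ.B_PBD1
import Pool.Agent.Lib.ATQ.B_PRD
import Pool.Agent.Lib.ATQ.B_RIG1
import Pool.Agent.Lib.ATQ.B_RIG2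
import Pool.Agent.Lib.ATQ.B_RIG3
import Pool.Agent.Lib.ATQ.B_RIG4
import Pool.Agent.Lib.ATQ.B_RW1
import Pool.Agent.Lib.ATQ.B_RW2
import Pool.Agent.Lib.ATQ.B_SLN
import Pool.Agent.Lib.ATQ.B_SUB

/-! Project atq: the normal geometry on a manifold with no flat one. -/

open scoped Manifold ContDiff

namespace Pool.Agent.Lib.ATQ

open Pool.Agent.Lib.MP_ad9325_ag

theorem fin_GAU : St_GAU := st_GAU st_HOL st_DF

theorem final_geometry :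
    ∃ (EG EH : Type) (_ : NormedAddCommGroup EG) (_ : NormedSpace ℂ EG)
      (_ : NormedAddCommGroup EH) (_ : NormedSpace ℂ EH) (_ : ChartedSpace EG G3)
      (H : Subgroup G3) (_ : ChartedSpace EH H)
      (M : Type) (_ : TopologicalSpace M) (_ : ChartedSpace VM M),
      (∀ i j, ContMDiff 𝓘(ℂ, EG) 𝓘(ℂ, ℂ) ω fun g : G3 => g.1.1 i j) ∧
      (∀ i j, ContMDiff 𝓘(ℂ, EG) 𝓘(ℂ, ℂ) ω fun g : G3 => g.2.1.1 i j) ∧
      (∀ i j, ContMDiff 𝓘(ℂ, EG) 𝓘(ℂ, ℂ) ω fun g : G3 => g.2.2.1 i j) ∧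
      (∀ g, g ∈ H ↔ (∀ i, i ≠ 0 → g.1.1 i 0 = 0) ∧ (∀ i, i ≠ 0 → g.2.1.1 i 0 = 0) ∧
        ∀ i, i ≠ 0 → g.2.2.1 i 0 = 0) ∧
      IsModel EG EH H ∧ IsCompactKaehler VM M ∧ HasNormalGeometry EG EH H VM M ∧
      ¬ HasGeometry EG EH H VM M True :=
  main_geometry st_CUR fin_COC (st_EX1 st_HOL st_DF st_NAT fin_ETA fin_COC fin_EX0 fin_EX6) fin_ATI
    st_FSX (st_KM st_KAE) (st_MOD st_SLN st_PRD st_SUB st_JAC) st_MF st_EMB (st_PB st_GLUE)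
    st_PBD1 st_PBC (st_EX2 st_HOL st_DF st_NAT fin_GAU st_JAC st_FRM)
    (st_NORM (st_GEO1 st_GLUE) (st_GEO2 st_HOL fin_GAU)
      (st_GEO3 st_HOL st_DF st_NAT st_FORM fin_GAU))
    (st_N1 st_HOL st_SELF st_NAT st_FORM)
    (st_RW1 (rig_of st_RIG1 (st_RIG2 st_HOM st_KOS) (st_RIG3 st_HOM st_KOS) st_RIG4))
    (st_RW2 st_JAC)

end Pool.Agent.Lib.ATQ
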