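import Pool.Agent.Lib.ATQ.Main
import Pool.Agent.Lib.ATQ.B_ATI
import Pool.Agent.Lib.ATQ.C29
import Pool.Agent.Lib.ATQ.B_CON
import Pool.Agent.Lib.ATQ.B_CUR
import Pool.Agent.Lib.ATQ.B_END
import Pool.Agent.Lib.ATQ.B_ETA
import Pool.Agent.Lib.ATQ.B_EX0
import Pool.Agent.Lib.ATQ.B_EX6
import Pool.Agent.Lib.ATQ.B_FSX
import Pool.Agent.Lib.ATQ.B_FT
import Pool.Agent.Lib.ATQ.B_HOL
import Pool.Agent.Lib.ATQ.B_KAE
import Pool.Agent.Lib.ATQ.B_KM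
import Pool.Agent.Lib.ATQ.B_SELF
import Pool.Agent.Lib.ATQ.B_SLC

/-! Project atq: the bundle with a holomorphic connection and no flat one. -/

open scoped Matrix.Norms.Operator

namespace Pool.Agent.Lib.ATQ

open Pool.Agent.Lib.MP_ad9325_ag

theorem fin_ETA : St_ETA := st_ETA st_HOL

theorem fin_COC : St_COC := coc29

theorem fin_EX0 : St_EX0 := st_EX0 st_HOL fin_ETA fin_COC

theorem fin_EX6 : St_EX6 := st_EX6 st_HOL fin_ETA fin_COC fin_EX0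

theorem fin_ATI : St_ATI := st_ATI st_HOL st_SLC st_END (st_CON st_FT fin_ETA st_SELF) fin_COC

theorem final_bundle :
    ∃ (S : Type) (_ : TopologicalSpace S) (_ : ChartedSpace (ℂ × ℂ) S) (ι : Type) (U : ι → Set S)
      (Γ : ι → ι → S → Matrix (Fin 6) (Fin 6) ℂ),
      IsCompactKaehler (ℂ × ℂ) S ∧ IsCocycle (ℂ × ℂ) U Γ ∧ (∃ A, IsConn (V := ℂ × ℂ) U Γ A) ∧
        ¬ ∃ A, IsConn (V := ℂ × ℂ) U Γ A ∧ ∀ i, ∀ p ∈ U i, ∀ u v, Curv (A i) p u v = 0 :=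
  main_bundle st_CUR fin_COC fin_EX6 fin_ATI st_FSX (st_KM st_KAE)

end Pool.Agent.Lib.ATQ
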