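import Pool.Agent.Lib.ATQ.Tools

/-! Project atq: assembly from the rows. -/

open scoped Manifold ContDiff Topology Matrix.Norms.Operator Matrix
open Set Filter

set_option linter.style.haveILetI false

noncomputable section

namespace Pool.Agent.Lib.ATQ

open Pool.Agent.Lib.MP_ad9325_ag

theorem ss_kaehler (hFSX : St_FSX) (hKM : St_KM) {X : Type} [TopologicalSpace X] [ChartedSpace ℂ X]
    (C : CD X) : IsCompactKaehler BB (SS X) := by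
  haveI := C.mfd
  haveI := C.t2
  haveI := C.cpt
  haveI := C.conn
  haveI : IsManifold 𝓘(ℂ, BB) ω (SS X) := ss_mfd
  exact ⟨inferInstance, inferInstance, inferInstanceAs (T2Space (X × X)),
    inferInstanceAs (CompactSpace (X × X)), inferInstanceAs (ConnectedSpace (X × X)),
    (hKM BB (SS X) (hFSX X C)).1⟩

theorem main_bundle (hCUR : St_CUR) (hCOC : St_COC) (hEX6 : St_EX6) (hATI : St_ATI)
    (hFSX : St_FSX) (hKM : St_KM) :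
    ∃ (S : Type) (_ : TopologicalSpace S) (_ : ChartedSpace (ℂ × ℂ) S) (ι : Type) (U : ι → Set S)
      (Γ : ι → ι → S → Matrix (Fin 6) (Fin 6) ℂ),
      IsCompactKaehler (ℂ × ℂ) S ∧ IsCocycle (ℂ × ℂ) U Γ ∧ (∃ A, IsConn (V := ℂ × ℂ) U Γ A) ∧
        ¬ ∃ A, IsConn (V := ℂ × ℂ) U Γ A ∧ ∀ i, ∀ p ∈ U i, ∀ u v, Curv (A i) p u v = 0 := by
  obtain ⟨X, _, _, ⟨C⟩⟩ := hCUR
  exact ⟨SS X, inferInstance, inferInstance, Bool × Bool, C.UU, C.Γ6, ss_kaehler hFSX hKM C,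
    (hCOC X C).2.1, ⟨C.θ6, hEX6 X C⟩, fun ⟨A, h1, h2⟩ => hATI X C A h1 h2⟩

theorem main_geometry (hCUR : St_CUR) (hCOC : St_COC) (hEX1 : St_EX1) (hATI : St_ATI)
    (hFSX : St_FSX) (hKM : St_KM) (hMOD : St_MOD) (hMF : St_MF) (hEMB : St_EMB) (hPB : St_PB)
    (hPBD1 : St_PBD1) (hPBC : St_PBC) (hEX2 : St_EX2) (hNORM : St_NORM) (hN1 : St_N1)
    (hRW1 : St_RW1) (hRW2 : St_RW2) :
    ∃ (EG EH : Type) (_ : NormedAddCommGroup EG) (_ : NormedSpace ℂ EG)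
      (_ : NormedAddCommGroup EH) (_ : NormedSpace ℂ EH) (_ : ChartedSpace EG G3)
      (H : Subgroup G3) (_ : ChartedSpace EH H)
      (M : Type) (_ : TopologicalSpace M) (_ : ChartedSpace VM M),
      (∀ i j, ContMDiff 𝓘(ℂ, EG) 𝓘(ℂ, ℂ) ω fun g : G3 => g.1.1 i j) ∧
      (∀ i j, ContMDiff 𝓘(ℂ, EG) 𝓘(ℂ, ℂ) ω fun g : G3 => g.2.1.1 i j) ∧
      (∀ i j, ContMDiff 𝓘(ℂ, EG) 𝓘(ℂ, ℂ) ω fun g : G3 => g.2.2.1 i j) ∧
      (∀ g, g ∈ H ↔ (∀ i, i ≠ 0 → g.1.1 i 0 = 0) ∧ (∀ i, i ≠ 0 → g.2.1.1 i 0 = 0) ∧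
        ∀ i, i ≠ 0 → g.2.2.1 i 0 = 0) ∧
      IsModel EG EH H ∧ IsCompactKaehler VM M ∧ HasNormalGeometry EG EH H VM M ∧
      ¬ HasGeometry EG EH H VM M True := by
  obtain ⟨X, _, _, ⟨C⟩⟩ := hCUR
  obtain ⟨EH, _, _, csG, csH, L, hP, hL, hT⟩ := hMOD
  have hS := ss_kaehler hFSX hKM C
  haveI := hS.mfd
  haveI := hS.t2
  haveI := hS.compact
  haveI := hS.conn
  obtain ⟨J, K, hE⟩ := hEMB X C
  obtain ⟨-, hc6, -, -, hdet⟩ := hCOC X C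
  obtain ⟨M, _, _, π, Ψ, σ, hM, hM2, hMc, hD⟩ :=
    hPB BB (SS X) (Bool × Bool) 5 C.UU C.Γ6 _ J K hc6 hE
  have hD1 := hPBD1 BB (SS X) _ 5 C.UU C.Γ6 M π Ψ σ hc6 hD
  obtain ⟨hh, θ', hLoc⟩ := hEX2 (SS X) _ C.UU C.Γ3 C.θ3 (hEX1 X C) M π Ψ σ hD hD1
  refine ⟨EH × VM, EH, inferInstance, inferInstance, inferInstance, inferInstance, csG, H3, csH, M,
    inferInstance, inferInstance, fun i j g => ?_, fun i j g => ?_, fun i j g => ?_,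
    fun g => Iff.rfl, hP.model, ?_, hNORM EH L hP hL hT M _ _ hh θ' hLoc, fun hF => ?_⟩
  · exact cm_ent (((ContinuousLinearMap.fst ℂ (Mt 2) (Mt 2 × Mt 6)).contMDiff (n := ω) _).comp g
      (hP.hval g)) i j
  · exact cm_ent ((((ContinuousLinearMap.fst ℂ (Mt 2) (Mt 6)).comp
      (ContinuousLinearMap.snd ℂ (Mt 2) (Mt 2 × Mt 6))).contMDiff (n := ω) _).comp g
      (hP.hval g)) i j
  · exact cm_ent ((((ContinuousLinearMap.snd ℂ (Mt 2) (Mt 6)).comp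
      (ContinuousLinearMap.snd ℂ (Mt 2) (Mt 2 × Mt 6))).contMDiff (n := ω) _).comp g
      (hP.hval g)) i j
  · exact ⟨inferInstance, hM, hM2, hMc, hPBC BB (SS X) _ 5 C.UU C.Γ6 M π Ψ σ hc6 hD,
      (hKM BB (SS X) (hFSX X C)).2 _ 5 C.UU C.Γ6 _ J K M π Ψ σ hc6 hE hD hD1⟩
  · haveI := hP.model.finH
    haveI := hP.model.lieH
    obtain ⟨m1, m2, m3⟩ := hMF EH L hP hL
    obtain ⟨Hh, Tt, hs⟩ := hN1 EH G3 H3 hP.incl m1 m2 m3 M hF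
    obtain ⟨A, hA⟩ := hRW1 (SS X) _ C.UU C.Γ6 M π Ψ σ Hh Tt hc6 hD hD1 hs
    exact hATI X C A ⟨fun c p hp => (hA c p hp).1,
      hRW2 (SS X) _ C.UU C.Γ6 M π Ψ σ Hh A hc6 (fun c d p hp => (hdet c d p hp).1.2.2) hD
        fun c p hp => (hA c p hp).2.2⟩ fun c p hp => (hA c p hp).2.1

end Pool.Agent.Lib.ATQ
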