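import Pool.Agent.Lib.MP_ad9325_ag.Defs

open scoped Manifold ContDiff

noncomputable section

namespace Pool.Agent.Lib.ATQ

open Pool.Agent.Lib.MP_ad9325_ag

section Normal

variable {EG : Type} [NormedAddCommGroup EG] [NormedSpace ℂ EG]
  (G : Type) [Group G] [TopologicalSpace G] [ChartedSpace EG G]

/-- A minimal nonzero ideal of the Lie algebra of `G`. -/
def IsMinIdeal (a : Submodule ℂ EG) : Prop :=
  a ≠ ⊥ ∧ (∀ X ∈ a, ∀ Y, lie G Y X ∈ a) ∧
    ∀ b : Submodule ℂ EG, b ≤ a → (∀ X ∈ b, ∀ Y, lie G Y X ∈ b) → b = ⊥ ∨ b = a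

variable {EE : Type} [NormedAddCommGroup EE] [NormedSpace ℂ EE]
  {E : Type} [TopologicalSpace E] [ChartedSpace EE E]

/-- `[Z, κ(X, Y)] = 0` whenever `w X` and `Z` lie in one minimal ideal, `κ` the curvature. -/
def IsNormal [IsManifold 𝓘(ℂ, EE) ω E]
    (w : (e : E) → TangentSpace 𝓘(ℂ, EE) e →L[ℂ] EG) : Prop :=
  ∀ (e : E) (X Y : (e : E) → TangentSpace 𝓘(ℂ, EE) e),
    ContMDiffAt 𝓘(ℂ, EE) 𝓘(ℂ, EE).tangent ω
      (fun y => (⟨y, X y⟩ : TangentBundle 𝓘(ℂ, EE) E)) e →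
    ContMDiffAt 𝓘(ℂ, EE) 𝓘(ℂ, EE).tangent ω
      (fun y => (⟨y, Y y⟩ : TangentBundle 𝓘(ℂ, EE) E)) e →
    ∀ a : Submodule ℂ EG, IsMinIdeal G a → w e (X e) ∈ a → ∀ Z ∈ a,
      lie G Z (dForm w X Y e + lie G (w e (X e)) (w e (Y e))) = 0

end Normal

/-- `M` carries a holomorphic `G/H`-geometry whose Cartan connection satisfies `IsNormal`. -/
def HasNormalGeometry (EG EH : Type) [NormedAddCommGroup EG] [NormedSpace ℂ EG]
    [NormedAddCommGroup EH] [NormedSpace ℂ EH]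
    {G : Type} [Group G] [TopologicalSpace G] [ChartedSpace EG G]
    (H : Subgroup G) [ChartedSpace EH H]
    (V : Type) [NormedAddCommGroup V] [NormedSpace ℂ V]
    (M : Type) [TopologicalSpace M] [ChartedSpace V M] : Prop :=
  ∃ (EE : Type) (_ : NormedAddCommGroup EE) (_ : NormedSpace ℂ EE)
    (E : Type) (_ : TopologicalSpace E) (_ : ChartedSpace EE E) (_ : IsManifold 𝓘(ℂ, EE) ω E)
    (π : E → M) (r : E → H → E)
    (w : (e : E) → TangentSpace 𝓘(ℂ, EE) e →L[ℂ] EG),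
    IsPrincipal EH V EE π r ∧ IsCartanForm EH r w ∧ IsNormal G w

section Forms

variable {V : Type} [NormedAddCommGroup V] [NormedSpace ℂ V]
  {N : Type} [TopologicalSpace N] [ChartedSpace V N]
  {F : Type} [NormedAddCommGroup F] [NormedSpace ℂ F]

/-- The coefficient `θ(∂_u)` of a 1-form in the chart at `p`. -/
def formIn (θ : N → V →L[ℂ] F) (p : N) (u : V) (z : V) : F :=
  θ ((chartAt V p).symm z) (mfderiv 𝓘(ℂ, V) 𝓘(ℂ, V) (chartAt V p).symm z u)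

/-- The 1-form `θ` is holomorphic near `p`. -/
def HoloAt (θ : N → V →L[ℂ] F) (p : N) : Prop :=
  ∀ u : V, ContDiffAt ℂ ω (formIn θ p u) (chartAt V p p)

/-- The exterior derivative `dθ(u, v)` at `p`, computed in the chart at `p`. -/
def dF (θ : N → V →L[ℂ] F) (p : N) (u v : V) : F :=
  fderiv ℂ (formIn θ p v) (chartAt V p p) u - fderiv ℂ (formIn θ p u) (chartAt V p p) v

variable {R : Type} [NormedRing R] [NormedAlgebra ℂ R] {ι : Type}

/-- The curvature `dθ + θ ∧ θ`. -/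
def Curv (θ : N → V →L[ℂ] R) (p : N) (u v : V) : R :=
  dF θ p u v + (θ p u * θ p v - θ p v * θ p u)

variable (V) in
/-- Holomorphic transition functions `Γ i j` (from frame `i` to frame `j`) on an open cover. -/
structure IsCocycle (U : ι → Set N) (Γ : ι → ι → N → R) : Prop where
  op : ∀ i, IsOpen (U i)
  cover : ∀ p, ∃ i, p ∈ U i
  holo : ∀ i j, ∀ p ∈ U i ∩ U j, ContMDiffAt 𝓘(ℂ, V) 𝓘(ℂ, R) ω (Γ i j) p
  self : ∀ i, ∀ p ∈ U i, Γ i i p = 1
  comp : ∀ i j k, ∀ p ∈ U i ∩ U j ∩ U k, Γ j k p * Γ i j p = Γ i k p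

/-- A holomorphic connection `d + A i` in frame `i`: `Γ A i = A j Γ + dΓ` on overlaps. -/
structure IsConn (U : ι → Set N) (Γ : ι → ι → N → R) (A : ι → N → V →L[ℂ] R) : Prop where
  holo : ∀ i, ∀ p ∈ U i, HoloAt (A i) p
  gauge : ∀ i j, ∀ p ∈ U i ∩ U j, ∀ u : V,
    Γ i j p * A i p u = A j p u * Γ i j p + mvfderiv 𝓘(ℂ, V) (Γ i j) p u

end Forms

end Pool.Agent.Lib.ATQ
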