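import Pool.Agent.Lib.ATQ.Blue

/-! Project atq: small tools. -/

open scoped Manifold ContDiff Topology Matrix.Norms.Operator Matrix
open Set Filter

set_option linter.unusedSectionVars false

noncomputable section

namespace Pool.Agent.Lib.ATQ

open Pool.Agent.Lib.MP_ad9325_ag

section Calc

variable {E : Type} [NormedAddCommGroup E] [NormedSpace ℂ E] {H : Type} [TopologicalSpace H]
  {I : ModelWithCorners ℂ E H} {N : Type} [TopologicalSpace N] [ChartedSpace H N] {p : N}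
  {F₁ : Type} [NormedAddCommGroup F₁] [NormedSpace ℂ F₁]
  {F₂ : Type} [NormedAddCommGroup F₂] [NormedSpace ℂ F₂]
  {F₃ : Type} [NormedAddCommGroup F₃] [NormedSpace ℂ F₃]

theorem md {E' : Type} [NormedAddCommGroup E'] [NormedSpace ℂ E'] {H' : Type} [TopologicalSpace H']
    {J : ModelWithCorners ℂ E' H'} {N' : Type} [TopologicalSpace N'] [ChartedSpace H' N']
    {f : N → N'} (h : ContMDiffAt I J ω f p) : MDifferentiableAt I J f p :=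
  h.mdifferentiableAt (by simp)

/-- The chain rule with an outer map between vector spaces. -/
theorem D_fcomp {g : F₁ → F₂} {g' : F₁ →L[ℂ] F₂} {f : N → F₁}
    (hf : MDifferentiableAt I 𝓘(ℂ, F₁) f p) (hg : HasFDerivAt g g' (f p)) (u : E) :
    D I 𝓘(ℂ, F₂) (fun q => g (f q)) p u = g' (D I 𝓘(ℂ, F₁) f p u) := by
  rw [D_comp hg.differentiableAt.mdifferentiableAt hf, D_eq_fderiv, hg.fderiv]
  rfl

theorem D_pair {f : N → F₁} {g : N → F₂} (hf : MDifferentiableAt I 𝓘(ℂ, F₁) f p)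
    (hg : MDifferentiableAt I 𝓘(ℂ, F₂) g p) (u : E) :
    D I 𝓘(ℂ, F₁ × F₂) (fun q => (f q, g q)) p u = (D I 𝓘(ℂ, F₁) f p u, D I 𝓘(ℂ, F₂) g p u) := by
  have h := hf.prodMk_space hg
  refine Prod.ext ?_ ?_
  · exact (congrArg (fun L : E →L[ℂ] F₁ => L u) (D_clm_comp (ContinuousLinearMap.fst ℂ F₁ F₂) h)).symm
  · exact (congrArg (fun L : E →L[ℂ] F₂ => L u) (D_clm_comp (ContinuousLinearMap.snd ℂ F₁ F₂) h)).symm

theorem cm_bil (B : F₁ →L[ℂ] F₂ →L[ℂ] F₃) {f : N → F₁} {g : N → F₂}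
    (hf : ContMDiffAt I 𝓘(ℂ, F₁) ω f p) (hg : ContMDiffAt I 𝓘(ℂ, F₂) ω g p) :
    ContMDiffAt I 𝓘(ℂ, F₃) ω (fun q => B (f q) (g q)) p :=
  (B.isBoundedBilinearMap.contDiff.contMDiff _).comp p (hf.prodMk_space hg)

theorem D_bil (B : F₁ →L[ℂ] F₂ →L[ℂ] F₃) {f : N → F₁} {g : N → F₂}
    (hf : MDifferentiableAt I 𝓘(ℂ, F₁) f p) (hg : MDifferentiableAt I 𝓘(ℂ, F₂) g p) (u : E) :
    D I 𝓘(ℂ, F₃) (fun q => B (f q) (g q)) p u =
      B (D I 𝓘(ℂ, F₁) f p u) (g p) + B (f p) (D I 𝓘(ℂ, F₂) g p u) := by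
  have h := D_fcomp (g := fun z : F₁ × F₂ => B z.1 z.2) (hf.prodMk_space hg)
    (B.isBoundedBilinearMap.hasFDerivAt (f p, g p)) u
  rw [D_pair hf hg] at h
  refine h.trans ?_
  simp [add_comm]

theorem D_add {f g : N → F₁} (hf : MDifferentiableAt I 𝓘(ℂ, F₁) f p)
    (hg : MDifferentiableAt I 𝓘(ℂ, F₁) g p) (u : E) :
    D I 𝓘(ℂ, F₁) (fun q => f q + g q) p u = D I 𝓘(ℂ, F₁) f p u + D I 𝓘(ℂ, F₁) g p u :=
  congrArg (fun L : E →L[ℂ] F₁ => L u) (hf.hasMFDerivAt.add hg.hasMFDerivAt).mfderiv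

theorem D_sub {f g : N → F₁} (hf : MDifferentiableAt I 𝓘(ℂ, F₁) f p)
    (hg : MDifferentiableAt I 𝓘(ℂ, F₁) g p) (u : E) :
    D I 𝓘(ℂ, F₁) (fun q => f q - g q) p u = D I 𝓘(ℂ, F₁) f p u - D I 𝓘(ℂ, F₁) g p u :=
  congrArg (fun L : E →L[ℂ] F₁ => L u) (hf.hasMFDerivAt.sub hg.hasMFDerivAt).mfderiv

theorem D_smul {f : N → ℂ} {g : N → F₁} (hf : MDifferentiableAt I 𝓘(ℂ, ℂ) f p)
    (hg : MDifferentiableAt I 𝓘(ℂ, F₁) g p) (u : E) :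
    D I 𝓘(ℂ, F₁) (fun q => f q • g q) p u =
      D I 𝓘(ℂ, ℂ) f p u • g p + f p • D I 𝓘(ℂ, F₁) g p u :=
  D_bil (ContinuousLinearMap.lsmul ℂ ℂ) hf hg u

/-- The chain rule with an outer function of one variable. -/
theorem D_dcomp {g : ℂ → ℂ} {g' : ℂ} {f : N → ℂ} (hf : MDifferentiableAt I 𝓘(ℂ, ℂ) f p)
    (hg : HasDerivAt g g' (f p)) (u : E) :
    D I 𝓘(ℂ, ℂ) (fun q => g (f q)) p u = g' * D I 𝓘(ℂ, ℂ) f p u := by
  rw [D_fcomp hf hg.hasFDerivAt]; simp [mul_comm]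

variable {R : Type} [NormedRing R] [NormedAlgebra ℂ R]

theorem cm_mul {f g : N → R} (hf : ContMDiffAt I 𝓘(ℂ, R) ω f p)
    (hg : ContMDiffAt I 𝓘(ℂ, R) ω g p) : ContMDiffAt I 𝓘(ℂ, R) ω (fun q => f q * g q) p :=
  cm_bil (ContinuousLinearMap.mul ℂ R) hf hg

theorem D_mul {f g : N → R} (hf : MDifferentiableAt I 𝓘(ℂ, R) f p)
    (hg : MDifferentiableAt I 𝓘(ℂ, R) g p) (u : E) :
    D I 𝓘(ℂ, R) (fun q => f q * g q) p u = D I 𝓘(ℂ, R) f p u * g p + f p * D I 𝓘(ℂ, R) g p u :=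
  D_bil (ContinuousLinearMap.mul ℂ R) hf hg u

theorem cm_inv {f : N → ℂ} (hf : ContMDiffAt I 𝓘(ℂ, ℂ) ω f p) (h : f p ≠ 0) :
    ContMDiffAt I 𝓘(ℂ, ℂ) ω (fun q => (f q)⁻¹) p :=
  (contDiffAt_inv ℂ h).contMDiffAt.comp p hf

theorem cm_div {f g : N → ℂ} (hf : ContMDiffAt I 𝓘(ℂ, ℂ) ω f p)
    (hg : ContMDiffAt I 𝓘(ℂ, ℂ) ω g p) (h : g p ≠ 0) :
    ContMDiffAt I 𝓘(ℂ, ℂ) ω (fun q => f q / g q) p := by
  simpa [div_eq_mul_inv] using cm_mul hf (cm_inv hg h)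

theorem cm_pow {f : N → ℂ} (hf : ContMDiffAt I 𝓘(ℂ, ℂ) ω f p) (k : ℕ) :
    ContMDiffAt I 𝓘(ℂ, ℂ) ω (fun q => f q ^ k) p :=
  (contDiff_id.pow k).contDiffAt.contMDiffAt.comp p hf

/-- A holomorphic function of two holomorphic functions. -/
theorem cm_two {g : ℂ × ℂ → F₁} {f₁ f₂ : N → ℂ} (h₁ : ContMDiffAt I 𝓘(ℂ, ℂ) ω f₁ p)
    (h₂ : ContMDiffAt I 𝓘(ℂ, ℂ) ω f₂ p) (hg : ContDiffAt ℂ ω g (f₁ p, f₂ p)) :
    ContMDiffAt I 𝓘(ℂ, F₁) ω (fun q => g (f₁ q, f₂ q)) p :=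
  hg.contMDiffAt.comp p (h₁.prodMk_space h₂)

variable {m n : Type} [Fintype m] [Fintype n]

theorem cm_ent {f : N → Matrix m n ℂ} (h : ContMDiffAt I 𝓘(ℂ, Matrix m n ℂ) ω f p) (i : m) (j : n) :
    ContMDiffAt I 𝓘(ℂ, ℂ) ω (fun q => f q i j) p :=
  ((en i j).contMDiff (n := ω) _).comp p h

theorem cm_mat {f : N → Matrix m n ℂ} (h : ∀ i j, ContMDiffAt I 𝓘(ℂ, ℂ) ω (fun q => f q i j) p) :
    ContMDiffAt I 𝓘(ℂ, Matrix m n ℂ) ω f p := by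
  classical
  have e : f = fun z => ∑ i, ∑ j, f z i j • (Matrix.single i j (1 : ℂ) : Matrix m n ℂ) := by
    funext z
    conv_lhs => rw [Matrix.matrix_eq_sum_single (f z)]
    simp [Matrix.smul_single]
  rw [e]
  exact ContMDiffAt.sum fun i _ => ContMDiffAt.sum fun j _ => (h i j).smul contMDiffAt_const

theorem D_ent {f : N → Matrix m n ℂ} (h : MDifferentiableAt I 𝓘(ℂ, Matrix m n ℂ) f p) (u : E)
    (i : m) (j : n) :
    D I 𝓘(ℂ, Matrix m n ℂ) f p u i j = D I 𝓘(ℂ, ℂ) (fun q => f q i j) p u :=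
  (congrArg (fun L : E →L[ℂ] ℂ => L u) (D_clm_comp (en i j) h)).symm

theorem cd_mat {f : E → Matrix m n ℂ} {z : E} (h : ∀ i j, ContDiffAt ℂ ω (fun q => f q i j) z) :
    ContDiffAt ℂ ω f z :=
  contMDiffAt_iff_contDiffAt.1 (cm_mat fun i j => (h i j).contMDiffAt)

/-- The action of matrices on vectors as a continuous bilinear map. -/
def mv (m n : Type) [Fintype m] [Fintype n] : Matrix m n ℂ →L[ℂ] (n → ℂ) →L[ℂ] (m → ℂ) :=
  LinearMap.toContinuousLinearMap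
    { toFun := fun A => LinearMap.toContinuousLinearMap (Matrix.mulVecLin A)
      map_add' := fun A B => by ext1 v; simp
      map_smul' := fun c A => by ext1 v; simp }

@[simp] theorem mv_apply (A : Matrix m n ℂ) (v : n → ℂ) : mv m n A v = A *ᵥ v := rfl

end Calc

/-- A matrix for which every vector is an eigenvector is scalar. -/
theorem scalar_of_eig {k : ℕ} {A : Mt k} (h : ∀ v, v ≠ 0 → ∃ c : ℂ, A *ᵥ v = c • v) :
    ∃ c : ℂ, A = c • (1 : Mt k) := by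
  have h1 : ∀ v, ¬ LinearIndependent ℂ ![v, Matrix.toLin' A v] := by
    intro v hv
    have h0 : v ≠ 0 := hv.ne_zero 0
    obtain ⟨c, hc⟩ := h v h0
    have := (LinearIndependent.pair_iff.1 hv) c (-1) (by simp [hc])
    simp at this
  obtain ⟨c, hc⟩ := LinearMap.exists_eq_smul_id_of_forall_notLinearIndependent h1
  refine ⟨c, Matrix.toLin'.injective ?_⟩
  rw [hc, map_smul, Matrix.toLin'_one]
  rfl

theorem zero_of_eig {k : ℕ} {A : Mt (k + 1)} (h : ∀ v, v ≠ 0 → ∃ c : ℂ, A *ᵥ v = c • v)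
    (ht : A.trace = 0) : A = 0 := by
  obtain ⟨c, rfl⟩ := scalar_of_eig h
  rw [Matrix.trace_smul, Matrix.trace_one, smul_eq_mul, mul_eq_zero] at ht
  rcases ht with ht | ht
  · rw [ht, zero_smul]
  · exact absurd ht (Nat.cast_ne_zero.2 Fintype.card_ne_zero)

theorem cj_mul (A B : Mt 6) : cj (A * B) = cj A * cj B := (Matrix.submatrix_mul_equiv A B _ sw _).symm

theorem cj_one : cj 1 = 1 := Matrix.submatrix_one_equiv sw

theorem cj_cj (A : Mt 6) : cj (cj A) = A := by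
  ext i j; fin_cases i <;> fin_cases j <;> rfl

@[simp] theorem cjL_apply (A : Mt 6) : cjL A = cj A := rfl

@[simp] theorem blkL_apply (A : Mt 6) : blkL A = blk A := rfl

section Square

variable {X : Type} [TopologicalSpace X] [ChartedSpace ℂ X]

@[simp] theorem SS.mk_fst {Y : Type} (P Q : Y) : (SS.mk P Q).1 = P := rfl
@[simp] theorem SS.mk_snd {Y : Type} (P Q : Y) : (SS.mk P Q).2 = Q := rfl
@[simp] theorem SS.eta {Y : Type} (p : SS Y) : SS.mk p.1 p.2 = p := rfl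

theorem ss_mfd [IsManifold 𝓘(ℂ, ℂ) ω X] : IsManifold 𝓘(ℂ, BB) ω (SS X) := by
  have h : IsManifold (𝓘(ℂ, ℂ).prod 𝓘(ℂ, ℂ)) ω (X × X) := inferInstance
  rw [← modelWithCornersSelf_prod] at h
  exact h

theorem ss_fst : ContMDiff 𝓘(ℂ, BB) 𝓘(ℂ, ℂ) ω (fun p : SS X => p.1) := by
  have h : ContMDiff (𝓘(ℂ, ℂ).prod 𝓘(ℂ, ℂ)) 𝓘(ℂ, ℂ) ω (Prod.fst : X × X → X) := contMDiff_fst
  rw [← modelWithCornersSelf_prod] at h
  exact h

theorem ss_snd : ContMDiff 𝓘(ℂ, BB) 𝓘(ℂ, ℂ) ω (fun p : SS X => p.2) := by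
  have h : ContMDiff (𝓘(ℂ, ℂ).prod 𝓘(ℂ, ℂ)) 𝓘(ℂ, ℂ) ω (Prod.snd : X × X → X) := contMDiff_snd
  rw [← modelWithCornersSelf_prod] at h
  exact h

theorem D_ss_fst (p : SS X) :
    D 𝓘(ℂ, BB) 𝓘(ℂ, ℂ) (fun p : SS X => p.1) p = ContinuousLinearMap.fst ℂ ℂ ℂ := by
  have h := D_fst (I := 𝓘(ℂ, ℂ)) (J := 𝓘(ℂ, ℂ)) (M₁ := X) (M₂ := X) (x := p)
  rw [← modelWithCornersSelf_prod] at h
  exact h

theorem D_ss_snd (p : SS X) :
    D 𝓘(ℂ, BB) 𝓘(ℂ, ℂ) (fun p : SS X => p.2) p = ContinuousLinearMap.snd ℂ ℂ ℂ := by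
  have h := D_snd (I := 𝓘(ℂ, ℂ)) (J := 𝓘(ℂ, ℂ)) (M₁ := X) (M₂ := X) (x := p)
  rw [← modelWithCornersSelf_prod] at h
  exact h

variable {E : Type} [NormedAddCommGroup E] [NormedSpace ℂ E] {H : Type} [TopologicalSpace H]
  {I : ModelWithCorners ℂ E H} {N : Type} [TopologicalSpace N] [ChartedSpace H N] {p : N}

theorem cm_mk {f g : N → X} (hf : ContMDiffAt I 𝓘(ℂ, ℂ) ω f p) (hg : ContMDiffAt I 𝓘(ℂ, ℂ) ω g p) :
    ContMDiffAt I 𝓘(ℂ, BB) ω (fun q => SS.mk (f q) (g q)) p := by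
  have h := hf.prodMk hg
  rw [← modelWithCornersSelf_prod] at h
  exact h

theorem D_mk {f g : N → X} (hf : MDifferentiableAt I 𝓘(ℂ, ℂ) f p)
    (hg : MDifferentiableAt I 𝓘(ℂ, ℂ) g p) (u : E) :
    D I 𝓘(ℂ, BB) (fun q => SS.mk (f q) (g q)) p u = (D I 𝓘(ℂ, ℂ) f p u, D I 𝓘(ℂ, ℂ) g p u) := by
  have h := D_prodMk hf hg
  rw [← modelWithCornersSelf_prod] at h
  exact congrArg (fun L : E →L[ℂ] ℂ × ℂ => L u) h

end Square

example : CompleteSpace (Mt 6) := inferInstance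
example : CompleteSpace R3 := inferInstance
example : FiniteDimensional ℂ R3 := inferInstance
example {N : Type} [TopologicalSpace N] [ChartedSpace BB N] (f g : N → Mt 6) (p : N)
    (hf : ContMDiffAt 𝓘(ℂ, BB) 𝓘(ℂ, Mt 6) ω f p) (hg : ContMDiffAt 𝓘(ℂ, BB) 𝓘(ℂ, Mt 6) ω g p) (u : BB) :
    D 𝓘(ℂ, BB) 𝓘(ℂ, Mt 6) (fun q => f q * g q) p u 0 0 = (D 𝓘(ℂ, BB) 𝓘(ℂ, Mt 6) f p u * g p +
      f p * D 𝓘(ℂ, BB) 𝓘(ℂ, Mt 6) g p u) 0 0 := by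
  rw [D_mul (md hf) (md hg)]

end Pool.Agent.Lib.ATQ
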